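import Pool.Agent.MP_154433_an.t4s.Basic
import Pool.Agent.MP_154433_an.t4.Spec

/-! Two commuting maps from uniform twisted averages (note 154433_L2_h60): definitions and
statements of the rows. -/

set_option autoImplicit false
set_option linter.unusedVariables false
set_option warn.classDefReducibility false

open MeasureTheory ProbabilityTheory Filter Topology Function
open scoped BigOperators ComplexConjugate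

noncomputable section

namespace T6

open Pool.Agent.MP_154433_an hiding BM
open T3S (B1 MB1 PW AsInv Erg Bd Near Gr yw dif CZ)
open T4S (Gm Act ddX QX ln Spr Concl)
open Fib27 (BM)
open T3x (nul pull gen)
open T4x (Fac Emb Inv Nice Pair Star KK Fd)

def rr : Fin 2 → Gm 2 := fun i => Pi.single i 1

/-- the plane lattice with its four directions -/
@[reducible] instance G2 : T4x.Grp := { Γ := Gm 2, 𝒰 := T4S.UU rr }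

abbrev Sy : Type 1 := @T4x.Sys G2

abbrev _root_.T4x.Sys.A (X : Sy) : Gm 2 → X.X → X.X := X.Tz

lemma act (X : Sy) : Act X.μ X.A := ⟨X.mp, X.zero, X.add⟩

/-- measurable and bounded by one -/
abbrev MB (X : Sy) (f : X.X → ℂ) : Prop := @MB1 X.X X.ms f

def ee (t : ℝ) : ℂ := Complex.exp (((2 * Real.pi * t : ℝ) : ℂ) * Complex.I)

/-! ### boxes along lines -/

section Box

variable (X : Sy)

def blk {k : ℕ} (u : Fin k → Gm 2) (H : ℕ) (β : Fin k → (Fin k → ℤ) → X.X → ℂ) (x : X.X) : ℂ :=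
  𝔼 h : Fin k → Fin H, 𝔼 h' : Fin k → Fin H,
    ∏ i, β i (update (dif h h') i 0) (X.A (dif h h' i • u i) x)

def CX (L : List (Gm 2)) (H0 : ℕ) : Set (X.X → ℂ) :=
  convexHull ℝ {v | ∃ (H : ℕ) (β : Fin L.length → (Fin L.length → ℤ) → X.X → ℂ), H0 ≤ H ∧
    (∀ i τ, MB X (β i τ)) ∧ v = blk X L.get H β}

def DD (L : List (Gm 2)) : Set (X.X → ℂ) :=
  {D | MB X D ∧ ∀ (H0 : ℕ) (ε : ℝ), 0 < ε → ∃ v ∈ CX X L H0, ∫ x, ‖D x - v x‖ ∂X.μ ≤ ε}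

def ZL (L : List (Gm 2)) : MeasurableSpace X.X := gen (DD X L) id ⊔ nul X.μ

def InZ (L : List (Gm 2)) (F : X.X → ℂ) : Prop := MB X F ∧ BM X.μ (ZL X L) F

/-- the box functional with one length for each direction -/
def QL (L : List (Gm 2 × ℕ)) (g : X.X → ℂ) : ℝ := QX X.μ X.A (L.map fun p => ln p.1 p.2) g

/-- the box functional with equal lengths -/
def QE (L : List (Gm 2)) (H : ℕ) (g : X.X → ℂ) : ℝ := QX X.μ X.A (L.map fun u => ln u H) g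

def Nul (L : List (Gm 2)) (g : X.X → ℂ) : Prop :=
  ∀ ε : ℝ, 0 < ε → ∃ H, 1 ≤ H ∧ QE X L H g ≤ ε

/-- uniform approximation of a family by multiples of dual functions -/
def UA (L : List (Gm 2)) (𝓕 : Set (X.X → ℂ)) : Prop := (∀ F ∈ 𝓕, MB X F) ∧
  ∀ ε : ℝ, 0 < ε → ∃ K : ℝ, 0 ≤ K ∧ ∀ F ∈ 𝓕, ∃ D ∈ DD X L, ∫ x, ‖F x - K * D x‖ ∂X.μ ≤ ε

/-- derivatives of order `k` of shifts -/
def Der (F : X.X → ℂ) : ℕ → Set (X.X → ℂ)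
  | 0 => {G | ∃ v, G = fun x => F (X.A v x)}
  | k + 1 => {G | ∃ v, ∃ G' ∈ Der F k, G = ddX X.A v G'}

/-- the mean of a functional over iterated derivatives of a pair -/
def EL (H : ℕ) : List (Gm 2) → ((X.X → ℂ) → (X.X → ℂ) → ℝ) → (X.X → ℂ) → (X.X → ℂ) → ℝ
  | [], Φ, f, g => Φ f g
  | u :: L, Φ, f, g => 𝔼 h : Fin H, 𝔼 h' : Fin H,
      EL H L Φ (ddX X.A ((((h' : ℕ) : ℤ) - ((h : ℕ) : ℤ)) • u) f)
        (ddX X.A ((((h' : ℕ) : ℤ) - ((h : ℕ) : ℤ)) • u) g)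

/-- the norm of the weighted double average -/
def NN (a b : Gm 2) (κ : ℕ → ℝ) (M : ℕ) (f g : X.X → ℂ) : ℝ :=
  ∫ x, ‖∑ d ∈ Finset.range M,
    (κ d : ℂ) * (f (X.A ((d : ℤ) • a) x) * g (X.A ((d : ℤ) • b) x))‖ ∂X.μ

def Vn (a b : Gm 2) (w : ℕ → ℕ → ℝ) (f g : X.X → ℂ) : Prop :=
  Tendsto (fun M => NN X a b (w M) M f g) atTop (𝓝 0)

/-- `g` is good in the second slot against everything -/
def Gd (a b : Gm 2) (w : ℕ → ℕ → ℝ) (g : X.X → ℂ) : Prop := ∀ f, MB X f → Vn X a b w f g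

/-- almost invariant in the direction `u` -/
def IvF (u : Gm 2) (c : X.X → ℂ) : Prop := MB X c ∧ (fun x => c (X.A u x)) =ᵐ[X.μ] c

/-- `G'` is a version of the conditional expectation -/
def Ver (Y : MeasurableSpace X.X) (G G' : X.X → ℂ) : Prop := MB X G' ∧ G' =ᵐ[X.μ] X.μ[G | Y]

end Box

/-! ### calculus -/

structure VB : Prop where
  swap : ∀ X a b κ M f g, NN X a b κ M f g = NN X b a κ M g f
  nonneg : ∀ X a b κ M f g, 0 ≤ NN X a b κ M f g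
  congr : ∀ X a b κ M f f' g g', f =ᵐ[X.μ] f' → g =ᵐ[X.μ] g' →
    NN X a b κ M f g = NN X a b κ M f' g'
  sub : ∀ X a b (κ κ' : ℕ → ℝ) M f g, MB X f → MB X g →
    NN X a b (fun d => κ d - κ' d) M f g ≤ NN X a b κ M f g + NN X a b κ' M f g
  tri : ∀ X a b (κ κ' : ℕ → ℝ) M f g, MB X f → MB X g →
    NN X a b κ M f g ≤ NN X a b κ' M f g + NN X a b (fun d => κ d - κ' d) M f g
  lip : ∀ X a b (κ : ℕ → ℝ) M f g g', MB X f → Integrable g X.μ → Integrable g' X.μ →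
    NN X a b κ M f g ≤ NN X a b κ M f g' +
      (∑ d ∈ Finset.range M, |κ d|) * ∫ x, ‖g x - g' x‖ ∂X.μ
  smul : ∀ X a b κ M f g (c : ℂ), NN X a b κ M f (fun x => c * g x) = ‖c‖ * NN X a b κ M f g
  add : ∀ X a b κ M f g g', MB X f → Integrable g X.μ → Integrable g' X.μ →
    NN X a b κ M f (fun x => g x + g' x) ≤ NN X a b κ M f g + NN X a b κ M f g'
  move : ∀ X a b κ M f g c, IvF X (b - a) c →
    NN X a b κ M f (fun x => c x * g x) = NN X a b κ M (fun x => f x * c x) g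
  span : ∀ X a b w f g (T : Set (X.X → ℂ)), Bd w → MB X f → Integrable g X.μ →
    (∀ φ ∈ T, Integrable φ X.μ ∧ Vn X a b w f φ) →
    (∀ ε : ℝ, 0 < ε → ∃ φ ∈ Submodule.span ℂ T, ∫ x, ‖g x - φ x‖ ∂X.μ ≤ ε) → Vn X a b w f g
  near : ∀ X a b w w' f g, Near w w' → MB X f → MB X g → Vn X a b w' f g → Vn X a b w f g
  /-- split the second function along a conditional expectation -/
  split : ∀ X a b w f g g' (β : X.X → ℂ), MB X f → MB X g → MB X g' → MB X β →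
    Vn X a b w f (fun x => g' x * β x) →
    Vn X a b w f (fun x => (2⁻¹ : ℂ) * (g x - g' x) * β x) → Vn X a b w f fun x => g x * β x
  ver : ∀ (X : Sy) Y G, Fac X Y → MB X G → ∃ G', Ver X Y G G' ∧ Measurable[Y] G'
  half : ∀ (X : Sy) Y G G', Fac X Y → MB X G → Ver X Y G G' →
    MB X (fun x => (2⁻¹ : ℂ) * (G x - G' x)) ∧
      X.μ[fun x => (2⁻¹ : ℂ) * (G x - G' x) | Y] =ᵐ[X.μ] 0
  /-- a factor is below another one if its bounded functions are measurable there -/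
  fle : ∀ (X : Sy) Y Y', Fac X Y → Fac X Y' → (∀ c, MB X c → Measurable[Y] c → BM X.μ Y' c) → Y ≤ Y'
  ivf : ∀ (X : Sy) u c, MB X c → (IvF X u c ↔ BM X.μ (Inv X {u}) c)
  ivz : ∀ (X : Sy) u c (n : ℤ), IvF X u c → IvF X (n • u) c

structure QB : Prop where
  congr : ∀ X L H g g', g =ᵐ[X.μ] g' → QE X L H g = QE X L H g'
  perm : ∀ X (L L' : List (Gm 2)) H g, L.Perm L' → QE X L H g = QE X L' H g
  neg : ∀ X u L H g, QE X (-u :: L) H g = QE X (u :: L) H g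
  nonneg : ∀ X L H g, L ≠ [] → MB X g → 0 ≤ QE X L H g
  le1 : ∀ X L H g, MB X g → QE X L H g ≤ 1
  tz : ∀ X L H g v, MB X g → QE X L H (fun x => g (X.A v x)) = QE X L H g
  cj : ∀ X L H g, QE X L H (fun x => conj (g x)) = QE X L H g
  app1 : ∀ X L L' H f g, QE X (L ++ L') H f = EL X H L (fun f' _ => QE X L' H f') f g
  app2 : ∀ X L L' H f g, QE X (L ++ L') H g = EL X H L (fun _ g' => QE X L' H g') f g
  mono : ∀ X u L H g, 1 ≤ H → MB X g → QE X L H g ^ 2 ≤ QE X (u :: L) H g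
  elc : ∀ X (Φ : ℕ → (X.X → ℂ) → (X.X → ℂ) → ℝ) (Ψ : (X.X → ℂ) → (X.X → ℂ) → ℝ) F (ε K : ℝ) H
    (L : List (Gm 2)), 1 ≤ H → MB X F →
    (∀ f g, MB X f → g ∈ Der X F L.length → ∀ᶠ M in atTop, Φ M f g ≤ ε + K * Ψ f g) →
    ∀ f, MB X f → ∀ᶠ M in atTop, EL X H L (Φ M) f F ≤ ε + K * EL X H L Ψ f F
  der : ∀ X F k G, MB X F → G ∈ Der X F k → MB X G ∧ ∀ v, (fun x => G (X.A v x)) ∈ Der X F k
  pw : ∀ (n : ℕ) (ε : ℝ), 0 < ε → ∃ K : ℝ, 0 ≤ K ∧ ∀ x y : ℝ, 0 ≤ y → x ^ 2 ^ n ≤ y → x ≤ ε + K * y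

/-- long boxes are below boxes of given lengths -/
def ScaleS : Prop := ∀ (X : Sy) (L : List (Gm 2 × ℕ)) (g : X.X → ℂ), MB X g →
  (∀ p ∈ L, 1 ≤ p.2) → ∀ ε : ℝ, 0 < ε → ∀ᶠ H in atTop, QE X (L.map Prod.fst) H g ≤ QL X L g + ε

structure DA : Prop where
  cx : ∀ X L H0 v, v ∈ CX X L H0 → MB X v
  anti : ∀ X L H0 H1, H0 ≤ H1 → CX X L H1 ⊆ CX X L H0
  one : ∀ X L, (fun _ => (1 : ℂ)) ∈ DD X L
  smul : ∀ X L D (c : ℂ), L ≠ [] → ‖c‖ ≤ 1 → D ∈ DD X L → (fun x => c * D x) ∈ DD X L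
  cvx : ∀ X L, Convex ℝ (DD X L)
  cj : ∀ X L D, D ∈ DD X L → (fun x => conj (D x)) ∈ DD X L
  tz : ∀ X L D v, D ∈ DD X L → (fun x => D (X.A v x)) ∈ DD X L
  inv : ∀ X u L c, IvF X u c → c ∈ DD X (u :: L)
  pb : ∀ (X' X : Sy) p L D, Emb X' X p → D ∈ DD X L → (fun x => D (p x)) ∈ DD X' L
  orb : ∀ X (L : List (Gm 2)) b H0 v x, (∀ i, L.get i = b) → v ∈ CX X L H0 →
    (fun n : ℤ => v (X.A (n • b) x)) ∈ CZ (fun _ : Fin L.length => (1 : ℤ)) H0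

def DM : Prop := ∀ X L D D', D ∈ DD X L → D' ∈ DD X L → (fun x => D x * D' x) ∈ DD X L

structure ZF : Prop where
  fac : ∀ X L, Fac X (ZL X L)
  dd : ∀ X L D, D ∈ DD X L → InZ X L D
  one : ∀ X L, InZ X L fun _ => 1
  mul : ∀ X L F G, InZ X L F → InZ X L G → InZ X L fun x => F x * G x
  cj : ∀ X L F, InZ X L F → InZ X L fun x => conj (F x)
  tz : ∀ X L F v, InZ X L F → InZ X L fun x => F (X.A v x)
  inv : ∀ X u L c, IvF X u c → InZ X (u :: L) c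
  pb : ∀ (X' X : Sy) p L F, Emb X' X p → InZ X L F → InZ X' L fun x => F (p x)
  perp : ∀ X L g, MB X g → (∀ D ∈ DD X L, ∫ x, g x * D x ∂X.μ = 0) → X.μ[g | ZL X L] =ᵐ[X.μ] 0
  ua : ∀ X L F k, L ≠ [] → InZ X L F → UA X L (Der X F k)

/-- the Cauchy-Schwarz bound for one block -/
def GcsB : Prop := ∀ (X : Sy) (L : List (Gm 2)) (H : ℕ) (Ψ : X.X → ℂ)
  (β : Fin L.length → (Fin L.length → ℤ) → X.X → ℂ), L ≠ [] → 1 ≤ H → MB X Ψ →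
  (∀ i τ, MB X (β i τ)) →
  ‖∫ x, Ψ x * blk X L.get H β x ∂X.μ‖ ^ 2 ^ L.length ≤ QE X L H Ψ

/-- the Cauchy-Schwarz bound for dual functions, at every length -/
def GcsD : Prop := ∀ (X : Sy) (L : List (Gm 2)) (H : ℕ) (Ψ D : X.X → ℂ), L ≠ [] → 1 ≤ H →
  MB X Ψ → D ∈ DD X L → ‖∫ x, Ψ x * D x ∂X.μ‖ ^ 2 ^ L.length ≤ QE X L H Ψ

def LinkS : Prop := ∀ (X : Sy) (Y : MeasurableSpace X.X) (L : List (Gm 2)) (H : ℕ) (g : X.X → ℂ),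
  Fac X Y → MB X g → Measurable[Y] g →
  ∃ β : Fin L.length → (Fin L.length → ℤ) → X.X → ℂ, (∀ i τ, MB X (β i τ) ∧ Measurable[Y] (β i τ)) ∧
    QE X L H g = (∫ x, g x * blk X L.get H β x ∂X.μ).re

def ZeroS : Prop := ∀ (X : Sy) (L : List (Gm 2)) (g : X.X → ℂ), MB X g →
  (∀ D ∈ DD X L, ∫ x, g x * D x ∂X.μ = 0) → Nul X L g

def MonoS : Prop := ∀ (X : Sy) (Y : MeasurableSpace X.X) (L : List (Gm 2)) (H : ℕ)
  (G G' : X.X → ℂ), Fac X Y → L ≠ [] → 1 ≤ H → MB X G → Ver X Y G G' →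
  QE X L H G' ^ 2 ^ L.length ≤ QE X L H G

structure NB : Prop where
  iff : ∀ X L g, L ≠ [] → MB X g → (Nul X L g ↔ X.μ[g | ZL X L] =ᵐ[X.μ] 0)
  perm : ∀ X (L L' : List (Gm 2)) g, L.Perm L' → Nul X L g → Nul X L' g
  neg : ∀ X L1 u L2 g, Nul X (L1 ++ u :: L2) g → Nul X (L1 ++ -u :: L2) g
  drop : ∀ X L L' g, L ≠ [] → MB X g → Nul X (L' ++ L) g → Nul X L g
  perp : ∀ X L F g, L ≠ [] → InZ X L F → MB X g → Nul X L g → ∫ x, g x * F x ∂X.μ = 0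
  char : ∀ X L F, L ≠ [] → MB X F → (∀ g, MB X g → Nul X L g → ∫ x, g x * F x ∂X.μ = 0) →
    InZ X L F
  up : ∀ X L L' F, L ≠ [] → InZ X L F → InZ X (L' ++ L) F
  keep : ∀ (X : Sy) Y L F F', L ≠ [] → Fac X Y → InZ X L F → Ver X Y F F' → InZ X L F'
  zero : ∀ X L F, L ≠ [] → InZ X L F → Nul X L F → F =ᵐ[X.μ] 0

/-- one direction may be read through its invariant factor -/
def NulInv : Prop := ∀ (X : Sy) (u : Gm 2) (L : List (Gm 2)) (g : X.X → ℂ), MB X g →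
  (∀ ε : ℝ, 0 < ε → ∃ H, 1 ≤ H ∧
    EL X H L (fun G _ => ∫ x, ‖(X.μ[G | Inv X {u}]) x‖ ^ 2 ∂X.μ) g g ≤ ε) → Nul X (u :: L) g

def ConcS : Prop := ∀ (X : Sy) (s u v : Gm 2) (k : ℤ) (L : List (Gm 2)) (F : X.X → ℂ),
  InZ X [s, s] F → s = v + k • u → Nul X (v :: v :: L) F → Nul X (u :: L) F

def KillS : Prop := ∀ (X : Sy) (a b : Gm 2) (L : List (Gm 2)) (n : X.X → ℂ), L ≠ [] →
  InZ X L n → ∀ ε : ℝ, 0 < ε → ∃ K : ℝ, 0 ≤ K ∧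
  ∀ (f g : X.X → ℂ) (H : ℕ) (κ : ℕ → ℝ) (M : ℕ), MB X f → MB X g → 1 ≤ H → (∀ d, 0 ≤ κ d) →
    ∑ d ∈ Finset.range M, κ d = 1 →
    NN X a b κ M f (fun x => g x * n x) ≤ ε + K * EL X H L (NN X a b κ M) f g

/-! ### twisted averages -/

abbrev Ch (M : ℕ) : Type := AddChar (ZMod (6 * (M + 1))) ℂ

def mx (κ : ℕ → ℝ) (M : ℕ) (G : ℕ → ℂ) : ℝ :=
  ⨆ χ : Ch M, ‖∑ d ∈ Finset.range M, (κ d : ℂ) * (χ (d : ZMod (6 * (M + 1))) * G d)‖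

/-- the hypothesis on the signed weights: twisted averages vanish for all measurable frequencies -/
def UWW (w : ℕ → ℕ → ℝ) : Prop := ∀ (X : Sy) (u : Gm 2) (g : X.X → ℂ) (b : ℕ → X.X → ℝ),
  MB X g → (∀ M, Measurable (b M)) → Tendsto (fun M => ∫ x, ‖∑ d ∈ Finset.range M,
    (w M d : ℂ) * (g (X.A ((d : ℤ) • u) x) * ee ((d : ℝ) * b M x))‖ ∂X.μ) atTop (𝓝 0)

def MX (κ : ℕ → ℕ → ℝ) : Prop := ∀ ε : ℝ, 0 < ε → ∃ K : ℝ, 0 ≤ K ∧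
  ∀ (X : Sy) (u : Gm 2) (g : X.X → ℂ) (H : ℕ), MB X g → 1 ≤ H → ∀ᶠ M in atTop,
    ∫ x, mx (κ M) M (fun d => g (X.A ((d : ℤ) • u) x)) ∂X.μ ≤ ε + K * QE X [u, u] H g

def WieZ : Prop := ∀ ε : ℝ, 0 < ε → ∃ A : ℝ, 0 < A ∧ ∀ᶠ M : ℕ in atTop,
  ∀ v ∈ CZ (fun _ : Fin 2 => (1 : ℤ)) (M ^ 2), ∃ c : Ch M → ℂ, ∑ χ, ‖c χ‖ ≤ A ∧ ∀ d < M,
    𝔼 j : Fin M, ‖v (((j : ℕ) + d : ℕ) : ℤ) -
      ∑ χ, c χ * χ (((j : ℕ) + d : ℕ) : ZMod (6 * (M + 1)))‖ ≤ ε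

def SQ (w : ℕ → ℕ → ℝ) : Prop := ∀ ε : ℝ, 0 < ε → ∀ᶠ M : ℕ in atTop,
  ∀ (κ : ℕ → ℝ) (W : ℕ → ℕ → ℂ) (v : ℕ → ℤ → ℂ), (∀ d, 0 ≤ κ d) →
    ∑ d ∈ Finset.range M, κ d = 1 → (∀ j d, ‖W j d‖ ≤ 1) →
    (∀ d, v d ∈ CZ (fun _ : Fin 2 => (1 : ℤ)) (M ^ 2)) →
    𝔼 j : Fin M, |∑ e ∈ Finset.range M,
      w M e * mx κ M fun d => W j d * v d (((j : ℕ) + e : ℕ) : ℤ)| ≤ ε

def StL (w : ℕ → ℕ → ℝ) : Prop := ∀ k : ℕ, 2 ≤ k → ∀ ε : ℝ, 0 < ε → ∀ᶠ M : ℕ in atTop,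
  ∀ u v : ℕ → ℤ → ℂ, (∀ m, u m ∈ CZ (fun _ : Fin k => (1 : ℤ)) (M ^ 2)) →
    (∀ n, v n ∈ CZ (fun _ : Fin k => (1 : ℤ)) (M ^ 2)) →
    𝔼 n : Fin M, 𝔼 m : Fin M, ‖∑ d ∈ Finset.range M,
      (w M d : ℂ) * (u m (((n : ℕ) + d : ℕ) : ℤ) * v n (((m : ℕ) + d : ℕ) : ℤ))‖ ≤ ε

/-- control by the first function when the partner is dual to the box of its own direction -/
def C1 (κ : ℕ → ℕ → ℝ) : Prop := ∀ (X : Sy) (a b : Gm 2) (𝓖 : Set (X.X → ℂ)), UA X [b, b] 𝓖 →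
  ∀ ε : ℝ, 0 < ε → ∃ K : ℝ, 0 ≤ K ∧ ∀ g ∈ 𝓖, ∀ (f : X.X → ℂ) (H : ℕ), MB X f → 1 ≤ H →
    ∀ᶠ M in atTop, NN X a b (κ M) M f g ≤ ε + K * QE X [a, a] H f

/-- control by the second function when it is dual to the box of the difference -/
def C2 (κ : ℕ → ℕ → ℝ) : Prop := ∀ (X : Sy) (a b : Gm 2) (𝓖 : Set (X.X → ℂ)),
  UA X [b - a, b - a] 𝓖 →
  ∀ ε : ℝ, 0 < ε → ∃ K : ℝ, 0 ≤ K ∧ ∀ g ∈ 𝓖, ∀ (f : X.X → ℂ) (H : ℕ), MB X f → 1 ≤ H →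
    ∀ᶠ M in atTop, NN X a b (κ M) M f g ≤ ε + K * QE X [b - a, -a, -a] H g

def df (ν ν' : ℕ → ℕ → ℝ) : ℕ → ℕ → ℝ := fun M d => ν M d - ν' M d

/-- products of functions structured along their own lines -/
def PL (w : ℕ → ℕ → ℝ) : Prop := ∀ (X : Sy) (a b : Gm 2) (k : ℕ) (f g : X.X → ℂ), 2 ≤ k →
  InZ X (List.replicate k a) f → InZ X (List.replicate k b) g → Vn X a b w f g

def V1 (κ : ℕ → ℕ → ℝ) : Prop := ∀ (X : Sy) (a b : Gm 2) (L : List (Gm 2)) (β n f : X.X → ℂ),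
  L ≠ [] → InZ X [b, b] β → InZ X L n → MB X f → Nul X (L ++ [a, a]) f →
  Vn X a b κ f fun x => β x * n x

def V2 (κ : ℕ → ℕ → ℝ) : Prop := ∀ (X : Sy) (a b : Gm 2) (β c f : X.X → ℂ),
  InZ X [b, b] β → InZ X [b - a, b - a] c → MB X f → Nul X ([b, b] ++ [b - a, -a, -a]) c →
  Vn X a b κ f fun x => c x * β x

/-- what the deterministic part uses about the two weights -/
structure Hy (ν ν' : ℕ → ℕ → ℝ) : Prop where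
  bd : Bd (df ν ν')
  v1 : V1 ν
  v1' : V1 ν'
  v2 : V2 ν
  v2' : V2 ν'
  pl : PL (df ν ν')

/-! ### classes and lifts -/

structure Cl (𝒞 : ∀ X : Sy, Set (X.X → ℂ)) : Prop where
  mb : ∀ X, ∀ F ∈ 𝒞 X, MB X F
  one : ∀ X, (fun _ => (1 : ℂ)) ∈ 𝒞 X
  mul : ∀ X, ∀ F ∈ 𝒞 X, ∀ G ∈ 𝒞 X, (fun x => F x * G x) ∈ 𝒞 X
  cj : ∀ X, ∀ F ∈ 𝒞 X, (fun x => conj (F x)) ∈ 𝒞 X
  tz : ∀ X v, ∀ F ∈ 𝒞 X, (fun x => F (X.A v x)) ∈ 𝒞 X
  pb : ∀ (X' X : Sy) p, Emb X' X p → ∀ F ∈ 𝒞 X, (fun x => F (p x)) ∈ 𝒞 X'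

/-- projections of members of the class on extensions -/
def EE (𝒞 : ∀ X : Sy, Set (X.X → ℂ)) (X : Sy) : Set (X.X → ℂ) :=
  {e | MB X e ∧ ∃ (X' : Sy) (p : X'.X → X.X) (F : X'.X → ℂ), Nice X' ∧ Emb X' X p ∧ F ∈ 𝒞 X' ∧
    (fun x => e (p x)) =ᵐ[X'.μ] X'.μ[F | pull X'.μ p X.ms]}

def LF (𝒞 : ∀ X : Sy, Set (X.X → ℂ)) (X : Sy) : MeasurableSpace X.X :=
  gen (EE 𝒞 X) id ⊔ nul X.μ

structure LfP (𝒞 : ∀ X : Sy, Set (X.X → ℂ)) (X : Sy) : Prop where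
  fac : Fac X (LF 𝒞 X)
  mem : ∀ F ∈ 𝒞 X, BM X.μ (LF 𝒞 X) F
  span : ∀ g, MB X g → BM X.μ (LF 𝒞 X) g → ∀ ε : ℝ, 0 < ε →
    ∃ φ ∈ Submodule.span ℂ (EE 𝒞 X), ∫ x, ‖g x - φ x‖ ∂X.μ ≤ ε
  perp : ∀ g, MB X g → X.μ[g | LF 𝒞 X] =ᵐ[X.μ] 0 →
    ∀ (X' : Sy) (p : X'.X → X.X), Nice X' → Emb X' X p → ∀ F ∈ 𝒞 X',
      ∫ x, g (p x) * F x ∂X'.μ = 0

def LiftA : Prop := ∀ 𝒞, Cl 𝒞 → ∀ X : Sy, Nice X → LfP 𝒞 X

def LiftB : Prop := ∀ 𝒞 (a b : Gm 2) (w : ℕ → ℕ → ℝ), Cl 𝒞 → Bd w →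
  (∀ X : Sy, Nice X → ∀ F ∈ 𝒞 X, Gd X a b w F) →
  ∀ X : Sy, Nice X → ∀ g, MB X g → BM X.μ (LF 𝒞 X) g → Gd X a b w g

/-- a projection that kills `u` and changes every element by a multiple of `u` -/
def Pj (u : Gm 2) (φ : Gm 2 →+ Gm 2) : Prop := φ u = 0 ∧ ∀ n, ∃ k : ℤ, n = φ n + k • u

/-- the twisted square over the invariant factor -/
def LbS : Prop := ∀ (X : Sy) (u : Gm 2) (φ : Gm 2 →+ Gm 2), Nice X → Pj u φ →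
  ∃ (X' : Sy) (p p' : X'.X → X.X), Nice X' ∧ Emb X' X p ∧ ∀ g, MB X g →
    IvF X' u (fun x => conj (g (p' x))) ∧ ∀ L : List (Gm 2), (∀ v ∈ L, φ v = v) →
      Nul X' L (fun x => g (p x) * conj (g (p' x))) → Nul X (u :: L) g

def K1 (a b : Gm 2) (X : Sy) : Set (X.X → ℂ) :=
  {F | ∃ β c n, InZ X [b, b] β ∧ IvF X (b - a) c ∧ InZ X [b - a, b - a] n ∧
    InZ X (List.replicate 6 b) n ∧ F = fun x => c x * (β x * n x)}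

def K2 (a b : Gm 2) (X : Sy) : Set (X.X → ℂ) :=
  {F | ∃ β c, InZ X [b, b] β ∧ InZ X [b - a, b - a] c ∧ F = fun x => c x * β x}

def Tw2 (a b : Gm 2) : Prop :=
  (∃ φ, Pj (b - a) φ ∧ φ b = b) ∧ ∃ φ, Pj b φ ∧ φ (b - a) = b - a

def ClS : Prop := ∀ a b, Cl (K1 a b) ∧ Cl (K2 a b)

def IntS : Prop := ∀ (X : Sy) (a b : Gm 2) (n : X.X → ℂ), InZ X [b - a, b - a] n →
  InZ X (List.replicate 6 b) n → InZ X (List.replicate 12 a) n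

def G3S : Prop := ∀ ν ν', Hy ν ν' → ∀ (a b : Gm 2) (X : Sy), ∀ F ∈ K1 a b X, Gd X a b (df ν ν') F

def G4S : Prop := ∀ ν ν', Hy ν ν' → ∀ a b : Gm 2, Tw2 a b →
  ∀ X : Sy, Nice X → ∀ F ∈ K2 a b X, Gd X a b (df ν ν') F

/-- a base for the slot with step `b` -/
structure Bs (X : Sy) (a b : Gm 2) (w : ℕ → ℕ → ℝ) (B : MeasurableSpace X.X) : Prop where
  fac : Fac X B
  i1 : Inv X {b} ≤ B
  i2 : Inv X {b - a} ≤ B
  gd : ∀ g, MB X g → BM X.μ B g → Gd X a b w g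
  nul : ∀ g, MB X g → X.μ[g | B] =ᵐ[X.μ] 0 → Nul X [b, b, b - a] g ∧ Nul X [b - a, b, b - a] g

def HasB (w : ℕ → ℕ → ℝ) (a b : Gm 2) : Prop := ∀ X : Sy, Nice X → ∃ B, Bs X a b w B

def G5S : Prop := ∀ ν ν', Hy ν ν' → ∀ a b : Gm 2, Tw2 a b → HasB (df ν ν') a b

/-! ### compact steps for pairs of factors -/

/-- the derivative with two shifts -/
def d2 (X : Sy) (u : Gm 2) (n n' : ℕ) (g : X.X → ℂ) : X.X → ℂ :=
  fun x => g (X.A ((n : ℤ) • u) x) * conj (g (X.A ((n' : ℤ) • u) x))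

def KeyS : Prop := ∀ (X Z : Sy) (C : MeasurableSpace X.X) (p : Bool → Z.X → X.X) (a b u : Gm 2)
  (H : Z.X → ℂ) (g k : X.X → ℂ), Fac X C → Pair X C Z p → BM Z.μ (Inv Z {u}) H → MB X g →
  BM X.μ X.ms k → Star p H g k → ∃ K : ℝ, 0 ≤ K ∧
  ∀ (f : X.X → ℂ) (N : ℕ) (c : ℕ → ℕ → X.X → ℂ) (κ : ℕ → ℝ) (M : ℕ), MB X f → 1 ≤ N →
    (∀ n n', Ver X C (d2 X u n n' g) (c n n')) → (∀ d, 0 ≤ κ d) →
    ∑ d ∈ Finset.range M, κ d = 1 →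
    NN X a b κ M f k ^ 2 ≤
      K * 𝔼 n : Fin N, 𝔼 n' : Fin N, NN X a b κ M (d2 X u n n' f) (c n n')

def G0 (X : Sy) (a b u : Gm 2) (ν' : ℕ → ℕ → ℝ) (g : X.X → ℂ) : Prop :=
  ∀ ε : ℝ, 0 < ε → ∃ (N : ℕ) (α : ℕ → ℕ → ℝ), 1 ≤ N ∧
    𝔼 n : Fin N, 𝔼 n' : Fin N, α n n' ≤ ε ∧
    ∀ (n n' : ℕ) (Y : MeasurableSpace X.X) (f c : X.X → ℂ), Fac X Y → MB X f →
      Ver X Y (d2 X u n n' g) c → ∀ η : ℝ, 0 < η →
      ∀ᶠ M in atTop, NN X a b (ν' M) M f c ≤ α n n' + η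

def G0S : Prop := ∀ ν', PW ν' → AsInv ν' → ∀ (X : Sy) (a b u : Gm 2) (g : X.X → ℂ), MB X g →
  Nul X [u, b, b - a] g → G0 X a b u ν' g

def GP (X : Sy) (a b : Gm 2) (w : ℕ → ℕ → ℝ) (A1 A2 : MeasurableSpace X.X) : Prop :=
  ∀ f g, MB X f → MB X g → BM X.μ A1 f → BM X.μ A2 g → Vn X a b w f g

/-- the step in a direction of the slot itself -/
def OwnS : Prop := ∀ ν ν', PW ν → PW ν' → AsInv ν' → ∀ (X : Sy) (a b u : Gm 2)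
  (B A1 A2 : MeasurableSpace X.X), Nice X → Bs X a b (df ν ν') B → Fac X A1 → Fac X A2 → B ≤ A2 →
  (u = b ∨ u = b - a) → GP X a b (df ν ν') A1 A2 → GP X a b (df ν ν') A1 (KK X u A2)

/-- the step in a direction of the other slot -/
def ForS : Prop := ∀ ν ν', PW ν → PW ν' → AsInv ν' → ∀ (X : Sy) (a b u : Gm 2)
  (B A1 A2 : MeasurableSpace X.X), Nice X → Bs X b a (df ν ν') B → Fac X A1 → Fac X A2 → B ≤ A1 →
  (u = a ∨ u = a - b) → GP X a b (df ν ν') A1 A2 → GP X a b (df ν ν') A1 (KK X u A2)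

def HullS : Prop := ∀ ν ν', PW ν → PW ν' → AsInv ν' → ∀ (X : Sy) (B B' : MeasurableSpace X.X),
  Nice X → Bs X (rr 0) (rr 1) (df ν ν') B → Bs X (rr 1) (rr 0) (df ν ν') B' →
  ∃ C, T4x.KC X C ∧ GP X (rr 0) (rr 1) (df ν ν') C C

def TopS : Prop := ∀ ν ν', PW ν → PW ν' → Erg ν → Erg ν' → Spr ν → Spr ν' →
  (∀ X : Sy, Nice X → ∃ C, T4x.KC X C ∧ GP X (rr 0) (rr 1) (df ν ν') C C) →
  ∀ (X : Sy) (f g : X.X → ℂ), MB X f → MB X g → Vn X (rr 0) (rr 1) (df ν ν') f g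

/-! ### probability and the end -/

def CovZ : Prop := ∀ (k : ℕ) (A ε : ℝ), 0 < A → 0 < ε → ∃ C : ℝ, 0 ≤ C ∧
  ∀ (N : ℕ) [NeZero N], ∃ 𝓥 : Finset (ZMod N → ℂ), (∀ v ∈ 𝓥, B1 v) ∧
    (𝓥.card : ℝ) ≤ Real.exp (C * T3S.LG (ZMod N)) ∧
    ∀ u : ZMod N → ℂ, T3S.Dual k A u → ∃ v ∈ 𝓥, 𝔼 x, ‖u x - v x‖ ≤ ε

/-- a property of the signed weights holds almost surely -/
def AS (σ : ℕ → ℝ) (Q : (ℕ → ℕ → ℝ) → Prop) : Prop :=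
  ∀ (Ω : Type) [MeasurableSpace Ω] (P : Measure Ω) [IsProbabilityMeasure P] (E : ℕ → Set Ω),
  (∀ n, MeasurableSet (E n)) → iIndepSet E P → (∀ n, P (E n) = ENNReal.ofReal (σ n)) →
  ∀ᵐ ω ∂P, Q (yw σ fun m => ω ∈ E m)

def SqAe : Prop := ∀ σ : ℕ → ℝ, (∀ n, 0 ≤ σ n ∧ σ n ≤ 1) → Gr σ 2 → AS σ SQ

def StAe : Prop := ∀ σ : ℕ → ℝ, (∀ n, 0 ≤ σ n ∧ σ n ≤ 1) → Gr σ 1 → AS σ StL

structure NearS : Prop where
  sq : ∀ w w', Near w w' → SQ w' → SQ w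
  st : ∀ w w', Near w w' → StL w' → StL w
  uw : ∀ w w', Near w w' → UWW w' → UWW w
  sq0 : ∀ ν, SQ (df ν ν)
  gr : ∀ σ : ℕ → ℝ, (∀ n, 0 ≤ σ n) → Gr σ 2 → Gr σ 1
  tw : Tw2 (rr 0) (rr 1) ∧ Tw2 (rr 1) (rr 0)

/-- from systems to pairs of commuting maps -/
def EndS : Prop := ∀ w : ℕ → ℕ → ℝ,
  (∀ (X : Sy) (f g : X.X → ℂ), MB X f → MB X g → Vn X (rr 0) (rr 1) w f g) → Bd w →
  ∀ (X : Type) [MeasurableSpace X] (μ : Measure X) [IsProbabilityMeasure μ]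
    (T : Fin 2 → X ≃ᵐ X), (∀ i, MeasurePreserving (⇑(T i)) μ μ) →
    (∀ i j, Function.Commute ⇑(T i) ⇑(T j)) →
    ∀ f : Fin 2 → X → ℂ, (∀ i, MB1 (f i)) → T4S.VanT μ T w f

def MainS : Prop := ∀ σ : ℕ → ℝ, (∀ n, 0 ≤ σ n ∧ σ n ≤ 1) → Antitone σ → Gr σ 2 → AS σ UWW →
  ∀ (Ω : Type) [MeasurableSpace Ω] (P : Measure Ω) [IsProbabilityMeasure P]
    (E : ℕ → Set Ω), (∀ n, MeasurableSet (E n)) → iIndepSet E P →
    (∀ n, P (E n) = ENNReal.ofReal (σ n)) →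
  ∀ᵐ ω ∂P, ∀ (X : Type) [MeasurableSpace X] (μ : Measure X) [IsProbabilityMeasure μ]
    (T : Fin 2 → X ≃ᵐ X) (f : Fin 2 → X → ℝ),
    (∀ i, MeasurePreserving (⇑(T i)) μ μ) → (∀ i j, Function.Commute ⇑(T i) ⇑(T j)) →
    (∀ i, MemLp (f i) ⊤ μ) → Concl (fun m => ω ∈ E m) μ T f

/-! ### the rows -/

def VBR : Prop := Fd → VB
def QBR : Prop := T4S.PermS → QB
def ScaleR : Prop := T4S.PermS → QB → ScaleS
def DAR : Prop := Fd → DA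
def DMR : Prop := T3S.ShiftS → DA → DM
def ZFR : Prop := Fd → QB → DA → DM → ZF
def GcsBR : Prop := QB → GcsB
def GcsDR : Prop := T3S.ShiftS → QB → DA → GcsB → GcsD
def LinkR : Prop := Fd → LinkS
def ZeroR : Prop := Fd → T3S.NestS → DA → LinkS → ZeroS
def MonoR : Prop := Fd → VB → QB → LinkS → GcsB → MonoS
def NBR : Prop := Fd → VB → QB → DA → ZF → GcsD → ZeroS → MonoS → NB
def NulInvR : Prop := Fd → T4S.PermS → QB → ScaleS → NulInv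
def ConcR : Prop := Fd → VB → QB → ZF → GcsD → MonoS → NulInv → ConcS
def KillR : Prop := VB → QB → DA → ZF → GcsD → KillS
def WieR : Prop := T3S.ApxS → WieZ
def MXaR : Prop := T3S.VdcS → T4S.GvnS → QB → ∀ ν', PW ν' → AsInv ν' → MX ν'
def MXbR : Prop := ∀ ν ν', MX ν' → UWW (df ν ν') → MX ν
def C1R : Prop := VB → QB → DA → WieZ → ∀ κ, PW κ → MX κ → C1 κ
def C2R : Prop := VB → QB → DA → WieZ → ∀ κ ν', PW κ → PW ν' → AsInv ν' → MX κ →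
  SQ (df κ ν') → C2 κ
def PLR : Prop := VB → QB → DA → ZF → ∀ w, Bd w → StL w → PL w
def V1R : Prop := VB → QB → ZF → KillS → ∀ κ, PW κ → C1 κ → V1 κ
def V2R : Prop := VB → QB → ZF → KillS → ∀ κ, PW κ → C2 κ → V2 κ
def LiftAR : Prop := Fd → LiftA
def LiftBR : Prop := Fd → VB → LiftA → LiftB
def LbR : Prop := Fd → VB → QB → NulInv → LbS
def ClR : Prop := Fd → VB → ZF → ClS
def IntR : Prop := Fd → VB → ZF → NB → ConcS → IntS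
def G3R : Prop := Fd → VB → ZF → NB → IntS → G3S
def G4R : Prop := Fd → VB → ZF → NB → ConcS → LiftA → LiftB → LbS → ClS → G3S → G4S
def G5R : Prop := Fd → VB → ZF → NB → LiftA → LiftB → LbS → ClS → G4S → G5S
def KeyR : Prop := Fd → VB → KeyS
def G0R : Prop := T4S.GvnS → VB → QB → MonoS → G0S
def OwnR : Prop := Fd → VB → KeyS → G0S → OwnS
def ForR : Prop := Fd → VB → KeyS → G0S → ForS
def HullR : Prop := Fd → VB → OwnS → ForS → HullS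
def TopR : Prop := Fd → T4x.Gf → T4x.TopS → VB → TopS
def SqR : Prop := T3S.UbS → WieZ → SqAe
def StR : Prop := T3S.UbS → T3S.ApxS → CovZ → StAe
def NearR : Prop := NearS
def EndR : Prop := T4S.ActS → EndS

end T6

end
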