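import Pool.Agent.MP_154433_an.t6.Spec

/-! Control by the first function when the partner is dual to the box of its own direction. -/

set_option autoImplicit false
set_option linter.unusedVariables false
set_option warn.classDefReducibility false

open MeasureTheory ProbabilityTheory Filter Topology Function
open scoped BigOperators ComplexConjugate

noncomputable section

namespace T6

open Pool.Agent.MP_154433_an hiding BM
open T3S (B1 MB1 PW AsInv Erg Bd Near Gr yw dif CZ)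
open T4S (Gm Act ddX QX ln Spr Concl)
open Fib27 (BM)
open T3x (nul pull gen)
open T4x (Fac Emb Inv Nice Pair Star KK Fd)

namespace C1

lemma le_mx (κ : ℕ → ℝ) (M : ℕ) (G : ℕ → ℂ) (χ : Ch M) :
    ‖∑ d ∈ Finset.range M, (κ d : ℂ) * (χ (d : ZMod (6 * (M + 1))) * G d)‖ ≤ mx κ M G :=
  le_ciSup (f := fun χ : Ch M =>
    ‖∑ d ∈ Finset.range M, (κ d : ℂ) * (χ (d : ZMod (6 * (M + 1))) * G d)‖)
    (Finite.bddAbove_range _) χ

lemma mx_nonneg (κ : ℕ → ℝ) (M : ℕ) (G : ℕ → ℂ) : 0 ≤ mx κ M G :=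
  (norm_nonneg _).trans (le_mx κ M G 0)

lemma wsum_le {κ : ℕ → ℝ} {M : ℕ} (hκ : ∀ d, 0 ≤ κ d) (hs : ∑ d ∈ Finset.range M, κ d = 1)
    {G : ℕ → ℂ} (hG : ∀ d, ‖G d‖ ≤ 1) : ‖∑ d ∈ Finset.range M, (κ d : ℂ) * G d‖ ≤ 1 := by
  refine (norm_sum_le _ _).trans ?_
  rw [← hs]
  refine Finset.sum_le_sum fun d _ => ?_
  rw [norm_mul, Complex.norm_real, Real.norm_of_nonneg (hκ d)]
  exact mul_le_of_le_one_right (hκ d) (hG d)

lemma mx_le {κ : ℕ → ℝ} {M : ℕ} (hκ : ∀ d, 0 ≤ κ d) (hs : ∑ d ∈ Finset.range M, κ d = 1)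
    {G : ℕ → ℂ} (hG : ∀ d, ‖G d‖ ≤ 1) : mx κ M G ≤ 1 :=
  ciSup_le fun χ => wsum_le hκ hs fun d => by
    rw [norm_mul, AddChar.norm_apply, one_mul]
    exact hG d

lemma mx_meas {X : Type} [MeasurableSpace X] (κ : ℕ → ℝ) (M : ℕ) {G : ℕ → X → ℂ}
    (hG : ∀ d, Measurable (G d)) : Measurable fun x => mx κ M fun d => G d x :=
  Measurable.iSup fun χ =>
    (Finset.measurable_sum _ fun d _ => ((hG d).const_mul _).const_mul _).norm

lemma integral_rexp {X : Type} [MeasurableSpace X] {μ : Measure X} {ι : Type} (s : Finset ι)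
    {f : ι → X → ℝ} (h : ∀ i ∈ s, Integrable (f i) μ) :
    ∫ x, 𝔼 i ∈ s, f i x ∂μ = 𝔼 i ∈ s, ∫ x, f i x ∂μ := by
  simp only [Finset.expect_eq_sum_div_card]
  rw [integral_div, integral_finsetSum _ h]

lemma integrable_rexp {X : Type} [MeasurableSpace X] {μ : Measure X} {ι : Type} (s : Finset ι)
    {f : ι → X → ℝ} (h : ∀ i ∈ s, Integrable (f i) μ) :
    Integrable (fun x => 𝔼 i ∈ s, f i x) μ := by
  simp only [Finset.expect_eq_sum_div_card]
  exact (integrable_finsetSum _ h).div_const _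

/-- one shift: replace the structured function by its trigonometric approximation -/
lemma one {κ : ℕ → ℝ} {M : ℕ} (hκ : ∀ d, 0 ≤ κ d) {F : ℕ → ℂ} (hF : ∀ d, ‖F d‖ ≤ 1)
    (V : ℕ → ℂ) (c : Ch M → ℂ) {A : ℝ} (hA : ∑ χ, ‖c χ‖ ≤ A) (j : ℕ) :
    ‖∑ d ∈ Finset.range M, (κ d : ℂ) * (F d * V d)‖ ≤
      ∑ d ∈ Finset.range M, κ d * ‖V d - ∑ χ, c χ * χ ((j + d : ℕ) : ZMod (6 * (M + 1)))‖ +
        A * mx κ M F := by
  have e : ∑ d ∈ Finset.range M, (κ d : ℂ) * (F d * V d) =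
      ∑ d ∈ Finset.range M, (κ d : ℂ) *
        (F d * (V d - ∑ χ, c χ * χ ((j + d : ℕ) : ZMod (6 * (M + 1))))) +
      ∑ χ : Ch M, (c χ * χ (j : ZMod (6 * (M + 1)))) *
        ∑ d ∈ Finset.range M, (κ d : ℂ) * (χ (d : ZMod (6 * (M + 1))) * F d) := by
    simp only [Finset.mul_sum]
    rw [Finset.sum_comm (s := Finset.univ), ← Finset.sum_add_distrib]
    refine Finset.sum_congr rfl fun d _ => ?_
    rw [mul_sub, mul_sub, Finset.mul_sum, Finset.mul_sum, sub_add, ← Finset.sum_sub_distrib,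
      Finset.sum_eq_zero, sub_zero]
    intro χ _
    rw [Nat.cast_add, AddChar.map_add_eq_mul]
    ring
  rw [e]
  refine (norm_add_le _ _).trans (add_le_add ?_ ?_)
  · refine (norm_sum_le _ _).trans (Finset.sum_le_sum fun d _ => ?_)
    rw [norm_mul, norm_mul, Complex.norm_real, Real.norm_of_nonneg (hκ d)]
    exact mul_le_mul_of_nonneg_left (mul_le_of_le_one_left (norm_nonneg _) (hF d)) (hκ d)
  · refine (norm_sum_le _ _).trans ?_
    refine le_trans ?_ (mul_le_mul_of_nonneg_right hA (mx_nonneg κ M F))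
    rw [Finset.sum_mul]
    refine Finset.sum_le_sum fun χ _ => ?_
    rw [norm_mul, norm_mul, AddChar.norm_apply, mul_one]
    exact mul_le_mul_of_nonneg_left (le_mx κ M F χ) (norm_nonneg _)

/-- the mean over the shifts -/
lemma pt {κ : ℕ → ℝ} {M : ℕ} (hκ : ∀ d, 0 ≤ κ d) (hs : ∑ d ∈ Finset.range M, κ d = 1)
    {F : Fin M → ℕ → ℂ} (hF : ∀ j d, ‖F j d‖ ≤ 1) (V : ℤ → ℂ) (c : Ch M → ℂ) {A ε : ℝ}
    (hA : ∑ χ, ‖c χ‖ ≤ A) (hc : ∀ d < M, 𝔼 j : Fin M, ‖V (((j : ℕ) + d : ℕ) : ℤ) -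
      ∑ χ, c χ * χ (((j : ℕ) + d : ℕ) : ZMod (6 * (M + 1)))‖ ≤ ε) :
    𝔼 j : Fin M, ‖∑ d ∈ Finset.range M, (κ d : ℂ) * (F j d * V (((j : ℕ) + d : ℕ) : ℤ))‖ ≤
      ε + A * 𝔼 j : Fin M, mx κ M (F j) := by
  refine (Finset.expect_le_expect fun j _ =>
    one hκ (hF j) (fun d => V (((j : ℕ) + d : ℕ) : ℤ)) c hA j).trans ?_
  rw [Finset.expect_add_distrib, Finset.mul_expect]
  refine add_le_add ?_ le_rfl
  rw [Finset.expect_sum_comm]
  calc _ ≤ ∑ d ∈ Finset.range M, κ d * ε := by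
        refine Finset.sum_le_sum fun d hd => ?_
        rw [← Finset.mul_expect]
        exact mul_le_mul_of_nonneg_left (hc d (Finset.mem_range.1 hd)) (hκ d)
    _ = ε := by rw [← Finset.sum_mul, hs, one_mul]

lemma step (hD : DA) (X : Sy) (a b : Gm 2) {f v : X.X → ℂ} {κ : ℕ → ℝ} {M : ℕ} {A ε : ℝ}
    (hM : 1 ≤ M) (hκ : ∀ d, 0 ≤ κ d) (hs : ∑ d ∈ Finset.range M, κ d = 1) (hf : MB X f)
    (hv : v ∈ CX X [b, b] (M ^ 2))
    (hW : ∀ u ∈ CZ (fun _ : Fin 2 => (1 : ℤ)) (M ^ 2), ∃ c : Ch M → ℂ, ∑ χ, ‖c χ‖ ≤ A ∧ ∀ d < M,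
      𝔼 j : Fin M, ‖u (((j : ℕ) + d : ℕ) : ℤ) -
        ∑ χ, c χ * χ (((j : ℕ) + d : ℕ) : ZMod (6 * (M + 1)))‖ ≤ ε) :
    NN X a b κ M f v ≤ ε + A * ∫ x, mx κ M (fun d => f (X.A ((d : ℤ) • a) x)) ∂X.μ := by
  have hA := act X
  have hv1 : MB X v := hD.cx X _ _ v hv
  have : Nonempty (Fin M) := ⟨⟨0, hM⟩⟩
  obtain ⟨Φ, hΦ⟩ : ∃ Φ : X.X → ℝ, Φ = fun x => ‖∑ d ∈ Finset.range M,
    (κ d : ℂ) * (f (X.A ((d : ℤ) • a) x) * v (X.A ((d : ℤ) • b) x))‖ := ⟨_, rfl⟩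
  obtain ⟨m, hm⟩ : ∃ m : X.X → ℝ, m = fun x => mx κ M fun d => f (X.A ((d : ℤ) • a) x) := ⟨_, rfl⟩
  have Φm : Measurable Φ := by
    rw [hΦ]
    exact (Finset.measurable_sum _ fun d _ => ((hA.tz hf _).mul (hA.tz hv1 _)).1.const_mul _).norm
  have mm : Measurable m := by
    rw [hm]
    exact mx_meas κ M (G := fun d x => f (X.A ((d : ℤ) • a) x)) fun d => (hA.tz hf _).1
  have Φi : ∀ u, Integrable (fun x => Φ (X.A u x)) X.μ := fun u =>
    Integrable.of_bound (Φm.comp (hA.meas u)).aestronglyMeasurable 1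
      (Eventually.of_forall fun x => by
        rw [hΦ, norm_norm]
        exact wsum_le hκ hs fun d => ((hA.tz hf _).mul (hA.tz hv1 _)).2 _)
  have mi : ∀ u, Integrable (fun x => m (X.A u x)) X.μ := fun u =>
    Integrable.of_bound (mm.comp (hA.meas u)).aestronglyMeasurable 1
      (Eventually.of_forall fun x => by
        rw [hm, Real.norm_of_nonneg (mx_nonneg _ _ _)]
        exact mx_le hκ hs fun d => hf.2 _)
  have e1 : NN X a b κ M f v = ∫ x, 𝔼 j : Fin M, Φ (X.A (((j : ℕ) : ℤ) • b) x) ∂X.μ := by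
    rw [integral_rexp _ fun j _ => Φi _]
    simp only [hA.integral _ Φm.aestronglyMeasurable]
    rw [Finset.expect_const Finset.univ_nonempty, hΦ]
    rfl
  have e2 : ∫ x, (ε + A * 𝔼 j : Fin M, m (X.A (((j : ℕ) : ℤ) • b) x)) ∂X.μ =
      ε + A * ∫ x, m x ∂X.μ := by
    rw [integral_add (integrable_const _) ((integrable_rexp _ fun j _ => mi _).const_mul _),
      integral_const_mul, integral_rexp _ fun j _ => mi _]
    simp only [hA.integral _ mm.aestronglyMeasurable]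
    rw [Finset.expect_const Finset.univ_nonempty]
    simp
  rw [e1, ← hm, ← e2]
  refine integral_mono (integrable_rexp _ fun j _ => Φi _)
    ((integrable_const _).add ((integrable_rexp _ fun j _ => mi _).const_mul _)) fun x => ?_
  have ho : (fun n : ℤ => v (X.A (n • b) x)) ∈ CZ (fun _ : Fin 2 => (1 : ℤ)) (M ^ 2) :=
    hD.orb X [b, b] b _ v x (fun i => by fin_cases i <;> rfl) hv
  obtain ⟨c, hc1, hc2⟩ := hW _ ho
  have h := pt hκ hs (F := fun j d => f (X.A ((d : ℤ) • a) (X.A (((j : ℕ) : ℤ) • b) x)))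
    (fun j d => hf.2 _) (fun n : ℤ => v (X.A (n • b) x)) c hc1 hc2
  rw [hΦ, hm]
  refine le_of_eq_of_le (Finset.expect_congr rfl fun j _ => ?_) h
  refine congrArg _ (Finset.sum_congr rfl fun d _ => ?_)
  rw [Nat.cast_add, add_smul, add_comm, hA.add]

end C1

theorem c1 : C1R := by
  intro hV hQ hD hW κ hκ hX X a b 𝓖 hU ε hε
  obtain ⟨K1, hK1, hK⟩ := hU.2 (ε / 4) (by positivity)
  obtain ⟨A, hA, hWA⟩ := hW (ε / (4 * (K1 + 1))) (by positivity)
  obtain ⟨K3, hK3, hX3⟩ := hX (ε / (4 * (K1 + 1) * A)) (by positivity)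
  refine ⟨K1 * A * K3, by positivity, fun g hg f H hf hH => ?_⟩
  obtain ⟨D, hDD, hgD⟩ := hK g hg
  filter_upwards [hWA, hX3 X a f H hf hH, hκ.2, eventually_ge_atTop 1] with M h1 h2 h3 h4
  obtain ⟨v, hv, hDv⟩ := hDD.2 (M ^ 2) (ε / (4 * (K1 + 1))) (by positivity)
  have hv1 : MB X v := hD.cx X _ _ v hv
  have hab : ∑ d ∈ Finset.range M, |κ M d| = 1 := by
    rw [← h3]
    exact Finset.sum_congr rfl fun d _ => abs_of_nonneg (hκ.1 M d)
  have s1 := hV.lip X a b (κ M) M f g (fun x => (K1 : ℂ) * D x) hf ((hU.1 g hg).integrable _)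
    ((hDD.1.integrable _).const_mul _)
  have s2 := hV.smul X a b (κ M) M f D K1
  have s3 := hV.lip X a b (κ M) M f D v hf (hDD.1.integrable _) (hv1.integrable _)
  have s4 := C1.step hD X a b h4 (hκ.1 M) h3 hf hv h1
  rw [hab, one_mul] at s1 s3
  rw [Complex.norm_real, Real.norm_of_nonneg hK1] at s2
  obtain ⟨e, he⟩ : ∃ e, e = ε / (4 * (K1 + 1)) := ⟨_, rfl⟩
  have he0 : 0 ≤ e := by rw [he]; positivity
  have he1 : (K1 + 1) * e = ε / 4 := by rw [he]; field_simp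
  have he2 : A * (ε / (4 * (K1 + 1) * A)) = e := by rw [he]; field_simp
  rw [← he] at hDv s4
  have s5 := mul_le_mul_of_nonneg_left h2 hA.le
  rw [mul_add, he2] at s5
  have s6 : NN X a b (κ M) M f D ≤ 3 * e + A * (K3 * QE X [a, a] H f) := by linarith
  have s7 := mul_le_mul_of_nonneg_left s6 hK1
  rw [s2] at s1
  nlinarith

end T6

end
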