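import Pool.Agent.MP_154433_an.t6.Spec
import Pool.Agent.MP_154433_an.h31.Tw2

/-! Control by the second function when it is dual to the box of the difference. -/

set_option autoImplicit false
set_option linter.unusedVariables false

open MeasureTheory ProbabilityTheory Filter Topology Function Finset
open scoped BigOperators ComplexConjugate

noncomputable section

namespace T6

open Pool.Agent.MP_154433_an hiding BM
open T3S (B1 MB1 PW AsInv CZ)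
open T4S (Gm ddX)

namespace C2

def chm (M : ℕ) : Ch M → ℕ → ℂ := fun χ d => χ (d : ZMod (6 * (M + 1)))

lemma mxe (κ : ℕ → ℝ) (M : ℕ) (G : ℕ → ℂ) : mx κ M G = Mau.mx (chm M) M κ G := rfl

lemma wie {M : ℕ} (hM : 1 ≤ M) {A ε : ℝ} (κ : ℕ → ℝ) (κ0 : ∀ d, 0 ≤ κ d)
    (κ1 : ∑ d ∈ range M, κ d = 1) (v : ℤ → ℂ) (c : Ch M → ℂ) (c1 : ∑ χ, ‖c χ‖ ≤ A)
    (c2 : ∀ d < M, 𝔼 j : Fin M, ‖v (((j : ℕ) + d : ℕ) : ℤ) -
      ∑ χ, c χ * χ (((j : ℕ) + d : ℕ) : ZMod (6 * (M + 1)))‖ ≤ ε)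
    (β : Fin M → ℕ → ℂ) (hβ : ∀ j d, ‖β j d‖ ≤ 1) :
    𝔼 j : Fin M, ‖∑ d ∈ range M, (κ d : ℂ) * (v (((j : ℕ) + d : ℕ) : ℤ) * β j d)‖ ≤
      ε + A * 𝔼 j : Fin M, Mau.mx (chm M) M κ (β j) := by
  have key : ∀ j : Fin M, ‖∑ d ∈ range M, (κ d : ℂ) * (v (((j : ℕ) + d : ℕ) : ℤ) * β j d)‖ ≤
      ∑ d ∈ range M, κ d * ‖v (((j : ℕ) + d : ℕ) : ℤ) -
        ∑ χ, c χ * χ (((j : ℕ) + d : ℕ) : ZMod (6 * (M + 1)))‖ +
        A * Mau.mx (chm M) M κ (β j) := fun j => by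
    refine le_trans ?_ (add_le_add le_rfl (Mau.wie_le
      (ch := chm M) (M := M) (lam := κ) (fun χ => c χ * χ ((j : ℕ) : ZMod (6 * (M + 1)))) (A := A) (by
        simpa only [norm_mul, AddChar.norm_apply, mul_one] using c1)
      (fun d => ∑ χ, c χ * χ (((j : ℕ) + d : ℕ) : ZMod (6 * (M + 1)))) (β j) fun d _ => by
        simp only [chm, mul_assoc, ← AddChar.map_add_eq_mul, Nat.cast_add]))
    rw [← sub_le_iff_le_add]
    refine (norm_sub_norm_le _ _).trans ?_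
    rw [← sum_sub_distrib]
    refine (norm_sum_le _ _).trans (sum_le_sum fun d _ => ?_)
    rw [← mul_sub, ← sub_mul, norm_mul, norm_mul, Complex.norm_real, Real.norm_of_nonneg (κ0 d)]
    exact mul_le_mul_of_nonneg_left (mul_le_of_le_one_right (norm_nonneg _) (hβ j d)) (κ0 d)
  refine (expect_le_expect fun j _ => key j).trans ?_
  rw [expect_add_distrib, ← mul_expect, expect_sum_comm]
  refine add_le_add (le_trans (sum_le_sum (g := fun d => κ d * ε) fun d hd => ?_)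
    (by rw [← sum_mul, κ1, one_mul])) le_rfl
  rw [← mul_expect]
  exact mul_le_mul_of_nonneg_left (c2 d (mem_range.1 hd)) (κ0 d)

lemma apx (X : Sy) {g D v : X.X → ℂ} (hg : MB X g) (hD : MB X D) (hv : MB X v) {K η : ℝ}
    (hK : 0 ≤ K) (hη : 0 ≤ η) (h1 : ∫ x, ‖g x - K * D x‖ ∂X.μ ≤ η)
    (h2 : ∫ x, ‖D x - v x‖ ∂X.μ ≤ η / (K + 1)) : ∫ x, ‖g x - K * v x‖ ∂X.μ ≤ 2 * η := by
  have i1 := ((hg.integrable X.μ).sub ((hD.integrable X.μ).const_mul (K : ℂ))).norm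
  have i2 := ((hD.integrable X.μ).sub (hv.integrable X.μ)).norm.const_mul K
  refine (integral_mono_of_nonneg (Eventually.of_forall fun x => norm_nonneg _) (i1.add i2)
    (Eventually.of_forall fun x => ?_)).trans ?_
  · simp only [Pi.add_apply, Pi.sub_apply]
    rw [← Mau.nm hK, mul_sub]
    exact norm_sub_le_norm_sub_add_norm_sub _ _ _
  · rw [integral_add' i1 i2, integral_const_mul]
    simp only [Pi.sub_apply]
    have h3 := mul_le_mul_of_nonneg_left h2 hK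
    have h4 : K * (η / (K + 1)) ≤ η := by
      rw [← mul_div_assoc, div_le_iff₀ (by linarith)]
      nlinarith
    linarith

lemma qe (qb : QB) (X : Sy) (s r : Gm 2) {g : X.X → ℂ} (hg : MB X g) {H : ℕ} (hH : 1 ≤ H) :
    (H : ℝ)⁻¹ * (H : ℝ)⁻¹ * ∑ i ∈ range H, ∑ i' ∈ range H, QE X [r, r] H
      (fun y => conj (g (X.A ((i : ℤ) • s) y)) * g (X.A ((i' : ℤ) • s) y)) =
      QE X [s, r, r] H g := by
  have e : QE X [s, r, r] H g = 𝔼 h : Fin H, 𝔼 h' : Fin H,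
      QE X [r, r] H (ddX X.A ((((h' : ℕ) : ℤ) - ((h : ℕ) : ℤ)) • s) g) :=
    T4S.QX_ln X.μ X.A s H _ g
  have e2 : ∀ i i' : ℕ, QE X [r, r] H
      (fun y => conj (g (X.A ((i : ℤ) • s) y)) * g (X.A ((i' : ℤ) • s) y)) =
      QE X [r, r] H (ddX X.A (((i' : ℤ) - (i : ℤ)) • s) g) := fun i i' => by
    rw [← qb.tz X [r, r] H _ ((i : ℤ) • s) ((act X).dd hg _)]
    congr 1
    funext y
    simp only [ddX, ← (act X).add, sub_smul, sub_add_cancel, mul_comm]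
  rw [e]
  simp only [e2, expect_eq_sum_div_card, card_univ, Fintype.card_fin]
  rw [← sum_div, ← Fin.sum_univ_eq_sum_range
    (fun i => ∑ i' ∈ range H, QE X [r, r] H (ddX X.A (((i' : ℤ) - (i : ℤ)) • s) g)) H]
  simp only [← Fin.sum_univ_eq_sum_range
    (fun i' => QE X [r, r] H (ddX X.A (((i' : ℤ) - _) • s) g)) H]
  ring

end C2

theorem c2 : C2R := by
  intro vb qb da wz κ ν pκ pν hν hmx hsq X a b 𝓖 hU ε hε
  obtain ⟨K1, k1, h1⟩ := hU.2 (ε ^ 2 / 8) (by positivity)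
  obtain ⟨A, hA, hw⟩ := wz (ε ^ 2 / (4 * (K1 + 1))) (by positivity)
  obtain ⟨z, z0, hz⟩ : ∃ z : ℝ, 0 < z ∧ (K1 + 1) * (A * (8 * z)) = ε ^ 2 / 2 :=
    ⟨ε ^ 2 / (16 * (K1 + 1) * A), by positivity, by field_simp; ring⟩
  obtain ⟨K2, k2, h2⟩ := hU.2 z z0
  obtain ⟨K3, k3, h3⟩ := hmx (4 * z * z) (by positivity)
  refine ⟨(2 * ε)⁻¹ * (K1 * (A * ((2 * (2 * z))⁻¹ * K3))), by positivity, fun g hg f H hf hH => ?_⟩
  have mg := hU.1 g hg
  obtain ⟨D1, d1, e1⟩ := h1 g hg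
  obtain ⟨D2, d2, e2⟩ := h2 g hg
  have hG : ∀ i i' : ℕ, MB X fun y =>
      conj (g (X.A ((i : ℤ) • (b - a)) y)) * g (X.A ((i' : ℤ) • (b - a)) y) := fun i i' =>
    ((act X).tz mg _).cj.mul ((act X).tz mg _)
  filter_upwards [pκ.2, pν.2, hw, hsq (z / (K2 + 1)) (by positivity), eventually_ge_atTop 1,
    (eventually_all_finset (range H)).2 fun i _ => hν i z z0,
    (eventually_all_finset (range H)).2 fun i _ => (eventually_all_finset (range H)).2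
      fun i' _ => h3 X (-a) _ H (hG i i') hH] with M m1 m2 m3 m4 m5 m6 m7
  obtain ⟨v1, u1, f1⟩ := d1.2 (M ^ 2) (ε ^ 2 / 8 / (K1 + 1)) (by positivity)
  obtain ⟨v2, u2, f2⟩ := (da.cj X _ _ d2).2 (M ^ 2) (z / (K2 + 1)) (by positivity)
  have b1 := da.cx X _ _ _ u1
  have b2 := da.cx X _ _ _ u2
  have orb : ∀ v ∈ CX X [b - a, b - a] (M ^ 2), ∀ x,
      (fun n : ℤ => v (X.A (n • (b - a)) x)) ∈ CZ (fun _ : Fin 2 => (1 : ℤ)) (M ^ 2) :=
    fun v hv x => da.orb X [b - a, b - a] (b - a) _ v x (fun i => by fin_cases i <;> rfl) hv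
  have e2' : ∫ x, ‖conj (g x) - K2 * conj (D2 x)‖ ∂X.μ ≤ z := by
    refine le_trans (le_of_eq (integral_congr_ae (Eventually.of_forall fun x => ?_))) e2
    simp only
    rw [← Complex.norm_conj (g x - _), map_sub, map_mul, Complex.conj_ofReal]
  simp only [C2.mxe, df] at m4 m7
  have key := Mau.tw_win (ch := C2.chm M) (η0 := ε ^ 2 / (4 * (K1 + 1))) (τ := z / (K2 + 1))
    (κ := z) (act X).mp (act X).add a b hf.1 mg.1 hf.2 mg.2 b1.1 b2.1 b1.2 b2.2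
    (fun ξ ξ' => ⟨ξ - ξ', fun d => by
      simp only [C2.chm]
      rw [AddChar.sub_apply, AddChar.map_neg_eq_conj]⟩)
    (fun χ d => (χ.norm_apply _).le) m5 (κ M) (ν M) (pκ.1 M) m1.le (pν.1 M) m2.le k1 k2 hA.le hH
    (t := 2 * z) (by positivity) (C2.apx X mg d1.1 b1 k1 (by positivity) e1 f1)
    (C2.apx X mg.cj (da.cj X _ _ d2).1 b2 k2 z0.le e2' f2)
    (fun x β hβ => by
      obtain ⟨c, c1, c2⟩ := m3 _ (orb v1 u1 x)
      exact C2.wie m5 (κ M) (pκ.1 M) m1 (fun n : ℤ => v1 (X.A (n • (b - a)) x)) c c1 c2 β hβ)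
    (fun x U hU => m4 (κ M) U (fun d n => v2 (X.A (n • (b - a)) (x d))) (pκ.1 M) m1 hU
      fun d => orb v2 u2 (x d))
    (fun i hi u hu => m6 i (mem_range.2 hi) ℝ u hu)
  have H0 : (0 : ℝ) < H := by exact_mod_cast hH
  have s1 := mul_le_mul_of_nonneg_left (sum_le_sum fun i hi => sum_le_sum fun i' hi' =>
    m7 i hi i' hi') (show 0 ≤ (H : ℝ)⁻¹ * (H : ℝ)⁻¹ by positivity)
  simp only [sum_add_distrib, sum_const, card_range, nsmul_eq_mul, ← mul_sum _ _ K3] at s1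
  rw [mul_add, mul_left_comm _ K3, C2.qe qb X (b - a) (-a) mg hH,
    show (H : ℝ)⁻¹ * (H : ℝ)⁻¹ * (H * (H * (4 * z * z))) = 4 * z * z by field_simp] at s1
  have s2 := mul_le_mul_of_nonneg_left s1 (show 0 ≤ (2 * (2 * z))⁻¹ by positivity)
  rw [mul_add, show (2 * (2 * z))⁻¹ * (4 * z * z) = z by field_simp; ring] at s2
  have s3 : K2 * (z / (K2 + 1)) ≤ z := by
    rw [← mul_div_assoc, div_le_iff₀ (by linarith)]
    nlinarith
  have s4 : K1 * (ε ^ 2 / (4 * (K1 + 1))) ≤ ε ^ 2 / 4 := by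
    rw [← mul_div_assoc, div_le_div_iff₀ (by positivity) (by norm_num)]
    nlinarith [sq_nonneg ε]
  have s5 := key.trans (add_le_add le_rfl (mul_le_mul_of_nonneg_left (add_le_add le_rfl
    (mul_le_mul_of_nonneg_left (add_le_add (show 2 * (2 * z) + K2 * (z / (K2 + 1)) + z + 2 * z / 2
      ≤ 7 * z by linarith) s2) hA.le)) k1))
  have mS : Measurable fun x => ∑ d ∈ range M,
      (κ M d : ℂ) * (f (X.A ((d : ℤ) • a) x) * g (X.A ((d : ℤ) • b) x)) :=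
    Finset.measurable_sum _ fun d _ => (((act X).tz hf _).mul ((act X).tz mg _)).1.const_mul _
  have iS : Integrable (fun x => ‖∑ d ∈ range M,
      (κ M d : ℂ) * (f (X.A ((d : ℤ) • a) x) * g (X.A ((d : ℤ) • b) x))‖ ^ 2) X.μ :=
    Mau.int_bd (mS.norm.pow_const 2) 1 fun x => by
      rw [norm_pow, norm_norm]
      refine pow_le_one₀ (norm_nonneg _) ((norm_sum_le _ _).trans
        (le_trans (sum_le_sum fun d _ => ?_) m1.le))
      rw [Mau.nm (pκ.1 M d)]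
      exact mul_le_of_le_one_right (pκ.1 M d) (Mau.b1m (hf.2 _) (mg.2 _))
  refine (integral_mono_of_nonneg (Eventually.of_forall fun x => norm_nonneg _)
    ((integrable_const (ε / 2)).add (iS.const_mul (2 * ε)⁻¹))
    (Eventually.of_forall fun x => Mau.amgm hε _)).trans ?_
  rw [integral_add' (integrable_const _) (iS.const_mul _), integral_const, integral_const_mul,
    probReal_univ, one_smul]
  have s6 : ∫ x, ‖∑ d ∈ range M, (κ M d : ℂ) *
      (f (X.A ((d : ℤ) • a) x) * g (X.A ((d : ℤ) • b) x))‖ ^ 2 ∂X.μ ≤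
      ε ^ 2 + K1 * (A * ((2 * (2 * z))⁻¹ * K3)) * QE X [b - a, -a, -a] H g := by
    have : 0 ≤ A * (8 * z) := by positivity
    have e : ∀ w c q : ℝ, K1 * (w + A * (7 * z + (z + c * (K3 * q)))) =
        K1 * w + ((K1 + 1) * (A * (8 * z)) - A * (8 * z)) + K1 * (A * (c * K3)) * q :=
      fun w c q => by ring
    rw [e, hz] at s5
    linarith
  have s7 := mul_le_mul_of_nonneg_left s6 (show 0 ≤ (2 * ε)⁻¹ by positivity)
  rw [mul_add, show (2 * ε)⁻¹ * ε ^ 2 = ε / 2 by field_simp, ← mul_assoc] at s7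
  linarith

end T6

end
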