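import Pool.Agent.MP_154433_an.t6.Spec

/-! Row Conc: a function dual to the box of `s = v + k u` that is null for `v, v, L` is null for
`u, L`. -/

set_option autoImplicit false
set_option linter.unusedVariables false
set_option warn.classDefReducibility false

open MeasureTheory ProbabilityTheory Filter Topology Function
open scoped BigOperators ComplexConjugate

noncomputable section

namespace T6

open Pool.Agent.MP_154433_an hiding BM
open T3S (B1 MB1 PW AsInv Erg Bd Near Gr yw dif CZ)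
open T4S (Gm Act ddX QX ln Spr Concl)
open Fib27 (BM)
open T3x (nul pull gen)
open T4x (Fac Emb Inv Nice Pair Star KK Fd)

namespace Conc

variable {X : Sy} {u : Gm 2} {c : X.X → ℂ}

lemma pull_ae (w : Gm 2) {f g : X.X → ℂ} (h : f =ᵐ[X.μ] g) :
    (fun x => f (X.A w x)) =ᵐ[X.μ] fun x => g (X.A w x) :=
  ((act X).mp w).quasiMeasurePreserving.ae_eq_comp h

lemma ivf_dd (h : IvF X u c) (w : Gm 2) : IvF X u (ddX X.A w c) := by
  refine ⟨(act X).dd h.1 w, ?_⟩
  filter_upwards [h.2, pull_ae w h.2] with x h1 h2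
  simp only [ddX]
  rw [(act X).comm w u x, h1, h2]

lemma dd_shift (hV : VB) (h : IvF X u c) (v : Gm 2) (k n : ℤ) :
    ddX X.A (n • (v + k • u)) c =ᵐ[X.μ] ddX X.A (n • v) c := by
  filter_upwards [pull_ae (n • v) (hV.ivz X u c (n * k) h).2] with x h1
  have e : n • (v + k • u) = (n * k) • u + n • v := by
    rw [smul_add, smul_smul, add_comm]
  simp only [ddX]
  rw [e, (act X).add, h1]

lemma qe_step (hV : VB) (hQ : QB) (v : Gm 2) (k : ℤ) (H : ℕ) {L L' : List (Gm 2)}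
    (ih : ∀ c, IvF X u c → QE X L H c = QE X L' H c) (c : X.X → ℂ) (h : IvF X u c) :
    QE X ((v + k • u) :: L) H c = QE X (v :: L') H c := by
  simp only [QE, List.map_cons, T4S.QX_ln]
  refine Finset.expect_congr rfl fun a _ => Finset.expect_congr rfl fun a' _ => ?_
  exact (hQ.congr X L H _ _ (dd_shift hV h v k _)).trans (ih _ (ivf_dd h _))

lemma el_swap (H : ℕ) (Φ : (X.X → ℂ) → ℝ) (L : List (Gm 2)) (f g f' : X.X → ℂ) :
    EL X H L (fun G _ => Φ G) f g = EL X H L (fun _ G => Φ G) f' f := by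
  induction L generalizing f g f' with
  | nil => rfl
  | cons a L ih =>
    simp only [EL]
    exact Finset.expect_congr rfl fun a _ => Finset.expect_congr rfl fun a' _ => ih _ _ _

lemma bm_of {f : X.X → ℂ} (h : MB X f) : BM X.μ X.ms f :=
  ⟨h.1.aestronglyMeasurable, 1, Eventually.of_forall h.2⟩

lemma sq_core {G G' D P : X.X → ℂ} (hG : MB X G) (hG' : MB X G') (hP : G' =ᵐ[X.μ] P)
    (e1 : ∫ x, P x * conj (G' x) ∂X.μ = ∫ x, G x * conj (G' x) ∂X.μ) (hD : MB X D) {K : ℝ}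
    (hK : 0 ≤ K) : ∫ x, ‖P x‖ ^ 2 ∂X.μ ≤
      ∫ x, ‖G x - K * D x‖ ∂X.μ + K * ‖∫ x, conj (G' x) * D x ∂X.μ‖ := by
  have e2 : ∫ x, P x * conj (G' x) ∂X.μ = ((∫ x, ‖P x‖ ^ 2 ∂X.μ : ℝ) : ℂ) := by
    rw [← integral_complex_ofReal]
    refine integral_congr_ae ?_
    filter_upwards [hP] with x hx
    rw [hx, Complex.mul_conj', Complex.ofReal_pow]
  have i1 : Integrable (fun x => conj (G' x) * D x) X.μ := (bm_of (hG'.cj.mul hD)).integrable
  have i0 : Integrable (fun x => G x - K * D x) X.μ :=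
    (bm_of hG).integrable.sub ((bm_of hD).integrable.const_mul _)
  have i2 : Integrable (fun x => (G x - K * D x) * conj (G' x)) X.μ :=
    (((bm_of hG).sub ((bm_of hD).cmul _)).mul (bm_of hG'.cj)).integrable
  have e3 : ∫ x, G x * conj (G' x) ∂X.μ =
      ∫ x, (G x - K * D x) * conj (G' x) ∂X.μ + K * ∫ x, conj (G' x) * D x ∂X.μ := by
    rw [← integral_const_mul, ← integral_add i2 (i1.const_mul _)]
    exact integral_congr_ae (Eventually.of_forall fun x => by ring)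
  have e4 : ‖∫ x, (G x - K * D x) * conj (G' x) ∂X.μ‖ ≤ ∫ x, ‖G x - K * D x‖ ∂X.μ :=
    norm_integral_le_of_norm_le i0.norm (Eventually.of_forall fun x => by
      rw [norm_mul]
      exact mul_le_of_le_one_right (norm_nonneg _) (hG'.cj.2 x))
  have e5 : ∫ x, ‖P x‖ ^ 2 ∂X.μ ≤ ‖∫ x, G x * conj (G' x) ∂X.μ‖ := by
    rw [← e1, e2, Complex.norm_real]
    exact le_abs_self _
  refine e5.trans ?_
  rw [e3]
  refine (norm_add_le _ _).trans (add_le_add e4 (le_of_eq ?_))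
  rw [norm_mul, Complex.norm_real, Real.norm_of_nonneg hK]

lemma sq_le {Y : MeasurableSpace X.X} (hY : Y ≤ X.ms) {G G' D : X.X → ℂ} (hG : MB X G)
    (hV : Ver X Y G G') (hm : Measurable[Y] G') (hD : MB X D) {K : ℝ} (hK : 0 ≤ K) :
    ∫ x, ‖(X.μ[G | Y]) x‖ ^ 2 ∂X.μ ≤
      ∫ x, ‖G x - K * D x‖ ∂X.μ + K * ‖∫ x, conj (G' x) * D x ∂X.μ‖ :=
  have b1 : BM X.μ Y G' :=
    ⟨hm.stronglyMeasurable.aestronglyMeasurable, 1, Eventually.of_forall hV.1.2⟩
  sq_core hG hV.1 hV.2 (Fib27.int_ce_mul hY (bm_of hG) b1.conj) hD hK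

end Conc

open Conc

theorem conc : ConcR := by
  intro hF hV hQ hZ hG hM hN X s u v k L F hs e hn
  refine hN X u L F hs.1 fun ε hε => ?_
  have hY : Fac X (Inv X {u}) := hF.t.finv X {u}
  obtain ⟨K1, hK1, h1⟩ := (hZ.ua X [s, s] F L.length (by simp) hs).2 (ε / 3) (by positivity)
  obtain ⟨K2, hK2, h2⟩ := hQ.pw 4 (ε / (3 * (K1 + 1))) (by positivity)
  obtain ⟨H, hH, h3⟩ := hn (ε / (3 * (K1 * K2 + 1))) (by positivity)
  refine ⟨H, hH, ?_⟩
  have key : ∀ f G, MB X f → G ∈ Der X F L.length → ∀ᶠ M : ℕ in atTop,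
      ∫ x, ‖(X.μ[G | Inv X {u}]) x‖ ^ 2 ∂X.μ ≤ 2 * ε / 3 + K1 * K2 * QE X [v, v] H G := by
    intro f G _ hGm
    refine Eventually.of_forall fun _ => ?_
    have mG := (hQ.der X F _ G hs.1 hGm).1
    obtain ⟨D, hD, hD'⟩ := h1 G hGm
    obtain ⟨G', hG', hm⟩ := hV.ver X _ G hY mG
    have iv : IvF X u G' := (hV.ivf X u G' hG'.1).2
      ⟨hm.stronglyMeasurable.aestronglyMeasurable, 1, Eventually.of_forall hG'.1.2⟩
    have a1 := hG X [s, s] H _ D (by simp) hH hG'.1.cj hD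
    have a2 : QE X [s, s] H G' = QE X [v, v] H G' := by
      rw [e]
      exact qe_step hV hQ v k H (qe_step hV hQ v k H fun _ _ => rfl) G' iv
    rw [hQ.cj, a2] at a1
    have a3 := hM X _ [v, v] H G G' hY (by simp) hH mG hG'
    have a4 : ‖∫ x, conj (G' x) * D x ∂X.μ‖ ^ 2 ^ 4 ≤ QE X [v, v] H G := by
      refine le_trans ?_ a3
      rw [show 2 ^ 4 = 2 ^ [s, s].length * 2 ^ [v, v].length from rfl, pow_mul]
      exact pow_le_pow_left₀ (by positivity) a1 _
    have a5 := h2 _ _ (hQ.nonneg X [v, v] H G (by simp) mG) a4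
    have a6 := sq_le hY.le mG hG' hm hD.1 hK1
    have a7 : K1 * (ε / (3 * (K1 + 1))) ≤ ε / 3 := by
      rw [mul_div_assoc', div_le_div_iff₀ (by positivity) (by positivity)]
      nlinarith
    have a8 := mul_le_mul_of_nonneg_left a5 hK1
    nlinarith
  obtain ⟨_, b1⟩ := (hQ.elc X (fun _ _ G => ∫ x, ‖(X.μ[G | Inv X {u}]) x‖ ^ 2 ∂X.μ)
    (fun _ G => QE X [v, v] H G) F (2 * ε / 3) (K1 * K2) H L hH hs.1 key F hs.1).exists
  rw [← hQ.app2 X L [v, v] H F F, hQ.perm X (L ++ [v, v]) (v :: v :: L) H F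
    List.perm_append_comm] at b1
  rw [el_swap H (fun G => ∫ x, ‖(X.μ[G | Inv X {u}]) x‖ ^ 2 ∂X.μ) L F F F]
  have b2 : K1 * K2 * (ε / (3 * (K1 * K2 + 1))) ≤ ε / 3 := by
    have := mul_nonneg hK1 hK2
    rw [mul_div_assoc', div_le_div_iff₀ (by positivity) (by positivity)]
    nlinarith
  have b3 := mul_le_mul_of_nonneg_left h3 (mul_nonneg hK1 hK2)
  linarith

end T6

end
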