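import Pool.Agent.MP_154433_an.t6.Spec

/-! Row DA: calculus of the dual functions. -/

set_option autoImplicit false
set_option linter.unusedVariables false
set_option warn.classDefReducibility false

open MeasureTheory ProbabilityTheory Filter Topology Function
open scoped BigOperators ComplexConjugate

noncomputable section

namespace T6

open Pool.Agent.MP_154433_an hiding BM
open T3S (B1 MB1 dif CZ conj_exp norm_exp_le_of norm_prod_le_one meas_exp)
open T4S (Gm Act)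
open T4x (Emb Fd)

namespace DA

variable {X : Sy} {L : List (Gm 2)}

lemma blk_MB {k : ℕ} (u : Fin k → Gm 2) (H : ℕ) {β : Fin k → (Fin k → ℤ) → X.X → ℂ}
    (hβ : ∀ i τ, MB X (β i τ)) : MB X (blk X u H β) :=
  ⟨meas_exp _ fun h _ => meas_exp _ fun h' _ =>
    Finset.measurable_prod _ fun i _ => ((act X).tz (hβ _ _) _).1,
    fun x => norm_exp_le_of zero_le_one fun h _ => norm_exp_le_of zero_le_one fun h' _ =>
      norm_prod_le_one _ fun i _ => (hβ _ _).2 _⟩

lemma cx_MB {H0 : ℕ} {v : X.X → ℂ} (hv : v ∈ CX X L H0) : MB X v := by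
  refine convexHull_min ?_ MB1.convex hv
  rintro _ ⟨H, β, -, hβ, rfl⟩
  exact blk_MB _ _ hβ

lemma mb_const {c : ℂ} (hc : ‖c‖ ≤ 1) : MB X fun _ => c := ⟨measurable_const, fun _ => hc⟩

lemma CX_map {H0 : ℕ} (T : (X.X → ℂ) →ₗ[ℝ] (X.X → ℂ))
    (h : ∀ (H : ℕ) (β : Fin L.length → (Fin L.length → ℤ) → X.X → ℂ), (∀ i τ, MB X (β i τ)) →
      ∃ β' : Fin L.length → (Fin L.length → ℤ) → X.X → ℂ, (∀ i τ, MB X (β' i τ)) ∧
        T (blk X L.get H β) = blk X L.get H β')
    {u : X.X → ℂ} (hu : u ∈ CX X L H0) : T u ∈ CX X L H0 := by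
  have hc : Convex ℝ (T ⁻¹' CX X L H0) := (convex_convexHull ℝ _).linear_preimage T
  refine convexHull_min ?_ hc hu
  rintro _ ⟨H, β, h1, h2, rfl⟩
  obtain ⟨β', h3, h4⟩ := h H β h2
  exact subset_convexHull ℝ _ ⟨H, β', h1, h3, h4⟩

lemma DD_map (T : (X.X → ℂ) →ₗ[ℝ] (X.X → ℂ))
    (h : ∀ (H : ℕ) (β : Fin L.length → (Fin L.length → ℤ) → X.X → ℂ), (∀ i τ, MB X (β i τ)) →
      ∃ β' : Fin L.length → (Fin L.length → ℤ) → X.X → ℂ, (∀ i τ, MB X (β' i τ)) ∧
        T (blk X L.get H β) = blk X L.get H β')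
    (h1 : ∀ D, MB X D → MB X (T D))
    (h2 : ∀ D u, MB X D → MB X u → ∫ x, ‖T D x - T u x‖ ∂X.μ ≤ ∫ x, ‖D x - u x‖ ∂X.μ)
    {D : X.X → ℂ} (hD : D ∈ DD X L) : T D ∈ DD X L := by
  refine ⟨h1 D hD.1, fun H0 ε hε => ?_⟩
  obtain ⟨u, hu, hε'⟩ := hD.2 H0 ε hε
  exact ⟨T u, CX_map T h hu, (h2 D u hD.1 (cx_MB hu)).trans hε'⟩

lemma DD_tz (v : Gm 2) {D : X.X → ℂ} (hD : D ∈ DD X L) : (fun x => D (X.A v x)) ∈ DD X L := by
  refine DD_map (LinearMap.funLeft ℝ ℂ (X.A v)) (fun H β hβ => ?_)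
    (fun D hD => (act X).tz hD v) (fun D u hD hu => ?_) hD
  · refine ⟨fun i τ y => β i τ (X.A v y), fun i τ => (act X).tz (hβ i τ) v, ?_⟩
    funext x
    simp only [LinearMap.funLeft_apply, blk, (act X).comm v]
  · exact ((act X).integral v (f := fun x => ‖D x - u x‖)
      (hD.1.sub hu.1).norm.aestronglyMeasurable).le

/-- pointwise conjugation -/
def cjL (Y : Type) : (Y → ℂ) →ₗ[ℝ] (Y → ℂ) where
  toFun u := fun x => conj (u x)
  map_add' u w := by funext x; simp
  map_smul' c u := by funext x; simp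

/-- pointwise multiplication by a constant -/
def mlL (Y : Type) (c : ℂ) : (Y → ℂ) →ₗ[ℝ] (Y → ℂ) where
  toFun u := fun x => c * u x
  map_add' u w := by funext x; simp [mul_add]
  map_smul' a u := by funext x; simp [mul_left_comm]

lemma DD_cj {D : X.X → ℂ} (hD : D ∈ DD X L) : (fun x => conj (D x)) ∈ DD X L := by
  refine DD_map (cjL X.X) (fun H β hβ => ?_) (fun D hD => hD.cj) (fun D u hD hu => ?_) hD
  · refine ⟨fun i τ y => conj (β i τ y), fun i τ => (hβ i τ).cj, ?_⟩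
    funext x
    change conj (blk X L.get H β x) = _
    simp only [blk, conj_exp, map_prod]
  · refine le_of_eq (integral_congr_ae (Eventually.of_forall fun x => ?_))
    change ‖conj (D x) - conj (u x)‖ = ‖D x - u x‖
    rw [← map_sub, RCLike.norm_conj]

lemma DD_ml (hL : L ≠ []) {c : ℂ} (hc : ‖c‖ ≤ 1) {D : X.X → ℂ} (hD : D ∈ DD X L) :
    (fun x => c * D x) ∈ DD X L := by
  have i0 : Fin L.length := ⟨0, List.length_pos_iff.2 hL⟩
  refine DD_map (mlL X.X c) (fun H β hβ => ?_) (fun D hD => (mb_const hc).mul hD)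
    (fun D u hD hu => ?_) hD
  · refine ⟨fun i τ y => (if i = i0 then c else 1) * β i τ y, fun i τ => ?_, ?_⟩
    · refine (mb_const ?_).mul (hβ i τ)
      split_ifs
      · exact hc
      · simp
    · funext x
      change c * blk X L.get H β x = _
      simp only [blk, Finset.mul_expect, Finset.prod_mul_distrib, Finset.prod_ite_eq',
        Finset.mem_univ, if_true]
  · refine integral_mono_of_nonneg (Eventually.of_forall fun x => norm_nonneg _)
      ((hD.integrable X.μ).sub (hu.integrable X.μ)).norm (Eventually.of_forall fun x => ?_)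
    change ‖c * D x - c * u x‖ ≤ ‖D x - u x‖
    rw [← mul_sub, norm_mul]
    exact mul_le_of_le_one_left (norm_nonneg _) hc

lemma DD_cvx : Convex ℝ (DD X L) := by
  intro D hD E hE a b ha hb hab
  refine ⟨MB1.convex hD.1 hE.1 ha hb hab, fun H0 ε hε => ?_⟩
  obtain ⟨u, hu, hu'⟩ := hD.2 H0 ε hε
  obtain ⟨w, hw, hw'⟩ := hE.2 H0 ε hε
  refine ⟨a • u + b • w, convex_convexHull ℝ _ hu hw ha hb hab, ?_⟩
  have i1 : Integrable (fun x => ‖D x - u x‖) X.μ :=
    ((hD.1.integrable X.μ).sub ((cx_MB hu).integrable X.μ)).norm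
  have i2 : Integrable (fun x => ‖E x - w x‖) X.μ :=
    ((hE.1.integrable X.μ).sub ((cx_MB hw).integrable X.μ)).norm
  calc _ ≤ ∫ x, (a * ‖D x - u x‖ + b * ‖E x - w x‖) ∂X.μ := by
        refine integral_mono_of_nonneg (Eventually.of_forall fun x => norm_nonneg _)
          ((i1.const_mul _).add (i2.const_mul _)) (Eventually.of_forall fun x => ?_)
        have e : (a • D + b • E) x - (a • u + b • w) x = a • (D x - u x) + b • (E x - w x) := by
          simp only [Pi.add_apply, Pi.smul_apply, smul_sub]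
          abel
        change ‖(a • D + b • E) x - (a • u + b • w) x‖ ≤ _
        rw [e]
        refine (norm_add_le _ _).trans (le_of_eq ?_)
        simp only [norm_smul, Real.norm_eq_abs, abs_of_nonneg ha, abs_of_nonneg hb]
    _ = a * ∫ x, ‖D x - u x‖ ∂X.μ + b * ∫ x, ‖E x - w x‖ ∂X.μ := by
        rw [integral_add (i1.const_mul _) (i2.const_mul _), integral_const_mul,
          integral_const_mul]
    _ ≤ a * ε + b * ε :=
        add_le_add (mul_le_mul_of_nonneg_left hu' ha) (mul_le_mul_of_nonneg_left hw' hb)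
    _ = ε := by rw [← add_mul, hab, one_mul]

lemma DD_one : (fun _ => (1 : ℂ)) ∈ DD X L := by
  refine ⟨mb_const (by simp), fun H0 ε hε => ⟨blk X L.get (H0 + 1) fun _ _ _ => 1,
    subset_convexHull ℝ _ ⟨H0 + 1, _, Nat.le_succ _, fun i τ => mb_const (by simp), rfl⟩, ?_⟩⟩
  simp only [blk, Finset.prod_const_one, Fintype.expect_const, sub_self, norm_zero, integral_zero]
  exact hε.le

lemma ivz {u : Gm 2} {c : X.X → ℂ} (h : IvF X u c) (n : ℤ) :
    (fun x => c (X.A (n • u) x)) =ᵐ[X.μ] c := by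
  have st : ∀ n : ℤ, (fun x => c (X.A ((n + 1) • u) x)) =ᵐ[X.μ] fun x => c (X.A (n • u) x) := by
    intro n
    filter_upwards [((act X).mp (n • u)).quasiMeasurePreserving.ae h.2] with x hx
    rw [add_smul, one_smul, add_comm, (act X).add]
    exact hx
  induction n using Int.induction_on with
  | zero => exact Eventually.of_forall fun x => by simp only [zero_smul, (act X).zero]
  | succ n ih => exact (st n).trans ih
  | pred n ih =>
    have e := st (-(n : ℤ) - 1)
    rw [sub_add_cancel] at e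
    exact e.symm.trans ih

lemma DD_inv {u : Gm 2} {c : X.X → ℂ} (h : IvF X u c) : c ∈ DD X (u :: L) := by
  let i0 : Fin (u :: L).length := ⟨0, Nat.succ_pos _⟩
  refine ⟨h.1, fun H0 ε hε => ⟨blk X (u :: L).get (H0 + 1) fun i _ y => if i = i0 then c y else 1,
    subset_convexHull ℝ _ ⟨H0 + 1, _, Nat.le_succ _, fun i τ => ?_, rfl⟩, ?_⟩⟩
  · by_cases hi : i = i0
    · simpa only [hi, if_true] using h.1
    · simpa only [hi, if_false] using mb_const (X := X) (c := 1) (by simp)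
  · have h0 : (fun x => ‖c x - blk X (u :: L).get (H0 + 1)
        (fun i _ y => if i = i0 then c y else 1) x‖) =ᵐ[X.μ] 0 := by
      filter_upwards [ae_all_iff.2 (ivz h)] with x hx
      have e : (u :: L).get i0 = u := rfl
      simp only [blk, Finset.prod_ite_eq', Finset.mem_univ, if_true, e, hx, Fintype.expect_const,
        sub_self, norm_zero, Pi.zero_apply]
    rw [integral_congr_ae h0]
    simpa using hε.le

lemma CX_pb (F : Fd) {X' : Sy} {p : X'.X → X.X} (hp : Emb X' X p) {H0 : ℕ} {v : X.X → ℂ}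
    (hv : v ∈ CX X L H0) : ∃ v' ∈ CX X' L H0, v' =ᵐ[X'.μ] fun x => v (p x) := by
  refine convexHull_min (t := {v | ∃ v' ∈ CX X' L H0, v' =ᵐ[X'.μ] fun x => v (p x)}) ?_ ?_ hv
  · rintro _ ⟨H, β, h1, hβ, rfl⟩
    refine ⟨blk X' L.get H fun i τ y => β i τ (p y), subset_convexHull ℝ _ ⟨H, _, h1,
      fun i τ => ⟨(hβ i τ).1.comp hp.mp.measurable, fun y => (hβ i τ).2 _⟩, rfl⟩, ?_⟩
    have e : ∀ z : Fin L.length × (Fin L.length → ℤ) × Gm 2, ∀ᵐ x ∂X'.μ,
        β z.1 z.2.1 (p (X'.A z.2.2 x)) = β z.1 z.2.1 (X.A z.2.2 (p x)) := fun z =>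
      F.a.keq_fun X.ms X'.μ X.μ _ _ (β z.1 z.2.1) (hp.mp.comp (X'.mp z.2.2))
        ((X.mp z.2.2).comp hp.mp) (hp.eqv z.2.2) (hβ _ _).1.aestronglyMeasurable
    filter_upwards [ae_all_iff.2 e] with x hx
    simp only [blk]
    exact Finset.expect_congr rfl fun h _ => Finset.expect_congr rfl fun h' _ =>
      Finset.prod_congr rfl fun i _ => hx (i, _, _)
  · rintro u ⟨u', hu, eu⟩ w ⟨w', hw, ew⟩ a b ha hb hab
    refine ⟨a • u' + b • w', convex_convexHull ℝ _ hu hw ha hb hab, ?_⟩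
    filter_upwards [eu, ew] with x h1 h2
    simp only [Pi.add_apply, Pi.smul_apply, h1, h2]

lemma DD_pb (F : Fd) {X' : Sy} {p : X'.X → X.X} (hp : Emb X' X p) {D : X.X → ℂ}
    (hD : D ∈ DD X L) : (fun x => D (p x)) ∈ DD X' L := by
  refine ⟨⟨hD.1.1.comp hp.mp.measurable, fun y => hD.1.2 _⟩, fun H0 ε hε => ?_⟩
  obtain ⟨v, hv, h1⟩ := hD.2 H0 ε hε
  obtain ⟨v', hv', e⟩ := CX_pb F hp hv
  refine ⟨v', hv', le_trans (le_of_eq ?_) h1⟩
  have m : AEStronglyMeasurable (fun x => ‖D x - v x‖) (X'.μ.map p) := by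
    rw [hp.mp.map_eq]; exact (hD.1.1.sub (cx_MB hv).1).norm.aestronglyMeasurable
  have e2 := integral_map hp.mp.measurable.aemeasurable m
  rw [hp.mp.map_eq] at e2
  rw [e2]
  refine integral_congr_ae ?_
  filter_upwards [e] with x hx
  rw [hx]

lemma CX_orb {b : Gm 2} {H0 : ℕ} {v : X.X → ℂ} (x : X.X) (hL : ∀ i, L.get i = b)
    (hv : v ∈ CX X L H0) :
    (fun n : ℤ => v (X.A (n • b) x)) ∈ CZ (fun _ : Fin L.length => (1 : ℤ)) H0 := by
  have hc : Convex ℝ ((LinearMap.funLeft ℝ ℂ fun n : ℤ => X.A (n • b) x) ⁻¹'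
      CZ (fun _ : Fin L.length => (1 : ℤ)) H0) := (convex_convexHull ℝ _).linear_preimage _
  refine convexHull_min ?_ hc hv
  rintro _ ⟨H, β, h1, hβ, rfl⟩
  refine subset_convexHull ℝ _ ⟨H, fun i τ m => β i τ (X.A (m • b) x), h1,
    fun i τ m => (hβ i τ).2 _, ?_⟩
  funext n
  simp only [LinearMap.funLeft_apply, blk, T3S.blk, T3S.sh, hL, one_mul, ← (act X).add,
    ← add_smul, add_comm]

end DA

open DA in
theorem da : DAR := fun F =>
  { cx := fun X L H0 v hv => cx_MB hv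
    anti := fun X L H0 H1 h => convexHull_mono fun v ⟨H, β, h1, h2, h3⟩ =>
      ⟨H, β, h.trans h1, h2, h3⟩
    one := fun X L => DD_one
    smul := fun X L D c hL hc hD => DD_ml hL hc hD
    cvx := fun X L => DD_cvx
    cj := fun X L D hD => DD_cj hD
    tz := fun X L D v hD => DD_tz v hD
    inv := fun X u L c h => DD_inv h
    pb := fun X' X p L D hp hD => DD_pb F hp hD
    orb := fun X L b H0 v x hL hv => CX_orb x hL hv }

end T6

end
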