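import Pool.Agent.MP_154433_an.t6.Spec
import Pool.Agent.MP_154433_an.t3s.Shift

/-! Row DM: products of dual functions are dual functions. -/

set_option autoImplicit false
set_option linter.unusedVariables false
set_option warn.classDefReducibility false

open MeasureTheory ProbabilityTheory Filter Topology Function
open scoped BigOperators ComplexConjugate

noncomputable section

namespace T6

open Pool.Agent.MP_154433_an hiding BM
open T3S (B1 MB1 dif norm_exp_le_of norm_prod_le_one)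
open T4S (Gm Act)

namespace DM

lemma exp_mem {α ι : Type} [Fintype ι] [Nonempty ι] {s : Set (α → ℂ)} (hs : Convex ℝ s)
    {f : ι → α → ℂ} (hf : ∀ i, f i ∈ s) : (fun x => 𝔼 i, f i x) ∈ s := by
  have h0 : (Fintype.card ι : ℝ) ≠ 0 := by exact_mod_cast Fintype.card_ne_zero
  have h := hs.sum_mem (t := Finset.univ) (w := fun _ : ι => (Fintype.card ι : ℝ)⁻¹) (z := f)
    (fun _ _ => by positivity) (by simp [h0]) fun i _ => hf i
  convert h using 1
  funext x
  simp only [Fintype.expect_eq_sum_div_card, Finset.sum_apply, Pi.smul_apply, Complex.real_smul,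
    ← Finset.mul_sum]
  push_cast
  ring

lemma shift {k H H' : ℕ} (hH : 1 ≤ H') {Ψ : (Fin k → ℤ) → ℂ} (hΨ : B1 Ψ) (h h' : Fin k → Fin H) :
    ‖(𝔼 g : Fin k → Fin H', 𝔼 g' : Fin k → Fin H', Ψ (dif g g')) -
      𝔼 g : Fin k → Fin H', 𝔼 g' : Fin k → Fin H', Ψ (dif g g' + dif h h')‖ ≤ 2 * k * H / H' := by
  rw [← Finset.expect_sub_distrib]
  refine norm_exp_le_of (by positivity) fun g _ => ?_
  have h1 := T3S.Shift.box (M := H) hH k (fun τ => Ψ fun j => τ j - ((g j : ℕ) : ℤ)) (hΨ.comp _)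
    (dif h h') fun j => by
      have := (h j).2
      have := (h' j).2
      rw [dif, abs_le]
      omega
  have e : ∀ g' : Fin k → Fin H',
      (fun j => ((g' j : ℕ) : ℤ) + dif h h' j - ((g j : ℕ) : ℤ)) = dif g g' + dif h h' := fun g' =>
    funext fun j => by
      simp only [dif, Pi.add_apply]
      ring
  simp only [e] at h1
  rw [norm_sub_rev]
  exact h1

lemma comm4 {A B : Type} [Fintype A] [Fintype B] (F : A → A → B → B → ℂ) :
    𝔼 a, 𝔼 a', 𝔼 b, 𝔼 b', F a a' b b' = 𝔼 b, 𝔼 b', 𝔼 a, 𝔼 a', F a a' b b' := by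
  have e : ∀ G : A → B → B → ℂ, 𝔼 a, 𝔼 b, 𝔼 b', G a b b' = 𝔼 b, 𝔼 b', 𝔼 a, G a b b' := fun G => by
    rw [Finset.expect_comm]
    exact Finset.expect_congr rfl fun b _ => Finset.expect_comm _ _ _
  simp only [e]

variable {X : Sy} {L : List (Gm 2)}

lemma two {H0 H H' : ℕ} (h0 : H0 ≤ H) (hH : 1 ≤ H')
    {β β' : Fin L.length → (Fin L.length → ℤ) → X.X → ℂ} (hβ : ∀ i τ, MB X (β i τ))
    (hβ' : ∀ i τ, MB X (β' i τ)) : ∃ w ∈ CX X L H0, ∀ x,
      ‖blk X L.get H β x * blk X L.get H' β' x - w x‖ ≤ 2 * L.length * H / H' := by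
  have : Nonempty (Fin H') := ⟨⟨0, hH⟩⟩
  refine ⟨fun x => 𝔼 g : Fin L.length → Fin H', 𝔼 g' : Fin L.length → Fin H', blk X L.get H
    (fun i ρ y => β i ρ y * β' i (update (dif g g') i 0 + ρ) (X.A (dif g g' i • L.get i) y)) x,
    exp_mem (convex_convexHull ℝ _) fun g => exp_mem (convex_convexHull ℝ _) fun g' =>
      subset_convexHull ℝ _ ⟨H, _, h0, fun i ρ => (hβ i ρ).mul ((act X).tz (hβ' i _) _), rfl⟩,
    fun x => ?_⟩
  have e : (𝔼 g : Fin L.length → Fin H', 𝔼 g' : Fin L.length → Fin H', blk X L.get H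
      (fun i ρ y => β i ρ y * β' i (update (dif g g') i 0 + ρ) (X.A (dif g g' i • L.get i) y)) x) =
      𝔼 h : Fin L.length → Fin H, 𝔼 h' : Fin L.length → Fin H,
        (∏ i, β i (update (dif h h') i 0) (X.A (dif h h' i • L.get i) x)) *
        𝔼 g : Fin L.length → Fin H', 𝔼 g' : Fin L.length → Fin H',
          ∏ i, β' i (update (dif g g' + dif h h') i 0)
            (X.A ((dif g g' + dif h h') i • L.get i) x) := by
    simp only [blk, Finset.mul_expect]
    rw [comm4]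
    refine Finset.expect_congr rfl fun h _ => Finset.expect_congr rfl fun h' _ =>
      Finset.expect_congr rfl fun g _ => Finset.expect_congr rfl fun g' _ => ?_
    rw [← Finset.prod_mul_distrib]
    refine Finset.prod_congr rfl fun i _ => ?_
    rw [Pi.add_apply, add_smul, (act X).add, ← Function.update_add, add_zero]
  beta_reduce
  rw [e, blk, Finset.expect_mul, ← Finset.expect_sub_distrib]
  refine norm_exp_le_of (by positivity) fun h _ => ?_
  rw [Finset.expect_mul, ← Finset.expect_sub_distrib]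
  refine norm_exp_le_of (by positivity) fun h' _ => ?_
  rw [← mul_sub, norm_mul]
  refine (mul_le_of_le_one_left (norm_nonneg _)
    (norm_prod_le_one _ fun i _ => (hβ _ _).2 _)).trans ?_
  exact shift hH (Ψ := fun σ => ∏ i, β' i (update σ i 0) (X.A (σ i • L.get i) x))
    (fun σ => norm_prod_le_one _ fun i _ => (hβ' _ _).2 _) h h'

lemma mix {p p' w w' : ℂ} {a b η : ℝ} (ha : 0 ≤ a) (hb : 0 ≤ b) (hab : a + b = 1)
    (h : ‖p - w‖ ≤ η) (h' : ‖p' - w'‖ ≤ η) : ‖(a • p + b • p') - (a • w + b • w')‖ ≤ η := by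
  have e : (a • p + b • p') - (a • w + b • w') = a • (p - w) + b • (p' - w') := by
    simp only [smul_sub]
    abel
  rw [e]
  refine (norm_add_le _ _).trans ?_
  simp only [norm_smul, Real.norm_eq_abs, abs_of_nonneg ha, abs_of_nonneg hb]
  calc _ ≤ a * η + b * η := by gcongr
    _ = η := by rw [← add_mul, hab, one_mul]

lemma key (hA : DA) {H0 : ℕ} {η : ℝ} (hη : 0 < η) {v : X.X → ℂ} (hv : v ∈ CX X L H0) :
    ∃ H1, ∀ v' ∈ CX X L H1, ∃ w ∈ CX X L H0, ∀ x, ‖v x * v' x - w x‖ ≤ η := by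
  refine convexHull_min (t := {v : X.X → ℂ |
    ∃ H1, ∀ v' ∈ CX X L H1, ∃ w ∈ CX X L H0, ∀ x, ‖v x * v' x - w x‖ ≤ η}) ?_ ?_ hv
  · rintro _ ⟨H, β, h0, hβ, rfl⟩
    obtain ⟨N, hN⟩ := exists_nat_ge (2 * L.length * H / η)
    refine ⟨N + 1, fun v' hv' => ?_⟩
    refine convexHull_min (t := {v' : X.X → ℂ |
      ∃ w ∈ CX X L H0, ∀ x, ‖blk X L.get H β x * v' x - w x‖ ≤ η}) ?_ ?_ hv'
    · rintro _ ⟨H', β', h1, hβ', rfl⟩
      obtain ⟨w, hw, h⟩ := two h0 (le_trans (Nat.le_add_left 1 N) h1) hβ hβ'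
      refine ⟨w, hw, fun x => (h x).trans ?_⟩
      have h2 : (N : ℝ) + 1 ≤ H' := by exact_mod_cast h1
      have h3 : (0 : ℝ) ≤ N := Nat.cast_nonneg N
      rw [div_le_iff₀ hη] at hN
      rw [div_le_iff₀ (by linarith)]
      nlinarith
    · rintro p ⟨w, hw, h⟩ p' ⟨w', hw', h'⟩ a b ha hb hab
      refine ⟨a • w + b • w', convex_convexHull ℝ _ hw hw' ha hb hab, fun x => ?_⟩
      have := mix ha hb hab (h x) (h' x)
      simpa only [Pi.add_apply, Pi.smul_apply, mul_add, mul_smul_comm] using this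
  · rintro p ⟨H1, h⟩ p' ⟨H2, h'⟩ a b ha hb hab
    refine ⟨max H1 H2, fun v' hv' => ?_⟩
    obtain ⟨w, hw, h1⟩ := h v' (hA.anti X L _ _ (le_max_left _ _) hv')
    obtain ⟨w', hw', h2⟩ := h' v' (hA.anti X L _ _ (le_max_right _ _) hv')
    refine ⟨a • w + b • w', convex_convexHull ℝ _ hw hw' ha hb hab, fun x => ?_⟩
    have := mix ha hb hab (h1 x) (h2 x)
    simpa only [Pi.add_apply, Pi.smul_apply, add_mul, smul_mul_assoc] using this

end DM

theorem dm : DMR := by
  intro _ hA X L D D' hD hD'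
  refine ⟨hD.1.mul hD'.1, fun H0 ε hε => ?_⟩
  have h3 : 0 < ε / 3 := by positivity
  obtain ⟨v, hv, h1⟩ := hD.2 H0 _ h3
  obtain ⟨H1, h⟩ := DM.key hA h3 hv
  obtain ⟨v', hv', h2⟩ := hD'.2 H1 _ h3
  obtain ⟨w, hw, h4⟩ := h v' hv'
  refine ⟨w, hw, ?_⟩
  have m := hA.cx X L _ v hv
  have m' := hA.cx X L _ v' hv'
  have i1 : Integrable (fun x => ‖D x - v x‖) X.μ :=
    ((hD.1.integrable X.μ).sub (m.integrable X.μ)).norm
  have i2 : Integrable (fun x => ‖D' x - v' x‖) X.μ :=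
    ((hD'.1.integrable X.μ).sub (m'.integrable X.μ)).norm
  calc _ ≤ ∫ x, (‖D x - v x‖ + ‖D' x - v' x‖ + ε / 3) ∂X.μ := by
        refine integral_mono_of_nonneg (Eventually.of_forall fun x => norm_nonneg _)
          ((i1.add i2).add (integrable_const _)) (Eventually.of_forall fun x => ?_)
        have e : D x * D' x - w x =
            (D x - v x) * D' x + v x * (D' x - v' x) + (v x * v' x - w x) := by ring
        change ‖D x * D' x - w x‖ ≤ ‖D x - v x‖ + ‖D' x - v' x‖ + ε / 3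
        rw [e]
        refine norm_add₃_le.trans (add_le_add (add_le_add ?_ ?_) (h4 x))
        · rw [norm_mul]
          exact mul_le_of_le_one_right (norm_nonneg _) (hD'.1.2 x)
        · rw [norm_mul]
          exact mul_le_of_le_one_left (norm_nonneg _) (m.2 x)
    _ = ∫ x, ‖D x - v x‖ ∂X.μ + ∫ x, ‖D' x - v' x‖ ∂X.μ + ε / 3 := by
        rw [integral_add (f := fun x => ‖D x - v x‖ + ‖D' x - v' x‖) (i1.add i2)
          (integrable_const _), integral_add i1 i2, integral_const,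
          probReal_univ, one_smul]
    _ ≤ ε := by linarith

end T6

end
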