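import Pool.Agent.MP_154433_an.t6.Spec

/-! From systems over the plane lattice to pairs of commuting maps. -/

set_option autoImplicit false
set_option linter.unusedVariables false

open MeasureTheory ProbabilityTheory Filter Topology Function
open scoped BigOperators ComplexConjugate

noncomputable section

namespace T6

open Pool.Agent.MP_154433_an hiding BM
open T3S (B1 MB1 Bd)
open T4S (Gm Act)

theorem endr : EndR := by
  intro hA w h hw X _ μ _ T hT hc f hf
  obtain ⟨A, act, hd, -⟩ := hA 2 X μ T hT hc
  have h1 := h (@T4x.Sys.mk G2 X _ μ _ A act.mp act.zero act.add) (f 0) (f 1) (hf 0) (hf 1)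
  have h2 : Tendsto (fun M => ∫ x, ‖∑ d ∈ Finset.range M,
      (w M d : ℂ) * ∏ i, f i ((⇑(T i))^[d] x)‖ ∂μ) atTop (𝓝 0) := by
    refine h1.congr fun M => ?_
    simp only [Fin.prod_univ_two, ← hd]
    rfl
  have h3 := h2.const_mul 3
  rw [mul_zero] at h3
  refine squeeze_zero' (Eventually.of_forall fun M => integral_nonneg fun x => by positivity) ?_ h3
  filter_upwards [hw] with M hM
  have hb : ∀ x, ‖∑ d ∈ Finset.range M, (w M d : ℂ) * ∏ i, f i ((⇑(T i))^[d] x)‖ ≤ 3 := fun x => by
    refine (norm_sum_le _ _).trans (le_trans (Finset.sum_le_sum fun d _ => ?_) hM)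
    rw [norm_mul, Complex.norm_real, Real.norm_eq_abs, norm_prod]
    exact mul_le_of_le_one_right (abs_nonneg _)
      (Finset.prod_le_one (fun i _ => norm_nonneg _) fun i _ => (hf i).2 _)
  have hm : Measurable fun x =>
      ‖∑ d ∈ Finset.range M, (w M d : ℂ) * ∏ i, f i ((⇑(T i))^[d] x)‖ :=
    (Finset.measurable_sum _ fun d _ => (Finset.measurable_prod _ fun i _ =>
      (hf i).1.comp ((T i).measurable.iterate d)).const_mul _).norm
  rw [← integral_const_mul]
  refine integral_mono_of_nonneg (Eventually.of_forall fun x => by positivity)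
    ((Integrable.of_bound hm.aestronglyMeasurable 3 (Eventually.of_forall fun x => ?_)).const_mul 3)
    (Eventually.of_forall fun x => ?_)
  · rw [norm_norm]; exact hb x
  · have := mul_le_mul_of_nonneg_right (hb x) (norm_nonneg
      (∑ d ∈ Finset.range M, (w M d : ℂ) * ∏ i, f i ((⇑(T i))^[d] x)))
    simpa only [sq] using this

end T6

end
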