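import Pool.Agent.MP_154433_an.t6.Spec

/-! Row For: the compact step in a direction of the other slot. -/

set_option autoImplicit false
set_option linter.unusedVariables false
set_option warn.classDefReducibility false

open MeasureTheory ProbabilityTheory Filter Topology Function
open scoped BigOperators ComplexConjugate

noncomputable section

namespace T6

open Pool.Agent.MP_154433_an hiding BM
open T3S (B1 MB1 PW AsInv Erg Bd Near Gr yw dif CZ)
open T4S (Gm Act ddX QX ln Spr Concl)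
open Fib27 (BM)
open T3x (nul pull gen)
open T4x (Fac Emb Inv Nice Pair Star KK Fd)

namespace For

lemma bm_of_mb {X : Sy} {f : X.X → ℂ} (hf : MB X f) : BM X.μ X.ms f :=
  ⟨hf.1.aestronglyMeasurable, 1, .of_forall hf.2⟩

lemma mb_d2 {X : Sy} {g : X.X → ℂ} (hg : MB X g) (u : Gm 2) (n n' : ℕ) : MB X (d2 X u n n' g) :=
  ((act X).tz hg _).mul ((act X).tz hg _).cj

/-- a bounded function is a multiple of a function bounded by one -/
lemma nrm (F : Fd) (X : Sy) {g : X.X → ℂ} (hg : BM X.μ X.ms g) :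
    ∃ (c : ℂ) (g0 : X.X → ℂ), MB X g0 ∧ g =ᵐ[X.μ] fun x => c * g0 x := by
  obtain ⟨h1, C, hC⟩ := hg
  have h0 : (0 : ℝ) < |C| + 1 := by positivity
  obtain ⟨g', m, b, e⟩ := F.a.rep X.ms X.μ g (|C| + 1) h0.le h1
    (hC.mono fun x hx => by linarith [le_abs_self C])
  refine ⟨((|C| + 1 : ℝ) : ℂ), fun x => ((|C| + 1 : ℝ) : ℂ)⁻¹ * g' x,
    ⟨measurable_const.mul m, fun x => ?_⟩, ?_⟩
  · rw [norm_mul, norm_inv, Complex.norm_real, Real.norm_of_nonneg h0.le]
    exact inv_mul_le_one_of_le₀ (b x) h0.le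
  · filter_upwards [e] with x hx
    rw [hx, mul_inv_cancel_left₀ (Complex.ofReal_ne_zero.2 h0.ne')]

lemma bd {ν ν' : ℕ → ℕ → ℝ} (h : PW ν) (h' : PW ν') : Bd (df ν ν') := by
  filter_upwards [h.2, h'.2] with M a b
  calc ∑ d ∈ Finset.range M, |df ν ν' M d| ≤ ∑ d ∈ Finset.range M, (ν M d + ν' M d) :=
        Finset.sum_le_sum fun d _ => abs_le.2
          ⟨by rw [df]; linarith [h.1 M d], by rw [df]; linarith [h'.1 M d]⟩
    _ ≤ 3 := by rw [Finset.sum_add_distrib, a, b]; norm_num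

lemma l1 {X : Sy} {h : X.X → ℂ} (hh : BM X.μ X.ms h) {ε : ℝ} (hε : 0 < ε)
    (h2 : ∫ x, ‖h x‖ ^ 2 ∂X.μ ≤ ε ^ 2) : ∫ x, ‖h x‖ ∂X.μ ≤ ε := by
  have i2 : Integrable (fun x => ‖h x‖ ^ 2) X.μ :=
    (hh.mul hh).integrable.norm.congr (.of_forall fun x => by simp [sq])
  have h3 : ∫ x, ‖h x‖ ∂X.μ ≤ ∫ x, (ε / 2 + (2 * ε)⁻¹ * ‖h x‖ ^ 2) ∂X.μ := by
    refine integral_mono hh.integrable.norm ((integrable_const _).add (i2.const_mul _)) fun x => ?_
    have : ε / 2 + (2 * ε)⁻¹ * ‖h x‖ ^ 2 - ‖h x‖ = (2 * ε)⁻¹ * (‖h x‖ - ε) ^ 2 := by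
      field_simp; ring
    have h4 : 0 ≤ (2 * ε)⁻¹ * (‖h x‖ - ε) ^ 2 := by positivity
    simp only
    linarith
  rw [integral_add (integrable_const _) (i2.const_mul _), integral_const_mul] at h3
  simp only [integral_const, probReal_univ, smul_eq_mul, one_mul] at h3
  have h5 : (2 * ε)⁻¹ * ε ^ 2 = ε / 2 := by field_simp
  have h6 := mul_le_mul_of_nonneg_left h2 (show 0 ≤ (2 * ε)⁻¹ by positivity)
  linarith

lemma star_mul {X Z : Sy} {p : Bool → Z.X → X.X} (hp : Emb Z X (p true)) {H : Z.X → ℂ}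
    {g g0 k : X.X → ℂ} {c : ℂ} (eg : g =ᵐ[X.μ] fun x => c * g0 x) (hS : Star p H g k) :
    Star p (fun z => c * H z) g0 k := by
  refine hS.trans (condExp_congr_ae ?_)
  filter_upwards [hp.mp.quasiMeasurePreserving.ae eg] with z hz
  rw [hz]; ring

/-- one convolution in the second slot -/
lemma one (F : Fd) (V : VB) (hK : KeyS) {ν ν' : ℕ → ℕ → ℝ} (hν : PW ν) (hν' : PW ν') {X Z : Sy}
    {a b u : Gm 2} {A1 A2 : MeasurableSpace X.X} {p : Bool → Z.X → X.X} (h1 : Fac X A1)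
    (h2 : Fac X A2) (hP : Pair X A2 Z p) (hG : GP X a b (df ν ν') A1 A2) {r : X.X → ℂ}
    (hr : MB X r) (hr1 : BM X.μ A1 r) (h0 : G0 X b a u ν' r) {H : Z.X → ℂ} {g k : X.X → ℂ}
    (hH : BM Z.μ (Inv Z {u}) H) (hg : BM X.μ X.ms g) (hk : BM X.μ X.ms k) (hS : Star p H g k) :
    Vn X a b (df ν ν') r k := by
  obtain ⟨c, g0, hg0, eg⟩ := nrm F X hg
  obtain ⟨c', k0, hk0, ek⟩ := nrm F X hk
  have hS' : Star p (fun z => c * H z) g0 k := star_mul (hP.emb true) eg hS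
  obtain ⟨K, hK0, hK⟩ := hK X Z A2 p a b u _ g0 k h2 hP (hH.cmul c) hg0 hk hS'
  choose cc hcc using fun n n' => V.ver X A2 (d2 X u n n' g0) h2 (mb_d2 hg0 u n n')
  have sub : ∀ M, NN X a b (df ν ν' M) M r k ≤ NN X a b (ν M) M r k + NN X a b (ν' M) M r k := by
    intro M
    simp only [fun κ => V.congr X a b κ M r r k _ EventuallyEq.rfl ek, V.smul, ← mul_add]
    exact mul_le_mul_of_nonneg_left (V.sub X a b _ _ M r k0 hr hk0) (norm_nonneg _)
  refine tendsto_order.2 ⟨fun t ht => .of_forall fun M => ht.trans_le (V.nonneg _ _ _ _ _ _ _),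
    fun ε hε => ?_⟩
  set η : ℝ := (ε / 3) ^ 2 / (3 * K + 1) with hη
  have hη0 : 0 < η := by positivity
  have hη1 : K * (η + 2 * η) ≤ (ε / 3) ^ 2 := by
    have : (3 * K + 1) * η = (ε / 3) ^ 2 := by rw [hη]; field_simp
    nlinarith
  obtain ⟨N, α, hN, hα, h0⟩ := h0 η hη0
  have : Nonempty (Fin N) := ⟨⟨0, hN⟩⟩
  have e1 : ∀ᶠ M in atTop, ∀ n n' : Fin N,
      NN X a b (ν' M) M (d2 X u n n' r) (cc n n') ≤ α n n' + η :=
    eventually_all.2 fun n => eventually_all.2 fun n' =>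
      (h0 n n' X.ms (cc n n') (d2 X u n n' r) (F.t.top X) (hcc n n').1.1
        ⟨mb_d2 hr u n n', ((bm_of_mb (mb_d2 hr u n n')).ce_self le_rfl).symm⟩ η hη0).mono
        fun M hM => by rwa [V.swap]
  have e2 : ∀ᶠ M in atTop, ∀ n n' : Fin N,
      NN X a b (df ν ν' M) M (d2 X u n n' r) (cc n n') ≤ η :=
    eventually_all.2 fun n => eventually_all.2 fun n' =>
      (hG _ _ (mb_d2 hr u n n') (hcc n n').1.1
        ((F.t.bm X A1 _ r h1 hr1).mul (F.t.bm X A1 _ r h1 hr1).conj)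
        ((bm_of_mb (hcc n n').1.1).of_aesm (hcc n n').2.aestronglyMeasurable)).eventually
        (ge_mem_nhds hη0)
  filter_upwards [e1, e2, hν.2, hν'.2] with M m1 m2 s1 s2
  have fin : ∀ κ : ℕ → ℝ, (∀ d, 0 ≤ κ d) → ∑ d ∈ Finset.range M, κ d = 1 →
      (∀ n n' : Fin N, NN X a b κ M (d2 X u n n' r) (cc n n') ≤ α n n' + 2 * η) →
      NN X a b κ M r k ≤ ε / 3 := by
    intro κ k0 k1 hb
    refine (abs_le_of_sq_le_sq' ?_ (by positivity)).2
    refine (hK r N cc κ M hr hN (fun n n' => (hcc n n').1) k0 k1).trans (le_trans ?_ hη1)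
    refine mul_le_mul_of_nonneg_left ?_ hK0
    refine (Finset.expect_le_expect fun n _ => Finset.expect_le_expect fun n' _ => hb n n').trans ?_
    simp only [Finset.expect_add_distrib, Fintype.expect_const]
    linarith
  have f1 := fin (ν M) (hν.1 M) s1 fun n n' => by
    have := V.tri X a b (ν M) (ν' M) M _ _ (mb_d2 hr u n n') (hcc n n').1.1
    have h3 : NN X a b (fun d => ν M d - ν' M d) M (d2 X u n n' r) (cc n n') ≤ η := m2 n n'
    linarith [m1 n n']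
  have f2 := fin (ν' M) (hν'.1 M) s2 fun n n' => by linarith [m1 n n']
  linarith [sub M]

end For

open For in
theorem forr : ForR := by
  intro F V hK hG0 ν ν' hν hν' ha X a b u B A1 A2 hX hB h1 h2 hle hu hG f k hf hk hf1 hk2
  obtain ⟨f', hv, hm⟩ := V.ver X B f hB.fac hf
  obtain ⟨hr, hz⟩ := V.half X B f f' hB.fac hf hv
  have hf' : BM X.μ B f' := (bm_of_mb hv.1).of_aesm hm.aestronglyMeasurable
  have hr1 : BM X.μ A1 fun x => (2⁻¹ : ℂ) * (f x - f' x) := (hf1.sub (hf'.mono hle)).cmul _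
  have h0 : G0 X b a u ν' fun x => (2⁻¹ : ℂ) * (f x - f' x) := by
    refine hG0 ν' hν' ha X b a u _ hr ?_
    rcases hu with rfl | rfl
    exacts [(hB.nul _ hr hz).1, (hB.nul _ hr hz).2]
  obtain ⟨Z, p, hP⟩ := F.rp Bool (fun _ => X) X A2 (fun _ => id) false (fun _ => hX) h2
    (fun _ => (F.t.emb_id X).mp) fun _ _ _ _ => EventuallyEq.rfl
  have hkm : BM X.μ X.ms k := bm_of_mb hk
  have h3 : Vn X a b (df ν ν') (fun x => (2⁻¹ : ℂ) * (f x - f' x)) k := by
    refine V.span X a b _ _ k {k' | ∃ (H : Z.X → ℂ) (g : X.X → ℂ), BM Z.μ (Inv Z {u}) H ∧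
      BM X.μ X.ms g ∧ BM X.μ X.ms k' ∧ Star p H g k'} (bd hν hν') hr hkm.integrable ?_ ?_
    · rintro φ ⟨H, g, a1, a2, a3, a4⟩
      exact ⟨a3.integrable, one F V hK hν hν' h1 h2 hP hG hr hr1 h0 a1 a2 a3 a4⟩
    · intro ε hε
      obtain ⟨n, H, g, k', hh, he⟩ := F.kb.span X u A2 Z p hX h2 hP k hk2 (ε ^ 2) (by positivity)
      refine ⟨∑ i, k' i, Submodule.sum_mem _ fun i _ => Submodule.subset_span ⟨H i, g i, hh i⟩, ?_⟩
      have hs : BM X.μ X.ms (∑ i, k' i) := by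
        refine Finset.sum_induction _ (fun φ => BM X.μ X.ms φ) (fun φ ψ hφ hψ => hφ.add hψ)
          (Fib27.BM.const 0) fun i _ => (hh i).2.2.1
      exact l1 (hkm.sub hs) hε (by simpa only [Finset.sum_apply] using he)
  have sw : ∀ φ ψ, Vn X a b (df ν ν') φ ψ ↔ Vn X b a (df ν ν') ψ φ := fun φ ψ => by
    simp only [Vn, V.swap X a b]
  have h4 := V.split X b a (df ν ν') k f f' (fun _ => 1) hk hf hv.1
    ⟨measurable_const, fun _ => by simp⟩ (by simpa only [mul_one] using hB.gd f' hv.1 hf' k hk)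
    (by simpa only [mul_one] using (sw _ _).1 h3)
  exact (sw _ _).2 (by simpa only [mul_one] using h4)

end T6

end
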