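import Pool.Agent.MP_154433_an.t6.Spec

/-! Functions with a small box have small averages after one derivative. -/

set_option autoImplicit false
set_option linter.unusedVariables false
set_option warn.classDefReducibility false

open MeasureTheory ProbabilityTheory Filter Topology Function
open scoped BigOperators ComplexConjugate

noncomputable section

namespace T6

open Pool.Agent.MP_154433_an hiding BM
open T3S (B1 MB1 PW AsInv Erg Bd Near Gr yw dif CZ)
open T4S (Gm Act ddX QX ln Spr Concl)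
open Fib27 (BM)
open T3x (nul pull gen)
open T4x (Fac Emb Inv Nice Pair Star KK Fd)

namespace G0

theorem sq_le {Ω : Type} {m : MeasurableSpace Ω} (μ : Measure Ω) [IsProbabilityMeasure μ]
    {F : Ω → ℂ} (hF : Measurable F) {C : ℝ} (hC : ∀ x, ‖F x‖ ≤ C) :
    (∫ x, ‖F x‖ ∂μ) ^ 2 ≤ ∫ x, ‖F x‖ ^ 2 ∂μ := by
  have h2 : MemLp (fun x => ‖F x‖) 2 μ :=
    MemLp.of_bound hF.norm.aestronglyMeasurable C (Eventually.of_forall fun x => by
      simpa using hC x)
  have h := variance_nonneg (fun x => ‖F x‖) μ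
  rw [variance_eq_sub h2] at h
  simpa using h

theorem gvn (hg : T4S.GvnS) {w : ℕ → ℕ → ℝ} (h1 : PW w) (h2 : AsInv w) (X : Sy) (a b : Gm 2)
    {H : ℕ} (hH : 1 ≤ H) {f c : X.X → ℂ} (hf : MB X f) (hc : MB X c) {η : ℝ} (hη : 0 < η) :
    ∀ᶠ M in atTop, NN X a b (w M) M f c ^ 2 ^ 2 ≤ QE X [b, b - a] H c + η := by
  have hm : ∀ i : Fin 2, MB X (![c, f] i) := by
    intro i
    fin_cases i
    · exact hc
    · exact hf
  filter_upwards [hg w h1 h2 2 X.X X.μ X.A (act X) 1 (fun _ => H) (fun _ => hH) ![b, a] ![c, f]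
    hm η hη] with M hM
  refine le_trans ?_ hM
  have e : NN X a b (w M) M f c = ∫ x, ‖T4S.wavg X.A w ![b, a] ![c, f] M x‖ ∂X.μ := by
    simp only [NN, T4S.wavg, Fin.prod_univ_two, Matrix.cons_val_zero, Matrix.cons_val_one,
      mul_comm]
  have h3 := sq_le X.μ ((act X).wavg_meas w ![b, a] (fun i => (hm i).1) M)
    (T4S.wavg_norm_le X.A w ![b, a] (fun i => (hm i).2) M)
  rw [e, show (2 : ℕ) ^ 2 = 2 * 2 ^ 1 by norm_num, pow_mul]
  exact pow_le_pow_left₀ (sq_nonneg _) h3 _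

theorem d2_mb (X : Sy) (u : Gm 2) (n n' : ℕ) {g : X.X → ℂ} (hg : MB X g) :
    MB X (d2 X u n n' g) := ((act X).tz hg _).mul ((act X).tz hg _).cj

theorem mean (qb : QB) (X : Sy) (u : Gm 2) (L : List (Gm 2)) (H : ℕ) {g : X.X → ℂ}
    (hg : MB X g) : 𝔼 n : Fin H, 𝔼 n' : Fin H, QE X L H (d2 X u n n' g) = QE X (u :: L) H g := by
  rw [Finset.expect_comm, QE, List.map_cons, T4S.QX_ln]
  refine Finset.expect_congr rfl fun h _ => Finset.expect_congr rfl fun h' _ => ?_
  refine Eq.trans ?_ (qb.tz X L H _ (((h : ℕ) : ℤ) • u)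
    ((act X).dd hg ((((h' : ℕ) : ℤ) - ((h : ℕ) : ℤ)) • u)))
  congr 1
  funext x
  simp only [d2, ddX]
  rw [← (act X).add, ← add_smul, sub_add_cancel]

end G0

theorem g0 : G0R := by
  intro hg vb qb mo w h1 h2 X a b u g bg hn ε hε
  obtain ⟨K1, k1, p1⟩ := qb.pw 2 (ε / 4) (by positivity)
  obtain ⟨K2, k2, p2⟩ := qb.pw 2 (ε / (4 * (K1 + 1))) (by positivity)
  obtain ⟨H, hH, hq⟩ := hn (ε / (2 * (K1 * K2 + 1))) (by positivity)
  refine ⟨H, fun n n' => ε / 2 + K1 * K2 * QE X [b, b - a] H (d2 X u n n' g), hH, ?_, ?_⟩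
  · have : Nonempty (Fin H) := ⟨⟨0, hH⟩⟩
    simp only [Finset.expect_add_distrib, ← Finset.mul_expect, Finset.expect_const
      Finset.univ_nonempty]
    rw [G0.mean qb X u _ H bg]
    have h3 : K1 * K2 * (ε / (2 * (K1 * K2 + 1))) ≤ ε / 2 := by
      rw [← mul_div_assoc, div_le_div_iff₀ (by positivity) (by positivity)]
      nlinarith [mul_nonneg k1 k2]
    nlinarith [mul_le_mul_of_nonneg_left hq (mul_nonneg k1 k2)]
  · intro n n' Y f c hY bf hc η hη
    have hd := G0.d2_mb X u n n' bg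
    have ne : [b, b - a] ≠ [] := List.cons_ne_nil _ _
    have h4 := p2 _ _ (qb.nonneg X _ H _ ne hd) (mo X Y [b, b - a] H _ c hY ne hH hd hc)
    have hη' : 0 < η / (K1 + 1) := by positivity
    filter_upwards [G0.gvn hg h1 h2 X a b hH bf hc.1 hη'] with M hM
    have h5 := p1 _ _ (add_nonneg (qb.nonneg X _ H _ ne hc.1) hη'.le) hM
    have h6 : K1 * (η / (K1 + 1)) ≤ η := by
      rw [← mul_div_assoc, div_le_iff₀ (by positivity)]
      nlinarith
    have h7 : K1 * (ε / (4 * (K1 + 1))) ≤ ε / 4 := by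
      rw [← mul_div_assoc, div_le_div_iff₀ (by positivity) (by positivity)]
      nlinarith
    nlinarith [mul_le_mul_of_nonneg_left h4 k1]

end T6

end
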