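import Pool.Agent.MP_154433_an.t6.Spec

/-! The first class of functions is good in the second slot. -/

set_option autoImplicit false
set_option linter.unusedVariables false

open MeasureTheory ProbabilityTheory Filter Topology Function
open scoped BigOperators ComplexConjugate

noncomputable section

namespace T6

open Pool.Agent.MP_154433_an hiding BM
open T3S (MB1)
open T4S (Gm)
open Fib27 (BM)

namespace G3

lemma vswap (vb : VB) {X : Sy} {a b : Gm 2} {w : ℕ → ℕ → ℝ} {f g : X.X → ℂ}
    (h : Vn X a b w f g) : Vn X b a w g f := by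
  unfold Vn at h ⊢
  simpa only [vb.swap X a b] using h

lemma vsub (vb : VB) {X : Sy} {a b : Gm 2} {ν ν' : ℕ → ℕ → ℝ} {f g : X.X → ℂ} (hf : MB X f)
    (hg : MB X g) (h : Vn X a b ν f g) (h' : Vn X a b ν' f g) : Vn X a b (df ν ν') f g := by
  have hs := h.add h'
  rw [add_zero] at hs
  exact squeeze_zero (fun M => vb.nonneg _ _ _ _ _ _ _)
    (fun M => vb.sub X a b (ν M) (ν' M) M f g hf hg) hs

end G3

theorem g3 : G3R := by
  intro fd vb zf nb hint ν ν' hy a b X F hF f hf
  obtain ⟨β, c, n, hβ, hc, hn1, hn2, rfl⟩ := hF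
  have hg : MB X fun x => β x * n x := MB1.mul hβ.1 hn1.1
  have hf1 : MB X fun x => f x * c x := MB1.mul hf hc.1
  have hY := zf.fac X (List.replicate 14 a)
  obtain ⟨G', hG', hm⟩ := vb.ver X _ _ hY hf1
  obtain ⟨hh, hz⟩ := vb.half X _ _ G' hY hf1 hG'
  have hGz : InZ X (List.replicate 14 a) G' :=
    ⟨hG'.1, hm.stronglyMeasurable.aestronglyMeasurable, 1, ae_of_all _ hG'.1.2⟩
  have hgz : InZ X (List.replicate 14 b) fun x => β x * n x :=
    zf.mul X _ _ _ (nb.up X [b, b] (List.replicate 12 b) β (by simp) hβ)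
      (nb.up X (List.replicate 6 b) (List.replicate 8 b) n (by simp) hn2)
  have h1 : Vn X a b (df ν ν') G' fun x => β x * n x := hy.pl X a b 14 _ _ (by norm_num) hGz hgz
  have hnul : Nul X (List.replicate 12 a ++ [a, a]) fun x => (2⁻¹ : ℂ) * (f x * c x - G' x) :=
    (nb.iff X (List.replicate 14 a) _ (by simp) hh).2 hz
  have hn := hint X a b n hn1 hn2
  have h2 : Vn X a b (df ν ν') (fun x => (2⁻¹ : ℂ) * (f x * c x - G' x)) fun x => β x * n x :=
    G3.vsub vb hh hg (hy.v1 X a b _ β n _ (by simp) hβ hn hh hnul)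
      (hy.v1' X a b _ β n _ (by simp) hβ hn hh hnul)
  have h3 := vb.split X b a (df ν ν') (fun x => β x * n x) (fun x => f x * c x) G' (fun _ => 1)
    hg hf1 hG'.1 (zf.one X []).1 (by simpa only [mul_one] using G3.vswap vb h1)
    (by simpa only [mul_one] using G3.vswap vb h2)
  have h4 : Vn X a b (df ν ν') (fun x => f x * c x) fun x => β x * n x :=
    G3.vswap vb (by simpa only [mul_one] using h3)
  unfold Vn at h4 ⊢
  simpa only [vb.move X a b _ _ f (fun x => β x * n x) c hc] using h4

end T6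

end
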