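import Pool.Agent.MP_154433_an.t6.Spec

/-! The second class is good. -/

set_option autoImplicit false
set_option linter.unusedVariables false

open MeasureTheory ProbabilityTheory Filter Topology Function
open scoped BigOperators ComplexConjugate

noncomputable section

namespace T6

open Pool.Agent.MP_154433_an hiding BM
open T3S (B1 MB1 PW AsInv Erg Bd Near Gr yw dif CZ)
open T4S (Gm Act ddX QX ln Spr Concl)
open Fib27 (BM)
open T3x (nul pull gen)
open T4x (Fac Emb Inv Nice Pair Star KK Fd)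

namespace G4

lemma mb_mul {X : Sy} {f g : X.X → ℂ} (hf : MB X f) (hg : MB X g) :
    MB X fun x => f x * g x := by
  refine ⟨hf.1.mul hg.1, fun x => ?_⟩
  rw [norm_mul]
  exact mul_le_one₀ (hf.2 x) (norm_nonneg _) (hg.2 x)

lemma bm_of {X : Sy} {Y : MeasurableSpace X.X} {f : X.X → ℂ} (hf : B1 f)
    (hm : Measurable[Y] f) : BM X.μ Y f :=
  ⟨hm.stronglyMeasurable.aestronglyMeasurable, 1, Eventually.of_forall hf⟩

/-- a version that is orthogonal to the function vanishes -/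
lemma ce_zero {X : Sy} {Y : MeasurableSpace X.X} {G n : X.X → ℂ} (hY : Y ≤ X.ms) (hG : MB X G)
    (hv : Ver X Y G n) (hn : Measurable[Y] n) (h : ∫ x, G x * conj (n x) ∂X.μ = 0) :
    X.μ[G | Y] =ᵐ[X.μ] 0 := by
  have bn : BM X.μ Y n := bm_of hv.1.2 hn
  have bG : BM X.μ X.ms G := bm_of hG.2 hG.1
  have h1 : ∫ x, n x * conj (n x) ∂X.μ = 0 := by
    rw [← h, ← Fib27.int_ce_mul hY bG bn.conj]
    refine integral_congr_ae ?_
    filter_upwards [hv.2] with x hx
    rw [← hx]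
  have h2 := Fib27.eq_zero_of_int_conj (bn.mono hY) h1
  filter_upwards [hv.2, h2] with x hx hx'
  rw [← hx, hx']
  rfl

/-- a function orthogonal to the lifted factor is null for the long box -/
lemma nul7 (vb : VB) (zf : ZF) (nb : NB) (lb : LbS) {a b : Gm 2} (tw : Tw2 a b) {X : Sy}
    (nX : Nice X) (lf : LfP (K1 a b) X) {m : X.X → ℂ} (hm : InZ X [b - a, b - a] m)
    (h0 : X.μ[m | LF (K1 a b) X] =ᵐ[X.μ] 0) : Nul X ((b - a) :: List.replicate 6 b) m := by
  obtain ⟨φ, hφ, hb⟩ := tw.1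
  obtain ⟨X', p, p', nX', emb, h⟩ := lb X (b - a) φ nX hφ
  obtain ⟨iv, hL⟩ := h m hm.1
  have ne : List.replicate 6 b ≠ [] := by simp
  refine hL _ (fun v hv => by rw [List.eq_of_mem_replicate hv, hb]) ?_
  have hG : InZ X' [b - a, b - a] fun x => m (p x) * conj (m (p' x)) :=
    zf.mul _ _ _ _ (zf.pb X' X p _ m emb hm) (zf.inv X' (b - a) [b - a] _ iv)
  refine (nb.iff X' _ _ ne hG.1).2 ?_
  have fz := zf.fac X' (List.replicate 6 b)
  obtain ⟨n, hv, hn⟩ := vb.ver X' _ _ fz hG.1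
  refine ce_zero fz.le hG.1 hv hn ?_
  have n1 : InZ X' (List.replicate 6 b) n := ⟨hv.1, bm_of hv.1.2 hn⟩
  have n2 : InZ X' [b - a, b - a] n := nb.keep X' _ _ _ n (by simp) fz hG hv
  have hF : (fun x => conj (m (p' x)) * ((1 : ℂ) * conj (n x))) ∈ K1 a b X' :=
    ⟨fun _ => 1, fun x => conj (m (p' x)), fun x => conj (n x), zf.one _ _, iv, zf.cj _ _ _ n2,
      zf.cj _ _ _ n1, rfl⟩
  have := lf.perp m hm.1 h0 X' p nX' emb _ hF
  rw [← this]
  refine integral_congr_ae (Eventually.of_forall fun x => ?_)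
  simp only [one_mul, mul_assoc]

/-- two concatenations -/
lemma nul5 (nb : NB) (cc : ConcS) {a b : Gm 2} {X : Sy} {m : X.X → ℂ}
    (hm : InZ X [b - a, b - a] m) (h : Nul X ((b - a) :: List.replicate 6 b) m) :
    Nul X ([b, b] ++ [b - a, -a, -a]) m := by
  have e : b - a = b + (1 : ℤ) • (-a) := by rw [one_smul, sub_eq_add_neg]
  have p1 : ((b - a) :: List.replicate 6 b).Perm (b :: b :: [b - a, b, b, b, b]) :=
    (List.perm_middle (a := b - a) (l₁ := [b, b]) (l₂ := [b, b, b, b])).symm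
  have h1 := cc X (b - a) (-a) b 1 _ m hm e (nb.perm X _ _ m p1 h)
  have p2 : (-a :: [b - a, b, b, b, b]).Perm (b :: b :: [-a, b - a, b, b]) :=
    (List.perm_append_comm (l₁ := [-a, b - a]) (l₂ := [b, b])).append_right [b, b]
  have h2 := cc X (b - a) (-a) b 1 _ m hm e (nb.perm X _ _ m p2 h1)
  have p3 : (-a :: [-a, b - a, b, b]).Perm ([b, b] ++ [b - a, -a, -a]) :=
    (List.perm_append_comm (l₁ := [-a, -a, b - a]) (l₂ := [b, b])).trans
      ((List.perm_append_comm (l₁ := [-a, -a]) (l₂ := [b - a])).append_left [b, b])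
  exact nb.perm X _ _ m p3 h2

lemma vn_df (vb : VB) {X : Sy} {a b : Gm 2} {ν ν' : ℕ → ℕ → ℝ} {f g : X.X → ℂ} (hf : MB X f)
    (hg : MB X g) (h : Vn X a b ν f g) (h' : Vn X a b ν' f g) : Vn X a b (df ν ν') f g := by
  have hs := h.add h'
  rw [add_zero] at hs
  exact squeeze_zero (fun M => vb.nonneg _ _ _ _ _ _ _)
    (fun M => vb.sub X a b (ν M) (ν' M) M f g hf hg) hs

end G4

open G4 in
theorem g4 : G4R := by
  intro _ vb zf nb cc la lb lbs cl g3 ν ν' hy a b tw X nX F hF f hf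
  obtain ⟨β, c, hβ, hc, rfl⟩ := hF
  have lf : LfP (K1 a b) X := la _ (cl a b).1 X nX
  obtain ⟨c', hv, hc'⟩ := vb.ver X _ c lf.fac hc.1
  refine vb.split X a b _ f c c' β hf hc.1 hv.1 hβ.1 ?_ ?_
  · have iv : IvF X (b - a) fun _ => (1 : ℂ) := ⟨(zf.one X []).1, EventuallyEq.rfl⟩
    have hK : (fun x => (1 : ℂ) * (β x * 1)) ∈ K1 a b X :=
      ⟨β, fun _ => 1, fun _ => 1, hβ, iv, zf.one _ _, zf.one _ _, rfl⟩
    have bβ : BM X.μ (LF (K1 a b) X) β :=
      (lf.mem _ hK).congr (Eventually.of_forall fun x => by simp only [one_mul, mul_one])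
    exact lb (K1 a b) a b _ (cl a b).1 hy.bd (fun Y _ G hG => g3 ν ν' hy a b Y G hG) X nX _
      (mb_mul hv.1 hβ.1) ((bm_of hv.1.2 hc').mul bβ) f hf
  · obtain ⟨hm1, hm0⟩ := vb.half X _ c c' lf.fac hc.1 hv
    have hz : InZ X [b - a, b - a] c' := nb.keep X _ _ c c' (by simp) lf.fac hc hv
    have hm : InZ X [b - a, b - a] fun x => (2⁻¹ : ℂ) * (c x - c' x) :=
      ⟨hm1, (hc.2.sub hz.2).cmul _⟩
    have hn := nul5 nb cc hm (nul7 vb zf nb lbs tw nX lf hm hm0)
    exact vn_df vb hf (mb_mul hm1 hβ.1) (hy.v2 X a b β _ f hβ hm hf hn)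
      (hy.v2' X a b β _ f hβ hm hf hn)

end T6

end
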