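import Pool.Agent.MP_154433_an.t6.Spec

/-! Row G5: the lifted factor of the second class is a base. -/

set_option autoImplicit false

open MeasureTheory Filter
open scoped ComplexConjugate

noncomputable section

namespace T6

open Pool.Agent.MP_154433_an hiding BM
open T3S (MB1)
open T4S (Gm)
open Fib27 (BM)
open T4x (Fac Emb Inv Nice)

namespace G5

lemma nul (zf : ZF) (nb : NB) (lb : LbS) {𝒞 : ∀ X : Sy, Set (X.X → ℂ)} {X : Sy} (hX : Nice X)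
    (P : LfP 𝒞 X) {u v : Gm 2} (h : ∃ φ, Pj u φ ∧ φ v = v)
    (hC : ∀ (Y : Sy) c D, InZ Y [u, u] c → InZ Y [v, v] D → (fun x => c x * D x) ∈ 𝒞 Y)
    {g : X.X → ℂ} (hg : MB X g) (h0 : X.μ[g | LF 𝒞 X] =ᵐ[X.μ] 0) : Nul X [u, v, v] g := by
  obtain ⟨φ, h1, h2⟩ := h
  obtain ⟨Y, p, p', hY, hp, H⟩ := lb X u φ hX h1
  obtain ⟨h3, h4⟩ := H g hg
  have h5 : MB Y fun x => g (p x) * conj (g (p' x)) :=
    MB1.mul ⟨hg.1.comp hp.mp.measurable, fun x => hg.2 _⟩ h3.1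
  refine h4 [v, v] (by simp [h2]) ((nb.iff Y _ _ (by simp) h5).2 (zf.perp Y _ _ h5 fun D hD => ?_))
  simp only [mul_assoc]
  exact P.perp g hg h0 Y p hY hp _ (hC Y _ D (zf.inv Y u [u] _ h3) (zf.dd Y _ D hD))

end G5

theorem g5 : G5R := by
  intro F vb zf nb la lb lbs cl g4 ν ν' hy a b tw X hX
  have P := la _ (cl a b).2 X hX
  have le : ∀ u, (∀ c, InZ X [u, u] c → c ∈ K2 a b X) → Inv X {u} ≤ LF (K2 a b) X := fun u h =>
    vb.fle X _ _ (F.t.finv X {u}) P.fac fun c hc hm => P.mem c (h c (zf.inv X u [u] c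
      ((vb.ivf X u c hc).2 ⟨hm.stronglyMeasurable.aestronglyMeasurable, 1, .of_forall hc.2⟩)))
  refine ⟨_, P.fac, le b fun c hc => ⟨c, _, hc, zf.one X _, by simp⟩,
    le _ fun c hc => ⟨_, c, zf.one X _, hc, by simp⟩,
    lb _ a b _ (cl a b).2 hy.bd (g4 ν ν' hy a b tw) X hX, fun g hg h0 => ⟨?_, ?_⟩⟩
  · exact nb.perm X _ _ g (List.perm_append_comm (l₁ := [b - a]) (l₂ := [b, b]))
      (G5.nul zf nb lbs hX P tw.1 (fun Y c D hc hD => ⟨D, c, hD, hc, rfl⟩) hg h0)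
  · exact nb.perm X _ _ g (List.Perm.swap _ _ _) (G5.nul zf nb lbs hX P tw.2
      (fun Y c D hc hD => ⟨c, D, hc, hD, funext fun _ => mul_comm _ _⟩) hg h0)

end T6

end
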