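import Pool.Agent.MP_154433_an.t6.Spec
import Pool.Agent.MP_154433_an.t3s.Gcs

/-! Row GcsB: the Cauchy-Schwarz bound for one block. -/

set_option autoImplicit false
set_option linter.unusedVariables false
set_option warn.classDefReducibility false

open MeasureTheory ProbabilityTheory Filter Topology Function
open scoped BigOperators ComplexConjugate

noncomputable section

namespace T6

open Pool.Agent.MP_154433_an hiding BM
open T3S (B1 MB1 dif norm_exp_le norm_exp_le_of meas_exp integral_exp re_exp conj_exp exp_le_of_le)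
open T4S (Gm Act ddX QX ln)
open T3S.Gcs (pow_exp_le exp_cons)

namespace GcsB

variable {l : ℕ} {X : Type} [MeasurableSpace X] {μ : Measure X} [IsProbabilityMeasure μ]
  {A : Gm l → X → X} {H : ℕ}

/-- the total shift -/
def tot {k : ℕ} (u : Fin k → Gm l) (h : Fin k → Fin H) : Gm l := ∑ i, ((h i : ℕ) : ℤ) • u i

/-- the multilinear form -/
def Lam (μ : Measure X) (A : Gm l → X → X) {k : ℕ} (u : Fin k → Gm l) (Ψ : X → ℂ)
    (B : Fin k → (Fin k → Fin H) → X → ℂ) : ℂ :=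
  𝔼 h : Fin k → Fin H, ∫ x, Ψ (A (tot u h) x) * ∏ i, B i h x ∂μ

lemma tot_cons {k : ℕ} (u : Fin (k + 1) → Gm l) (a : Fin H) (t : Fin k → Fin H) :
    tot u (Fin.cons a t) = ((a : ℕ) : ℤ) • u 0 + tot (fun j => u j.succ) t := by
  simp only [tot, Fin.sum_univ_succ, Fin.cons_zero, Fin.cons_succ]

lemma cs {f : X → ℂ} (hf : MB1 f) : (∫ x, ‖f x‖ ∂μ) ^ 2 ≤ (∫ x, f x * conj (f x) ∂μ).re := by
  have m : AEStronglyMeasurable (fun x => ‖f x‖) μ := hf.1.norm.aestronglyMeasurable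
  have h2 : MemLp (fun x => ‖f x‖) 2 μ :=
    MemLp.of_bound m 1 (Eventually.of_forall fun x => by simpa using hf.2 x)
  have h3 := variance_nonneg (fun x => ‖f x‖) μ
  rw [variance_eq_sub h2] at h3
  have h4 : ∫ x, f x * conj (f x) ∂μ = ((∫ x, ‖f x‖ ^ 2 ∂μ : ℝ) : ℂ) := by
    rw [← integral_complex_ofReal]
    exact integral_congr_ae (Eventually.of_forall fun x => by
      simp only [Complex.mul_conj, Complex.normSq_eq_norm_sq])
  rw [h4, Complex.ofReal_re]
  exact sub_nonneg.1 h3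

/-- the new function -/
def nΨ (A : Gm l → X → X) (v : Gm l) (Ψ : X → ℂ) (a a' : Fin H) (y : X) : ℂ :=
  ddX A ((((a' : ℕ) : ℤ) - ((a : ℕ) : ℤ)) • v) Ψ (A (((a : ℕ) : ℤ) • v) y)

/-- the new factors -/
def nB {k : ℕ} (B : Fin (k + 1) → (Fin (k + 1) → Fin H) → X → ℂ) (a a' : Fin H) (j : Fin k)
    (t : Fin k → Fin H) (x : X) : ℂ :=
  B j.succ (Fin.cons a' t) x * conj (B j.succ (Fin.cons a t) x)

lemma step (hA : Act μ A) (hH : 1 ≤ H) {k : ℕ} (u : Fin (k + 1) → Gm l) {Ψ : X → ℂ} (hΨ : MB1 Ψ)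
    {B : Fin (k + 1) → (Fin (k + 1) → Fin H) → X → ℂ} (hB : ∀ i h, MB1 (B i h))
    (hI : ∀ i h a, B i (update h i a) = B i h) :
    ‖Lam μ A u Ψ B‖ ^ 2 ≤ 𝔼 a : Fin H, 𝔼 a' : Fin H,
      (Lam μ A (fun j => u j.succ) (nΨ A (u 0) Ψ a a') (nB B a a')).re := by
  have a0 : Fin H := ⟨0, hH⟩
  have : Nonempty (Fin H) := ⟨a0⟩
  set G : (Fin k → Fin H) → Fin H → X → ℂ := fun t a x =>
    Ψ (A (tot u (Fin.cons a t)) x) * ∏ j : Fin k, B j.succ (Fin.cons a t) x with hG
  have mG : ∀ t a, MB1 (G t a) := fun t a =>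
    (hA.tz hΨ _).mul (T3S.MB1.prod _ fun j _ => hB _ _)
  set F : (Fin k → Fin H) → X → ℂ := fun t x => 𝔼 a, G t a x with hF
  have mF : ∀ t, MB1 (F t) := fun t =>
    ⟨meas_exp _ fun a _ => (mG t a).1, fun x => norm_exp_le_of zero_le_one fun a _ => (mG t a).2 x⟩
  have e1 : Lam μ A u Ψ B = 𝔼 t, ∫ x, B 0 (Fin.cons a0 t) x * F t x ∂μ := by
    rw [Lam, exp_cons, Finset.expect_comm]
    refine Finset.expect_congr rfl fun t _ => ?_
    simp only [hF, Finset.mul_expect]
    rw [integral_exp _ fun a _ => ((hB _ _).mul (mG t a)).integrable μ]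
    refine Finset.expect_congr rfl fun a _ => ?_
    refine integral_congr_ae (Eventually.of_forall fun x => ?_)
    have e : B 0 (Fin.cons a t) = B 0 (Fin.cons a0 t) := by
      rw [← hI 0 (Fin.cons a0 t) a, Fin.update_cons_zero]
    simp only [hG, Fin.prod_univ_succ, e]
    ring
  have h1 : ‖Lam μ A u Ψ B‖ ≤ 𝔼 t, ∫ x, ‖F t x‖ ∂μ := by
    rw [e1]
    refine (norm_exp_le _ _).trans (Finset.expect_le_expect fun t _ => ?_)
    refine (norm_integral_le_integral_norm _).trans (integral_mono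
      (((hB _ _).mul (mF t)).integrable μ).norm ((mF t).integrable μ).norm fun x => ?_)
    simp only [norm_mul]
    exact mul_le_of_le_one_left (norm_nonneg _) ((hB _ _).2 x)
  have h2 : (𝔼 t, ∫ x, ‖F t x‖ ∂μ) ^ 2 ≤ 𝔼 t, (∫ x, F t x * conj (F t x) ∂μ).re :=
    (pow_exp_le _ (fun t => integral_nonneg fun x => norm_nonneg _) 2).trans
      (Finset.expect_le_expect fun t _ => cs (mF t))
  refine (pow_le_pow_left₀ (norm_nonneg _) h1 2).trans (h2.trans (le_of_eq ?_))
  have e2 : ∀ t, ∫ x, F t x * conj (F t x) ∂μ =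
      𝔼 a : Fin H, 𝔼 a' : Fin H, ∫ x, G t a' x * conj (G t a x) ∂μ := fun t => by
    have e : ∀ x, F t x * conj (F t x) = 𝔼 a, 𝔼 a', G t a' x * conj (G t a x) := fun x => by
      simp only [hF]
      rw [conj_exp, Finset.mul_expect]
      exact Finset.expect_congr rfl fun a _ => Finset.expect_mul _ _ _
    have m1 : ∀ a, MB1 fun x => 𝔼 a', G t a' x * conj (G t a x) := fun a =>
      ⟨meas_exp _ fun a' _ => ((mG t a').mul (mG t a).cj).1,
        fun x => norm_exp_le_of zero_le_one fun a' _ => ((mG t a').mul (mG t a).cj).2 x⟩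
    simp only [e]
    rw [integral_exp _ fun a _ => (m1 a).integrable μ]
    exact Finset.expect_congr rfl fun a _ =>
      integral_exp _ fun a' _ => ((mG t a').mul (mG t a).cj).integrable μ
  simp only [e2, Lam, re_exp]
  rw [Finset.expect_comm]
  refine Finset.expect_congr rfl fun a _ => ?_
  rw [Finset.expect_comm]
  refine Finset.expect_congr rfl fun a' _ => Finset.expect_congr rfl fun t _ => ?_
  congr 2
  funext x
  simp only [hG, nΨ, nB, ddX, tot_cons, ← hA.add, map_mul, map_prod, Finset.prod_mul_distrib]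
  rw [sub_smul, ← add_assoc, sub_add_cancel]
  ring

lemma main (hA : Act μ A) (hH : 1 ≤ H) (k : ℕ) (u : Fin (k + 1) → Gm l) {Ψ : X → ℂ} (hΨ : MB1 Ψ)
    {B : Fin (k + 1) → (Fin (k + 1) → Fin H) → X → ℂ} (hB : ∀ i h, MB1 (B i h))
    (hI : ∀ i h a, B i (update h i a) = B i h) :
    ‖Lam μ A u Ψ B‖ ^ 2 ^ (k + 1) ≤ QX μ A ((List.ofFn u).map fun v => ln v H) Ψ := by
  have : Nonempty (Fin H) := ⟨⟨0, hH⟩⟩
  induction k generalizing Ψ with
  | zero =>
    have e : 2 ^ (0 + 1) = 2 := by norm_num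
    rw [e, List.ofFn_succ, List.map_cons, T4S.QX_ln]
    refine (step hA hH u hΨ hB hI).trans (le_of_eq ?_)
    refine Finset.expect_congr rfl fun a _ => Finset.expect_congr rfl fun a' _ => ?_
    rw [← hA.QX_tz _ (((a : ℕ) : ℤ) • u 0) (hA.dd hΨ _)]
    simp [Lam, tot, hA.zero, QX, nΨ]
  | succ k ih =>
    rw [pow_succ' 2 (k + 1), pow_mul, List.ofFn_succ, List.map_cons, T4S.QX_ln]
    have h1 : ‖Lam μ A u Ψ B‖ ^ 2 ≤ 𝔼 a : Fin H, 𝔼 a' : Fin H,
        ‖Lam μ A (fun j => u j.succ) (nΨ A (u 0) Ψ a a') (nB B a a')‖ :=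
      (step hA hH u hΨ hB hI).trans (Finset.expect_le_expect fun a _ =>
        Finset.expect_le_expect fun a' _ => Complex.re_le_norm _)
    refine (pow_le_pow_left₀ (sq_nonneg _) h1 _).trans ?_
    refine (pow_exp_le _ (fun a => Finset.expect_nonneg fun _ _ => norm_nonneg _) _).trans ?_
    refine Finset.expect_le_expect fun a _ => ?_
    refine (pow_exp_le _ (fun _ => norm_nonneg _) _).trans ?_
    refine Finset.expect_le_expect fun a' _ => ?_
    rw [← hA.QX_tz _ (((a : ℕ) : ℤ) • u 0) (hA.dd hΨ _)]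
    refine ih _ (hA.tz (hA.dd hΨ _) _) (fun j t => (hB _ _).mul (hB _ _).cj) fun j t b => ?_
    funext x
    simp only [nB, Fin.cons_update, hI]

lemma blk_le (hA : Act μ A) (hH : 1 ≤ H) (k : ℕ) (u : Fin (k + 1) → Gm l) {Ψ : X → ℂ}
    (hΨ : MB1 Ψ) {β : Fin (k + 1) → (Fin (k + 1) → ℤ) → X → ℂ} (hβ : ∀ i τ, MB1 (β i τ)) :
    ‖∫ x, Ψ x * 𝔼 h : Fin (k + 1) → Fin H, 𝔼 h' : Fin (k + 1) → Fin H,
      ∏ i, β i (update (dif h h') i 0) (A (dif h h' i • u i) x) ∂μ‖ ^ 2 ^ (k + 1) ≤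
      QX μ A ((List.ofFn u).map fun v => ln v H) Ψ := by
  have : Nonempty (Fin H) := ⟨⟨0, hH⟩⟩
  set B : (Fin (k + 1) → Fin H) → Fin (k + 1) → (Fin (k + 1) → Fin H) → X → ℂ := fun h' i h x =>
    β i (update (dif h h') i 0) (A (dif h h' i • u i + tot u h) x) with hB
  have mP : ∀ h h' : Fin (k + 1) → Fin H, MB1 fun x =>
      Ψ x * ∏ i, β i (update (dif h h') i 0) (A (dif h h' i • u i) x) := fun h h' =>
    hΨ.mul (T3S.MB1.prod _ fun i _ => hA.tz (hβ _ _) _)
  have e1 : ∫ x, Ψ x * 𝔼 h : Fin (k + 1) → Fin H, 𝔼 h' : Fin (k + 1) → Fin H,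
      ∏ i, β i (update (dif h h') i 0) (A (dif h h' i • u i) x) ∂μ =
      𝔼 h', Lam μ A u Ψ (B h') := by
    simp only [Finset.mul_expect, Lam]
    have m1 : ∀ h : Fin (k + 1) → Fin H, MB1 fun x => 𝔼 h' : Fin (k + 1) → Fin H,
        Ψ x * ∏ i, β i (update (dif h h') i 0) (A (dif h h' i • u i) x) := fun h =>
      ⟨meas_exp _ fun h' _ => (mP h h').1,
        fun x => norm_exp_le_of zero_le_one fun h' _ => (mP h h').2 x⟩
    rw [integral_exp _ fun h _ => (m1 h).integrable μ, Finset.expect_comm]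
    refine Finset.expect_congr rfl fun h _ => ?_
    rw [integral_exp _ fun h' _ => (mP h h').integrable μ]
    refine Finset.expect_congr rfl fun h' _ => ?_
    rw [← hA.integral (tot u h) (mP h h').1.aestronglyMeasurable]
    simp only [hB, hA.add]
  rw [e1]
  refine (pow_le_pow_left₀ (norm_nonneg _) (norm_exp_le _ _) _).trans ?_
  refine (pow_exp_le _ (fun _ => norm_nonneg _) _).trans ?_
  refine Finset.expect_le Finset.univ_nonempty fun h' _ => ?_
  refine main hA hH k u hΨ (fun i h => hA.tz (hβ _ _) _) fun i h a => ?_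
  have e2 : update (dif (update h i a) h') i 0 = update (dif h h') i 0 := by
    funext j
    by_cases hj : j = i
    · subst hj
      simp
    · simp [hj, dif]
  have e3 : ∀ g : Fin (k + 1) → Fin H, dif g h' i • u i + tot u g =
      ((h' i : ℕ) : ℤ) • u i + ∑ j ∈ Finset.univ.erase i, ((g j : ℕ) : ℤ) • u j := fun g => by
    rw [tot, ← Finset.add_sum_erase _ _ (Finset.mem_univ i), dif, sub_smul, ← add_assoc,
      sub_add_cancel]
  funext x
  simp only [hB, e2, e3]
  congr 3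
  exact Finset.sum_congr rfl fun j hj => by rw [update_of_ne (Finset.ne_of_mem_erase hj)]

end GcsB

theorem gcsB : GcsBR := by
  intro _ X L H Ψ β hL hH hΨ hβ
  cases L with
  | nil => exact absurd rfl hL
  | cons v L =>
    have h := GcsB.blk_le (act X) hH L.length (v :: L).get hΨ hβ
    rw [List.ofFn_get] at h
    exact h

end T6

end
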