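import Pool.Agent.MP_154433_an.t6.Spec

/-! Row GcsD: the Cauchy-Schwarz bound for dual functions, at every length. -/

set_option autoImplicit false
set_option linter.unusedVariables false
set_option warn.classDefReducibility false

open MeasureTheory ProbabilityTheory Filter Topology Function
open scoped BigOperators ComplexConjugate

noncomputable section

namespace T6

open Pool.Agent.MP_154433_an hiding BM
open T3S (B1 MB1 dif)
open T4S (Gm)

namespace GcsD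

variable {X : Sy} {k : ℕ} {u : Fin k → Gm 2} {Ψ : X.X → ℂ}

/-- one term of the pairing with a block -/
def tm (X : Sy) (u : Fin k → Gm 2) (Ψ : X.X → ℂ) (β : Fin k → (Fin k → ℤ) → X.X → ℂ)
    (τ : Fin k → ℤ) : ℂ := ∫ x, Ψ x * ∏ i, β i (update τ i 0) (X.A (τ i • u i) x) ∂X.μ

lemma mb {β : Fin k → (Fin k → ℤ) → X.X → ℂ} (hΨ : MB X Ψ) (hβ : ∀ i τ, MB X (β i τ))
    (τ : Fin k → ℤ) : MB X fun x => Ψ x * ∏ i, β i (update τ i 0) (X.A (τ i • u i) x) :=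
  hΨ.mul (MB1.prod _ fun i _ => (act X).tz (hβ _ _) _)

lemma nrm {f : X.X → ℂ} (hf : MB X f) : ‖∫ x, f x ∂X.μ‖ ≤ 1 := by
  simpa using norm_integral_le_of_norm_le_const (μ := X.μ) (Eventually.of_forall hf.2)

lemma pair {β : Fin k → (Fin k → ℤ) → X.X → ℂ} (hΨ : MB X Ψ) (hβ : ∀ i τ, MB X (β i τ)) (H : ℕ) :
    ∫ x, Ψ x * blk X u H β x ∂X.μ =
      𝔼 h : Fin k → Fin H, 𝔼 h' : Fin k → Fin H, tm X u Ψ β (dif h h') := by
  simp only [blk, Finset.mul_expect, tm]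
  rw [T3S.integral_exp _ fun h _ => ?_]
  · exact Finset.expect_congr rfl fun h _ =>
      T3S.integral_exp _ fun h' _ => (mb hΨ hβ _).integrable _
  · exact MB1.integrable ⟨T3S.meas_exp _ fun h' _ => (mb hΨ hβ _).1, fun x =>
      T3S.norm_exp_le_of zero_le_one fun h' _ => (mb hΨ hβ _).2 x⟩ _

lemma long (hS : T3S.ShiftS) {H H' : ℕ} {ρ : ℝ} (hρ : 0 ≤ ρ) (hH : 1 ≤ H) (hH' : 1 ≤ H')
    (hΨ : MB X Ψ) (hb : ∀ β : Fin k → (Fin k → ℤ) → X.X → ℂ, (∀ i τ, MB X (β i τ)) →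
      ‖∫ x, Ψ x * blk X u H β x ∂X.μ‖ ≤ ρ) {β : Fin k → (Fin k → ℤ) → X.X → ℂ}
    (hβ : ∀ i τ, MB X (β i τ)) : ‖∫ x, Ψ x * blk X u H' β x ∂X.μ‖ ≤ ρ + 4 * k * H / H' := by
  have h1 := hS k H' H (tm X u Ψ β) hH' hH fun τ => nrm (mb hΨ hβ τ)
  rw [pair hΨ hβ]
  refine (norm_le_norm_add_norm_sub' _ _).trans (add_le_add ?_ h1)
  refine T3S.norm_exp_le_of hρ fun h _ => T3S.norm_exp_le_of hρ fun h' _ => ?_
  have h2 : ∀ i s, MB X fun y => β i (update (dif h h') i 0 + s) (X.A (dif h h' i • u i) y) :=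
    fun i s => (act X).tz (hβ _ _) _
  refine le_of_eq_of_le (congrArg _ ?_) (hb _ h2)
  rw [pair hΨ h2]
  refine Finset.expect_congr rfl fun v _ => Finset.expect_congr rfl fun v' _ => ?_
  simp only [tm, Pi.add_apply, add_smul, (act X).add, ← Function.update_add, add_zero]

end GcsD

theorem gcsD : GcsDR := by
  intro hS hQ hD hB X L H Ψ D hL hH hΨ hDD
  have q0 := hQ.nonneg X L H Ψ hL hΨ
  have hn : 2 ^ L.length ≠ 0 := by positivity
  obtain ⟨ρ, hρ, e⟩ : ∃ ρ : ℝ, 0 ≤ ρ ∧ ρ ^ 2 ^ L.length = QE X L H Ψ :=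
    ⟨_, Real.rpow_nonneg q0 _, Real.rpow_inv_natCast_pow q0 hn⟩
  rw [← e]
  refine pow_le_pow_left₀ (norm_nonneg _) (le_of_forall_pos_le_add fun ε hε => ?_) _
  obtain ⟨H0, hH0⟩ := exists_nat_gt (4 * L.length * H / (ε / 2))
  have p0 : (0 : ℝ) < H0 := lt_of_le_of_lt (by positivity) hH0
  obtain ⟨v, hv, hv'⟩ := hDD.2 H0 (ε / 2) (half_pos hε)
  have mv := hD.cx X L H0 v hv
  have key : MB X v ∧ ‖∫ x, Ψ x * v x ∂X.μ‖ ≤ ρ + ε / 2 := by
    refine convexHull_min (t := {v | MB X v ∧ ‖∫ x, Ψ x * v x ∂X.μ‖ ≤ ρ + ε / 2}) ?_ ?_ hv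
    · rintro _ ⟨H', β, h1, h2, rfl⟩
      have p1 : (H0 : ℝ) ≤ H' := by exact_mod_cast h1
      refine ⟨hD.cx X L H0 _ (subset_convexHull ℝ _ ⟨H', β, h1, h2, rfl⟩),
        (GcsD.long hS hρ hH (by exact_mod_cast p0.trans_le p1) hΨ (fun β hβ => ?_) h2).trans
          (add_le_add le_rfl ?_)⟩
      · exact (pow_le_pow_iff_left₀ (norm_nonneg _) hρ hn).1 (e ▸ hB X L H Ψ β hL hH hΨ hβ)
      · rw [div_lt_iff₀ (half_pos hε)] at hH0
        rw [div_le_iff₀ (p0.trans_le p1)]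
        nlinarith
    · intro f hf g hg a b ha hb hab
      refine ⟨MB1.convex hf.1 hg.1 ha hb hab, ?_⟩
      have e1 : ∫ x, Ψ x * (a • f + b • g) x ∂X.μ =
          a • ∫ x, Ψ x * f x ∂X.μ + b • ∫ x, Ψ x * g x ∂X.μ := by
        rw [← integral_smul, ← integral_smul]
        simp only [Pi.add_apply, Pi.smul_apply, mul_add, mul_smul_comm]
        exact integral_add (((hΨ.mul hf.1).integrable _).smul a)
          (((hΨ.mul hg.1).integrable _).smul b)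
      rw [e1]
      refine (norm_add_le _ _).trans ?_
      rw [norm_smul, norm_smul, Real.norm_of_nonneg ha, Real.norm_of_nonneg hb]
      have a1 := mul_le_mul_of_nonneg_left hf.2 ha
      have a2 := mul_le_mul_of_nonneg_left hg.2 hb
      have a3 : a * (ρ + ε / 2) + b * (ρ + ε / 2) = ρ + ε / 2 := by rw [← add_mul, hab, one_mul]
      linarith
  have i1 := (hΨ.mul hDD.1).integrable X.μ
  have i2 := (hΨ.mul mv).integrable X.μ
  have d : ‖∫ x, Ψ x * D x ∂X.μ - ∫ x, Ψ x * v x ∂X.μ‖ ≤ ε / 2 := by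
    rw [← integral_sub i1 i2]
    refine (norm_integral_le_of_norm_le ((hDD.1.integrable X.μ).sub (mv.integrable X.μ)).norm
      (Eventually.of_forall fun x => ?_)).trans hv'
    rw [← mul_sub, norm_mul]
    exact mul_le_of_le_one_left (norm_nonneg _) (hΨ.2 x)
  linarith [norm_le_norm_add_norm_sub' (∫ x, Ψ x * D x ∂X.μ) (∫ x, Ψ x * v x ∂X.μ), key.2]

end T6

end
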