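import Pool.Agent.MP_154433_an.t6.Spec

/-! Row Hull: the good pairs of factors pass to the hull. -/

set_option autoImplicit false
set_option linter.unusedVariables false

open MeasureTheory ProbabilityTheory Filter Topology Function
open scoped BigOperators ComplexConjugate

noncomputable section

namespace T6

open Pool.Agent.MP_154433_an hiding BM
open T3S (B1 MB1 PW AsInv Bd)
open T4S (Gm)
open Fib27 (BM)
open T3x (nul)
open T4x (Fac Nice KK Fd)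

namespace Hull

theorem itg {Ω : Type} [MeasurableSpace Ω] (μ : Measure Ω) [IsProbabilityMeasure μ] {g : Ω → ℂ}
    (hg : MB1 g) : MemLp g 2 μ :=
  MemLp.of_bound hg.1.aestronglyMeasurable 1 (ae_of_all _ hg.2)

theorem l1 {Ω : Type} [MeasurableSpace Ω] (μ : Measure Ω) [IsProbabilityMeasure μ] {h : Ω → ℂ}
    (hh : MemLp h 2 μ) {ε : ℝ} (hε : 0 < ε) (h2 : ∫ x, ‖h x‖ ^ 2 ∂μ ≤ ε ^ 2) :
    ∫ x, ‖h x‖ ∂μ ≤ ε := by
  have i2 : Integrable (fun x => (2 * ε)⁻¹ * ‖h x‖ ^ 2) μ :=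
    (hh.integrable_norm_pow two_ne_zero).const_mul _
  have k : ∫ x, ‖h x‖ ∂μ ≤ ∫ x, (ε / 2 + (2 * ε)⁻¹ * ‖h x‖ ^ 2) ∂μ := by
    refine integral_mono (hh.integrable one_le_two).norm ((integrable_const _).add i2) fun x => ?_
    have e : ε / 2 + (2 * ε)⁻¹ * ‖h x‖ ^ 2 - ‖h x‖ = (2 * ε)⁻¹ * (‖h x‖ - ε) ^ 2 := by
      field_simp
      ring
    have : 0 ≤ (2 * ε)⁻¹ * (‖h x‖ - ε) ^ 2 := by positivity
    simp only
    linarith
  rw [integral_add (integrable_const _) i2, integral_const_mul, integral_const] at k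
  have e : ε / 2 + (2 * ε)⁻¹ * ε ^ 2 = ε := by
    field_simp
    ring
  have := mul_le_mul_of_nonneg_left h2 (by positivity : 0 ≤ (2 * ε)⁻¹)
  simp only [probReal_univ, smul_eq_mul, one_mul] at k
  linarith

theorem bd {ν ν' : ℕ → ℕ → ℝ} (h : PW ν) (h' : PW ν') : Bd (df ν ν') := by
  filter_upwards [h.2, h'.2] with M e e'
  have : ∑ d ∈ Finset.range M, |df ν ν' M d| ≤ ∑ d ∈ Finset.range M, (ν M d + ν' M d) :=
    Finset.sum_le_sum fun d _ => abs_le.2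
      ⟨by simp only [df]; linarith [h.1 M d], by simp only [df]; linarith [h'.1 M d]⟩
  rw [Finset.sum_add_distrib, e, e'] at this
  linarith

variable {X : Sy} {a b : Gm 2} {w : ℕ → ℕ → ℝ}

theorem swap (V : VB) {A1 A2 : MeasurableSpace X.X} (h : GP X a b w A1 A2) : GP X b a w A2 A1 :=
  fun f g hf hg bf bg => (h g f hg hf bg bf).congr fun M => V.swap X a b (w M) M g f

theorem mono {A1 A2 A1' A2' : MeasurableSpace X.X} (h : GP X a b w A1 A2) (h1 : A1' ≤ A1)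
    (h2 : A2' ≤ A2) : GP X a b w A1' A2' :=
  fun f g hf hg bf bg => h f g hf hg ⟨bf.1.mono h1, bf.2⟩ ⟨bg.1.mono h2, bg.2⟩

theorem lim (F : Fd) (V : VB) (hw : Bd w) (𝒟 : Set (MeasurableSpace X.X)) (ne : 𝒟.Nonempty)
    (dir : DirectedOn (· ≤ ·) 𝒟) (fac : ∀ D ∈ 𝒟, Fac X D) {A1 : MeasurableSpace X.X}
    (h : ∀ D ∈ 𝒟, GP X a b w A1 D) : GP X a b w A1 (sSup 𝒟) := by
  intro f g hf hg bf bg
  have mg := @itg X.X X.ms X.μ X.pr g hg
  refine V.span X a b w f g {φ | MB X φ ∧ ∃ D ∈ 𝒟, BM X.μ D φ} hw hf (mg.integrable one_le_two)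
    ?_ fun ε hε => ?_
  · rintro φ ⟨h1, D, hD, h2⟩
    exact ⟨(@itg X.X X.ms X.μ X.pr φ h1).integrable one_le_two, h D hD f φ hf h1 bf h2⟩
  · obtain ⟨D, hD, hc⟩ := F.d.chain 𝒟 X.μ ne dir (fun D hD => (fac D hD).le) g mg (ε ^ 2)
      (by positivity)
    obtain ⟨G, hG, mG⟩ := V.ver X D g (fac D hD) hg
    refine ⟨G, Submodule.subset_span ⟨hG.1, D, hD, mG.aestronglyMeasurable, 1,
      ae_of_all _ hG.1.2⟩, ?_⟩
    refine @l1 X.X X.ms X.μ X.pr (fun x => g x - G x) (mg.sub (@itg X.X X.ms X.μ X.pr G hG.1)) ε hε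
      (le_trans (le_of_eq (integral_congr_ae ?_)) (hc D hD le_rfl))
    have e := condExp_of_aestronglyMeasurable' (F.t.fsSup X 𝒟 ne fac).le bg.1
      (mg.integrable one_le_two)
    filter_upwards [e, hG.2] with x e1 e2
    rw [e1, e2]

theorem step (F : Fd) (V : VB) (hO : OwnS) (hF : ForS) {ν ν' : ℕ → ℕ → ℝ} (p : PW ν) (p' : PW ν')
    (ai : AsInv ν') (n : Nice X) {u : Gm 2} {B A1 A2 : MeasurableSpace X.X}
    (hB : Bs X a b (df ν ν') B) (f1 : Fac X A1) (f2 : Fac X A2) (le : B ≤ A2)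
    (hu : u = b ∨ u = b - a) (h : GP X a b (df ν ν') A1 A2) :
    GP X a b (df ν ν') (KK X u A1) (KK X u A2) :=
  swap V (hF ν ν' p p' ai X b a u B _ A1 n hB (F.kb.fac X u A2 n f2) f1
    (le.trans (F.kb.le X u A2 n f2)) hu (swap V (hO ν ν' p p' ai X a b u B A1 A2 n hB f1 f2 le hu h)))

theorem chain (F : Fd) (V : VB) (hw : Bd w) (𝒞 : Set (MeasurableSpace X.X)) (ne : 𝒞.Nonempty)
    (ch : IsChain (· ≤ ·) 𝒞) (fac : ∀ C ∈ 𝒞, Fac X C) {A B : MeasurableSpace X.X} (fB : Fac X B)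
    (h : ∀ C ∈ 𝒞, GP X a b w A (C ⊔ B)) : GP X a b w A (sSup 𝒞 ⊔ B) := by
  refine mono (lim F V hw ((· ⊔ B) '' 𝒞) (ne.image _) ?_ ?_ ?_) le_rfl ?_
  · exact ch.directedOn.mono_comp fun _ _ h => sup_le_sup_right h B
  · rintro _ ⟨C, hC, rfl⟩
    exact F.t.fsup X C B (fac C hC) fB
  · rintro _ ⟨C, hC, rfl⟩
    exact h C hC
  · obtain ⟨C, hC⟩ := ne
    exact sup_le (sSup_le fun D hD => le_sup_left.trans (le_sSup ⟨D, hD, rfl⟩))
      (le_sup_right.trans (le_sSup ⟨C, hC, rfl⟩))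

theorem dirs {u : Gm 2} (hu : u ∈ T4S.UU rr) :
    (u = rr 1 ∨ u = rr 1 - rr 0) ∨ (u = rr 0 ∨ u = rr 0 - rr 1) := by
  rcases hu with ⟨i, rfl⟩ | ⟨i, j, hij, rfl⟩
  · fin_cases i
    · exact Or.inr (Or.inl rfl)
    · exact Or.inl (Or.inl rfl)
  · fin_cases i <;> fin_cases j
    · exact absurd rfl hij
    · exact Or.inr (Or.inr rfl)
    · exact Or.inl (Or.inr rfl)
    · exact absurd rfl hij

end Hull

open Hull in
theorem hullr : HullR := by
  intro F V hO hF ν ν' p p' ai X B B' n hB hB'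
  have f0 := F.t.bot X
  have hw := bd p p'
  refine ⟨T4x.hull X (nul X.μ), F.h.kc X _ n f0, mono (F.h.ind X (nul X.μ)
    (fun C => GP X (rr 0) (rr 1) (df ν ν') (C ⊔ B') (C ⊔ B)) n f0 ?_ ?_ ?_) le_sup_left le_sup_left⟩
  · intro f g hf hg _ bg
    rw [sup_eq_right.2 hB.fac.nl] at bg
    exact hB.gd g hg bg f hf
  · intro u hu C fC _ h
    have f1 := F.t.fsup X C B' fC hB'.fac
    have f2 := F.t.fsup X C B fC hB.fac
    have k : ∀ D, Fac X D → KK X u C ⊔ D ≤ KK X u (C ⊔ D) := fun D fD =>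
      sup_le (F.kb.mono X u C _ n fC (F.t.fsup X C D fC fD) le_sup_left)
        (le_sup_right.trans (F.kb.le X u _ n (F.t.fsup X C D fC fD)))
    refine mono ?_ (k B' hB'.fac) (k B hB.fac)
    rcases dirs hu with hu | hu
    · exact step F V hO hF p p' ai n hB f1 f2 le_sup_right hu h
    · exact swap V (step F V hO hF p p' ai n hB' f2 f1 le_sup_right hu (swap V h))
  · intro 𝒞 ne ch h
    have fac : ∀ C ∈ 𝒞, Fac X C := fun C hC => (h C hC).1
    refine chain F V hw 𝒞 ne ch fac hB.fac fun C hC => swap V ?_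
    refine chain F V hw 𝒞 ne ch fac hB'.fac fun C' hC' => swap V ?_
    rcases ch.total hC hC' with e | e
    · exact mono (h C' hC').2.2 le_rfl (sup_le_sup_right e B)
    · exact mono (h C hC).2.2 (sup_le_sup_right e B') le_rfl

end T6

end
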