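import Pool.Agent.MP_154433_an.t6.Spec

/-! Row INT: structure along the difference and along one line gives structure along the other
line. -/

set_option autoImplicit false

open MeasureTheory ProbabilityTheory Filter Topology Function
open scoped BigOperators ComplexConjugate

noncomputable section

namespace T6

open Pool.Agent.MP_154433_an hiding BM
open T4S (Gm)

namespace Int

lemma conc (N : NB) (C : ConcS) (X : Sy) (a b : Gm 2) (F : X.X → ℂ)
    (hF : InZ X [b - a, b - a] F) (j : ℕ) : ∀ L : List (Gm 2),
    Nul X (List.replicate (2 * j) a ++ L) F → Nul X (List.replicate j b ++ L) F := by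
  induction j with
  | zero => exact fun L h => h
  | succ j ih =>
    intro L h
    have h1 : Nul X ([] ++ a :: a :: (List.replicate (2 * j) a ++ L)) F := h
    have h2 : Nul X ([-a] ++ a :: (List.replicate (2 * j) a ++ L)) F := N.neg X _ _ _ F h1
    have h3 : Nul X (-a :: -a :: (List.replicate (2 * j) a ++ L)) F := N.neg X _ _ _ F h2
    have h4 := C X (b - a) b (-a) 1 _ F hF (by rw [one_smul]; abel) h3
    exact N.perm X _ _ F List.perm_middle (ih _ (N.perm X _ _ F List.perm_middle.symm h4))

lemma half {X : Sy} {L : List (Gm 2)} {n n' : X.X → ℂ} (h : InZ X L n) (h' : InZ X L n')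
    (hm : MB X fun x => (2⁻¹ : ℂ) * (n x - n' x)) : InZ X L fun x => (2⁻¹ : ℂ) * (n x - n' x) :=
  ⟨hm, (h.2.1.sub h'.2.1).const_mul _, 1, Eventually.of_forall hm.2⟩

end Int

theorem intr : IntR := by
  intro _ V Z N C X a b n h1 h2
  have hY := Z.fac X (List.replicate 12 a)
  obtain ⟨n', hV, hm⟩ := V.ver X _ n hY h1.1
  obtain ⟨m1, m2⟩ := V.half X _ n n' hY h1.1 hV
  have k1 := Int.half h1 (N.keep X _ _ n n' (by simp) hY h1 hV) m1
  have k2 := Int.half h2 (N.keep X _ _ n n' (by simp) hY h2 hV) m1
  have k3 := (N.iff X (List.replicate 12 a) _ (by simp) m1).2 m2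
  have k4 := Int.conc N C X a b _ k1 6 [] (by rwa [List.append_nil])
  rw [List.append_nil] at k4
  have k5 := N.zero X _ _ (by simp) k2 k4
  refine ⟨h1.1, hm.stronglyMeasurable.aestronglyMeasurable.congr ?_, 1,
    Eventually.of_forall h1.1.2⟩
  filter_upwards [k5] with x hx
  have : n x - n' x = 0 := by simpa using hx
  exact (sub_eq_zero.1 this).symm

end T6

end
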