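import Pool.Agent.MP_154433_an.t6.Spec
import Pool.Agent.MP_154433_an.p4.A8

/-! The Cauchy-Schwarz step for a convolution in the second slot. -/

set_option autoImplicit false
set_option linter.unusedVariables false

open MeasureTheory ProbabilityTheory Filter Topology Function
open scoped BigOperators ComplexConjugate

noncomputable section

namespace T6

open Pool.Agent.MP_154433_an hiding BM
open T4S (Gm)
open Fib27 (BM)
open T3x (pull)
open T4x (Fac Pair Star Fd)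
open T4x.CptA

namespace Key

variable {X Z : Sy} {C : MeasurableSpace X.X} {p : Bool → Z.X → X.X}

lemma tst (F : Fd) (hP : Pair X C Z p) {G : Z.X → ℂ} {k a : X.X → ℂ} (hG : BM Z.μ Z.ms G)
    (hk : BM X.μ X.ms k) (ha : BM X.μ X.ms a)
    (h : (fun z => k (p false z)) =ᵐ[Z.μ] Z.μ[G | pull Z.μ (p false) X.ms]) :
    ∫ z, a (p false z) * G z ∂Z.μ = ∫ x, a x * k x ∂X.μ := by
  rw [← intc (hP.emb false).mp (ha.mul hk),
    ← Fib27.int_mul_ce (F.a.pull_le X.ms Z.μ X.μ _ (hP.emb false).mp le_rfl)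
      (F.a.bm_comp X.ms Z.μ X.μ _ _ (hP.emb false).mp ha) hG]
  refine integral_congr_ae ?_
  filter_upwards [h] with z hz
  rw [hz]

lemma sgn {S : X.X → ℂ} (hS : BM X.μ X.ms S) :
    ∃ s : X.X → ℂ, BM X.μ X.ms s ∧ (∀ x, ‖s x‖ ≤ 1) ∧ ∀ x, S x * s x = (‖S x‖ : ℂ) := by
  have h1 : ∀ x, ‖conj (S x) / (‖S x‖ : ℂ)‖ ≤ 1 := fun x => by
    rw [norm_div, Complex.norm_conj, Complex.norm_real, norm_norm]
    exact div_self_le_one _
  refine ⟨fun x => conj (S x) / (‖S x‖ : ℂ), ⟨(hS.conj.1.aemeasurable.div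
    (Complex.measurable_ofReal.comp_aemeasurable hS.1.norm.aemeasurable)).aestronglyMeasurable,
    1, Eventually.of_forall h1⟩, h1, fun x => ?_⟩
  rcases eq_or_ne (S x) 0 with h | h
  · simp [h]
  · have : (‖S x‖ : ℂ) ≠ 0 := by simpa using h
    rw [← mul_div_assoc, Complex.mul_conj, Complex.normSq_eq_norm_sq, div_eq_iff this]
    push_cast
    ring

lemma bm2 (F : Fd) {f : X.X → ℂ} (hf : BM X.μ X.ms f) (u : Gm 2) (n n' : ℕ) :
    BM X.μ X.ms (d2 X u n n' f) := (bmT F hf _).mul (bmT F hf _).conj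

lemma nn_int (F : Fd) (a b : Gm 2) (κ : ℕ → ℝ) (M : ℕ) {f g t : X.X → ℂ} (hf : BM X.μ X.ms f)
    (hg : BM X.μ X.ms g) (ht : BM X.μ X.ms t) :
    ∫ x, (∑ d ∈ Finset.range M,
      (κ d : ℂ) * (f (X.A ((d : ℤ) • a) x) * g (X.A ((d : ℤ) • b) x))) * t x ∂X.μ =
    ∑ d ∈ Finset.range M,
      (κ d : ℂ) * ∫ x, f (X.A ((d : ℤ) • a) x) * t x * g (X.A ((d : ℤ) • b) x) ∂X.μ := by
  have := int_wsum (μ := X.μ) (Finset.range M) κ
    (fun d _ => (bmT F hf ((d : ℤ) • a)).mul (bmT F hg ((d : ℤ) • b))) ht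
  simp only [Complex.real_smul] at this
  refine this.trans (Finset.sum_congr rfl fun d _ => ?_)
  simp only [mul_right_comm]

lemma nn_bm (F : Fd) (a b : Gm 2) (κ : ℕ → ℝ) (M : ℕ) {f g : X.X → ℂ} (hf : BM X.μ X.ms f)
    (hg : BM X.μ X.ms g) : BM X.μ X.ms fun x => ∑ d ∈ Finset.range M,
      (κ d : ℂ) * (f (X.A ((d : ℤ) • a) x) * g (X.A ((d : ℤ) • b) x)) :=
  bm_sum _ fun d _ => ((bmT F hf _).mul (bmT F hg _)).cmul _

/-- one term -/
lemma one (F : Fd) (hC : Fac X C) (hP : Pair X C Z p) {u : Gm 2} {H : Z.X → ℂ} {g k : X.X → ℂ}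
    (hH : BM Z.μ (T4x.Inv Z {u}) H) (hg : BM X.μ X.ms g) (hk : BM X.μ X.ms k) (hS : Star p H g k)
    {K : ℝ} (K0 : 0 ≤ K) (hK : ∀ᵐ z ∂Z.μ, ‖H z‖ ≤ K) {N : ℕ} (hN : 1 ≤ N)
    {c : ℕ → ℕ → X.X → ℂ} (hc : ∀ n n', Ver X C (d2 X u n n' g) (c n n')) (v : Gm 2)
    {w : X.X → ℂ} (hw : BM X.μ X.ms w) :
    ‖∫ x, w x * k (X.A v x) ∂X.μ‖ ^ 2 ≤ K ^ 2 * ∑ n : Fin N, ∑ n' : Fin N,
      (N : ℝ)⁻¹ * (N : ℝ)⁻¹ * (∫ x, d2 X u n n' w x * c n n' (X.A v x) ∂X.μ).re := by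
  have hH' : BM Z.μ Z.ms H := hH.mono (F.t.finv Z _).le
  have hgz : ∀ n : Gm 2, BM Z.μ Z.ms fun z => g (X.A n (X.A v (p true z))) := fun n =>
    bmc F (hP.emb true).mp (bmT F (bmT F hg n) v)
  let Ψ : Fin N → Z.X → ℂ := fun n z =>
    w (X.A (((n : ℕ) : ℤ) • u) (p false z)) * g (X.A (((n : ℕ) : ℤ) • u) (X.A v (p true z)))
  have hΨ : ∀ n, BM Z.μ Z.ms (Ψ n) := fun n =>
    (bmc F (hP.emb false).mp (bmT F hw _)).mul (hgz _)
  have e1 : ∀ n, ∫ z, Ψ n z * H (Z.A v z) ∂Z.μ = ∫ x, w x * k (X.A v x) ∂X.μ := fun n => by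
    have h1 := tst F hP ((bmT F hH' v).mul (hgz _)) (bmT F (bmT F hk _) v)
      (bmT F hw (((n : ℕ) : ℤ) • u))
      (starT F hP hH' (bmT F hg _) (bmT F hk _) (starI F hP hH hg hk hS (n : ℕ)) v)
    rw [← intc (F.t.mp X (((n : ℕ) : ℤ) • u)) (hw.mul (bmT F hk v))]
    refine Eq.trans ?_ (h1.trans ?_)
    · simp only [Ψ, mul_assoc, mul_comm (H _)]
    · simp only [← F.t.add, add_comm]
  have e2 : ∀ n n', ∫ z, Ψ n z * conj (Ψ n' z) ∂Z.μ =
      ∫ x, d2 X u n n' w x * c n n' (X.A v x) ∂X.μ := fun n n' => by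
    have hb := bm2 F hg u n n'
    rw [← tst F hP (bmc F (hP.emb true).mp (bmT F hb v))
      (bmT F (bm_of (hc n n').1.1 (hc n n').1.2) v) (bm2 F hw u n n')
      ((aec (hP.emb false).mp ((aeT F (hc n n').2 v).trans
        (F.t.ce X C v _ hC hb.integrable).symm)).trans (pairCE F hC hP (bmT F hb v)))]
    simp only [Ψ, d2, map_mul, mul_mul_mul_comm]
  have hN' : (N : ℂ) ≠ 0 := by exact_mod_cast (by omega : N ≠ 0)
  have e3 : ∫ x, w x * k (X.A v x) ∂X.μ =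
      ∫ z, (∑ n, (N : ℝ)⁻¹ • Ψ n z) * H (Z.A v z) ∂Z.μ := by
    rw [int_wsum Finset.univ (fun _ => (N : ℝ)⁻¹) (fun n _ => hΨ n) (bmT F hH' v)]
    simp only [e1, Finset.sum_const, Finset.card_univ, Fintype.card_fin, nsmul_eq_mul]
    push_cast
    rw [← mul_assoc, mul_inv_cancel₀ hN', one_mul]
  rw [e3]
  refine (cs K0 (aeP F hK v)
    (bm_wsum Finset.univ (fun _ => (N : ℝ)⁻¹) fun n _ => hΨ n)).trans (le_of_eq ?_)
  rw [sq_wsum Finset.univ (fun _ => (N : ℝ)⁻¹) fun n _ => hΨ n]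
  simp only [e2]

end Key

open Key

theorem key : KeyR := by
  intro F _ X Z C p a b u H g k hC hP hH hg hk hS
  obtain ⟨K, hK⟩ := hH.2
  refine ⟨max K 0 ^ 2, sq_nonneg _, fun f N c κ M hf hN hc κ0 κ1 => ?_⟩
  have hf' : BM X.μ X.ms f := bm_of hf.1 hf.2
  obtain ⟨s, hs, s1, hsS⟩ := sgn (nn_bm F a b κ M hf' hk)
  have hw : ∀ d : ℕ, BM X.μ X.ms fun x => f (X.A ((d : ℤ) • a) x) * s x := fun d =>
    (bmT F hf' _).mul hs
  have h1 : NN X a b κ M f k ≤ ∑ d ∈ Finset.range M,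
      κ d * ‖∫ x, f (X.A ((d : ℤ) • a) x) * s x * k (X.A ((d : ℤ) • b) x) ∂X.μ‖ := by
    have e := nn_int F a b κ M hf' hk hs
    simp only [hsS] at e
    rw [@integral_complex_ofReal _ X.ms] at e
    refine (le_abs_self _).trans ((Complex.norm_real _).symm.trans_le ?_)
    rw [NN, e]
    refine (norm_sum_le _ _).trans (le_of_eq (Finset.sum_congr rfl fun d _ => ?_))
    rw [norm_mul, Complex.norm_real, Real.norm_of_nonneg (κ0 d)]
  have h2 : ∀ n n' : ℕ, ∑ d ∈ Finset.range M, κ d *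
      (∫ x, d2 X u n n' (fun x => f (X.A ((d : ℤ) • a) x) * s x) x *
        c n n' (X.A ((d : ℤ) • b) x) ∂X.μ).re ≤ NN X a b κ M (d2 X u n n' f) (c n n') := by
    intro n n'
    have hc' : BM X.μ X.ms (c n n') := bm_of (hc n n').1.1 (hc n n').1.2
    have e := congrArg Complex.re (nn_int F a b κ M (bm2 F hf' u n n') hc' (bm2 F hs u n n'))
    simp only [Complex.re_sum, Complex.re_ofReal_mul] at e
    refine le_trans (le_of_eq (Eq.trans ?_ e.symm)) ((Complex.re_le_norm _).trans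
      (norm_integral_le_of_norm_le (nn_bm F a b κ M (bm2 F hf' u n n') hc').integrable.norm
        (Eventually.of_forall fun x => ?_)))
    · simp only [d2, map_mul, ← F.t.add, add_comm, mul_mul_mul_comm]
    · rw [norm_mul]
      refine mul_le_of_le_one_right (norm_nonneg _) ?_
      rw [d2, norm_mul, Complex.norm_conj]
      exact mul_le_one₀ (s1 _) (norm_nonneg _) (s1 _)
  refine (pow_le_pow_left₀ (integral_nonneg fun x => norm_nonneg _) h1 2).trans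
    ((Real.pow_arith_mean_le_arith_mean_pow _ _ _ (fun d _ => κ0 d) κ1
      (fun d _ => norm_nonneg _) 2).trans ((Finset.sum_le_sum fun (d : ℕ) _ => mul_le_mul_of_nonneg_left
        (one F hC hP hH (bm_of hg.1 hg.2) hk hS (le_max_right K 0)
          (hK.mono fun z hz => hz.trans (le_max_left _ _)) hN hc ((d : ℤ) • b) (hw d))
        (κ0 d)).trans ?_))
  simp only [mul_left_comm (κ _), ← Finset.mul_sum]
  refine mul_le_mul_of_nonneg_left ?_ (sq_nonneg _)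
  simp only [Finset.mul_sum, Fintype.expect_eq_sum_div_card, Fintype.card_fin, div_eq_inv_mul,
    Finset.sum_comm (s := Finset.range M), mul_assoc]
  refine Finset.sum_le_sum fun n _ => Finset.sum_le_sum fun n' _ => ?_
  simp only [← Finset.mul_sum]
  gcongr
  exact h2 n n'

end T6

end
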