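import Pool.Agent.MP_154433_an.t6.Spec

/-! Row Kill: a factor that is dual to a box is removed by derivatives. -/

set_option autoImplicit false
set_option linter.unusedVariables false
set_option warn.classDefReducibility false

open MeasureTheory ProbabilityTheory Filter Topology Function
open scoped BigOperators ComplexConjugate

noncomputable section

namespace T6

open Pool.Agent.MP_154433_an hiding BM
open T3S (B1 MB1)
open T4S (Gm Act ddX QX ln)

namespace Kill

variable (X : Sy) (a b : Gm 2) (κ : ℕ → ℝ) (M : ℕ)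

def SS (f g : X.X → ℂ) (x : X.X) : ℂ :=
  ∑ d ∈ Finset.range M, (κ d : ℂ) * (f (X.A ((d : ℤ) • a) x) * g (X.A ((d : ℤ) • b) x))

def Ps (f0 f g : X.X → ℂ) (d : ℕ) (x : X.X) : ℂ :=
  f0 x * (f (X.A ((d : ℤ) • a) x) * g (X.A ((d : ℤ) • b) x))

variable {X}

lemma ps_mb {f0 f g : X.X → ℂ} (h0 : MB X f0) (hf : MB X f) (hg : MB X g) (d : ℕ) :
    MB X (Ps X a b f0 f g d) := h0.mul (((act X).tz hf _).mul ((act X).tz hg _))

lemma base {f0 f g : X.X → ℂ} (h0 : MB X f0) (hf : MB X f) (hg : MB X g) :
    ∑ d ∈ Finset.range M, κ d * (∫ x, Ps X a b f0 f g d x ∂X.μ).re =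
      (∫ x, f0 x * SS X a b κ M f g x ∂X.μ).re := by
  have h : ∫ x, f0 x * SS X a b κ M f g x ∂X.μ =
      ∑ d ∈ Finset.range M, (κ d : ℂ) * ∫ x, Ps X a b f0 f g d x ∂X.μ := by
    simp only [← integral_const_mul]
    rw [← integral_finset_sum _ fun d _ => ((ps_mb a b h0 hf hg d).integrable X.μ).const_mul _]
    refine integral_congr_ae (Eventually.of_forall fun x => ?_)
    simp only [SS, Ps, Finset.mul_sum]
    exact Finset.sum_congr rfl fun d _ => by ring
  rw [h, Complex.re_sum]
  exact Finset.sum_congr rfl fun d _ => by simp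

lemma ss_int {f g : X.X → ℂ} (hf : MB X f) (hg : MB X g) : Integrable (SS X a b κ M f g) X.μ :=
  integrable_finset_sum _ fun d _ =>
    ((((act X).tz hf _).mul ((act X).tz hg _)).integrable X.μ).const_mul _

lemma ss_meas {f g : X.X → ℂ} (hf : MB X f) (hg : MB X g) : Measurable (SS X a b κ M f g) :=
  Finset.measurable_sum _ fun d _ => (((act X).tz hf _).mul ((act X).tz hg _)).1.const_mul _

lemma box (hκ : ∀ d, 0 ≤ κ d) (H : ℕ) (L : List (Gm 2)) : ∀ f0 f g : X.X → ℂ, MB X f0 → MB X f →
    MB X g → ∑ d ∈ Finset.range M, κ d * QE X L H (Ps X a b f0 f g d) ≤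
      EL X H L (NN X a b κ M) f g := by
  induction L with
  | nil =>
    intro f0 f g h0 hf hg
    refine (base a b κ M h0 hf hg).le.trans ((Complex.re_le_norm _).trans
      ((norm_integral_le_integral_norm _).trans ?_))
    refine integral_mono_of_nonneg (Eventually.of_forall fun x => norm_nonneg _)
      (ss_int a b κ M hf hg).norm (Eventually.of_forall fun x => ?_)
    show ‖f0 x * SS X a b κ M f g x‖ ≤ ‖SS X a b κ M f g x‖
    rw [norm_mul]
    exact mul_le_of_le_one_left (norm_nonneg _) (h0.2 x)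
  | cons u L ih =>
    intro f0 f g h0 hf hg
    have e : ∀ (v : Gm 2) (d : ℕ), ddX X.A v (Ps X a b f0 f g d) =
        Ps X a b (ddX X.A v f0) (ddX X.A v f) (ddX X.A v g) d := fun v d => funext fun x => by
      simp only [ddX, Ps, map_mul, (act X).comm v]
      ring
    simp only [QE, List.map_cons, T4S.QX_ln, EL, e, Finset.mul_expect]
    rw [← Finset.expect_sum_comm]
    refine Finset.expect_le_expect fun h _ => ?_
    rw [← Finset.expect_sum_comm]
    exact Finset.expect_le_expect fun h' _ =>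
      ih _ _ _ ((act X).dd h0 _) ((act X).dd hf _) ((act X).dd hg _)

end Kill

open Kill in
theorem kill : KillR := by
  intro vb qb da zf gd X a b L n hL hn ε hε
  obtain ⟨K0, k0, hK0⟩ := (zf.ua X L n 0 hL hn).2 (ε / 2) (by positivity)
  obtain ⟨K1, k1, hK1⟩ := qb.pw L.length (ε / 2 / (K0 + 1)) (by positivity)
  refine ⟨K0 * K1, by positivity, fun f g H κ M hf hg hH hκ h1 => ?_⟩
  have hgn : MB X fun x => g x * n x := hg.mul hn.1
  let S := SS X a b κ M f fun x => g x * n x
  have hS : Measurable S := ss_meas a b κ M hf hgn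
  let f0 : X.X → ℂ := fun x => conj (S x) / (‖S x‖ : ℂ)
  have h0 : MB X f0 := by
    refine ⟨(Complex.continuous_conj.measurable.comp hS).div
      (Complex.measurable_ofReal.comp hS.norm), fun x => ?_⟩
    simp only [f0, norm_div, Complex.norm_conj, Complex.norm_real, norm_norm]
    exact div_self_le_one _
  have e1 : NN X a b κ M f (fun x => g x * n x) = (∫ x, f0 x * S x ∂X.μ).re := by
    have : ∀ x, f0 x * S x = ((‖S x‖ : ℝ) : ℂ) := fun x => by
      by_cases h : S x = 0
      · simp [h]
      · have h' : ((‖S x‖ : ℝ) : ℂ) ≠ 0 := by simpa using h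
        simp only [f0]
        rw [div_mul_eq_mul_div, Complex.conj_mul', div_eq_iff h', sq]
    simp only [this, integral_ofReal, integral_complex_ofReal, Complex.ofReal_re]
    rfl
  have e2 : ∀ d : ℕ, (∫ x, Ps X a b f0 f (fun x => g x * n x) d x ∂X.μ).re ≤
      ε + K0 * K1 * QE X L H (Ps X a b f0 f g d) := fun d => by
    obtain ⟨D, hD, hd⟩ := hK0 _ ⟨(d : ℤ) • b, rfl⟩
    have hP := ps_mb a b h0 hf hg d
    have hn' := (act X).tz hn.1 ((d : ℤ) • b)
    have a1 := hK1 _ _ (qb.nonneg X L H _ hL hP) (gd X L H _ D hL hH hP hD)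
    have i1 := (hP.mul hn').integrable X.μ
    have i2 := ((hP.mul hD.1).integrable X.μ).const_mul (K0 : ℂ)
    have a2 : ∫ x, Ps X a b f0 f (fun x => g x * n x) d x ∂X.μ =
        ∫ x, (Ps X a b f0 f g d x * n (X.A ((d : ℤ) • b) x) -
          K0 * (Ps X a b f0 f g d x * D x)) ∂X.μ + K0 * ∫ x, Ps X a b f0 f g d x * D x ∂X.μ := by
      rw [integral_sub i1 i2, integral_const_mul, sub_add_cancel]
      exact integral_congr_ae (Eventually.of_forall fun x => by simp only [Ps]; ring)
    have a3 : ‖∫ x, (Ps X a b f0 f g d x * n (X.A ((d : ℤ) • b) x) -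
        K0 * (Ps X a b f0 f g d x * D x)) ∂X.μ‖ ≤ ε / 2 := by
      refine (norm_integral_le_integral_norm _).trans (le_trans ?_ hd)
      refine integral_mono_of_nonneg (Eventually.of_forall fun x => norm_nonneg _)
        ((hn'.integrable X.μ).sub ((hD.1.integrable X.μ).const_mul _)).norm
        (Eventually.of_forall fun x => ?_)
      show ‖_‖ ≤ ‖n (X.A ((d : ℤ) • b) x) - K0 * D x‖
      rw [show Ps X a b f0 f g d x * n (X.A ((d : ℤ) • b) x) - K0 * (Ps X a b f0 f g d x * D x) =
        Ps X a b f0 f g d x * (n (X.A ((d : ℤ) • b) x) - K0 * D x) by ring, norm_mul]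
      exact mul_le_of_le_one_left (norm_nonneg _) (hP.2 x)
    have a4 : K0 * (ε / 2 / (K0 + 1)) ≤ ε / 2 := by
      rw [← mul_div_assoc, div_le_iff₀ (by positivity)]
      nlinarith
    refine (Complex.re_le_norm _).trans ?_
    rw [a2]
    refine (norm_add_le _ _).trans ?_
    rw [norm_mul, Complex.norm_real, Real.norm_of_nonneg k0]
    have a5 := mul_le_mul_of_nonneg_left a1 k0
    nlinarith
  rw [e1, ← base a b κ M h0 hf hgn]
  refine (Finset.sum_le_sum fun d _ => mul_le_mul_of_nonneg_left (e2 d) (hκ d)).trans ?_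
  have e3 := mul_le_mul_of_nonneg_left (box a b κ M hκ H L f0 f g h0 hf hg)
    (show 0 ≤ K0 * K1 by positivity)
  simp only [mul_add, Finset.sum_add_distrib, ← Finset.sum_mul, h1, one_mul]
  refine add_le_add le_rfl (le_trans (le_of_eq ?_) e3)
  rw [Finset.mul_sum]
  exact Finset.sum_congr rfl fun d _ => by ring

end T6

end
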