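import Pool.Agent.MP_154433_an.t6.Spec

/-! Row LiftA: the factor generated by the projections of a class on extensions. -/

set_option autoImplicit false
set_option linter.unusedVariables false
set_option warn.classDefReducibility false

open MeasureTheory ProbabilityTheory Filter Topology Function
open scoped BigOperators ComplexConjugate

noncomputable section

namespace T6

open Pool.Agent.MP_154433_an hiding BM
open T3S (B1 MB1)
open Fib27 (BM)
open T3x (nul pull gen)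
open T4x (Fac Emb Nice Fd)

namespace LiftA

variable {𝒞 : ∀ X : Sy, Set (X.X → ℂ)}

lemma bm {X : Sy} {f : X.X → ℂ} (hf : MB X f) : BM X.μ X.ms f :=
  ⟨hf.1.aestronglyMeasurable, 1, Eventually.of_forall hf.2⟩

lemma ple (F : Fd) {X' X : Sy} {p : X'.X → X.X} (hp : Emb X' X p) : pull X'.μ p X.ms ≤ X'.ms :=
  F.a.pull_le _ _ _ _ hp.mp le_rfl

lemma ex (F : Fd) (hC : Cl 𝒞) {X' X : Sy} {p : X'.X → X.X} {G : X'.X → ℂ} (hX : Nice X')
    (hp : Emb X' X p) (hG : G ∈ 𝒞 X') :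
    ∃ e ∈ EE 𝒞 X, (fun x => e (p x)) =ᵐ[X'.μ] X'.μ[G | pull X'.μ p X.ms] := by
  obtain ⟨e, h1, h2, h3⟩ := F.a.fact X.ms X'.μ p (X'.μ[G | pull X'.μ p X.ms]) 1
    hp.mp.measurable.comap_le zero_le_one stronglyMeasurable_condExp.aestronglyMeasurable
    (ae_bdd_norm_condExp_of_ae_bdd_norm (Eventually.of_forall (hC.mb _ _ hG).2))
  exact ⟨e, ⟨⟨h1, h2⟩, X', p, G, hX, hp, hG, h3.symm⟩, h3.symm⟩

lemma self (F : Fd) (hC : Cl 𝒞) {X : Sy} (hX : Nice X) {G : X.X → ℂ} (hG : G ∈ 𝒞 X) :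
    G ∈ EE 𝒞 X :=
  ⟨hC.mb _ _ hG, X, id, G, hX, F.t.emb_id X, hG, (Fib27.BM.ce_self (ple F (F.t.emb_id X))
    (F.a.bm_comp X.ms X.μ X.μ id G (MeasurePreserving.id _) (bm (hC.mb _ _ hG)))).symm⟩

lemma prd (F : Fd) (hC : Cl 𝒞) {X : Sy} (e : Bool → X.X → ℂ) (he : ∀ i, e i ∈ EE 𝒞 X) :
    (fun x => e true x * e false x) ∈ EE 𝒞 X := by
  choose hm Y q G hY hq hG hE using he
  obtain ⟨Z, p, hZ⟩ := F.rp Bool Y X X.ms q false hY (F.t.top X) (fun i => (hq i).mp)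
    fun i n => (hq i).eqv n
  have hP : ∀ i, Emb Z X (q i ∘ p i) := fun i => F.t.emb_comp _ _ _ _ _ (hZ.emb i) (hq i)
  refine ⟨(hm true).mul (hm false), Z, q false ∘ p false, fun z => G true (p true z) *
    G false (p false z), hZ.nice, hP false, hC.mul _ _ (hC.pb _ _ _ (hZ.emb true) _ (hG true)) _
      (hC.pb _ _ _ (hZ.emb false) _ (hG false)), ?_⟩
  have h1 := hZ.ind Finset.univ G fun i _ => bm (hC.mb _ _ (hG i))
  simp only [Fintype.prod_bool] at h1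
  have h2 := fun i => (hZ.emb i).mp.quasiMeasurePreserving.ae_eq_comp (hE i)
  have h3 := F.a.keq_fun X.ms Z.μ X.μ _ _ (e true) (hP true).mp (hP false).mp (hZ.com true)
    (hm true).1.aestronglyMeasurable
  filter_upwards [h1, h2 true, h2 false, h3] with z a1 a2 a3 a4
  simp only [Function.comp_apply] at a2 a3 a4 ⊢
  rw [a1, ← a2, ← a3, a4]

lemma cj (F : Fd) (hC : Cl 𝒞) {X : Sy} {e : X.X → ℂ} (he : e ∈ EE 𝒞 X) :
    (fun x => conj (e x)) ∈ EE 𝒞 X := by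
  obtain ⟨hm, Y, q, G, hY, hq, hG, hE⟩ := he
  refine ⟨hm.cj, Y, q, _, hY, hq, hC.cj _ _ hG, ?_⟩
  filter_upwards [hE, Fib27.ce_conj (ple F hq) (bm (hC.mb _ _ hG))] with z a1 a2
  rw [a2, a1]

lemma tz (F : Fd) (hC : Cl 𝒞) {X : Sy} (v : T4S.Gm 2) {e : X.X → ℂ} (he : e ∈ EE 𝒞 X) :
    (fun x => e (X.A v x)) ∈ EE 𝒞 X := by
  obtain ⟨hm, Y, q, G, hY, hq, hG, hE⟩ := he
  refine ⟨(act X).tz hm v, Y, q, _, hY, hq, hC.tz _ v _ hG, ?_⟩
  have h1 := F.t.ce Y _ v G (F.t.fpull Y X q _ hq (F.t.top X)) (bm (hC.mb _ _ hG)).integrable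
  have h2 := (Y.mp v).quasiMeasurePreserving.ae_eq_comp hE
  have h3 := F.a.keq_fun X.ms Y.μ X.μ _ _ e (hq.mp.comp (Y.mp v)) ((X.mp v).comp hq.mp) (hq.eqv v)
    hm.1.aestronglyMeasurable
  filter_upwards [h1, h2, h3] with z a1 a2 a3
  simp only [Function.comp_apply] at a2 a3
  rw [a1, ← a2, a3]

lemma meas {X : Sy} {e : X.X → ℂ} (he : e ∈ EE 𝒞 X) : Measurable[LF 𝒞 X] e :=
  Measurable.of_comap_le (le_sup_of_le_left (le_iSup₂_of_le (f := fun F (_ : F ∈ EE 𝒞 X) =>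
    MeasurableSpace.comap (id F) inferInstance) e he le_rfl))

lemma bmL {X : Sy} {e : X.X → ℂ} (he : e ∈ EE 𝒞 X) : BM X.μ (LF 𝒞 X) e :=
  ⟨(meas he).stronglyMeasurable.aestronglyMeasurable, 1, Eventually.of_forall he.1.2⟩

lemma fac (F : Fd) (hC : Cl 𝒞) (X : Sy) : Fac X (LF 𝒞 X) := by
  refine ⟨sup_le (iSup₂_le fun e he => he.1.1.comap_le) (F.a.nul_le _), le_sup_right, fun n => ?_⟩
  rw [LF, MeasurableSpace.comap_sup, gen]
  refine sup_le ?_ (((F.t.bot X).inv n).trans le_sup_right)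
  simp only [MeasurableSpace.comap_iSup, MeasurableSpace.comap_comp]
  exact iSup₂_le fun e he => (meas (tz F hC n he)).comap_le

end LiftA

open LiftA in
theorem liftA : LiftAR := by
  intro F 𝒞 hC X hX
  have hf := fac F hC X
  refine ⟨hf, fun G hG => bmL (self F hC hX hG), fun g hg hL ε hε => ?_,
    fun g hg h0 X' p hX' hp G hG => ?_⟩
  · obtain ⟨φ, hφ, h⟩ := F.d.apx X.μ (EE 𝒞 X) (fun φ h => ⟨h.1.1, 1, h.1.2⟩)
      ⟨_, self F hC hX (hC.one X), EventuallyEq.rfl⟩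
      (fun φ h φ' h' => ⟨_, prd F hC (fun b => cond b φ φ') (fun b => by cases b <;> assumption),
        EventuallyEq.rfl⟩)
      (fun φ h => ⟨_, cj F hC h, EventuallyEq.rfl⟩) g ((bm hg).memLp 2) hL.1 (ε ^ 2) (by positivity)
    refine ⟨φ, hφ, ?_⟩
    have h2 : MemLp φ 2 X.μ := by
      refine Submodule.span_induction (p := fun φ _ => MemLp φ 2 X.μ) ?_ ?_ ?_ ?_ hφ
      · exact fun e he => (bm he.1).memLp 2
      · exact MemLp.zero
      · exact fun a b _ _ ha hb => ha.add hb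
      · exact fun c a _ ha => ha.const_smul c
    have h3 : MemLp (fun x => ‖g x - φ x‖) 2 X.μ := (((bm hg).memLp 2).sub h2).norm
    have h4 : Integrable (fun x => ‖g x - φ x‖ ^ 2) X.μ := h3.integrable_sq
    calc ∫ x, ‖g x - φ x‖ ∂X.μ ≤ ∫ x, (ε / 2 + (2 * ε)⁻¹ * ‖g x - φ x‖ ^ 2) ∂X.μ := by
          refine integral_mono (h3.integrable one_le_two)
            ((integrable_const _).add (h4.const_mul _)) fun x => ?_
          have : 0 ≤ (2 * ε)⁻¹ * (‖g x - φ x‖ - ε) ^ 2 := by positivity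
          have e : (2 * ε)⁻¹ * (‖g x - φ x‖ - ε) ^ 2 =
            ε / 2 + (2 * ε)⁻¹ * ‖g x - φ x‖ ^ 2 - ‖g x - φ x‖ := by field_simp; ring
          simp only
          linarith
      _ = ε / 2 + (2 * ε)⁻¹ * ∫ x, ‖g x - φ x‖ ^ 2 ∂X.μ := by
          rw [integral_add (integrable_const _) (h4.const_mul _), integral_const_mul]
          simp
      _ ≤ ε / 2 + (2 * ε)⁻¹ * ε ^ 2 := by gcongr
      _ = ε := by field_simp; ring
  · obtain ⟨e, he, h⟩ := ex F hC hX' hp hG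
    rw [← Fib27.int_mul_ce (ple F hp) (F.a.bm_comp X.ms X'.μ X.μ p g hp.mp (bm hg))
      (bm (hC.mb _ _ hG))]
    have h1 : ∫ x, g (p x) * e (p x) ∂X'.μ = ∫ y, g y * e y ∂X.μ := by
      rw [← hp.mp.map_eq, integral_map hp.mp.measurable.aemeasurable
        (hg.mul he.1).1.aestronglyMeasurable]
    have h2 : ∫ y, g y * e y ∂X.μ = 0 := by
      rw [← Fib27.int_ce_mul hf.le (bm hg) (bmL he)]
      refine integral_eq_zero_of_ae ?_
      filter_upwards [h0] with y hy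
      simp [hy]
    rw [← h2, ← h1]
    refine integral_congr_ae ?_
    filter_upwards [h] with x hx
    rw [hx]

end T6

end
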