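import Pool.Agent.MP_154433_an.t6.Spec

/-! Row LiftB: goodness descends from the extensions to the lifted factor. -/

set_option autoImplicit false
set_option linter.unusedVariables false
set_option warn.classDefReducibility false

open MeasureTheory ProbabilityTheory Filter Topology Function
open scoped BigOperators ComplexConjugate

noncomputable section

namespace T6

open Pool.Agent.MP_154433_an hiding BM
open T3S (B1 MB1 PW AsInv Erg Bd Near Gr yw dif CZ)
open T4S (Gm Act ddX QX ln Spr Concl)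
open Fib27 (BM)
open T3x (nul pull gen)
open T4x (Fac Emb Inv Nice Pair Star KK Fd)

namespace LiftB

theorem bm {X : Sy} {f : X.X → ℂ} (h : MB X f) : BM X.μ X.ms f :=
  ⟨h.1.stronglyMeasurable.aestronglyMeasurable, 1, Eventually.of_forall h.2⟩

theorem mb_tz {X : Sy} {f : X.X → ℂ} (h : MB X f) (n : Gm 2) : MB X fun x => f (X.A n x) :=
  ⟨h.1.comp (X.mp n).measurable, fun x => h.2 _⟩

theorem emb_fun (fd : Fd) {X' X : Sy} {p : X'.X → X.X} (hp : Emb X' X p) (n : Gm 2)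
    {f : X.X → ℂ} (hf : MB X f) :
    (fun y => f (p (X'.A n y))) =ᵐ[X'.μ] fun y => f (X.A n (p y)) :=
  fd.a.keq_fun X.ms X'.μ X.μ (p ∘ X'.Tz n) (X.Tz n ∘ p) f (hp.mp.comp (X'.mp n))
    ((X.mp n).comp hp.mp) (hp.eqv n) (bm hf).1

theorem term (fd : Fd) {X' X : Sy} {p : X'.X → X.X} (hp : Emb X' X p) {f e : X.X → ℂ}
    {F : X'.X → ℂ} (hf : MB X f) (he : MB X e) (hF : MB X' F)
    (h : (fun x => e (p x)) =ᵐ[X'.μ] X'.μ[F | pull X'.μ p X.ms]) (c : ℂ) (n m : Gm 2) :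
    X'.μ[fun y => c * (f (p (X'.A n y)) * F (X'.A m y)) | pull X'.μ p X.ms] =ᵐ[X'.μ]
      fun y => c * (f (X.A n (p y)) * e (X.A m (p y))) := by
  have hY := fd.t.fpull X' X p X.ms hp (fd.t.top X)
  have b1 : BM X'.μ (pull X'.μ p X.ms) fun y => c * f (X.A n (p y)) :=
    (fd.a.bm_comp X.ms X'.μ X.μ p (fun x => f (X.A n x)) hp.mp (bm (mb_tz hf n))).cmul c
  have e1 : (fun y => c * (f (p (X'.A n y)) * F (X'.A m y))) =ᵐ[X'.μ]
      fun y => c * f (X.A n (p y)) * F (X'.A m y) := by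
    filter_upwards [emb_fun fd hp n hf] with y hy
    rw [hy, mul_assoc]
  filter_upwards [condExp_congr_ae (m := pull X'.μ p X.ms) e1,
    Fib27.ce_mul hY.le b1 (bm (mb_tz hF m)),
    fd.t.ce X' (pull X'.μ p X.ms) m F hY (bm hF).integrable,
    (X'.mp m).quasiMeasurePreserving.ae_eq_comp h, emb_fun fd hp m he] with y h1 h2 h3 h4 h5
  rw [h1, h2, mul_assoc, ← h5]
  congr 2
  exact h3.trans h4.symm

theorem le (fd : Fd) {X' X : Sy} {p : X'.X → X.X} (hp : Emb X' X p) {f e : X.X → ℂ}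
    {F : X'.X → ℂ} (hf : MB X f) (he : MB X e) (hF : MB X' F)
    (h : (fun x => e (p x)) =ᵐ[X'.μ] X'.μ[F | pull X'.μ p X.ms]) (a b : Gm 2) (κ : ℕ → ℝ)
    (M : ℕ) : NN X a b κ M f e ≤ NN X' a b κ M (fun y => f (p y)) F := by
  have hf' : MB X' fun y => f (p y) := ⟨hf.1.comp hp.mp.measurable, fun y => hf.2 _⟩
  have hs := condExp_finsetSum (μ := X'.μ) (s := Finset.range M)
    (f := fun d y => (κ d : ℂ) * (f (p (X'.A ((d : ℤ) • a) y)) * F (X'.A ((d : ℤ) • b) y)))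
    (fun d _ => (((bm (mb_tz hf' _)).mul (bm (mb_tz hF _))).cmul _).integrable)
    (pull X'.μ p X.ms)
  have hl := integral_norm_condExp_le (μ := X'.μ) (m := pull X'.μ p X.ms)
    (∑ d ∈ Finset.range M, fun y =>
      (κ d : ℂ) * (f (p (X'.A ((d : ℤ) • a) y)) * F (X'.A ((d : ℤ) • b) y)))
  simp only [Finset.sum_apply] at hl
  refine le_trans (le_of_eq ?_) hl
  have hm : Measurable fun x => ‖∑ d ∈ Finset.range M,
      (κ d : ℂ) * (f (X.A ((d : ℤ) • a) x) * e (X.A ((d : ℤ) • b) x))‖ :=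
    (Finset.measurable_sum _ fun d _ =>
      ((mb_tz hf _).1.mul (mb_tz he _).1).const_mul _).norm
  unfold NN
  rw [← hp.mp.map_eq, integral_map hp.mp.measurable.aemeasurable hm.aestronglyMeasurable]
  refine integral_congr_ae ?_
  filter_upwards [hs, ae_all_iff.2 fun d : ℕ =>
    term fd hp hf he hF h (κ d) ((d : ℤ) • a) ((d : ℤ) • b)] with y h1 h2
  rw [h1, Finset.sum_apply]
  exact congrArg _ (Finset.sum_congr rfl fun d _ => (h2 d).symm)

end LiftB

theorem liftB : LiftBR := by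
  intro fd vb la 𝒞 a b w hC hw hG X hX g hg bg f hf
  refine vb.span X a b w f g (EE 𝒞 X) hw hf (LiftB.bm hg).integrable ?_
    ((la 𝒞 hC X hX).span g hg bg)
  rintro e ⟨he, X', p, F, hX', hp, hF, h⟩
  refine ⟨(LiftB.bm he).integrable, ?_⟩
  exact squeeze_zero (fun M => vb.nonneg X a b (w M) M f e)
    (fun M => LiftB.le fd hp hf he (hC.mb X' F hF) h a b (w M) M)
    (hG X' hX' F hF _ ⟨hf.1.comp hp.mp.measurable, fun y => hf.2 _⟩)

end T6

end
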