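import Pool.Agent.MP_154433_an.t6.Spec

/-! The box functional along lines is a correlation with a block measurable in the factor. -/

set_option autoImplicit false
set_option linter.unusedVariables false
set_option warn.classDefReducibility false

open MeasureTheory ProbabilityTheory Filter Topology Function
open scoped BigOperators ComplexConjugate

noncomputable section

namespace T6

open Pool.Agent.MP_154433_an hiding BM
open T3S (B1 MB1 dif norm_exp_le_of norm_prod_le_one meas_exp conj_exp re_exp)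
open T4S (Gm Act ddX QX ln)
open T4x (Fac)

namespace Link

lemma exp_cons {n : ℕ} {α : Type} [Fintype α] (F : (Fin (n + 1) → α) → ℂ) :
    𝔼 h, F h = 𝔼 a, 𝔼 h : Fin n → α, F (Fin.cons a h) := by
  rw [← Finset.expect_product' _ _ fun a (h : Fin n → α) => F (Fin.cons a h),
    Finset.univ_product_univ]
  exact (Fintype.expect_equiv (Fin.consEquiv fun _ => α) _ _ fun _ => rfl).symm

lemma dif_cons {n H : ℕ} (a a' : Fin H) (h h' : Fin n → Fin H) :
    dif (Fin.cons a h : Fin (n + 1) → Fin H) (Fin.cons a' h') =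
      Fin.cons (((a' : ℕ) : ℤ) - ((a : ℕ) : ℤ)) (dif h h') := by
  funext j
  refine Fin.cases rfl (fun j => rfl) j

lemma blk_cons (X : Sy) {n : ℕ} (u : Fin (n + 1) → Gm 2) (H : ℕ) (g : X.X → ℂ)
    (γ : ℤ → Fin n → (Fin n → ℤ) → X.X → ℂ) (x : X.X) :
    blk X u H (Fin.cons (fun _ y => conj (g y))
      fun j τ y => conj (γ (τ 0) j (Fin.tail τ) y)) x =
    𝔼 a : Fin H, 𝔼 a' : Fin H, conj (g (X.A ((((a' : ℕ) : ℤ) - ((a : ℕ) : ℤ)) • u 0) x) *
      blk X (Fin.tail u) H (γ (((a' : ℕ) : ℤ) - ((a : ℕ) : ℤ))) x) := by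
  rw [blk, exp_cons]
  refine Finset.expect_congr rfl fun a _ => ?_
  simp only [exp_cons (α := Fin H)]
  rw [Finset.expect_comm]
  refine Finset.expect_congr rfl fun a' _ => ?_
  simp only [blk, Finset.mul_expect, conj_exp]
  refine Finset.expect_congr rfl fun h _ => Finset.expect_congr rfl fun h' _ => ?_
  rw [Fin.prod_univ_succ, map_mul, map_prod, dif_cons]
  simp only [Fin.cons_zero, Fin.cons_succ, ← Fin.cons_update, Fin.tail_cons]
  rfl

lemma blk_MB (X : Sy) {k : ℕ} (u : Fin k → Gm 2) (H : ℕ)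
    {β : Fin k → (Fin k → ℤ) → X.X → ℂ} (hβ : ∀ i τ, MB X (β i τ)) : MB X (blk X u H β) :=
  ⟨meas_exp _ fun h _ => meas_exp _ fun h' _ =>
    Finset.measurable_prod _ fun i _ => ((act X).tz (hβ _ _) _).1, fun x =>
    norm_exp_le_of zero_le_one fun h _ => norm_exp_le_of zero_le_one fun h' _ =>
      norm_prod_le_one _ fun i _ => (hβ _ _).2 _⟩

lemma cjY {α : Type} {Y : MeasurableSpace α} {g : α → ℂ} (hg : Measurable[Y] g) :
    Measurable[Y] fun x => conj (g x) :=
  Complex.continuous_conj.measurable.comp hg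

lemma ddY (X : Sy) {Y : MeasurableSpace X.X} (hY : Fac X Y) {g : X.X → ℂ}
    (hg : Measurable[Y] g) (v : Gm 2) : Measurable[Y] (ddX X.A v g) := by
  have h : Measurable[Y, Y] (X.A v) := measurable_iff_comap_le.2 (hY.inv v)
  exact (hg.comp h).mul (cjY hg)

lemma main (X : Sy) (H n : ℕ) (P : (X.X → ℂ) → Prop) (P1 : ∀ g, P g → P fun x => conj (g x))
    (P2 : ∀ g v, P g → P (ddX X.A v g)) : ∀ (u : Fin n → Gm 2) (g : X.X → ℂ), MB X g → P g →
    ∃ β : Fin n → (Fin n → ℤ) → X.X → ℂ, (∀ i τ, MB X (β i τ) ∧ P (β i τ)) ∧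
      QX X.μ X.A (List.ofFn fun i => ln (u i) H) g = (∫ x, g x * blk X u H β x ∂X.μ).re := by
  induction n with
  | zero => exact fun u g hg hP => ⟨Fin.elim0, fun i => i.elim0, by simp [QX, blk]⟩
  | succ n ih =>
    intro u g hg hP
    choose γ h1 h2 using fun t : ℤ =>
      ih (Fin.tail u) _ ((act X).dd hg (t • u 0)) (P2 g (t • u 0) hP)
    refine ⟨Fin.cons (fun _ y => conj (g y)) fun j τ y => conj (γ (τ 0) j (Fin.tail τ) y),
      fun i τ => Fin.cases ⟨hg.cj, P1 _ hP⟩ (fun j => ⟨(h1 _ _ _).1.cj, P1 _ (h1 _ _ _).2⟩) i, ?_⟩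
    have m : ∀ t : ℤ, MB X fun x => conj (ddX X.A (t • u 0) g x *
        blk X (Fin.tail u) H (γ t) x) := fun t =>
      (((act X).dd hg _).mul (blk_MB X _ H fun i τ => (h1 t i τ).1)).cj
    have e : ∀ x (t : ℤ), g x * conj (g (X.A (t • u 0) x) * blk X (Fin.tail u) H (γ t) x) =
        conj (ddX X.A (t • u 0) g x * blk X (Fin.tail u) H (γ t) x) := fun x t => by
      simp only [ddX, map_mul, RCLike.conj_conj]
      ring
    rw [List.ofFn_succ, T4S.QX_ln]
    have h3 : ∀ t : ℤ, QX X.μ X.A (List.ofFn fun i : Fin n => ln (u i.succ) H)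
        (ddX X.A (t • u 0) g) =
        (∫ x, ddX X.A (t • u 0) g x * blk X (Fin.tail u) H (γ t) x ∂X.μ).re := h2
    simp only [h3, blk_cons, Finset.mul_expect, e]
    rw [T3S.integral_exp, re_exp]
    · refine Finset.expect_congr rfl fun a _ => ?_
      rw [T3S.integral_exp _ fun a' _ => (m _).integrable X.μ, re_exp]
      exact Finset.expect_congr rfl fun a' _ => by rw [integral_conj, Complex.conj_re]
    · exact fun a _ => MB1.integrable ⟨meas_exp _ fun a' _ => (m _).1,
        fun x => norm_exp_le_of zero_le_one fun a' _ => (m _).2 x⟩ X.μ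

end Link

theorem link : LinkR := by
  intro _ X Y L H g hY hg hgY
  obtain ⟨β, h1, h2⟩ := Link.main X H L.length (fun g => Measurable[Y] g)
    (fun g h => Link.cjY h) (fun g v h => Link.ddY X hY h v) L.get g hg hgY
  refine ⟨β, h1, ?_⟩
  rw [← h2, QE]
  congr 1
  conv_lhs => rw [← List.ofFn_get L, List.map_ofFn]
  rfl

end T6

end
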