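import Pool.Agent.MP_154433_an.t6.Spec

/-! Row MXa: the maximal bound for almost invariant weights. -/

set_option autoImplicit false
set_option linter.unusedVariables false
set_option warn.classDefReducibility false

open MeasureTheory ProbabilityTheory Filter Topology Function
open scoped BigOperators ComplexConjugate

noncomputable section

namespace T6

open Pool.Agent.MP_154433_an hiding BM
open T3S (B1 MB1 PW AsInv Erg Bd Near Gr yw dif CZ)
open T4S (Gm Act ddX QX ln Spr Concl)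
open Fib27 (BM)
open T3x (nul pull gen)
open T4x (Fac Emb Inv Nice Pair Star KK Fd)

namespace MXa

variable {Ω : Type} {m : MeasurableSpace Ω}

theorem mx_nonneg (κ : ℕ → ℝ) (M : ℕ) (G : ℕ → ℂ) : 0 ≤ mx κ M G :=
  Real.iSup_nonneg fun χ => norm_nonneg _

theorem mx_sq {κ : ℕ → ℝ} {M : ℕ} {G : ℕ → ℂ} {c : ℝ}
    (h : ∀ χ : Ch M, ‖∑ d ∈ Finset.range M,
      (κ d : ℂ) * (χ (d : ZMod (6 * (M + 1))) * G d)‖ ^ 2 ≤ c) : mx κ M G ^ 2 ≤ c := by
  have hc : 0 ≤ c := (sq_nonneg _).trans (h 0)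
  have h1 : mx κ M G ≤ √c := ciSup_le fun χ => Real.le_sqrt_of_sq_le (h χ)
  exact (pow_le_pow_left₀ (mx_nonneg κ M G) h1 2).trans (Real.sq_sqrt hc).le

theorem int_exp (μ : Measure Ω) {ι : Type} (s : Finset ι) {f : ι → Ω → ℝ}
    (h : ∀ i ∈ s, Integrable (f i) μ) :
    Integrable (fun x => 𝔼 i ∈ s, f i x) μ ∧
      ∫ x, 𝔼 i ∈ s, f i x ∂μ = 𝔼 i ∈ s, ∫ x, f i x ∂μ := by
  simp only [Finset.expect_eq_sum_div_card]
  exact ⟨(integrable_finsetSum _ h).div_const _, by rw [integral_div, integral_finsetSum _ h]⟩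

/-- the average of one derivative -/
def W (X : Sy) (w : ℕ → ℕ → ℝ) (u : Gm 2) (g : X.X → ℂ) (M h h' : ℕ) : X.X → ℂ :=
  T4S.wavg X.A w (fun _ : Fin (0 + 1) => u) (fun _ => ddX X.A (((h' : ℤ) - (h : ℤ)) • u) g) M

theorem tw (X : Sy) (w : ℕ → ℕ → ℝ) (u : Gm 2) (g : X.X → ℂ) (M h h' : ℕ) (χ : Ch M) (x : X.X) :
    ‖∑ d ∈ Finset.range M, (w M d : ℂ) *
      ((χ ((d + h' : ℕ) : ZMod (6 * (M + 1))) * g (X.A (((d + h' : ℕ) : ℤ) • u) x)) *
        conj (χ ((d + h : ℕ) : ZMod (6 * (M + 1))) * g (X.A (((d + h : ℕ) : ℤ) • u) x)))‖ =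
      ‖W X w u g M h h' (X.A ((h : ℤ) • u) x)‖ := by
  have hn : ‖χ (h' : ZMod (6 * (M + 1))) * conj (χ (h : ZMod (6 * (M + 1))))‖ = 1 := by
    rw [norm_mul, RCLike.norm_conj, χ.norm_apply, χ.norm_apply, one_mul]
  rw [← one_mul ‖W X w u g M h h' _‖, ← hn, ← norm_mul, W, T4S.wavg, Finset.mul_sum]
  refine congrArg _ (Finset.sum_congr rfl fun d _ => ?_)
  have h1 : χ (d : ZMod (6 * (M + 1))) * conj (χ (d : ZMod (6 * (M + 1)))) = 1 := by
    rw [Complex.mul_conj, Complex.normSq_eq_norm_sq, χ.norm_apply]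
    simp
  have e1 : ((h' : ℤ) - (h : ℤ)) • u + ((d + h : ℕ) : ℤ) • u = ((d + h' : ℕ) : ℤ) • u := by
    push_cast
    module
  have e2 : (d : ℤ) • u + (h : ℤ) • u = ((d + h : ℕ) : ℤ) • u := by
    push_cast
    module
  simp only [Fin.prod_univ_succ, Fin.prod_univ_zero, mul_one, ddX, ← (act X).add, e1, e2]
  simp only [Nat.cast_add, AddChar.map_add_eq_mul, map_mul]
  linear_combination ((w M d : ℂ) * (χ (h' : ZMod (6 * (M + 1))) *
    conj (χ (h : ZMod (6 * (M + 1))))) * (g (X.A (((d : ℤ) + h') • u) x) *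
      conj (g (X.A (((d : ℤ) + h) • u) x)))) * h1

theorem W_int (X : Sy) (w : ℕ → ℕ → ℝ) (u : Gm 2) {g : X.X → ℂ} (hg : MB X g) (M h h' : ℕ)
    (v : Gm 2) : Integrable (fun x => ‖W X w u g M h h' (X.A v x)‖ ^ 2) X.μ ∧
      ∫ x, ‖W X w u g M h h' (X.A v x)‖ ^ 2 ∂X.μ = ∫ x, ‖W X w u g M h h' x‖ ^ 2 ∂X.μ := by
  have hm : Measurable fun x => ‖W X w u g M h h' x‖ ^ 2 :=
    ((act X).wavg_meas w _ (fun _ => ((act X).dd hg _).1) M).norm.pow_const 2
  refine ⟨Integrable.of_bound (hm.comp ((act X).meas v)).aestronglyMeasurable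
    ((∑ d ∈ Finset.range M, |w M d|) ^ 2) (Eventually.of_forall fun x => ?_),
    (act X).integral v hm.aestronglyMeasurable⟩
  rw [Real.norm_of_nonneg (sq_nonneg _)]
  exact pow_le_pow_left₀ (norm_nonneg _)
    (T4S.wavg_norm_le _ _ _ (fun _ => ((act X).dd hg _).2) M _) 2

theorem small {K ε : ℝ} (hK : 0 ≤ K) (hε : 0 < ε) : K * (ε / (K + 1)) ≤ ε := by
  rw [← mul_div_assoc, div_le_iff₀ (by positivity)]
  nlinarith

end MXa

theorem mxa : MXaR := by
  intro hV hG hQ w hw hi ε hε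
  obtain ⟨K1, hK1, h1⟩ := hQ.pw 1 (ε / 4) (by positivity)
  obtain ⟨K2, hK2, h2⟩ := hQ.pw 1 (ε / 4 / (K1 + 1)) (by positivity)
  have hK := mul_nonneg hK1 hK2
  refine ⟨K1 * K2, hK, fun X u g H hg hH => ?_⟩
  have : Nonempty (Fin H) := ⟨⟨0, hH⟩⟩
  have hg2 : ∀ᶠ M in atTop, ∀ h : Fin H, ∀ h' : Fin H, ∫ x, ‖MXa.W X w u g M h h' x‖ ^ 2 ∂X.μ ≤
      QX X.μ X.A [ln u H] (ddX X.A ((((h' : ℕ) : ℤ) - ((h : ℕ) : ℤ)) • u) g) +
        ε / 4 / (K1 * K2 + 1) := by
    refine eventually_all.2 fun h => eventually_all.2 fun h' => ?_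
    filter_upwards [hG w hw hi 2 X.X X.μ X.A (act X) 0 (fun _ => H) (fun _ => hH) (fun _ => u)
      (fun _ => ddX X.A ((((h' : ℕ) : ℤ) - ((h : ℕ) : ℤ)) • u) g) (fun _ => (act X).dd hg _)
      (ε / 4 / (K1 * K2 + 1)) (by positivity)] with M hM
    rw [pow_zero, pow_one] at hM
    exact hM
  filter_upwards [hV w hw hi H hH (ε / 4 / (K1 + 1)) (by positivity), hg2] with M hM hM2
  have hp : ∀ x, mx (w M) M (fun d => g (X.A ((d : ℤ) • u) x)) ≤ 3 * (ε / 4) + K1 * K2 *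
      𝔼 h : Fin H, 𝔼 h' : Fin H, ‖MXa.W X w u g M h h' (X.A (((h : ℕ) : ℤ) • u) x)‖ ^ 2 := by
    intro x
    have a1 : mx (w M) M (fun d => g (X.A ((d : ℤ) • u) x)) ^ 2 ≤
        (𝔼 h : Fin H, 𝔼 h' : Fin H, ‖MXa.W X w u g M h h' (X.A (((h : ℕ) : ℤ) • u) x)‖) +
          ε / 4 / (K1 + 1) := by
      refine MXa.mx_sq fun χ => (hM (fun d => χ (d : ZMod (6 * (M + 1))) *
        g (X.A ((d : ℤ) • u) x)) fun d => ?_).trans (add_le_add_left ?_ _)
      · rw [norm_mul, χ.norm_apply, one_mul]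
        exact hg.2 _
      · refine (Complex.re_le_norm _).trans ((T3S.norm_exp_le _ _).trans
          (Finset.expect_le_expect fun h _ => (T3S.norm_exp_le _ _).trans
            (Finset.expect_le_expect fun h' _ => (MXa.tw X w u g M h h' χ x).le)))
    have a2 : (𝔼 h : Fin H, 𝔼 h' : Fin H, ‖MXa.W X w u g M h h' (X.A (((h : ℕ) : ℤ) • u) x)‖) ≤
        ε / 4 / (K1 + 1) + K2 * 𝔼 h : Fin H, 𝔼 h' : Fin H,
          ‖MXa.W X w u g M h h' (X.A (((h : ℕ) : ℤ) • u) x)‖ ^ 2 := by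
      refine (Finset.expect_le_expect fun h _ => Finset.expect_le_expect fun h' _ =>
        h2 _ _ (sq_nonneg _) (le_of_eq rfl)).trans (le_of_eq ?_)
      simp only [Finset.expect_add_distrib, Fintype.expect_const, Finset.mul_expect]
    have a3 := h1 _ _ (sq_nonneg (mx (w M) M fun d => g (X.A ((d : ℤ) • u) x))) (le_of_eq rfl)
    have a4 := MXa.small hK1 (show 0 < ε / 4 by positivity)
    have a5 := mul_le_mul_of_nonneg_left (a1.trans (add_le_add_left a2 _)) hK1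
    linarith
  have hi1 := fun h : Fin H => MXa.int_exp X.μ Finset.univ fun (h' : Fin H) _ =>
    (MXa.W_int X w u hg M h h' (((h : ℕ) : ℤ) • u)).1
  have hi2 := MXa.int_exp X.μ Finset.univ fun (h : Fin H) _ => (hi1 h).1
  have b1 := integral_mono_of_nonneg (Eventually.of_forall fun x => MXa.mx_nonneg _ _ _)
    ((integrable_const (3 * (ε / 4))).add (hi2.1.const_mul (K1 * K2))) (Eventually.of_forall hp)
  have b2 : ∫ x, 𝔼 h : Fin H, 𝔼 h' : Fin H,
      ‖MXa.W X w u g M h h' (X.A (((h : ℕ) : ℤ) • u) x)‖ ^ 2 ∂X.μ ≤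
        QE X [u, u] H g + ε / 4 / (K1 * K2 + 1) := by
    rw [hi2.2]
    refine (Finset.expect_le_expect fun h _ => (hi1 h).2.le.trans
      (Finset.expect_le_expect fun h' _ =>
        (MXa.W_int X w u hg M h h' _).2.le.trans (hM2 h h'))).trans (le_of_eq ?_)
    simp only [Finset.expect_add_distrib, Fintype.expect_const]
    exact congrArg (· + _) (T4S.QX_ln X.μ X.A u H [ln u H] g).symm
  rw [integral_add' (integrable_const _) (hi2.1.const_mul _), integral_const,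
    integral_const_mul] at b1
  simp only [probReal_univ, smul_eq_mul, one_mul] at b1
  have b3 := mul_le_mul_of_nonneg_left b2 hK
  have b4 := MXa.small hK (show 0 < ε / 4 by positivity)
  linarith

end T6

end
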