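import Pool.Agent.MP_154433_an.t6.Spec

/-! Row MXb: the maximal bound passes to weights with the same twisted averages. -/

set_option autoImplicit false
set_option linter.unusedVariables false
set_option warn.classDefReducibility false

open MeasureTheory ProbabilityTheory Filter Topology Function
open scoped BigOperators ComplexConjugate

noncomputable section

namespace T6

open Pool.Agent.MP_154433_an hiding BM
open T3S (B1 MB1 PW AsInv Erg Bd Near Gr yw dif CZ)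
open T4S (Gm Act ddX QX ln Spr Concl)
open Fib27 (BM)
open T3x (nul pull gen)
open T4x (Fac Emb Inv Nice Pair Star KK Fd)

namespace MXb

theorem chi_eq {M : ℕ} (χ : Ch M) (d : ℕ) :
    χ (d : ZMod (6 * (M + 1))) = ee ((d : ℝ) * (Complex.arg (χ 1) / (2 * Real.pi))) := by
  have h1 := Complex.norm_mul_exp_arg_mul_I (χ 1)
  rw [χ.norm_apply, Complex.ofReal_one, one_mul] at h1
  have h2 : 2 * Real.pi * ((d : ℝ) * (Complex.arg (χ 1) / (2 * Real.pi))) =
      d * Complex.arg (χ 1) := by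
    have := Real.pi_ne_zero
    field_simp
  rw [ee, h2, Complex.ofReal_mul, Complex.ofReal_natCast, mul_assoc, Complex.exp_nat_mul, h1,
    ← AddChar.map_nsmul_eq_pow, nsmul_one]

variable {Ω : Type} {m : MeasurableSpace Ω}

/-- the twisted sum for one character -/
def ts (κ : ℕ → ℝ) (M : ℕ) (G : ℕ → ℂ) (χ : Ch M) : ℂ :=
  ∑ d ∈ Finset.range M, (κ d : ℂ) * (χ (d : ZMod (6 * (M + 1))) * G d)

theorem ts_meas (κ : ℕ → ℝ) (M : ℕ) {G : Ω → ℕ → ℂ} (hG : ∀ d, Measurable fun x => G x d)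
    (χ : Ch M) : Measurable fun x => ‖ts κ M (G x) χ‖ :=
  (Finset.measurable_sum _ fun d _ => ((hG d).const_mul _).const_mul _).norm

theorem ts_le (κ : ℕ → ℝ) (M : ℕ) {G : ℕ → ℂ} (hG : ∀ d, ‖G d‖ ≤ 1) (χ : Ch M) :
    ‖ts κ M G χ‖ ≤ ∑ d ∈ Finset.range M, |κ d| := by
  refine (norm_sum_le _ _).trans (Finset.sum_le_sum fun d _ => ?_)
  rw [norm_mul, norm_mul, χ.norm_apply, one_mul, Complex.norm_real, Real.norm_eq_abs]
  exact mul_le_of_le_one_right (abs_nonneg _) (hG d)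

theorem le_mx (κ : ℕ → ℝ) (M : ℕ) (G : ℕ → ℂ) (χ : Ch M) : ‖ts κ M G χ‖ ≤ mx κ M G :=
  le_ciSup (f := fun χ : Ch M => ‖ts κ M G χ‖) (Set.finite_range _).bddAbove χ

theorem mx_le {κ : ℕ → ℝ} {M : ℕ} {G : ℕ → ℂ} {c : ℝ} (h : ∀ χ : Ch M, ‖ts κ M G χ‖ ≤ c) :
    mx κ M G ≤ c := ciSup_le h

theorem mx_nonneg (κ : ℕ → ℝ) (M : ℕ) (G : ℕ → ℂ) : 0 ≤ mx κ M G :=
  (norm_nonneg _).trans (le_mx κ M G 0)

theorem mx_int (μ : Measure Ω) [IsFiniteMeasure μ] (κ : ℕ → ℝ) (M : ℕ) {G : Ω → ℕ → ℂ}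
    (hG : ∀ d, Measurable fun x => G x d) (h1 : ∀ x d, ‖G x d‖ ≤ 1) :
    Integrable (fun x => mx κ M (G x)) μ := by
  refine Integrable.of_bound (Measurable.iSup (ts_meas κ M hG)).aestronglyMeasurable
    (∑ d ∈ Finset.range M, |κ d|) (Eventually.of_forall fun x => ?_)
  rw [Real.norm_of_nonneg (mx_nonneg _ _ _)]
  exact mx_le (ts_le κ M (h1 x))

theorem pick (κ : ℕ → ℝ) (M : ℕ) {G : Ω → ℕ → ℂ} (hG : ∀ d, Measurable fun x => G x d) :
    ∃ b : Ω → ℝ, Measurable b ∧ ∀ x, mx κ M (G x) =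
      ‖∑ d ∈ Finset.range M, (κ d : ℂ) * (G x d * ee ((d : ℝ) * b x))‖ := by
  classical
  obtain ⟨e, he⟩ := exists_surjective_nat (Ch M)
  have hp : ∀ x, ∃ n, x ∈ {x | ∀ χ, ‖ts κ M (G x) χ‖ ≤ ‖ts κ M (G x) (e n)‖} := fun x => by
    obtain ⟨χ, hχ⟩ := Finite.exists_max fun χ : Ch M => ‖ts κ M (G x) χ‖
    obtain ⟨n, rfl⟩ := he χ
    exact ⟨n, hχ⟩
  have hm := measurable_find hp fun n => by
    rw [Set.ofPred_forall]
    exact MeasurableSet.iInter fun χ => measurableSet_le (ts_meas κ M hG χ) (ts_meas κ M hG _)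
  refine ⟨fun x => Complex.arg (e (Nat.find (hp x)) 1) / (2 * Real.pi),
    (measurable_from_nat (f := fun n => Complex.arg (e n 1) / (2 * Real.pi))).comp hm,
    fun x => ?_⟩
  rw [le_antisymm (mx_le (Nat.find_spec (hp x))) (le_mx _ _ _ _), ts]
  simp only [chi_eq, mul_comm (G x _)]

theorem sub (κ κ' : ℕ → ℝ) (M : ℕ) (G : ℕ → ℂ) :
    mx κ M G ≤ mx κ' M G + mx (fun d => κ d - κ' d) M G := by
  refine mx_le fun χ => le_trans ?_ (add_le_add (le_mx _ _ _ χ) (le_mx _ _ _ χ))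
  refine le_trans (le_of_eq (congrArg _ ?_)) (norm_add_le _ _)
  simp only [ts, ← Finset.sum_add_distrib]
  refine Finset.sum_congr rfl fun d _ => ?_
  push_cast
  ring

end MXb

theorem mxb : MXbR := by
  intro ν ν' h hU ε hε
  obtain ⟨K, hK, h⟩ := h (ε / 2) (by positivity)
  refine ⟨K, hK, fun X u g H hg hH => ?_⟩
  have hG : ∀ d : ℕ, Measurable fun x => g (X.A ((d : ℤ) • u) x) :=
    fun d => hg.1.comp (X.mp _).measurable
  choose b hb e using fun M => MXb.pick (df ν ν' M) M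
    (G := fun x d => g (X.A ((d : ℤ) • u) x)) hG
  have i : ∀ (κ : ℕ → ℝ) (M : ℕ), Integrable
      (fun x => mx κ M fun d => g (X.A ((d : ℤ) • u) x)) X.μ :=
    fun κ M => MXb.mx_int X.μ κ M hG fun x d => hg.2 _
  filter_upwards [h X u g H hg hH,
    (tendsto_order.1 (hU X u g b hg hb)).2 (ε / 2) (by positivity)] with M h1 h2
  simp only [← e M] at h2
  have h3 := integral_mono (i (ν M) M) ((i (ν' M) M).add (i (df ν ν' M) M))
    fun x => MXb.sub (ν M) (ν' M) M _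
  rw [integral_add' (i (ν' M) M) (i (df ν ν' M) M)] at h3
  linarith

end T6

end
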