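import Pool.Agent.MP_154433_an.t6.Spec

/-! Row Mono: the box functional of a conditional expectation. -/

set_option autoImplicit false
set_option linter.unusedVariables false
set_option warn.classDefReducibility false

open MeasureTheory ProbabilityTheory Filter Topology Function
open scoped BigOperators ComplexConjugate

noncomputable section

namespace T6

open Pool.Agent.MP_154433_an hiding BM
open T3S (B1 MB1 PW AsInv Erg Bd Near Gr yw dif CZ)
open T4S (Gm Act ddX QX ln Spr Concl)
open Fib27 (BM)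
open T3x (nul pull gen)
open T4x (Fac Emb Inv Nice Pair Star KK Fd)

namespace Mono

theorem exp_meas {Ω ι : Type} [Fintype ι] {m : MeasurableSpace Ω} {f : ι → Ω → ℂ}
    (h : ∀ i, Measurable[m] (f i)) : Measurable[m] fun x => 𝔼 i, f i x := by
  simp only [Finset.expect_eq_sum_div_card]
  exact (Finset.measurable_sum _ fun i _ => h i).div_const _

theorem exp_le {ι : Type} [Fintype ι] {f : ι → ℂ} (h : ∀ i, ‖f i‖ ≤ 1) : ‖𝔼 i, f i‖ ≤ 1 := by
  rw [Finset.expect_eq_sum_div_card, norm_div, Complex.norm_natCast]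
  refine div_le_one_of_le₀ ((norm_sum_le _ _).trans ?_) (Nat.cast_nonneg _)
  simpa using Finset.sum_le_sum (s := Finset.univ) fun i _ => h i

theorem int_ce {Ω : Type} {Y : MeasurableSpace Ω} {m0 : MeasurableSpace Ω} (μ : Measure Ω)
    [IsProbabilityMeasure μ] (hY : Y ≤ m0) {G b : Ω → ℂ} (hG : Integrable G μ)
    (hb : Measurable[Y] b) (h1 : ∀ x, ‖b x‖ ≤ 1) :
    ∫ x, (μ[G | Y]) x * b x ∂μ = ∫ x, G x * b x ∂μ := by
  have hi : Integrable (G * b) μ :=
    hG.mul_bdd (hb.mono hY le_rfl).aestronglyMeasurable (ae_of_all _ h1)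
  have e := condExp_bilin_of_stronglyMeasurable_right (μ := μ) (ContinuousLinearMap.mul ℝ ℂ)
    hb.stronglyMeasurable hi hG
  exact (integral_congr_ae e).symm.trans (integral_condExp hY)

end Mono

theorem mono : MonoR := by
  intro F vb qb link gcs X Y L H G G' hY hL hH hG hG'
  obtain ⟨g, hg, hm⟩ := vb.ver X Y G hY hG
  obtain ⟨β, hβ, e⟩ := link X Y L H g hY hg.1 hm
  have mb : Measurable[Y] (blk X L.get H β) :=
    Mono.exp_meas fun h => Mono.exp_meas fun h' => Finset.measurable_prod _ fun i _ =>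
      (hβ i _).2.comp (Measurable.of_comap_le (hY.inv _))
  have b1 : ∀ x, ‖blk X L.get H β x‖ ≤ 1 := fun x =>
    Mono.exp_le fun h => Mono.exp_le fun h' => by
      rw [norm_prod]
      exact Finset.prod_le_one (fun i _ => norm_nonneg _) fun i _ => (hβ i _).1.2 _
  have hi : Integrable G X.μ := Integrable.of_bound hG.1.aestronglyMeasurable 1 (ae_of_all _ hG.2)
  have e2 : ∫ x, g x * blk X L.get H β x ∂X.μ = ∫ x, G x * blk X L.get H β x ∂X.μ := by
    rw [← Mono.int_ce X.μ hY.le hi mb b1]
    refine integral_congr_ae ?_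
    filter_upwards [hg.2] with x hx
    rw [hx]
  rw [qb.congr X L H G' g (hG'.2.trans hg.2.symm)]
  refine (pow_le_pow_left₀ (qb.nonneg X L H g hL hg.1) ?_ _).trans
    (gcs X L H G β hL hH hG fun i τ => (hβ i τ).1)
  rw [e, e2]
  exact Complex.re_le_norm _

end T6

end
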