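import Pool.Agent.MP_154433_an.t6.Spec

/-! One direction of a box may be read through its invariant factor. -/

set_option autoImplicit false
set_option linter.unusedVariables false
set_option warn.classDefReducibility false

open MeasureTheory ProbabilityTheory Filter Topology Function
open scoped BigOperators ComplexConjugate

noncomputable section

namespace T6

open Pool.Agent.MP_154433_an hiding BM
open T3S (B1 MB1 re_exp conj_exp meas_exp norm_exp_le_of)
open T4S (Gm Act ddX QX ln QX_ln Fam)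
open T4x (Fac Fd Inv)

namespace NulInv

lemma app (X : Sy) (H : ℕ) (M : List (Fam 2)) (L : List (Gm 2)) (f g : X.X → ℂ) :
    QX X.μ X.A ((L.map fun u => ln u H) ++ M) f =
      EL X H L (fun f' _ => QX X.μ X.A M f') f g := by
  induction L generalizing f g with
  | nil => rfl
  | cons u L ih =>
    rw [List.map_cons, List.cons_append, QX_ln]
    simp only [EL]
    exact Finset.expect_congr rfl fun h _ => Finset.expect_congr rfl fun h' _ => ih _ _

/-- the average along one line -/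
def av (X : Sy) (u : Gm 2) (M : ℕ) (G : X.X → ℂ) (x : X.X) : ℂ :=
  𝔼 h : Fin M, G (X.A (((h : ℕ) : ℤ) • u) x)

lemma av_MB (X : Sy) (u : Gm 2) (M : ℕ) (G : X.X → ℂ) (hG : MB X G) : MB X (av X u M G) :=
  ⟨meas_exp _ fun h _ => ((act X).tz hG _).1,
    fun x => norm_exp_le_of zero_le_one fun h _ => hG.2 _⟩

lemma av_eq (X : Sy) (u : Gm 2) (M : ℕ) (G : X.X → ℂ) (x : X.X) :
    av X u M G x = (M : ℂ)⁻¹ * ∑ n ∈ Finset.range M, G (X.Tz ((n : ℤ) • u) x) := by
  rw [av, Finset.expect_eq_sum_div_card, Finset.card_univ, Fintype.card_fin,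
    ← Fin.sum_univ_eq_sum_range (fun n : ℕ => G (X.Tz ((n : ℤ) • u) x)) M, div_eq_inv_mul]

lemma one (X : Sy) (u : Gm 2) (M : ℕ) (G : X.X → ℂ) (hG : MB X G) :
    QX X.μ X.A [ln u M] G = ∫ x, ‖av X u M G x‖ ^ 2 ∂X.μ := by
  have hA := act X
  have hm : ∀ h h' : Fin M, MB X fun x =>
      G (X.A (((h' : ℕ) : ℤ) • u) x) * conj (G (X.A (((h : ℕ) : ℤ) • u) x)) :=
    fun h h' => (hA.tz hG _).mul (hA.tz hG _).cj
  have e1 : ∀ h h' : Fin M,
      ∫ x, ddX X.A ((((h' : ℕ) : ℤ) - ((h : ℕ) : ℤ)) • u) G x ∂X.μ =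
      ∫ x, G (X.A (((h' : ℕ) : ℤ) • u) x) * conj (G (X.A (((h : ℕ) : ℤ) • u) x)) ∂X.μ := by
    intro h h'
    rw [← hA.integral (((h : ℕ) : ℤ) • u) (hA.dd hG _).1.aestronglyMeasurable]
    refine integral_congr_ae (Eventually.of_forall fun x => ?_)
    simp only [ddX]
    rw [← hA.add, ← add_smul, sub_add_cancel]
  have e2 : ∀ x, ((‖av X u M G x‖ ^ 2 : ℝ) : ℂ) = 𝔼 h : Fin M, 𝔼 h' : Fin M,
      G (X.A (((h' : ℕ) : ℤ) • u) x) * conj (G (X.A (((h : ℕ) : ℤ) • u) x)) := by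
    intro x
    rw [Complex.ofReal_pow, ← Complex.mul_conj', av, conj_exp, Finset.mul_expect]
    exact Finset.expect_congr rfl fun h _ => Finset.expect_mul _ _ _
  rw [QX_ln]
  simp only [QX, e1]
  have e3 : ((∫ x, ‖av X u M G x‖ ^ 2 ∂X.μ : ℝ) : ℂ) = 𝔼 h : Fin M, 𝔼 h' : Fin M,
      ∫ x, G (X.A (((h' : ℕ) : ℤ) • u) x) * conj (G (X.A (((h : ℕ) : ℤ) • u) x)) ∂X.μ := by
    rw [← integral_complex_ofReal]
    simp only [e2]
    rw [T3S.integral_exp]
    · exact Finset.expect_congr rfl fun h _ =>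
        T3S.integral_exp _ fun h' _ => (hm h h').integrable X.μ
    · intro h _
      exact MB1.integrable ⟨meas_exp _ fun h' _ => (hm h h').1,
        fun x => norm_exp_le_of zero_le_one fun h' _ => (hm h h').2 x⟩ X.μ
  rw [← Complex.ofReal_re (∫ x, ‖av X u M G x‖ ^ 2 ∂X.μ), e3, re_exp]
  exact Finset.expect_congr rfl fun h _ => (re_exp _ _).symm

lemma lim (F : Fd) (X : Sy) (u : Gm 2) (G : X.X → ℂ) (hG : MB X G) (ε : ℝ) (hε : 0 < ε) :
    ∀ᶠ M in atTop, QX X.μ X.A [ln u M] G ≤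
      ε + 2 * ∫ x, ‖(X.μ[G | Inv X {u}]) x‖ ^ 2 ∂X.μ := by
  have h2 : MemLp G 2 X.μ :=
    MemLp.of_bound hG.1.aestronglyMeasurable 1 (Eventually.of_forall hG.2)
  have hc : MemLp (X.μ[G | Inv X {u}]) 2 X.μ := h2.condExp one_le_two
  have ht := F.met X u G h2
  filter_upwards [ht.eventually (gt_mem_nhds (half_pos hε))] with M hM
  rw [one X u M G hG]
  have ha := av_MB X u M G hG
  have ha2 : MemLp (av X u M G) 2 X.μ :=
    MemLp.of_bound ha.1.aestronglyMeasurable 1 (Eventually.of_forall ha.2)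
  have i1 : Integrable (fun x => ‖av X u M G x - (X.μ[G | Inv X {u}]) x‖ ^ 2) X.μ :=
    (memLp_two_iff_integrable_sq_norm (ha2.sub hc).1).1 (ha2.sub hc)
  have i2 : Integrable (fun x => ‖(X.μ[G | Inv X {u}]) x‖ ^ 2) X.μ :=
    (memLp_two_iff_integrable_sq_norm hc.1).1 hc
  have i0 : Integrable (fun x => ‖av X u M G x‖ ^ 2) X.μ :=
    (memLp_two_iff_integrable_sq_norm ha2.1).1 ha2
  have le : ∫ x, ‖av X u M G x‖ ^ 2 ∂X.μ ≤
      ∫ x, (2 * ‖av X u M G x - (X.μ[G | Inv X {u}]) x‖ ^ 2 +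
        2 * ‖(X.μ[G | Inv X {u}]) x‖ ^ 2) ∂X.μ := by
    refine integral_mono i0 ((i1.const_mul 2).add (i2.const_mul 2)) fun x => ?_
    have h := norm_le_norm_sub_add (av X u M G x) ((X.μ[G | Inv X {u}]) x)
    have h0 := norm_nonneg (av X u M G x)
    have h3 := pow_le_pow_left₀ h0 h 2
    show ‖av X u M G x‖ ^ 2 ≤ _
    nlinarith [sq_nonneg (‖av X u M G x - (X.μ[G | Inv X {u}]) x‖ - ‖(X.μ[G | Inv X {u}]) x‖)]
  rw [integral_add (i1.const_mul 2) (i2.const_mul 2), integral_const_mul, integral_const_mul] at le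
  simp only [← av_eq] at hM
  linarith

end NulInv

theorem nulInv : NulInvR := by
  intro F hP hQ hS X u L g hg h ε hε
  obtain ⟨H, hH, hE⟩ := h (ε / 8) (by positivity)
  have h1 := hQ.elc X (fun M f _ => QX X.μ X.A [ln u M] f)
    (fun G _ => ∫ x, ‖(X.μ[G | Inv X {u}]) x‖ ^ 2 ∂X.μ) g (ε / 4) 2 H L hH hg
    (fun f g' hf _ => NulInv.lim F X u f hf _ (by positivity)) g hg
  obtain ⟨M, hM, hM1⟩ := (h1.and (eventually_ge_atTop 1)).exists
  have h2 := hS X ((u, M) :: L.map fun v => (v, H)) g hg (by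
    intro p hp
    rcases List.mem_cons.1 hp with rfl | hp
    · exact hM1
    · obtain ⟨v, -, rfl⟩ := List.mem_map.1 hp
      exact hH) (ε / 2) (half_pos hε)
  obtain ⟨H', h3, h4⟩ := (h2.and (eventually_ge_atTop 1)).exists
  refine ⟨H', h4, ?_⟩
  have e1 : ((u, M) :: L.map fun v => (v, H)).map Prod.fst = u :: L := by
    simp [List.map_map, Function.comp_def]
  have e2 : QL X ((u, M) :: L.map fun v => (v, H)) g =
      EL X H L (fun f _ => QX X.μ X.A [ln u M] f) g g := by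
    rw [← NulInv.app X H [ln u M] L g g, QL]
    refine hP 2 X.X X.μ X.A (act X) _ _ ?_ g
    rw [List.map_cons, List.map_map]
    exact (List.perm_append_singleton _ _).symm
  rw [e1, e2] at h3
  linarith

end T6

end
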