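import Pool.Agent.MP_154433_an.t6.Spec

/-! Row Own: the compact step in a direction of the slot itself. -/

set_option autoImplicit false
set_option linter.unusedVariables false

open MeasureTheory ProbabilityTheory Filter Topology Function
open scoped BigOperators ComplexConjugate

noncomputable section

namespace T6

open Pool.Agent.MP_154433_an hiding BM
open T3S (B1 MB1 PW AsInv Bd)
open T4S (Gm)
open Fib27 (BM)
open T3x (pull)
open T4x (Fac Inv Nice Pair Star KK Fd)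

namespace Own

section gen

variable {Ω Ω' : Type} {m0 : MeasurableSpace Ω} {m0' : MeasurableSpace Ω'} {μ : Measure[m0] Ω}
  {μ' : Measure[m0'] Ω'}

lemma bm_comp {p : Ω → Ω'} (hp : @MeasurePreserving _ _ m0 m0' p μ μ') {f : Ω' → ℂ}
    (h : BM μ' m0' f) : BM μ m0 fun x => f (p x) :=
  ⟨h.1.comp_measurePreserving hp, h.2.imp fun _ hC => hp.quasiMeasurePreserving.ae hC⟩

lemma mpc {Ω'' : Type} {m0'' : MeasurableSpace Ω''} {μ'' : Measure[m0''] Ω''} {p : Ω → Ω'}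
    {q : Ω' → Ω''} (hq : @MeasurePreserving _ _ m0' m0'' q μ' μ'')
    (hp : @MeasurePreserving _ _ m0 m0' p μ μ') : @MeasurePreserving _ _ m0 m0'' (q ∘ p) μ μ'' :=
  hq.comp hp

lemma desc {p : Ω → Ω'} (hp : @MeasurePreserving _ _ m0 m0' p μ μ') {a b : Ω' → ℂ}
    (ha : BM μ' m0' a) (hb : BM μ' m0' b) (h : (fun x => a (p x)) =ᵐ[μ] fun x => b (p x)) :
    a =ᵐ[μ'] b :=
  (hp.measure_preimage (ha.1.nullMeasurableSet_eq_fun hb.1).compl).symm.trans h

lemma aec {p : Ω → Ω'} (hp : @MeasurePreserving _ _ m0 m0' p μ μ') {a b : Ω' → ℂ}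
    (h : a =ᵐ[μ'] b) : ∀ᵐ x ∂μ, a (p x) = b (p x) := hp.quasiMeasurePreserving.ae h

lemma tow [IsProbabilityMeasure μ] {m1 m2 : MeasurableSpace Ω} (h1 : m1 ≤ m2) (h2 : m2 ≤ m0)
    {g : Ω → ℂ} (h : μ[g | m2] =ᵐ[μ] 0) : μ[g | m1] =ᵐ[μ] 0 := by
  have e := condExp_congr_ae (m := m1) h
  rw [condExp_zero] at e
  exact (condExp_condExp_of_le h1 h2).symm.trans e

lemma l1 [IsProbabilityMeasure μ] {a : Ω → ℂ} (h : BM μ m0 a) {ε : ℝ} (hε : 0 < ε)
    (h2 : ∫ x, ‖a x‖ ^ 2 ∂μ ≤ ε ^ 2) : ∫ x, ‖a x‖ ∂μ ≤ ε := by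
  have i : Integrable (fun x => ‖a x‖ ^ 2) μ :=
    (h.memLp ((2 : ℕ) : ENNReal)).integrable_norm_pow two_ne_zero
  have e := integral_mono (h.integrable.norm.const_mul (2 * ε)) (i.add (integrable_const (ε ^ 2)))
    fun x => show 2 * ε * ‖a x‖ ≤ ‖a x‖ ^ 2 + ε ^ 2 by nlinarith [sq_nonneg (‖a x‖ - ε)]
  rw [integral_const_mul, integral_add' i (integrable_const _)] at e
  simp only [integral_const, probReal_univ, one_smul] at e
  nlinarith

end gen

variable {X : Sy}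

lemma bm {f : X.X → ℂ} (h : MB X f) : BM X.μ X.ms f :=
  ⟨h.1.aestronglyMeasurable, 1, Eventually.of_forall h.2⟩

lemma nrm (F : Fd) {Y : MeasurableSpace X.X} (hY : Y ≤ X.ms) {k : X.X → ℂ} (h : BM X.μ Y k) :
    ∃ (c : ℂ) (k' : X.X → ℂ), MB X k' ∧ BM X.μ Y k' ∧ k =ᵐ[X.μ] fun x => c * k' x := by
  obtain ⟨C, hC⟩ := h.2
  have c0 : (0 : ℝ) < max C 1 := lt_max_of_lt_right one_pos
  have c1 : ((max C 1 : ℝ) : ℂ) ≠ 0 := by exact_mod_cast c0.ne'
  have hb := h.cmul (((max C 1 : ℝ) : ℂ)⁻¹)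
  obtain ⟨k', a1, a2, a3⟩ := F.a.rep Y X.μ _ 1 zero_le_one hb.1 (hC.mono fun x hx => by
    rw [norm_mul, norm_inv, Complex.norm_real, Real.norm_of_nonneg c0.le, inv_mul_le_one₀ c0]
    exact hx.trans (le_max_left _ _))
  refine ⟨((max C 1 : ℝ) : ℂ), k', ⟨a1.mono hY le_rfl, a2⟩, hb.congr a3, a3.mono fun x hx => ?_⟩
  simp only at hx ⊢
  rw [← hx, mul_inv_cancel_left₀ c1]

lemma d2_mb {f : X.X → ℂ} (h : MB X f) (u : Gm 2) (n n' : ℕ) : MB X (d2 X u n n' f) :=
  ((act X).tz h _).mul ((act X).tz h _).cj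

/-- a convolution with a function orthogonal to the base is not seen by either weight -/
lemma rest (F : Fd) (V : VB) (hK : KeyS) {ν ν' : ℕ → ℕ → ℝ} (hν : PW ν) {Z : Sy} {a b u : Gm 2}
    {A1 A2 : MeasurableSpace X.X} (h1 : Fac X A1) (h2 : Fac X A2) {p : Bool → Z.X → X.X}
    (hp : Pair X A2 Z p) (hg : GP X a b (df ν ν') A1 A2) {H : Z.X → ℂ} {f g k : X.X → ℂ}
    (hH : BM Z.μ (Inv Z {u}) H) (mg : MB X g) (mk : BM X.μ X.ms k) (hs : Star p H g k)
    (h0 : G0 X a b u ν' g) (mf : MB X f) (bf : BM X.μ A1 f) : Vn X a b ν f k := by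
  obtain ⟨K, K0, hk⟩ := hK X Z A2 p a b u H g k h2 hp hH mg mk hs
  choose c hc hc' using fun n n' => V.ver X A2 _ h2 (d2_mb mg u n n')
  refine tendsto_order.2 ⟨fun t ht => Eventually.of_forall fun M =>
    ht.trans_le (V.nonneg _ _ _ _ _ _ _), fun t ht => ?_⟩
  have e0 : 0 < t ^ 2 / (3 * (K + 1)) := by positivity
  obtain ⟨N, α, N1, hα, hN⟩ := h0 _ e0
  have ev : ∀ n n' : Fin N, ∀ᶠ M in atTop, NN X a b (ν M) M (d2 X u n n' f) (c n n') ≤
      α n n' + 2 * (t ^ 2 / (3 * (K + 1))) := fun n n' => by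
    filter_upwards [hN n n' A2 _ _ h2 (d2_mb mf u n n') (hc n n') _ e0,
      (tendsto_order.1 (hg _ _ (d2_mb mf u n n') (hc n n').1
        ((F.t.bm X A1 _ f h1 bf).mul (F.t.bm X A1 _ f h1 bf).conj)
        ((bm (hc n n').1).of_aesm (hc' n n').aestronglyMeasurable))).2 _ e0] with M m1 m2
    have := V.tri X a b (ν M) (ν' M) M _ _ (d2_mb mf u n n') (hc n n').1
    change NN X a b (fun d => ν M d - ν' M d) M _ _ < _ at m2
    linarith
  filter_upwards [eventually_all.2 fun n => eventually_all.2 (ev n), hν.2] with M m1 m2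
  have : Nonempty (Fin N) := ⟨⟨0, N1⟩⟩
  have s1 : 𝔼 n : Fin N, 𝔼 n' : Fin N, NN X a b (ν M) M (d2 X u n n' f) (c n n') ≤
      3 * (t ^ 2 / (3 * (K + 1))) := by
    refine (Finset.expect_le_expect fun n _ => Finset.expect_le_expect fun n' _ => m1 n n').trans ?_
    simp only [Finset.expect_add_distrib, Finset.expect_const Finset.univ_nonempty]
    linarith
  have s2 := (hk f N c (ν M) M mf N1 hc (hν.1 M) m2).trans (mul_le_mul_of_nonneg_left s1 K0)
  have s3 : K * (3 * (t ^ 2 / (3 * (K + 1)))) < t ^ 2 := by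
    rw [show K * (3 * (t ^ 2 / (3 * (K + 1)))) = K * t ^ 2 / (K + 1) by field_simp,
      div_lt_iff₀ (by positivity)]
    nlinarith [sq_pos_of_pos ht]
  exact lt_of_pow_lt_pow_left₀ 2 ht.le (s2.trans_lt s3)

end Own

open Own in
theorem own : OwnR := by
  intro F V hK hG ν ν' hν hν' hi X a b u B A1 A2 hX hB h1 hC hBC hu hg f k mf mk bf bk
  obtain ⟨Z, p, hp⟩ : ∃ Z p, Pair X A2 Z p := F.rp Bool (fun _ => X) X A2 (fun _ => id) false
    (fun _ => hX) hC (fun _ => (F.t.emb_id X).mp) fun _ _ _ _ => EventuallyEq.rfl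
  have mp : ∀ b, @MeasurePreserving _ _ Z.ms X.ms (p b) Z.μ X.μ := fun b => (hp.emb b).mp
  have hP := F.t.fpull Z X (p false) X.ms (hp.emb false) (F.t.top X)
  have hI : Inv X {u} ≤ A2 := (hu.elim (fun e => e ▸ hB.i1) fun e => e ▸ hB.i2).trans hBC
  have bd : Bd (df ν ν') := by
    filter_upwards [hν.2, hν'.2] with M m1 m2
    refine (Finset.sum_le_sum fun d _ => (abs_sub _ _).trans_eq
      (by rw [abs_of_nonneg (hν.1 M d), abs_of_nonneg (hν'.1 M d)])).trans ?_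
    rw [Finset.sum_add_distrib, m1, m2]
    norm_num
  have key : ∀ (H : Z.X → ℂ) (g k : X.X → ℂ), BM Z.μ (Inv Z {u}) H → BM X.μ X.ms g →
      BM X.μ X.ms k → Star p H g k → Vn X a b (df ν ν') f k := by
    intro H g k a1 a2 a3 a4
    have aH := a1.mono (F.t.finv Z {u}).le
    obtain ⟨c, g0, m0, -, e0⟩ := nrm F le_rfl a2
    obtain ⟨g', v1, v2⟩ := V.ver X A2 g0 hC m0
    obtain ⟨w1, w2⟩ := V.half X A2 g0 g' hC m0 v1
    have hc : BM X.μ A2 fun x => c * g' x := ((bm v1.1).of_aesm v2.aestronglyMeasurable).cmul c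
    have hc' := hc.mono hC.le
    obtain ⟨k0, c1, c2⟩ := F.ka.star X A2 Z p hC hp _ _ aH (BM.const 1)
    obtain ⟨k2, d1, d2⟩ := F.ka.star X A2 Z p hC hp _ _ (aH.cmul (2 * c)) (bm w1)
    simp only [T4x.Star, mul_one] at c2
    have hk0 : BM X.μ A2 k0 := by
      refine (c1.of_aesm ((F.t.inv_iff X {u} k0 c1.1).2 fun h hh => desc (mp false)
        (bm_comp (X.mp h) c1) c1 ?_)).mono hI
      have e1 := F.a.keq_fun X.ms Z.μ X.μ _ _ k0 (mpc (mp false) (Z.mp h))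
        (mpc (X.mp h) (mp false)) ((hp.emb false).eqv h) c1.1
      have e2 := F.t.ce Z _ h H hP aH.integrable
      filter_upwards [e1, (Z.mp h).quasiMeasurePreserving.ae c2, e2, c2, condExp_congr_ae
        (m := pull Z.μ (p false) X.ms) ((F.t.inv_iff Z {u} _ aH.1).1 a1.1 h hh)]
        with z z1 z2 z3 z4 z5
      exact z1.symm.trans (z2.trans (z3.symm.trans (z5.trans z4.symm)))
    have ek : k =ᵐ[X.μ] fun x => c * g' x * k0 x + k2 x := by
      refine desc (mp false) a3 ((hc'.mul c1).add d1) ?_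
      have e1 : (fun z => H z * g (p true z)) =ᵐ[Z.μ] (fun z => c * g' (p false z) * H z) +
          fun z => 2 * c * H z * (2⁻¹ * (g0 (p true z) - g' (p true z))) := by
        filter_upwards [F.a.keq_fun A2 Z.μ X.μ _ _ _ (mp true) (mp false) (hp.com true) hc.1,
          aec (mp true) e0] with z z1 z2
        rw [Pi.add_apply, z2, ← show c * g' (p true z) = c * g' (p false z) from z1]
        ring
      filter_upwards [a4, condExp_congr_ae (m := pull Z.μ (p false) X.ms) e1, condExp_add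
        ((bm_comp (mp false) hc').mul aH).integrable
        ((aH.cmul (2 * c)).mul (bm_comp (mp true) (bm w1))).integrable (pull Z.μ (p false) X.ms),
        Fib27.ce_mul hP.le (F.a.bm_comp X.ms Z.μ X.μ _ _ (mp false) hc') aH, c2, d2]
        with z z1 z2 z3 z4 z5 z6
      rw [z1, z2, z3, Pi.add_apply, z4, z5, z6]
    have n0 := hB.nul _ w1 (tow hBC hC.le w2)
    have h0 := hG ν' hν' hi X a b u _ w1 (by
      rcases hu with e | e <;> rw [e]
      exacts [n0.1, n0.2])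
    have r1 := rest F V hK hν h1 hC hp hg (a1.cmul _) w1 d1 d2 h0 mf bf
    have r2 := rest F V hK hν' h1 hC hp (ν' := ν') (fun f g _ _ _ _ => by
      simp [Vn, NN, df]) (a1.cmul _) w1 d1 d2 h0 mf bf
    obtain ⟨c1', k1, x1, x2, x3⟩ := nrm F hC.le (hc.mul hk0)
    obtain ⟨c2', k3, y1, -, y3⟩ := nrm F le_rfl d1
    refine squeeze_zero (fun M => V.nonneg _ _ _ _ _ _ _) (fun M => ?_)
      (by simpa using ((hg f k1 mf x1 bf x2).const_mul ‖c1'‖).add (r1.add r2))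
    rw [V.congr X a b _ M f f k _ EventuallyEq.rfl ek]
    refine (V.add X a b _ M f _ _ mf (hc'.mul c1).integrable d1.integrable).trans (add_le_add ?_ ?_)
    · rw [V.congr X a b _ M f f _ _ EventuallyEq.rfl x3, V.smul]
    · simp only [V.congr X a b _ M f f _ _ EventuallyEq.rfl y3, V.smul, ← mul_add]
      exact mul_le_mul_of_nonneg_left (V.sub X a b (ν M) (ν' M) M f k3 mf y1) (norm_nonneg _)
  refine V.span X a b _ f k {φ | BM X.μ X.ms φ ∧ Vn X a b (df ν ν') f φ} bd mf (bm mk).integrable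
    (fun φ h => ⟨h.1.integrable, h.2⟩) fun ε hε => ?_
  obtain ⟨n, H, g, k', a1, a2⟩ := F.kb.span X u A2 Z p hX hC hp k bk (ε ^ 2) (by positivity)
  refine ⟨∑ i, k' i, Submodule.sum_mem _ fun i _ => Submodule.subset_span
    ⟨(a1 i).2.2.1, key _ _ _ (a1 i).1 (a1 i).2.1 (a1 i).2.2.1 (a1 i).2.2.2⟩, l1 ((bm mk).sub ?_) hε
      (by simpa only [Finset.sum_apply] using a2)⟩
  exact Finset.sum_induction _ (BM X.μ X.ms) (fun _ _ => BM.add) (BM.const 0) fun i _ => (a1 i).2.2.1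

end T6

end
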