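import Pool.Agent.MP_154433_an.t6.Spec

/-! Products of two functions structured along their own lines. -/

set_option autoImplicit false
set_option linter.unusedVariables false

open MeasureTheory ProbabilityTheory Filter Topology Function
open scoped BigOperators ComplexConjugate

noncomputable section

namespace T6

open Pool.Agent.MP_154433_an hiding BM
open T3S (B1 MB1 Bd CZ)
open T4S (Gm Act)

namespace PL

lemma cz_cast {n k H0 : ℕ} (h : n = k) {u : ℤ → ℂ} (hu : u ∈ CZ (fun _ : Fin n => (1 : ℤ)) H0) :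
    u ∈ CZ (fun _ : Fin k => (1 : ℤ)) H0 := by
  subst h
  exact hu

lemma orb (da : DA) (X : Sy) (k : ℕ) (b : Gm 2) (H0 : ℕ) (v : X.X → ℂ) (x : X.X)
    (hv : v ∈ CX X (List.replicate k b) H0) :
    (fun n : ℤ => v (X.A (n • b) x)) ∈ CZ (fun _ : Fin k => (1 : ℤ)) H0 :=
  cz_cast List.length_replicate (da.orb X _ b H0 v x (fun i => by simp) hv)

lemma int_exp {Y ι : Type} [MeasurableSpace Y] {μ : Measure Y} (s : Finset ι) {f : ι → Y → ℝ}
    (h : ∀ i ∈ s, Integrable (f i) μ) :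
    Integrable (fun x => 𝔼 i ∈ s, f i x) μ ∧
      ∫ x, 𝔼 i ∈ s, f i x ∂μ = 𝔼 i ∈ s, ∫ x, f i x ∂μ := by
  simp only [Finset.expect_eq_sum_div_card]
  exact ⟨(integrable_finsetSum s h).div_const _, by rw [integral_div, integral_finsetSum s h]⟩

/-- the bound for two blocks -/
lemma blocks (da : DA) (X : Sy) (a b : Gm 2) (k M : ℕ) (κ : ℕ → ℝ) (ε : ℝ) (hM : 1 ≤ M)
    (h : ∀ u v : ℕ → ℤ → ℂ, (∀ m, u m ∈ CZ (fun _ : Fin k => (1 : ℤ)) (M ^ 2)) →
      (∀ n, v n ∈ CZ (fun _ : Fin k => (1 : ℤ)) (M ^ 2)) →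
      𝔼 n : Fin M, 𝔼 m : Fin M, ‖∑ d ∈ Finset.range M,
        (κ d : ℂ) * (u m (((n : ℕ) + d : ℕ) : ℤ) * v n (((m : ℕ) + d : ℕ) : ℤ))‖ ≤ ε)
    {v1 v2 : X.X → ℂ} (h1 : v1 ∈ CX X (List.replicate k a) (M ^ 2))
    (h2 : v2 ∈ CX X (List.replicate k b) (M ^ 2)) : NN X a b κ M v1 v2 ≤ ε := by
  have hA := act X
  have m1 := da.cx X _ _ _ h1
  have m2 := da.cx X _ _ _ h2
  set Φ : X.X → ℝ := fun x => ‖∑ d ∈ Finset.range M,
    (κ d : ℂ) * (v1 (X.A ((d : ℤ) • a) x) * v2 (X.A ((d : ℤ) • b) x))‖ with hΦ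
  have hi : Integrable Φ X.μ :=
    (integrable_finsetSum _ fun d _ =>
      (((hA.tz m1 _).mul (hA.tz m2 _)).integrable X.μ).const_mul _).norm
  have hi' : ∀ v, Integrable (fun x => Φ (X.A v x)) X.μ := fun v =>
    (hA.mp v).integrable_comp_of_integrable hi
  have : Nonempty (Fin M) := ⟨⟨0, hM⟩⟩
  have hin : ∀ n : Fin M, Integrable (fun x => 𝔼 m : Fin M,
      Φ (X.A (((n : ℕ) : ℤ) • a + ((m : ℕ) : ℤ) • b) x)) X.μ ∧
      ∫ x, 𝔼 m : Fin M, Φ (X.A (((n : ℕ) : ℤ) • a + ((m : ℕ) : ℤ) • b) x) ∂X.μ =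
        ∫ x, Φ x ∂X.μ := fun n => by
    obtain ⟨p, q⟩ := int_exp (μ := X.μ) (Finset.univ : Finset (Fin M))
      (f := fun m x => Φ (X.A (((n : ℕ) : ℤ) • a + ((m : ℕ) : ℤ) • b) x)) fun m _ => hi' _
    refine ⟨p, q.trans ?_⟩
    simp only [hA.integral _ hi.aestronglyMeasurable]
    exact Finset.expect_const Finset.univ_nonempty _
  obtain ⟨p, q⟩ := int_exp (μ := X.μ) (Finset.univ : Finset (Fin M))
    (f := fun n x => 𝔼 m : Fin M, Φ (X.A (((n : ℕ) : ℤ) • a + ((m : ℕ) : ℤ) • b) x))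
    fun n _ => (hin n).1
  have e : NN X a b κ M v1 v2 = ∫ x, 𝔼 n : Fin M, 𝔼 m : Fin M,
      Φ (X.A (((n : ℕ) : ℤ) • a + ((m : ℕ) : ℤ) • b) x) ∂X.μ := by
    rw [q]
    simp only [fun n => (hin n).2]
    exact (Finset.expect_const Finset.univ_nonempty _).symm
  rw [e]
  refine (integral_mono p (integrable_const ε) fun x => ?_).trans (by simp)
  have := h (fun m t => v1 (X.A (t • a) (X.A ((m : ℤ) • b) x)))
    (fun n t => v2 (X.A (t • b) (X.A ((n : ℤ) • a) x)))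
    (fun m => orb da X k a _ v1 _ h1) (fun n => orb da X k b _ v2 _ h2)
  refine le_of_eq_of_le ?_ this
  refine Finset.expect_congr rfl fun n _ => Finset.expect_congr rfl fun m _ => ?_
  simp only [hΦ, ← hA.add]
  congr 1
  refine Finset.sum_congr rfl fun d _ => ?_
  have e1 : (d : ℤ) • a + (((n : ℕ) : ℤ) • a + ((m : ℕ) : ℤ) • b) =
      (((n : ℕ) + d : ℕ) : ℤ) • a + ((m : ℕ) : ℤ) • b := by
    push_cast
    module
  have e2 : (d : ℤ) • b + (((n : ℕ) : ℤ) • a + ((m : ℕ) : ℤ) • b) =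
      (((m : ℕ) + d : ℕ) : ℤ) • b + ((n : ℕ) : ℤ) • a := by
    push_cast
    module
  rw [e1, e2]

/-- two dual functions -/
lemma duals (vb : VB) (da : DA) {w : ℕ → ℕ → ℝ} (hw : Bd w) (hs : StL w) (X : Sy) (a b : Gm 2)
    (k : ℕ) (hk : 2 ≤ k) {D1 D2 : X.X → ℂ} (h1 : D1 ∈ DD X (List.replicate k a))
    (h2 : D2 ∈ DD X (List.replicate k b)) : Vn X a b w D1 D2 := by
  refine Metric.tendsto_nhds.2 fun ε hε => ?_
  have hδ : 0 < ε / 8 := by positivity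
  filter_upwards [hw, hs k hk _ hδ, eventually_ge_atTop 1] with M hb hM h1M
  obtain ⟨v1, c1, e1⟩ := h1.2 (M ^ 2) _ hδ
  obtain ⟨v2, c2, e2⟩ := h2.2 (M ^ 2) _ hδ
  have m1 := da.cx X _ _ _ c1
  have m2 := da.cx X _ _ _ c2
  have s1 := vb.lip X a b (w M) M D1 D2 v2 h1.1 (h2.1.integrable _) (m2.integrable _)
  have s2 := vb.lip X b a (w M) M v2 D1 v1 m2 (h1.1.integrable _) (m1.integrable _)
  have s3 := blocks da X a b k M (w M) _ h1M hM c1 c2
  rw [vb.swap X b a, vb.swap X b a] at s2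
  have t1 : (∑ d ∈ Finset.range M, |w M d|) * ∫ x, ‖D2 x - v2 x‖ ∂X.μ ≤ 3 * (ε / 8) :=
    mul_le_mul hb e2 (integral_nonneg fun _ => norm_nonneg _) (by norm_num)
  have t2 : (∑ d ∈ Finset.range M, |w M d|) * ∫ x, ‖D1 x - v1 x‖ ∂X.μ ≤ 3 * (ε / 8) :=
    mul_le_mul hb e1 (integral_nonneg fun _ => norm_nonneg _) (by norm_num)
  rw [Real.dist_eq, sub_zero, abs_of_nonneg (vb.nonneg ..)]
  linarith

/-- from dual functions to the factor they generate -/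
lemma up (vb : VB) (zf : ZF) {w : ℕ → ℕ → ℝ} (hw : Bd w) (X : Sy) (a b : Gm 2)
    (L : List (Gm 2)) (hL : L ≠ []) {f g : X.X → ℂ} (hf : MB X f) (hg : InZ X L g)
    (h : ∀ D ∈ DD X L, Vn X a b w f D) : Vn X a b w f g := by
  refine vb.span X a b w f g (DD X L) hw hf (hg.1.integrable _)
    (fun D hD => ⟨hD.1.integrable _, h D hD⟩) fun ε hε => ?_
  obtain ⟨K, -, hK⟩ := (zf.ua X L g 0 hL hg).2 ε hε
  obtain ⟨D, hD, e⟩ := hK g ⟨0, funext fun x => by rw [(act X).zero]⟩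
  exact ⟨(K : ℂ) • D, Submodule.smul_mem _ _ (Submodule.subset_span hD), e⟩

lemma swap (vb : VB) {X : Sy} {a b : Gm 2} {w : ℕ → ℕ → ℝ} {f g : X.X → ℂ}
    (h : Vn X a b w f g) : Vn X b a w g f := by
  unfold Vn at h ⊢
  simpa only [vb.swap X b a] using h

end PL

theorem pl : PLR := by
  intro vb qb da zf w hw hs X a b k f g hk hf hg
  have ne : ∀ c : Gm 2, List.replicate k c ≠ [] := fun c h => by
    have := congrArg List.length h
    simp only [List.length_replicate, List.length_nil] at this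
    omega
  refine PL.up vb zf hw X a b _ (ne b) hf.1 hg fun D2 h2 => PL.swap vb ?_
  exact PL.up vb zf hw X b a _ (ne a) h2.1 hf fun D1 h1 =>
    PL.duals vb da hw hs X b a k hk h2 h1

end T6

end
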