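import Pool.Agent.MP_154433_an.t6.Spec
import Pool.Agent.MP_154433_an.t3s.Vdc

/-! Row QB: calculus of the box functionals. -/

set_option autoImplicit false
set_option linter.unusedVariables false

open MeasureTheory ProbabilityTheory Filter Topology Function
open scoped BigOperators ComplexConjugate

noncomputable section

namespace T6

open Pool.Agent.MP_154433_an hiding BM
open T3S (B1 MB1)
open T4S (Gm Act ddX QX ln)

namespace QB

lemma nil (X : Sy) (H : ℕ) (g : X.X → ℂ) : QE X [] H g = (∫ x, g x ∂X.μ).re := rfl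

lemma cons (X : Sy) (u : Gm 2) (L : List (Gm 2)) (H : ℕ) (g : X.X → ℂ) :
    QE X (u :: L) H g = 𝔼 h : Fin H, 𝔼 h' : Fin H,
      QE X L H (ddX X.A ((((h' : ℕ) : ℤ) - ((h : ℕ) : ℤ)) • u) g) :=
  T4S.QX_ln X.μ X.A u H _ g

lemma av (X : Sy) (u : Gm 2) (H : ℕ) {g : X.X → ℂ} (hg : MB X g) :
    MB X fun x => 𝔼 h : Fin H, g (X.A (((h : ℕ) : ℤ) • u) x) :=
  ⟨T3S.meas_exp _ fun h _ => ((act X).tz hg _).1,
    fun x => T3S.norm_exp_le_of zero_le_one fun h _ => hg.2 _⟩

lemma one (X : Sy) (u : Gm 2) (H : ℕ) {g : X.X → ℂ} (hg : MB X g) :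
    QE X [u] H g = ∫ x, ‖𝔼 h : Fin H, g (X.A (((h : ℕ) : ℤ) • u) x)‖ ^ 2 ∂X.μ := by
  have hi : ∀ h h' : Fin H, MB X fun x =>
      g (X.A (((h' : ℕ) : ℤ) • u) x) * conj (g (X.A (((h : ℕ) : ℤ) • u) x)) := fun h h' =>
    ((act X).tz hg _).mul ((act X).tz hg _).cj
  rw [← Complex.ofReal_re (∫ x, _ ∂X.μ), ← integral_complex_ofReal]
  simp only [T3S.Vdc.sq_exp]
  rw [T3S.integral_exp _ fun h _ => MB1.integrable ⟨T3S.meas_exp _ fun h' _ => (hi h h').1,
    fun x => T3S.norm_exp_le_of zero_le_one fun h' _ => (hi h h').2 x⟩ X.μ, T3S.re_exp, cons]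
  refine Finset.expect_congr rfl fun h _ => ?_
  rw [T3S.integral_exp _ fun h' _ => (hi h h').integrable X.μ, T3S.re_exp]
  refine Finset.expect_congr rfl fun h' _ => ?_
  rw [nil, ← (act X).integral (((h : ℕ) : ℤ) • u) ((act X).dd hg _).1.aestronglyMeasurable]
  simp only [ddX, ← (act X).add, sub_smul, sub_add_cancel]

lemma jen {ι : Type} [Fintype ι] [Nonempty ι] (a : ι → ℝ) : (𝔼 i, a i) ^ 2 ≤ 𝔼 i, a i ^ 2 := by
  simpa using Finset.expect_mul_sq_le_sq_mul_sq Finset.univ a fun _ => 1

lemma sq_int (X : Sy) {G : X.X → ℂ} (hG : MB X G) :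
    (∫ x, G x ∂X.μ).re ^ 2 ≤ ∫ x, ‖G x‖ ^ 2 ∂X.μ := by
  have i1 := (hG.integrable X.μ).norm
  have i2 : Integrable (fun x => ‖G x‖ ^ 2) X.μ := by
    simpa only [norm_mul, RCLike.norm_conj, sq] using ((hG.mul hG.cj).integrable X.μ).norm
  obtain ⟨c, hc⟩ : ∃ c, c = ∫ x, ‖G x‖ ∂X.μ := ⟨_, rfl⟩
  have h1 : |(∫ x, G x ∂X.μ).re| ≤ c :=
    (Complex.abs_re_le_norm _).trans (hc ▸ norm_integral_le_integral_norm _)
  have h2 : ∫ x, (2 * c * ‖G x‖ - c ^ 2) ∂X.μ ≤ ∫ x, ‖G x‖ ^ 2 ∂X.μ :=
    integral_mono ((i1.const_mul _).sub (integrable_const _)) i2 fun x => by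
      nlinarith [sq_nonneg (‖G x‖ - c)]
  rw [integral_sub (i1.const_mul _) (integrable_const _), integral_const_mul, ← hc,
    integral_const, probReal_univ, one_smul] at h2
  have h3 := pow_le_pow_left₀ (abs_nonneg _) h1 2
  rw [sq_abs] at h3
  linarith

lemma mono' (X : Sy) (u : Gm 2) (L : List (Gm 2)) (H : ℕ) (hH : 1 ≤ H) {g : X.X → ℂ}
    (hg : MB X g) : QE X L H g ^ 2 ≤ QE X (L ++ [u]) H g := by
  have : Nonempty (Fin H) := ⟨⟨0, hH⟩⟩
  induction L generalizing g with
  | nil =>
    rw [List.nil_append, one X u H hg, nil]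
    refine le_trans (le_of_eq ?_) (sq_int X (av X u H hg))
    rw [T3S.integral_exp _ fun h _ => ((act X).tz hg _).integrable X.μ]
    simp only [(act X).integral _ hg.1.aestronglyMeasurable, Fintype.expect_const]
  | cons v L ih =>
    rw [List.cons_append, cons, cons]
    refine (jen _).trans (Finset.expect_le_expect fun h _ => ?_)
    exact (jen _).trans (Finset.expect_le_expect fun h' _ => ih ((act X).dd hg _))

lemma elc' (X : Sy) (Φ : ℕ → (X.X → ℂ) → (X.X → ℂ) → ℝ) (Ψ : (X.X → ℂ) → (X.X → ℂ) → ℝ)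
    (F : X.X → ℂ) (ε K : ℝ) (H : ℕ) (hH : 1 ≤ H) (L : List (Gm 2)) (j : ℕ)
    (h : ∀ f g, MB X f → g ∈ Der X F (j + L.length) → ∀ᶠ M in atTop, Φ M f g ≤ ε + K * Ψ f g)
    (f g : X.X → ℂ) (hf : MB X f) (hg : g ∈ Der X F j) :
    ∀ᶠ M in atTop, EL X H L (Φ M) f g ≤ ε + K * EL X H L Ψ f g := by
  have : Nonempty (Fin H) := ⟨⟨0, hH⟩⟩
  induction L generalizing j f g with
  | nil => exact h f g hf hg
  | cons u L ih =>
    have h' : ∀ f g, MB X f → g ∈ Der X F (j + 1 + L.length) →
        ∀ᶠ M in atTop, Φ M f g ≤ ε + K * Ψ f g := by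
      rw [add_assoc, add_comm 1]; exact h
    filter_upwards [eventually_all.2 fun a : Fin H => eventually_all.2 fun a' : Fin H =>
      ih (j + 1) h' _ _ ((act X).dd hf ((((a' : ℕ) : ℤ) - ((a : ℕ) : ℤ)) • u))
        ⟨(((a' : ℕ) : ℤ) - ((a : ℕ) : ℤ)) • u, g, hg, rfl⟩] with M hM
    simp only [EL]
    refine (Finset.expect_le_expect fun a _ => Finset.expect_le_expect fun a' _ =>
      hM a a').trans (le_of_eq ?_)
    simp only [Finset.expect_add_distrib, Fintype.expect_const, Finset.mul_expect]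

end QB

open QB in
theorem qb : QBR := by
  intro hP
  have perm : ∀ X (L L' : List (Gm 2)) H g, L.Perm L' → QE X L H g = QE X L' H g :=
    fun X L L' H g h => hP 2 X.X X.μ X.A (act X) _ _ (h.map _) g
  refine ⟨fun X L H g g' h => ?_, perm, fun X u L H g => ?_, fun X L H g hL hg => ?_,
    fun X L H g hg => ?_, fun X L H g v hg => (act X).QX_tz _ v hg, fun X L H g => ?_,
    fun X L L' H f g => ?_, fun X L L' H f g => ?_, fun X u L H g hH hg => ?_,
    fun X Φ Ψ F ε K H L hH hF h f hf => ?_, fun X F k G hF hG => ?_, fun n ε hε => ?_⟩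
  · induction L generalizing g g' with
    | nil => rw [nil, nil, integral_congr_ae h]
    | cons u L ih =>
      rw [cons, cons]
      refine Finset.expect_congr rfl fun a _ => Finset.expect_congr rfl fun a' _ => ih _ _ ?_
      filter_upwards [h, ((act X).mp ((((a' : ℕ) : ℤ) - ((a : ℕ) : ℤ)) • u)
        ).quasiMeasurePreserving.ae h] with x h1 h2
      simp only [ddX, h1, h2]
  · rw [cons, cons, Finset.expect_comm]
    refine Finset.expect_congr rfl fun a _ => Finset.expect_congr rfl fun a' _ => ?_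
    rw [smul_neg, ← neg_smul, neg_sub]
  · induction L generalizing g with
    | nil => exact absurd rfl hL
    | cons u L ih =>
      rcases eq_or_ne L [] with rfl | h
      · rw [one X u H hg]
        exact integral_nonneg fun _ => by positivity
      · rw [cons]
        exact Finset.expect_nonneg fun a _ => Finset.expect_nonneg fun a' _ =>
          ih _ h ((act X).dd hg _)
  · induction L generalizing g with
    | nil =>
      rw [nil]
      refine (Complex.re_le_norm _).trans ?_
      simpa using norm_integral_le_of_norm_le_const (μ := X.μ) (Eventually.of_forall hg.2)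
    | cons u L ih =>
      rw [cons]
      exact T3S.exp_le_of_le zero_le_one fun a _ => T3S.exp_le_of_le zero_le_one fun a' _ =>
        ih _ ((act X).dd hg _)
  · induction L generalizing g with
    | nil => rw [nil, nil, integral_conj, Complex.conj_re]
    | cons u L ih =>
      rw [cons, cons]
      refine Finset.expect_congr rfl fun a _ => Finset.expect_congr rfl fun a' _ => ?_
      rw [← ih (ddX _ _ g)]
      congr 1
      funext x
      simp only [ddX, map_mul]
  · induction L generalizing f g with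
    | nil => rfl
    | cons u L ih =>
      rw [List.cons_append, cons]
      exact Finset.expect_congr rfl fun a _ => Finset.expect_congr rfl fun a' _ => ih _ _
  · induction L generalizing f g with
    | nil => rfl
    | cons u L ih =>
      rw [List.cons_append, cons]
      exact Finset.expect_congr rfl fun a _ => Finset.expect_congr rfl fun a' _ => ih _ _
  · rw [← perm X _ _ H g (List.perm_append_singleton u L)]
    exact mono' X u L H hH hg
  · exact elc' X Φ Ψ F ε K H hH L 0 (by rwa [zero_add]) f F hf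
      ⟨0, funext fun x => by rw [(act X).zero]⟩
  · induction k generalizing G with
    | zero =>
      obtain ⟨w, rfl⟩ := hG
      exact ⟨(act X).tz hF w, fun v => ⟨w + v, funext fun x => by rw [(act X).add]⟩⟩
    | succ k ih =>
      obtain ⟨w, G', h1, rfl⟩ := hG
      refine ⟨(act X).dd (ih G' h1).1 w, fun v => ⟨w, _, (ih G' h1).2 v, funext fun x => ?_⟩⟩
      simp only [ddX, (act X).comm v]
  · obtain ⟨m, hm⟩ : ∃ m, 2 ^ n = m + 1 := ⟨2 ^ n - 1, by have := Nat.one_le_two_pow (n := n); omega⟩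
    refine ⟨1 / ε ^ m, by positivity, fun x y hy h => ?_⟩
    have h0 : 0 ≤ 1 / ε ^ m * y := by positivity
    rcases le_or_gt x ε with h1 | h1
    · linarith
    · have h2 : x * ε ^ m ≤ y := by
        rw [hm, pow_succ'] at h
        exact (mul_le_mul_of_nonneg_left (pow_le_pow_left₀ hε.le h1.le m) (hε.trans h1).le).trans h
      have h3 : x ≤ 1 / ε ^ m * y := by
        rwa [one_div, ← div_eq_inv_mul, le_div_iff₀ (by positivity)]
      linarith

end T6

end
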