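import Pool.Agent.MP_154433_an.t6.Spec

/-! Row Scale: long boxes are below boxes of given lengths. -/

set_option autoImplicit false
set_option linter.unusedVariables false
set_option warn.classDefReducibility false

open MeasureTheory ProbabilityTheory Filter Topology Function
open scoped BigOperators ComplexConjugate InnerProductSpace

noncomputable section

namespace T6

open Pool.Agent.MP_154433_an hiding BM
open T3S (B1 MB1)
open T4S (Gm Act ddX QX ln Fam)

namespace Scale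

variable {l : ℕ} {X : Type} [MeasurableSpace X] {μ : Measure X} {A : Gm l → X → X}

/-- composition with one map of the action -/
def V (hA : Act μ A) (v : Gm l) : Lp ℂ 2 μ →ₗᵢ[ℂ] Lp ℂ 2 μ :=
  Lp.compMeasurePreservingₗᵢ ℂ (A v) (hA.mp v)

lemma V_ae (hA : Act μ A) (v : Gm l) (f : Lp ℂ 2 μ) :
    (V hA v f : X → ℂ) =ᵐ[μ] fun x => f (A v x) :=
  Lp.coeFn_compMeasurePreserving f (hA.mp v)

lemma V_add (hA : Act μ A) (v w : Gm l) (f : Lp ℂ 2 μ) : V hA (v + w) f = V hA w (V hA v f) := by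
  refine Lp.ext ?_
  have h1 := (hA.mp w).quasiMeasurePreserving.ae_eq_comp (V_ae hA v f)
  filter_upwards [V_ae hA (v + w) f, V_ae hA w (V hA v f), h1] with x e1 e2 e3
  rw [e1, e2, hA.add]
  exact e3.symm

/-- the average over a family of steps -/
def av (hA : Act μ A) (F : Fam l) (f : Lp ℂ 2 μ) : Lp ℂ 2 μ :=
  ((Fintype.card F.ι : ℂ))⁻¹ • ∑ h : F.ι, V hA (F.a h) f

lemma inner_V (hA : Act μ A) {g : X → ℂ} (hg : MB1 g) {G : Lp ℂ 2 μ} (hG : (G : X → ℂ) =ᵐ[μ] g)
    (v w : Gm l) : ⟪V hA v G, V hA w G⟫_ℂ = ∫ x, ddX A (w - v) g x ∂μ := by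
  rw [← hA.integral v (hA.dd hg (w - v)).1.aestronglyMeasurable, L2.inner_def]
  refine integral_congr_ae ?_
  have h1 := (hA.mp v).quasiMeasurePreserving.ae_eq_comp hG
  have h2 := (hA.mp w).quasiMeasurePreserving.ae_eq_comp hG
  filter_upwards [V_ae hA v G, V_ae hA w G, h1, h2] with x e1 e2 e3 e4
  simp only [Function.comp_apply] at e3 e4
  rw [e1, e2, e3, e4, ddX, ← hA.add, sub_add_cancel]
  simp

lemma QX_eq (hA : Act μ A) {g : X → ℂ} (hg : MB1 g) {G : Lp ℂ 2 μ} (hG : (G : X → ℂ) =ᵐ[μ] g)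
    (F : Fam l) : QX μ A [F] g = ‖av hA F G‖ ^ 2 := by
  rw [← @inner_self_eq_norm_sq ℂ, av, inner_smul_left, inner_smul_right, sum_inner]
  simp only [inner_sum, inner_V hA hg hG, QX, Fintype.expect_eq_sum_div_card]
  rw [← Finset.sum_div, div_div, ← mul_assoc]
  have : conj ((Fintype.card F.ι : ℂ))⁻¹ * ((Fintype.card F.ι : ℂ))⁻¹ =
      ((((Fintype.card F.ι : ℝ) * (Fintype.card F.ι : ℝ))⁻¹ : ℝ) : ℂ) := by
    rw [map_inv₀, Complex.conj_natCast]
    push_cast
    rw [mul_inv]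
  rw [this, RCLike.re_to_complex, Complex.re_ofReal_mul, div_eq_inv_mul]
  simp only [Complex.re_sum]

lemma shift_le {E : Type} [SeminormedAddCommGroup E] {F : ℕ → E} (hF : ∀ n, ‖F n‖ ≤ 1) (H k : ℕ) :
    ‖∑ h ∈ Finset.range H, F h - ∑ h ∈ Finset.range H, F (k + h)‖ ≤ 2 * k := by
  have e1 := Finset.sum_range_add F k H
  have e2 := Finset.sum_range_add F H k
  rw [add_comm H k, e1] at e2
  have e3 : ∑ h ∈ Finset.range H, F h - ∑ h ∈ Finset.range H, F (k + h) =
      ∑ h ∈ Finset.range k, F h - ∑ h ∈ Finset.range k, F (H + h) := by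
    rw [sub_eq_sub_iff_add_eq_add, ← e2]
  have b : ∀ G : ℕ → E, (∀ n, ‖G n‖ ≤ 1) → ‖∑ h ∈ Finset.range k, G h‖ ≤ k := fun G hG =>
    (norm_sum_le _ _).trans ((Finset.sum_le_sum fun n _ => hG n).trans (by simp))
  rw [e3]
  refine (norm_sub_le _ _).trans ?_
  linarith [b F hF, b (fun h => F (H + h)) fun n => hF _]

lemma norm_av (hA : Act μ A) (u : Gm l) (G : Lp ℂ 2 μ) (H : ℕ) : ‖av hA (ln u H) G‖ =
    ‖∑ h ∈ Finset.range H, V hA (((h : ℕ) : ℤ) • u) G‖ / H := by
  have h2 : av hA (ln u H) G =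
      ((Fintype.card (Fin H) : ℂ))⁻¹ • ∑ h : Fin H, V hA (((h : ℕ) : ℤ) • u) G := rfl
  rw [h2, Finset.sum_range, Fintype.card_fin, norm_smul, norm_inv, Complex.norm_natCast,
    div_eq_inv_mul]

lemma one [IsProbabilityMeasure μ] (hA : Act μ A) (u : Gm l) {H K : ℕ} (hH : 1 ≤ H) (hK : 1 ≤ K)
    {g : X → ℂ} (hg : MB1 g) : QX μ A [ln u H] g ≤ QX μ A [ln u K] g + 4 * K / H := by
  have hm : MemLp g 2 μ := MemLp.of_bound hg.1.aestronglyMeasurable 1 (ae_of_all _ hg.2)
  have hG : ((hm.toLp g : Lp ℂ 2 μ) : X → ℂ) =ᵐ[μ] g := hm.coeFn_toLp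
  have hn : ‖hm.toLp g‖ ≤ 1 := by
    have := Lp.norm_le_of_ae_bound (f := hm.toLp g) zero_le_one (by
      filter_upwards [hG] with x hx
      rw [hx]
      exact hg.2 x)
    simpa [measureUnivNNReal] using this
  rw [QX_eq hA hg hG, QX_eq hA hg hG, norm_av, norm_av]
  generalize hm.toLp g = G at hn
  obtain ⟨F, hF⟩ : ∃ F : ℕ → Lp ℂ 2 μ, F = fun h : ℕ => V hA (((h : ℕ) : ℤ) • u) G := ⟨_, rfl⟩
  have hF' : ∀ h : ℕ, V hA (((h : ℕ) : ℤ) • u) G = F h := fun h => by rw [hF]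
  simp only [hF']
  have h1 : ∀ n, ‖F n‖ ≤ 1 := fun n => by rw [← hF', LinearIsometry.norm_map]; exact hn
  have b : ∀ k : ℕ, ‖∑ h ∈ Finset.range k, F h‖ ≤ k := fun k =>
    (norm_sum_le _ _).trans ((Finset.sum_le_sum fun n _ => h1 n).trans (by simp))
  have hH0 : (0 : ℝ) < H := by exact_mod_cast hH
  have hK0 : (0 : ℝ) < K := by exact_mod_cast hK
  have h2 : ‖∑ k ∈ Finset.range K, ∑ h ∈ Finset.range H, F (k + h)‖ ≤
      H * ‖∑ k ∈ Finset.range K, F k‖ := by
    rw [Finset.sum_comm]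
    refine (norm_sum_le _ _).trans ((Finset.sum_le_sum (g := fun _ =>
      ‖∑ k ∈ Finset.range K, F k‖) fun h _ => le_of_eq ?_).trans (by simp))
    rw [← (V hA (((h : ℕ) : ℤ) • u)).norm_map (∑ k ∈ Finset.range K, F k), map_sum]
    congr 1
    refine Finset.sum_congr rfl fun k _ => ?_
    rw [← hF', ← hF', ← V_add, Nat.cast_add, add_smul]
  have h3 : ‖∑ k ∈ Finset.range K, (∑ h ∈ Finset.range H, F h -
      ∑ h ∈ Finset.range H, F (k + h))‖ ≤ K * (2 * K) := by
    refine (norm_sum_le _ _).trans ((Finset.sum_le_sum (g := fun _ => 2 * (K : ℝ))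
      fun k hk => (shift_le h1 H k).trans ?_).trans (by simp))
    have : (k : ℝ) ≤ K := by exact_mod_cast (Finset.mem_range.1 hk).le
    linarith
  have h4 : (K : ℝ) * ‖∑ h ∈ Finset.range H, F h‖ ≤
      H * ‖∑ k ∈ Finset.range K, F k‖ + K * (2 * K) := by
    have e : (K : ℝ) * ‖∑ h ∈ Finset.range H, F h‖ =
        ‖∑ k ∈ Finset.range K, ∑ h ∈ Finset.range H, F (k + h) +
          ∑ k ∈ Finset.range K, (∑ h ∈ Finset.range H, F h -
            ∑ h ∈ Finset.range H, F (k + h))‖ := by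
      rw [← Finset.sum_add_distrib]
      simp only [add_sub_cancel, Finset.sum_const, Finset.card_range]
      rw [← Nat.cast_smul_eq_nsmul ℝ, norm_smul, Real.norm_natCast]
    rw [e]
    exact (norm_add_le _ _).trans (add_le_add h2 h3)
  have h5 : ‖∑ h ∈ Finset.range H, F h‖ / H ≤ ‖∑ k ∈ Finset.range K, F k‖ / K + 2 * K / H := by
    rw [div_add_div _ _ hK0.ne' hH0.ne', div_le_div_iff₀ hH0 (by positivity)]
    nlinarith [mul_le_mul_of_nonneg_right h4 hH0.le]
  have h6 : ‖∑ h ∈ Finset.range H, F h‖ / H ≤ 1 := (div_le_one hH0).2 (b H)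
  have h7 : ‖∑ h ∈ Finset.range K, F h‖ / K ≤ 1 := (div_le_one hK0).2 (b K)
  have h8 : 0 ≤ ‖∑ h ∈ Finset.range H, F h‖ / H := by positivity
  have h9 : 0 ≤ ‖∑ h ∈ Finset.range K, F h‖ / K := by positivity
  have h10 : 0 ≤ 2 * (K : ℝ) / H := by positivity
  have e : 4 * (K : ℝ) / H = 2 * (2 * K / H) := by ring
  rw [e]
  generalize ‖∑ h ∈ Finset.range H, F h‖ / H = a at *
  generalize ‖∑ h ∈ Finset.range K, F h‖ / K = c at *
  generalize 2 * (K : ℝ) / H = t at *
  nlinarith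

lemma exp_le_add {ι : Type} [Fintype ι] {a b : ι → ℝ} {ε : ℝ} (hε : 0 ≤ ε)
    (h : ∀ i, a i ≤ b i + ε) : 𝔼 i, a i ≤ (𝔼 i, b i) + ε := by
  rcases isEmpty_or_nonempty ι with hι | hι
  · simp [hε]
  · calc 𝔼 i, a i ≤ 𝔼 i, (b i + ε) := Finset.expect_le_expect fun i _ => h i
      _ = (𝔼 i, b i) + ε := by
        rw [Finset.expect_add_distrib, Finset.expect_const Finset.univ_nonempty]

lemma last [IsProbabilityMeasure μ] (hA : Act μ A) (u : Gm l) {H K : ℕ} (hH : 1 ≤ H) (hK : 1 ≤ K)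
    (L : List (Fam l)) : ∀ g : X → ℂ, MB1 g →
      QX μ A (L ++ [ln u H]) g ≤ QX μ A (L ++ [ln u K]) g + 4 * K / H := by
  induction L with
  | nil => intro g hg; exact one hA u hH hK hg
  | cons F L ih =>
    intro g hg
    simp only [List.cons_append, QX]
    exact exp_le_add (by positivity) fun h => exp_le_add (by positivity) fun h' =>
      ih _ (hA.dd hg _)

lemma all (hP : T4S.PermS) [IsProbabilityMeasure μ] (hA : Act μ A) {H : ℕ} (hH : 1 ≤ H)
    {g : X → ℂ} (hg : MB1 g) (L : List (Gm l × ℕ)) : (∀ p ∈ L, 1 ≤ p.2) → ∀ L0 : List (Fam l),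
      QX μ A (L0 ++ L.map fun p => ln p.1 H) g ≤
        QX μ A (L0 ++ L.map fun p => ln p.1 p.2) g + 4 * ((L.map Prod.snd).sum : ℕ) / H := by
  induction L with
  | nil => intro _ L0; simp
  | cons p L ih =>
    intro h L0
    have h1 := last hA p.1 hH (h p List.mem_cons_self) (L0 ++ L.map fun p => ln p.1 H) g hg
    have h2 := ih (fun q hq => h q (List.mem_cons_of_mem _ hq)) (L0 ++ [ln p.1 p.2])
    have pm : ∀ F : Fam l, QX μ A ((L0 ++ L.map fun p => ln p.1 H) ++ [F]) g =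
        QX μ A (L0 ++ F :: L.map fun p => ln p.1 H) g := fun F =>
      hP l X μ A hA _ _ (by
        rw [List.append_assoc]
        exact List.Perm.append_left _ (List.perm_append_singleton _ _)) g
    rw [pm, pm] at h1
    simp only [List.append_assoc, List.singleton_append] at h2
    simp only [List.map_cons, List.sum_cons, Nat.cast_add, mul_add, add_div]
    linarith

end Scale

theorem scale : ScaleR := by
  intro hP _ X L g hg hL ε hε
  have ht : Tendsto (fun H : ℕ => 4 * (((L.map Prod.snd).sum : ℕ) : ℝ) / H) atTop (𝓝 0) :=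
    tendsto_const_div_atTop_nhds_zero_nat _
  filter_upwards [ht.eventually (gt_mem_nhds hε), eventually_ge_atTop 1] with H h1 h2
  have h := Scale.all hP (act X) h2 hg L hL []
  simp only [List.nil_append] at h
  simp only [QE, QL, List.map_map]
  exact h.trans (by linarith)

end T6

end
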