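import Pool.Agent.MP_154433_an.t6.Spec
import Pool.Agent.MP_154433_an.h31.Vdc

/-! The signed weights do not see maximal functions of dual functions. -/

set_option autoImplicit false
set_option linter.unusedVariables false

open MeasureTheory ProbabilityTheory Filter Topology Function Finset
open scoped BigOperators ComplexConjugate

noncomputable section

namespace T6

open Pool.Agent.MP_154433_an hiding BM
open T3S (B1 Gr yw CZ)

namespace Sq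

lemma bd (σ : ℕ → ℝ) (hσ : ∀ n, 0 ≤ σ n) (p : ℕ → Prop) (M : ℕ)
    (h : ‖∑ d ∈ range M, (yw σ p M d : ℂ) * 1‖ ≤ 1) : ∑ d ∈ range M, |yw σ p M d| ≤ 3 := by
  have W0 : 0 ≤ T3S.Wt σ M := sum_nonneg fun d _ => hσ d
  have h1 : ∑ d ∈ range M, yw σ p M d ≤ 1 := by
    refine (le_abs_self _).trans (le_trans (le_of_eq ?_) h)
    rw [← Real.norm_eq_abs, ← Complex.norm_real]
    simp
  have h2 : ∀ d ∈ range M, |yw σ p M d| ≤ yw σ p M d + 2 * (σ d / T3S.Wt σ M) := fun d _ => by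
    have i0 : 0 ≤ T3S.ind p d := by unfold T3S.ind; split_ifs <;> norm_num
    have a := div_nonneg i0 W0
    have b := div_nonneg (hσ d) W0
    rw [yw, sub_div]
    exact abs_le.2 ⟨by linarith, by linarith⟩
  have h3 := sum_le_sum h2
  rw [sum_add_distrib, ← mul_sum, ← sum_div] at h3
  have h4 : (∑ d ∈ range M, σ d) / T3S.Wt σ M ≤ 1 := div_self_le_one _
  linarith

lemma lg (M : ℕ) (hM : 1 ≤ M) : Real.log ((6 * (M + 1) : ℕ) : ℝ) + 1 ≤ 4 * (Real.log M + 1) := by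
  have h1 : (1 : ℝ) ≤ M := by exact_mod_cast hM
  have h2 : Real.log ((6 * (M + 1) : ℕ) : ℝ) ≤ Real.log (Real.exp 3 * M) := by
    refine Real.log_le_log (by positivity) ?_
    have h4 := pow_le_pow_left₀ (by norm_num) Real.exp_one_gt_d9.le 3
    rw [← Real.exp_nat_mul] at h4
    push_cast at h4 ⊢
    rw [mul_one] at h4
    nlinarith
  rw [Real.log_mul (Real.exp_pos _).ne' (by linarith), Real.log_exp] at h2
  linarith [Real.log_nonneg h1]

lemma det {M : ℕ} (hM : 1 ≤ M) {A ε τ : ℝ} (hA : 0 < A) (hε : 0 ≤ ε) (hτ : 0 ≤ τ)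
    (S : Finset (ℕ → ℂ)) (y : ℕ → ℝ)
    (hy : ∑ d ∈ range M, |y d| ≤ 3) (hS : ∀ c ∈ S, ‖∑ d ∈ range M, (y d : ℂ) * c d‖ ≤ τ)
    (hW : ∀ v ∈ CZ (fun _ : Fin 2 => (1 : ℤ)) (M ^ 2), ∃ c : Ch M → ℂ, ∑ χ, ‖c χ‖ ≤ A ∧ ∀ d < M,
      𝔼 j : Fin M, ‖v (((j : ℕ) + d : ℕ) : ℤ) -
        ∑ χ, c χ * χ (((j : ℕ) + d : ℕ) : ZMod (6 * (M + 1)))‖ ≤ ε)
    (hN : ∀ (lam : ℕ → ℝ) (c : ℕ → Ch M → ℂ), (∀ d, 0 ≤ lam d) → ∑ d ∈ range M, lam d ≤ 1 →
      (∀ d, ∑ ξ, ‖c d ξ‖ ≤ A) → ∃ q : ℕ → ℝ, (fun e => (q e : ℂ)) ∈ S ∧ ∀ e < M,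
        |mx lam M (fun d => ∑ ξ, c d ξ * ξ (e : ZMod (6 * (M + 1)))) - 2 * A * q e| ≤ ε)
    (κ : ℕ → ℝ) (W : ℕ → ℕ → ℂ) (v : ℕ → ℤ → ℂ) (κ0 : ∀ d, 0 ≤ κ d)
    (κ1 : ∑ d ∈ range M, κ d = 1) (bW : ∀ j d, ‖W j d‖ ≤ 1)
    (hv : ∀ d, v d ∈ CZ (fun _ : Fin 2 => (1 : ℤ)) (M ^ 2)) :
    𝔼 j : Fin M, |∑ e ∈ range M, y e * mx κ M fun d => W j d * v d (((j : ℕ) + e : ℕ) : ℤ)| ≤
      6 * ε + 2 * A * τ := by
  have : Nonempty (Fin M) := ⟨⟨0, hM⟩⟩
  choose c c1 c2 using fun d => hW (v d) (hv d)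
  let err : Fin M → ℕ → ℕ → ℝ := fun j e d => ‖v d (((j : ℕ) + e : ℕ) : ℤ) -
    ∑ χ, c d χ * χ (((j : ℕ) + e : ℕ) : ZMod (6 * (M + 1)))‖
  have key : ∀ j : Fin M,
      |∑ e ∈ range M, y e * mx κ M fun d => W j d * v d (((j : ℕ) + e : ℕ) : ℤ)| ≤
        ∑ e ∈ range M, |y e| * ∑ d ∈ range M, κ d * err j e d + (3 * ε + 2 * A * τ) := by
    intro j
    obtain ⟨q, q1, q2⟩ := hN κ (fun d ξ => W j d * (c d ξ * ξ ((j : ℕ) : ZMod (6 * (M + 1))))) κ0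
      κ1.le fun d => le_trans (sum_le_sum fun ξ _ => by
        rw [norm_mul, norm_mul, AddChar.norm_apply, mul_one]
        exact mul_le_of_le_one_left (norm_nonneg _) (bW _ _)) (c1 d)
    have s1 : ∀ e ∈ range M, |y e * ((mx κ M fun d => W j d * v d (((j : ℕ) + e : ℕ) : ℤ)) -
        2 * A * q e)| ≤ |y e| * ∑ d ∈ range M, κ d * err j e d + ε * |y e| := by
      intro e he
      have h1 := Mau.mx_sub (ch := fun (χ : Ch M) (d : ℕ) => χ (d : ZMod (6 * (M + 1)))) (M := M)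
        (lam := κ) (fun χ d => (χ.norm_apply _).le)
        (fun d => W j d * v d (((j : ℕ) + e : ℕ) : ℤ))
        fun d => ∑ ξ, W j d * (c d ξ * ξ ((j : ℕ) : ZMod (6 * (M + 1)))) *
          ξ (e : ZMod (6 * (M + 1)))
      have h2 := h1.trans (sum_le_sum (g := fun d => κ d * err j e d) fun d _ => by
        rw [abs_of_nonneg (κ0 d)]
        refine mul_le_mul_of_nonneg_left ?_ (κ0 d)
        simp only [err, mul_assoc, ← AddChar.map_add_eq_mul, ← Nat.cast_add, ← mul_sum, ← mul_sub]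
        rw [norm_mul]
        exact mul_le_of_le_one_left (norm_nonneg _) (bW _ _))
      rw [abs_mul, mul_comm ε, ← mul_add]
      exact mul_le_mul_of_nonneg_left ((abs_sub_le _ _ _).trans
        (add_le_add h2 (q2 e (mem_range.1 he)))) (abs_nonneg _)
    have s2 : |∑ e ∈ range M, y e * q e| ≤ τ := by
      refine le_trans (le_of_eq ?_) (hS _ q1)
      rw [← Real.norm_eq_abs, ← Complex.norm_real]
      simp
    have s3 := (abs_sum_le_sum_abs _ _).trans (sum_le_sum s1)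
    simp only [mul_sub, sum_sub_distrib, sum_add_distrib, mul_left_comm _ (2 * A),
      ← mul_sum _ _ (2 * A), ← mul_sum _ _ ε] at s3
    have s4 := mul_le_mul_of_nonneg_left s2 (show 0 ≤ 2 * A by positivity)
    have s5 := mul_le_mul_of_nonneg_left hy hε
    have s6 : |2 * A * ∑ e ∈ range M, y e * q e| = 2 * A * |∑ e ∈ range M, y e * q e| := by
      rw [abs_mul, abs_of_pos (by positivity)]
    have s7 := abs_sub_abs_le_abs_sub
      (∑ e ∈ range M, y e * mx κ M fun d => W j d * v d (((j : ℕ) + e : ℕ) : ℤ))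
      (2 * A * ∑ e ∈ range M, y e * q e)
    linarith
  refine (expect_le_expect fun j _ => key j).trans ?_
  rw [expect_add_distrib, Fintype.expect_const, expect_sum_comm]
  have s8 : ∑ e ∈ range M, 𝔼 j : Fin M, |y e| * ∑ d ∈ range M, κ d * err j e d ≤
      ∑ e ∈ range M, |y e| * ε := sum_le_sum fun e he => by
    rw [← mul_expect, expect_sum_comm]
    refine mul_le_mul_of_nonneg_left (le_trans (sum_le_sum (g := fun d => κ d * ε) fun d _ => ?_)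
      (by rw [← sum_mul, κ1, one_mul])) (abs_nonneg _)
    rw [← mul_expect]
    exact mul_le_mul_of_nonneg_left (c2 d e (mem_range.1 he)) (κ0 d)
  rw [← sum_mul] at s8
  have s9 := mul_le_mul_of_nonneg_right hy hε
  linarith

end Sq

theorem sq : SqR := by
  intro ub wz σ hσ hG Ω _ P _ E hE hI hP
  have h1 := ub σ hσ Ω P E hE hI hP 2 (by norm_num) hG 0 (fun _ => {fun _ => 1})
    (fun M c hc => by rw [mem_singleton.1 hc]; intro _; simp) (fun M _ => by simp) 1 one_pos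
  have h2 : ∀ n : ℕ, ∀ᵐ ω ∂P, (∀ᶠ M in atTop,
      ∑ d ∈ range M, |yw σ (fun m => ω ∈ E m) M d| ≤ 3) → ∀ᶠ M : ℕ in atTop,
      ∀ (κ : ℕ → ℝ) (W : ℕ → ℕ → ℂ) (v : ℕ → ℤ → ℂ), (∀ d, 0 ≤ κ d) →
      ∑ d ∈ Finset.range M, κ d = 1 → (∀ j d, ‖W j d‖ ≤ 1) →
      (∀ d, v d ∈ CZ (fun _ : Fin 2 => (1 : ℤ)) (M ^ 2)) →
      𝔼 j : Fin M, |∑ e ∈ Finset.range M, yw σ (fun m => ω ∈ E m) M e *
        mx κ M fun d => W j d * v d (((j : ℕ) + e : ℕ) : ℤ)| ≤ 1 / ((n : ℝ) + 1) := by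
    intro n
    obtain ⟨ε, ε0, hε⟩ : ∃ ε : ℝ, 0 < ε ∧ 8 * ε = 1 / ((n : ℝ) + 1) :=
      ⟨1 / ((n : ℝ) + 1) / 8, by positivity, by ring⟩
    obtain ⟨A, hA, hw⟩ := wz ε ε0
    obtain ⟨C, C0, hC⟩ := Mau.twNet A ε hA ε0
    choose S S1 S2 S3 using fun M : ℕ => hC M (6 * (M + 1)) (Ch M) (Ch M)
      (fun χ d => χ (d : ZMod (6 * (M + 1)))) (fun χ d => χ (d : ZMod (6 * (M + 1))))
      (fun χ d => (χ.norm_apply _).le) (fun χ d => (χ.norm_apply _).le) (by omega) (by omega)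
      (by rw [AddChar.card_eq, ZMod.card]) (by rw [AddChar.card_eq, ZMod.card])
    filter_upwards [ub σ hσ Ω P E hE hI hP 2 (by norm_num) hG (C * 16) S S1 (fun M hM => by
      refine (S2 M).trans (Real.exp_le_exp.2 ?_)
      have l0 : 0 ≤ Real.log ((6 * (M + 1) : ℕ) : ℝ) + 1 :=
        add_nonneg (Real.log_natCast_nonneg _) zero_le_one
      have := mul_le_mul_of_nonneg_left (pow_le_pow_left₀ l0 (Sq.lg M hM) 2) C0
      linarith) (ε / A) (by positivity)] with ω hω hb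
    filter_upwards [hω, hb, hw, eventually_ge_atTop 1] with M m1 m2 m3 m4 κ W v κ0 κ1 bW hv
    refine (Sq.det m4 hA ε0.le (by positivity) (S M) _ m2 m1 m3 (S3 M) κ W v κ0 κ1 bW hv).trans
      (le_of_eq ?_)
    rw [← hε]
    field_simp
    ring
  filter_upwards [h1, ae_all_iff.2 h2] with ω k1 k2 ε hε
  obtain ⟨n, hn⟩ := exists_nat_one_div_lt hε
  filter_upwards [k2 n (k1.mono fun M hM => Sq.bd σ (fun n => (hσ n).1) _ M
    (hM _ (mem_singleton_self _)))] with M hM κ W v a b c d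
  exact (hM κ W v a b c d).trans hn.le

end T6

end
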