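import Pool.Agent.MP_154433_an.t6.Spec
import Pool.Agent.MP_154433_an.t6h.NetL

/-! Structured functions on transversal lines: the almost sure statement. -/

set_option autoImplicit false
set_option linter.unusedVariables false

open MeasureTheory ProbabilityTheory Filter Topology Function
open scoped BigOperators ComplexConjugate

noncomputable section

namespace T6

open Pool.Agent.MP_154433_an hiding BM
open T3S (B1 Bd Gr yw CZ CZ_B1)

lemma St.exp_sq {M : ℕ} (hM : 1 ≤ M) (F : ℕ → ℕ → ℝ) :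
    𝔼 n : Fin M, 𝔼 m : Fin M, F n m =
      (∑ a ∈ Finset.range M, ∑ b ∈ Finset.range M, F a b) / (M : ℝ) ^ 2 := by
  simp only [Fintype.expect_eq_sum_div_card, Fintype.card_fin, ← Finset.sum_div]
  rw [div_div, ← sq, Fin.sum_univ_eq_sum_range (fun a => ∑ b : Fin M, F a b) M]
  exact congrArg (· / _) (Finset.sum_congr rfl fun a _ => Fin.sum_univ_eq_sum_range (F a) M)

lemma St.stL_of (hA : T3S.ApxS) {w : ℕ → ℕ → ℝ} (hb : Bd w) (h : T6H.StrL w) : StL w := by
  intro k hk ε hε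
  obtain ⟨l, rfl⟩ : ∃ l, k = l + 1 := ⟨k - 1, by omega⟩
  have hl : Tendsto (fun M : ℕ => (24 * ((l : ℝ) + 1)) / M) atTop (𝓝 0) :=
    tendsto_const_div_atTop_nhds_zero_nat _
  filter_upwards [h l 6 ((((6 : ℕ) : ℝ) ^ (l + 1)) ^ 2 ^ (l + 1)) (ε / 2) (by norm_num)
    (by positivity) (half_pos hε), hb, eventually_ge_atTop 1,
    hl.eventually_le_const (half_pos hε)] with M h1 h2 h3 h4 u v hu hv
  have : NeZero (6 * M) := ⟨by omega⟩
  have hM : (0 : ℝ) < M := by exact_mod_cast h3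
  have ap := fun (y : ℤ → ℂ) (hy : y ∈ CZ (fun _ : Fin (l + 1) => (1 : ℤ)) (M ^ 2)) =>
    hA l (by omega) (fun _ => 1) 2 6 M (M ^ 2) (fun _ => one_ne_zero) (fun _ => by norm_num)
      (Nat.one_le_pow _ _ h3) y hy
  choose U hU hU' using fun m => ap _ (hu m)
  choose V hV hV' using fun m => ap _ (hv m)
  have e : (4 * ((l : ℝ) + 1) * M / ((M ^ 2 : ℕ) : ℝ)) = 4 * ((l : ℝ) + 1) / M := by
    push_cast
    field_simp
  have ab : ∀ a d : ℕ, a < M → d < M → |((a + d : ℕ) : ℤ)| ≤ ((2 : ℕ) : ℤ) * M := fun a d ha hd => by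
    rw [Nat.abs_cast]
    push_cast
    omega
  rw [St.exp_sq h3 fun n m => ‖∑ d ∈ Finset.range M,
    (w M d : ℂ) * (u m ((n + d : ℕ) : ℤ) * v n ((m + d : ℕ) : ℤ))‖, div_le_iff₀ (by positivity)]
  have step : ∀ a ∈ Finset.range M, ∀ b ∈ Finset.range M, ‖∑ d ∈ Finset.range M,
      (w M d : ℂ) * (u b ((a + d : ℕ) : ℤ) * v a ((b + d : ℕ) : ℤ))‖ ≤
      ‖∑ d ∈ Finset.range M, (w M d : ℂ) * (U b (((a : ℤ) + d : ℤ) : ZMod (6 * M)) *
        V a (((b : ℤ) + d : ℤ) : ZMod (6 * M)))‖ + ε / 2 := by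
    intro a ha b hb'
    refine (norm_le_insert' _ _).trans (add_le_add le_rfl (le_trans ?_ h4))
    rw [← Finset.sum_sub_distrib]
    refine (norm_sum_le _ _).trans ?_
    have : ∀ d ∈ Finset.range M, ‖(w M d : ℂ) * (u b ((a + d : ℕ) : ℤ) * v a ((b + d : ℕ) : ℤ)) -
        (w M d : ℂ) * (U b (((a : ℤ) + d : ℤ) : ZMod (6 * M)) *
          V a (((b : ℤ) + d : ℤ) : ZMod (6 * M)))‖ ≤ |w M d| * (8 * ((l : ℝ) + 1) / M) := by
      intro d hd
      rw [← mul_sub, norm_mul, Complex.norm_real, Real.norm_eq_abs]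
      refine mul_le_mul_of_nonneg_left ?_ (abs_nonneg _)
      have k1 := hU' b _ (ab a d (Finset.mem_range.1 ha) (Finset.mem_range.1 hd))
      have k2 := hV' a _ (ab b d (Finset.mem_range.1 hb') (Finset.mem_range.1 hd))
      rw [e] at k1 k2
      push_cast at k1 k2 ⊢
      set x1 := u b ((a : ℤ) + d)
      set x2 := v a ((b : ℤ) + d)
      set y1 := U b ((a : ZMod (6 * M)) + d)
      set y2 := V a ((b : ZMod (6 * M)) + d)
      have n1 : ‖x2‖ ≤ 1 := CZ_B1 (hv a) _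
      have n2 : ‖y1‖ ≤ 1 := (hU b).1 _
      calc ‖x1 * x2 - y1 * y2‖ = ‖(x1 - y1) * x2 + y1 * (x2 - y2)‖ := by congr 1; ring
        _ ≤ ‖x1 - y1‖ * ‖x2‖ + ‖y1‖ * ‖x2 - y2‖ := by
          refine (norm_add_le _ _).trans ?_
          rw [norm_mul, norm_mul]
        _ ≤ ‖x1 - y1‖ + ‖x2 - y2‖ := add_le_add (mul_le_of_le_one_right (norm_nonneg _) n1)
          (mul_le_of_le_one_left (norm_nonneg _) n2)
        _ ≤ _ := by
          have : 8 * ((l : ℝ) + 1) / M = 4 * ((l : ℝ) + 1) / M + 4 * ((l : ℝ) + 1) / M := by ring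
          linarith
    refine (Finset.sum_le_sum this).trans ?_
    rw [← Finset.sum_mul]
    refine (mul_le_mul_of_nonneg_right h2 (by positivity)).trans (le_of_eq ?_)
    ring
  refine (Finset.sum_le_sum fun a ha => Finset.sum_le_sum fun b hb' => step a ha b hb').trans ?_
  simp only [Finset.sum_add_distrib, Finset.sum_const, Finset.card_range, nsmul_eq_mul]
  nlinarith [h1 U V hU hV]

theorem st : StR := by
  intro _ hA hC σ hσ hg Ω _ P _ E hE hind hP
  have h0 : ∀ n, 0 ≤ σ n := fun n => (hσ n).1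
  filter_upwards [T6H.aeL hC σ hσ Ω P E hE hind hP hg, T3S.aeAll σ hσ Ω P E hE hind hP hg]
    with ω h1 h2
  have hb := (T3S.nrm.1 σ _ h0 (T3S.Asm.wt_tendsto h0 hg) h2.1).2.2.1
  exact St.stL_of hA hb (h1 hb)

end T6

end
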