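import Pool.Agent.MP_154433_an.t6.Spec
import Pool.Agent.MP_154433_an.p4.S3

/-! From a closed good factor to all functions. -/

set_option autoImplicit false
set_option linter.unusedVariables false
set_option warn.classDefReducibility false

open MeasureTheory ProbabilityTheory Filter Topology Function
open scoped BigOperators ComplexConjugate

noncomputable section

namespace T6

open Pool.Agent.MP_154433_an hiding BM
open T3S (B1 MB1 PW AsInv Erg Bd Near Gr yw dif CZ)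
open T4S (Gm Act ddX QX ln Spr Concl wavg Van)
open Fib27 (BM)
open T3x (nul pull gen)
open T4x (Fac Emb Inv Nice Pair Star KK Fd)
open T3S.Bridge (toWt av_eq erg_to exists_MB1)

namespace Top

/-- for bounded functions the first and the second moments vanish together -/
lemma l12 {X : Type} [MeasurableSpace X] (μ : Measure X) [IsProbabilityMeasure μ]
    (S : ℕ → X → ℂ) (hm : ∀ M, Measurable (S M)) (hb : ∀ᶠ M in atTop, ∀ x, ‖S M x‖ ≤ 2) :
    Tendsto (fun M => ∫ x, ‖S M x‖ ∂μ) atTop (𝓝 0) ↔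
      Tendsto (fun M => ∫ x, ‖S M x‖ ^ 2 ∂μ) atTop (𝓝 0) := by
  have key : ∀ᶠ M in atTop, ∫ x, ‖S M x‖ ^ 2 ∂μ ≤ 2 * ∫ x, ‖S M x‖ ∂μ ∧
      (∫ x, ‖S M x‖ ∂μ) ^ 2 ≤ ∫ x, ‖S M x‖ ^ 2 ∂μ := by
    filter_upwards [hb] with M h
    have i1 : Integrable (fun x => ‖S M x‖) μ := Integrable.of_bound
      (hm M).norm.aestronglyMeasurable 2 (Eventually.of_forall fun x => by simpa using h x)
    have i2 : Integrable (fun x => ‖S M x‖ ^ 2) μ := Integrable.of_bound
      ((hm M).norm.pow_const 2).aestronglyMeasurable (2 ^ 2) (Eventually.of_forall fun x => by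
        rw [norm_pow, norm_norm]
        exact pow_le_pow_left₀ (norm_nonneg _) (h x) 2)
    refine ⟨?_, ?_⟩
    · rw [← integral_const_mul]
      exact integral_mono i2 (i1.const_mul 2) fun x => by nlinarith [h x, norm_nonneg (S M x)]
    · have h1 := integral_mono (i1.const_mul (2 * ∫ x, ‖S M x‖ ∂μ))
        (i2.add (integrable_const ((∫ x, ‖S M x‖ ∂μ) ^ 2))) fun x => by
          have := sq_nonneg (‖S M x‖ - ∫ x, ‖S M x‖ ∂μ)
          simp only [Pi.add_apply]
          linarith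
      simp only [Pi.add_apply] at h1
      rw [integral_const_mul, integral_add i2 (integrable_const _), integral_const,
        probReal_univ, one_smul] at h1
      linarith
  constructor
  · intro h
    refine squeeze_zero' (Eventually.of_forall fun M => integral_nonneg fun x => sq_nonneg _)
      (key.mono fun M k => k.1) ?_
    simpa using h.const_mul 2
  · intro h
    refine squeeze_zero' (Eventually.of_forall fun M => integral_nonneg fun x => norm_nonneg _)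
      (key.mono fun M k => Real.le_sqrt_of_sq_le k.2) ?_
    simpa using h.sqrt

lemma vn_iff {ν ν' : ℕ → ℕ → ℝ} (h1 : PW ν) (h2 : PW ν') (X : Sy) (f : Fin 2 → X.X → ℂ)
    (hf : ∀ i, MB X (f i)) :
    Vn X (rr 0) (rr 1) (df ν ν') (f 0) (f 1) ↔ Van X.μ X.A (df ν ν') rr f := by
  refine Iff.trans ?_ (l12 X.μ (wavg X.A (df ν ν') rr f)
    ((act X).wavg_meas _ _ fun i => (hf i).1) ?_)
  · simp only [Vn, NN, wavg, Fin.prod_univ_two]
  · filter_upwards [h1.2, h2.2] with M e e' x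
    refine (T4S.wavg_norm_le X.A _ rr (fun i => (hf i).2) M x).trans ?_
    refine (Finset.sum_le_sum fun d _ => abs_sub _ _).trans ?_
    simp only [abs_of_nonneg (h1.1 _ _), abs_of_nonneg (h2.1 _ _), Finset.sum_add_distrib, e, e']
    norm_num

lemma van_iff {ν ν' : ℕ → ℕ → ℝ} (h1 : PW ν) (h2 : PW ν') (Z : Sy) (g : Fin 2 → Z.X → ℂ) :
    Van Z.μ Z.A (df ν ν') rr g ↔ Tendsto (fun M => ∫ x,
      ‖T4x.avg (toWt ν h1) M Z rr g x - T4x.avg (toWt ν' h2) M Z rr g x‖ ^ 2 ∂Z.μ)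
      atTop (𝓝 0) := by
  have avg_eq : ∀ {w : ℕ → ℕ → ℝ} (hw : PW w) {M : ℕ}, ∑ d ∈ Finset.range M, w M d = 1 →
      ∀ x : Z.X, T4x.avg (toWt w hw) M Z rr g x = wavg Z.A w rr g M x := fun hw M e x => by
    rw [T4x.avg, av_eq hw e]
    exact Finset.sum_congr rfl fun d _ => Complex.real_smul
  refine tendsto_congr' ?_
  filter_upwards [h1.2, h2.2] with M e e'
  simp only [avg_eq h1 e, avg_eq h2 e', ← T4S.Bridge.wavg_sub]
  rfl

/-- a bounded function is a multiple of a function bounded by one -/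
lemma scale (X : Sy) (C : MeasurableSpace X.X) (hC : C ≤ X.ms) (f : X.X → ℂ) (hf : BM X.μ C f) :
    ∃ (c : ℂ) (g : X.X → ℂ), MB X g ∧ BM X.μ C g ∧ f =ᵐ[X.μ] fun x => c * g x := by
  obtain ⟨h1, K, h2⟩ := hf
  have p : (0 : ℝ) < |K| + 1 := by positivity
  have c0 : ((|K| + 1 : ℝ) : ℂ) ≠ 0 := Complex.ofReal_ne_zero.2 p.ne'
  have m1 := h1.const_mul ((|K| + 1 : ℝ) : ℂ)⁻¹
  obtain ⟨g, a1, a2⟩ := @exists_MB1 X.X X.ms X.μ _ (m1.mono hC) (h2.mono fun x hx => by
    rw [norm_mul, norm_inv, Complex.norm_real, Real.norm_of_nonneg p.le, inv_mul_le_iff₀ p]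
    linarith [le_abs_self K])
  refine ⟨((|K| + 1 : ℝ) : ℂ), g, a1, ⟨m1.congr a2, 1, Eventually.of_forall a1.2⟩,
    a2.mono fun x hx => ?_⟩
  beta_reduce at hx ⊢
  rw [← hx, mul_inv_cancel_left₀ c0]

lemma van_scale (X : Sy) (w : ℕ → ℕ → ℝ) (c : Fin 2 → ℂ) (f g : Fin 2 → X.X → ℂ)
    (h : ∀ i, f i =ᵐ[X.μ] fun x => c i * g i x) (hg : Van X.μ X.A w rr g) :
    Van X.μ X.A w rr f := by
  have h1 := hg.const_mul (‖∏ i, c i‖ ^ 2)
  rw [mul_zero] at h1
  refine h1.congr fun M => ?_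
  rw [← integral_const_mul]
  refine integral_congr_ae ?_
  filter_upwards [T4S.Bridge.wavg_congr (act X) w rr h M] with x hx
  rw [hx, ← mul_pow, ← norm_mul]
  simp only [wavg, Finset.prod_mul_distrib, Finset.mul_sum, mul_left_comm]

end Top

open T6.Top in
theorem topr : TopR := by
  intro F G hT _ ν ν' h1 h2 e1 e2 s1 s2 hC X f g hf hg
  have hm : ∀ i : Fin 2, MB X (![f, g] i) := Fin.forall_fin_two.2 ⟨hf, hg⟩
  refine (vn_iff h1 h2 X ![f, g] hm).2 ((van_iff h1 h2 X _).2 ?_)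
  obtain ⟨X', e, hX, he, hl⟩ := F.nice0 X
  refine G.down _ _ X X' e (Fin 2) rr he hl ?_ _ fun i =>
    ⟨(hm i).1.aestronglyMeasurable, 1, Eventually.of_forall (hm i).2⟩
  obtain ⟨C, c1, c2⟩ := hC X' hX
  refine hT _ _ X' (Fin 2) rr C (erg_to h1 e1) (erg_to h2 e2) (T4S.Bridge.spr_to h1 s1)
    (T4S.Bridge.spr_to h2 s2)
    ⟨fun i => Or.inl ⟨i, rfl⟩, fun i j hij => Or.inr ⟨i, j, hij, rfl⟩⟩ hX c1 fun φ hφ => ?_
  choose c ψ a1 a2 a3 using fun i => scale X' C c1.1.le (φ i) (hφ i)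
  exact (van_iff h1 h2 X' φ).1 (van_scale X' _ c φ ψ a3
    ((vn_iff h1 h2 X' ψ a1).1 (c2 _ _ (a1 0) (a1 1) (a2 0) (a2 1))))

end T6

end
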