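import Pool.Agent.MP_154433_an.t6.Spec

/-! The two vanishing statements: remove the structured factor, then control the derivatives. -/

set_option autoImplicit false
set_option linter.unusedVariables false
set_option warn.classDefReducibility false

open MeasureTheory ProbabilityTheory Filter Topology Function
open scoped BigOperators ComplexConjugate

noncomputable section

namespace T6

open Pool.Agent.MP_154433_an hiding BM
open T3S (B1 MB1 PW AsInv Erg Bd Near Gr yw dif CZ)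
open T4S (Gm Act ddX QX ln Spr Concl)
open Fib27 (BM)

namespace V12

theorem core (hV : VB) (hQ : QB) (hK : KillS) (κ : ℕ → ℕ → ℝ) (hκ : PW κ) (X : Sy) (a b : Gm 2)
    (L : List (Gm 2)) (n g f : X.X → ℂ) (hL : L ≠ []) (hn : InZ X L n) (hg : MB X g) (hf : MB X f)
    (Ψ : ℕ → (X.X → ℂ) → (X.X → ℂ) → ℝ)
    (h1 : ∀ ε : ℝ, 0 < ε → ∃ K : ℝ, 0 ≤ K ∧ ∀ H : ℕ, 1 ≤ H → ∀ f' g', MB X f' →
      g' ∈ Der X g L.length → ∀ᶠ M in atTop, NN X a b (κ M) M f' g' ≤ ε + K * Ψ H f' g')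
    (h2 : ∀ ε : ℝ, 0 < ε → ∃ H : ℕ, 1 ≤ H ∧ EL X H L (Ψ H) f g ≤ ε) :
    Vn X a b κ f fun x => g x * n x := by
  refine tendsto_order.2 ⟨fun r hr => Eventually.of_forall fun M =>
    hr.trans_le (hV.nonneg _ _ _ _ _ _ _), fun r hr => ?_⟩
  obtain ⟨K, hK0, hK1⟩ := hK X a b L n hL hn (r / 4) (by linarith)
  have hK2 : 0 < K + 1 := by linarith
  obtain ⟨K', hK0', hK1'⟩ := h1 (r / 4 / (K + 1)) (by positivity)
  have hK2' : 0 < K' + 1 := by linarith
  obtain ⟨H, hH, hH1⟩ := h2 (r / 4 / (K + 1) / (K' + 1)) (by positivity)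
  have h3 := hQ.elc X (fun M => NN X a b (κ M) M) (Ψ H) g (r / 4 / (K + 1)) K' H L hH hg
    (hK1' H hH) f hf
  filter_upwards [h3, hκ.2] with M h4 h5
  have h6 := hK1 f g H (κ M) M hf hg hH (hκ.1 M) h5
  have h7 : K' * EL X H L (Ψ H) f g ≤ r / 4 / (K + 1) := by
    have e : (K' + 1) * (r / 4 / (K + 1) / (K' + 1)) = r / 4 / (K + 1) :=
      mul_div_cancel₀ _ hK2'.ne'
    have h8 := mul_le_mul_of_nonneg_left hH1 hK0'
    have h9 : 0 ≤ r / 4 / (K + 1) / (K' + 1) := by positivity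
    nlinarith
  have h8 : EL X H L (NN X a b (κ M) M) f g ≤ 2 * (r / 4 / (K + 1)) := by linarith
  have h9 := mul_le_mul_of_nonneg_left h8 hK0
  have e : (K + 1) * (r / 4 / (K + 1)) = r / 4 := mul_div_cancel₀ _ hK2.ne'
  have h10 : 0 ≤ r / 4 / (K + 1) := by positivity
  nlinarith

end V12

theorem v1 : V1R := by
  intro hV hQ hZ hK κ hκ hC X a b L β n f hL hβ hn hf hN
  refine V12.core hV hQ hK κ hκ X a b L n β f hL hn hβ.1 hf
    (fun H f' _ => QE X [a, a] H f') (fun ε hε => ?_) fun ε hε => ?_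
  · obtain ⟨K, hK0, hK1⟩ := hC X a b _ (hZ.ua X [b, b] β L.length (by simp) hβ) ε hε
    exact ⟨K, hK0, fun H hH f' g' hf' hg' => hK1 g' hg' f' H hf' hH⟩
  · obtain ⟨H, hH, hH1⟩ := hN ε hε
    exact ⟨H, hH, hQ.app1 X L [a, a] H f β ▸ hH1⟩

theorem v2 : V2R := by
  intro hV hQ hZ hK κ hκ hC X a b β c f hβ hc hf hN
  refine V12.core hV hQ hK κ hκ X a b [b, b] β c f (by simp) hβ hc.1 hf
    (fun H _ g' => QE X [b - a, -a, -a] H g') (fun ε hε => ?_) fun ε hε => ?_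
  · obtain ⟨K, hK0, hK1⟩ :=
      hC X a b _ (hZ.ua X [b - a, b - a] c [b, b].length (by simp) hc) ε hε
    exact ⟨K, hK0, fun H hH f' g' hf' hg' => hK1 g' hg' f' H hf' hH⟩
  · obtain ⟨H, hH, hH1⟩ := hN ε hε
    exact ⟨H, hH, hQ.app2 X [b, b] [b - a, -a, -a] H f c ▸ hH1⟩

end T6

end
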