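import Pool.Agent.MP_154433_an.t6.Spec

/-! Row VB: calculus of the weighted double averages. -/

set_option autoImplicit false
set_option linter.unusedVariables false
set_option warn.classDefReducibility false

open MeasureTheory ProbabilityTheory Filter Topology Function
open scoped BigOperators ComplexConjugate

noncomputable section

namespace T6

open Pool.Agent.MP_154433_an hiding BM
open T3S (B1 MB1 PW AsInv Erg Bd Near Gr yw dif CZ)
open T4S (Gm Act ddX QX ln Spr Concl)
open Fib27 (BM)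
open T3x (nul pull gen)
open T4x (Fac Emb Inv Nice Pair Star KK Fd)

namespace VB

variable {X : Sy} {a b : Gm 2} {κ κ' : ℕ → ℝ} {M : ℕ} {f f' g g' c : X.X → ℂ}

/-- the weighted double average -/
def av (X : Sy) (a b : Gm 2) (κ : ℕ → ℝ) (M : ℕ) (f g : X.X → ℂ) (x : X.X) : ℂ :=
  ∑ d ∈ Finset.range M, (κ d : ℂ) * (f (X.A ((d : ℤ) • a) x) * g (X.A ((d : ℤ) • b) x))

lemma nn_eq : NN X a b κ M f g = ∫ x, ‖av X a b κ M f g x‖ ∂X.μ := rfl

lemma tz_ae (v : Gm 2) (h : f =ᵐ[X.μ] f') :
    (fun x => f (X.A v x)) =ᵐ[X.μ] fun x => f' (X.A v x) :=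
  (X.mp v).quasiMeasurePreserving.ae_eq_comp h

lemma tz_int (v : Gm 2) (h : Integrable g X.μ) : Integrable (fun x => g (X.A v x)) X.μ :=
  (X.mp v).integrable_comp_of_integrable h

lemma av_int (hf : MB X f) (hg : Integrable g X.μ) : Integrable (av X a b κ M f g) X.μ :=
  integrable_finsetSum _ fun d _ => ((tz_int _ hg).bdd_mul (c := 1)
    ((act X).tz hf _).1.aestronglyMeasurable (Eventually.of_forall fun x => hf.2 _)).const_mul _

lemma mint (hf : MB X f) : Integrable f X.μ := hf.integrable _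

lemma le_of {u v w : X.X → ℂ} (hv : Integrable v X.μ) (hw : Integrable w X.μ)
    (h : ∀ x, u x = v x + w x) :
    ∫ x, ‖u x‖ ∂X.μ ≤ ∫ x, ‖v x‖ ∂X.μ + ∫ x, ‖w x‖ ∂X.μ := by
  rw [← integral_add hv.norm hw.norm]
  exact integral_mono_of_nonneg (Eventually.of_forall fun x => norm_nonneg _) (hv.norm.add hw.norm)
    (Eventually.of_forall fun x => (congrArg norm (h x)).trans_le (norm_add_le _ _))

lemma nn0 : 0 ≤ NN X a b κ M f g := integral_nonneg fun _ => norm_nonneg _

lemma add' (hf : MB X f) (hg : Integrable g X.μ) (hg' : Integrable g' X.μ) :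
    NN X a b κ M f (fun x => g x + g' x) ≤ NN X a b κ M f g + NN X a b κ M f g' :=
  le_of (av_int hf hg) (av_int hf hg') fun x => by
    simp only [mul_add, Finset.sum_add_distrib]

lemma smul' (c : ℂ) : NN X a b κ M f (fun x => c * g x) = ‖c‖ * NN X a b κ M f g := by
  rw [nn_eq, nn_eq, ← integral_const_mul]
  refine integral_congr_ae (Eventually.of_forall fun x => ?_)
  simp only [av]
  rw [← norm_mul, Finset.mul_sum]
  exact congrArg _ (Finset.sum_congr rfl fun d _ => by ring)

lemma bound (hf : MB X f) (hg : Integrable g X.μ) :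
    NN X a b κ M f g ≤ (∑ d ∈ Finset.range M, |κ d|) * ∫ x, ‖g x‖ ∂X.μ := by
  have i : ∀ d : ℕ, Integrable (fun x => |κ d| * ‖g (X.A ((d : ℤ) • b) x)‖) X.μ :=
    fun d => (tz_int _ hg).norm.const_mul _
  have e : (∑ d ∈ Finset.range M, |κ d|) * ∫ x, ‖g x‖ ∂X.μ =
      ∫ x, ∑ d ∈ Finset.range M, |κ d| * ‖g (X.A ((d : ℤ) • b) x)‖ ∂X.μ := by
    rw [integral_finsetSum _ fun d _ => i d, Finset.sum_mul]
    refine Finset.sum_congr rfl fun d _ => ?_
    rw [integral_const_mul, (act X).integral _ (f := fun x => ‖g x‖) hg.norm.1]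
  rw [e]
  refine integral_mono_of_nonneg (Eventually.of_forall fun x => norm_nonneg _)
    (integrable_finsetSum _ fun d _ => i d) (Eventually.of_forall fun x => ?_)
  refine (norm_sum_le _ _).trans (Finset.sum_le_sum fun d _ => ?_)
  rw [norm_mul, norm_mul, Complex.norm_real, Real.norm_eq_abs]
  exact mul_le_mul_of_nonneg_left (mul_le_of_le_one_left (norm_nonneg _) (hf.2 _)) (abs_nonneg _)

lemma lip' (hf : MB X f) (hg : Integrable g X.μ) (hg' : Integrable g' X.μ) :
    NN X a b κ M f g ≤ NN X a b κ M f g' +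
      (∑ d ∈ Finset.range M, |κ d|) * ∫ x, ‖g x - g' x‖ ∂X.μ := by
  have h := add' (a := a) (b := b) (κ := κ) (M := M) hf hg' (hg.sub hg')
  simp only [Pi.sub_apply, add_sub_cancel] at h
  exact h.trans (add_le_add le_rfl (bound hf (hg.sub hg')))

lemma tri' (hf : MB X f) (hg : MB X g) :
    NN X a b κ M f g ≤ NN X a b κ' M f g + NN X a b (fun d => κ d - κ' d) M f g :=
  le_of (av_int hf (hg.integrable _)) (av_int hf (hg.integrable _)) fun x => by
    simp only [← Finset.sum_add_distrib]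
    exact Finset.sum_congr rfl fun d _ => by push_cast; ring

lemma sub' (hf : MB X f) (hg : MB X g) :
    NN X a b (fun d => κ d - κ' d) M f g ≤ NN X a b κ M f g + NN X a b κ' M f g := by
  have h := le_of (u := av X a b (fun d => κ d - κ' d) M f g)
    (av_int (a := a) (b := b) (κ := κ) (M := M) hf (hg.integrable _))
    (av_int (a := a) (b := b) (κ := κ') (M := M) hf (hg.integrable _)).neg fun x => by
      simp only [av, Pi.neg_apply, ← sub_eq_add_neg, ← Finset.sum_sub_distrib]
      exact Finset.sum_congr rfl fun d _ => by push_cast; ring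
  simpa only [Pi.neg_apply, norm_neg, nn_eq] using h

/-- the shifts that keep `c` -/
def stab (X : Sy) (c : X.X → ℂ) : AddSubgroup (Gm 2) where
  carrier := {v | (fun x => c (X.A v x)) =ᵐ[X.μ] c}
  zero_mem' := by
    show (fun x => c (X.A 0 x)) =ᵐ[X.μ] c
    exact EventuallyEq.of_eq (funext fun x => congrArg c ((act X).zero x))
  add_mem' := fun {v w} hv hw => (EventuallyEq.of_eq
    (funext fun x => congrArg c ((act X).add v w x))).trans ((tz_ae w hv).trans hw)
  neg_mem' := fun {v} hv => (tz_ae (-v) hv).symm.trans (Eventually.of_forall fun x => by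
    show c (X.A v (X.A (-v) x)) = c x
    rw [← (act X).add, add_neg_cancel, (act X).zero])

lemma ivz' {u : Gm 2} (n : ℤ) (h : IvF X u c) : IvF X (n • u) c :=
  ⟨h.1, (stab X c).zsmul_mem h.2 n⟩

lemma move' (h : IvF X (b - a) c) :
    NN X a b κ M f (fun x => c x * g x) = NN X a b κ M (fun x => f x * c x) g := by
  have e : ∀ d : ℕ, ∀ᵐ x ∂X.μ, c (X.A ((d : ℤ) • b) x) = c (X.A ((d : ℤ) • a) x) := fun d => by
    filter_upwards [tz_ae ((d : ℤ) • a) (ivz' d h).2] with x hx
    rw [← hx, ← (act X).add, smul_sub, sub_add_cancel]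
  refine integral_congr_ae ?_
  filter_upwards [ae_all_iff.2 e] with x hx
  exact congrArg _ (Finset.sum_congr rfl fun d _ => by rw [hx d]; ring)

variable {w w' : ℕ → ℕ → ℝ}

lemma vadd (hf : MB X f) (hg : Integrable g X.μ) (hg' : Integrable g' X.μ)
    (h : Vn X a b w f g) (h' : Vn X a b w f g') : Vn X a b w f fun x => g x + g' x :=
  squeeze_zero (fun _ => nn0) (fun _ => add' hf hg hg') (by simpa using h.add h')

lemma vsmul (c : ℂ) (h : Vn X a b w f g) : Vn X a b w f fun x => c * g x := by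
  simpa only [Vn, smul', mul_zero] using h.const_mul ‖c‖

lemma span' {T : Set (X.X → ℂ)} (hw : Bd w) (hf : MB X f) (hg : Integrable g X.μ)
    (hT : ∀ φ ∈ T, Integrable φ X.μ ∧ Vn X a b w f φ)
    (h : ∀ ε : ℝ, 0 < ε → ∃ φ ∈ Submodule.span ℂ T, ∫ x, ‖g x - φ x‖ ∂X.μ ≤ ε) :
    Vn X a b w f g := by
  have key : ∀ φ ∈ Submodule.span ℂ T, Integrable φ X.μ ∧ Vn X a b w f φ := fun φ hφ => by
    induction hφ using Submodule.span_induction with
    | mem φ h => exact hT φ h
    | zero => exact ⟨integrable_zero _ _ _, by simp [Vn, NN]⟩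
    | add φ ψ _ _ h1 h2 => exact ⟨h1.1.add h2.1, vadd hf h1.1 h2.1 h1.2 h2.2⟩
    | smul c φ _ h1 => exact ⟨h1.1.smul c, vsmul c h1.2⟩
  refine Metric.tendsto_nhds.2 fun ε hε => ?_
  obtain ⟨φ, hφ, e⟩ := h (ε / 6) (by positivity)
  filter_upwards [hw, (key φ hφ).2.eventually (gt_mem_nhds (half_pos hε))] with M h1 h2
  rw [Real.dist_0_eq_abs, abs_of_nonneg nn0]
  have h3 := lip' (a := a) (b := b) (κ := w M) (M := M) hf hg (key φ hφ).1
  have h4 := mul_le_mul h1 e (integral_nonneg fun _ => norm_nonneg _) (by norm_num)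
  linarith

lemma near' (hw : Near w w') (hf : MB X f) (hg : MB X g) (h : Vn X a b w' f g) :
    Vn X a b w f g := by
  have i : ∫ x, ‖g x‖ ∂X.μ ≤ 1 := by
    simpa using integral_mono (hg.integrable X.μ).norm (integrable_const (1 : ℝ)) hg.2
  refine squeeze_zero (fun _ => nn0) (fun M => (tri' (κ' := w' M) hf hg).trans
    (add_le_add le_rfl ((bound hf (hg.integrable _)).trans (mul_le_of_le_one_right
      (Finset.sum_nonneg fun _ _ => abs_nonneg _) i)))) (by simpa using h.add hw)

lemma mb_half (hg : MB X g) (hg' : MB X g') : MB X fun x => (2⁻¹ : ℂ) * (g x - g' x) := by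
  refine ⟨(hg.1.sub hg'.1).const_mul _, fun x => ?_⟩
  have := norm_sub_le (g x) (g' x)
  have := hg.2 x
  have := hg'.2 x
  rw [norm_mul, norm_inv, Complex.norm_ofNat]
  linarith

lemma split' {β : X.X → ℂ} (hf : MB X f) (hg : MB X g) (hg' : MB X g') (hβ : MB X β)
    (h1 : Vn X a b w f fun x => g' x * β x)
    (h2 : Vn X a b w f fun x => (2⁻¹ : ℂ) * (g x - g' x) * β x) :
    Vn X a b w f fun x => g x * β x := by
  have h := vadd hf ((hg'.mul hβ).integrable _)
    ((((mb_half hg hg').mul hβ).integrable _).const_mul 2) h1 (vsmul 2 h2)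
  exact (congrArg _ (funext fun x => by ring)).mp h

end VB

open VB in
theorem vb : VBR := fun F =>
  { swap := fun X a b κ M f g => by simp only [NN, mul_comm (f _)]
    nonneg := fun _ _ _ _ _ _ _ => nn0
    congr := fun X a b κ M f f' g g' h h' => by
      refine integral_congr_ae ?_
      filter_upwards [ae_all_iff.2 fun d : ℕ => tz_ae ((d : ℤ) • a) h,
        ae_all_iff.2 fun d : ℕ => tz_ae ((d : ℤ) • b) h'] with x h1 h2
      exact congrArg _ (Finset.sum_congr rfl fun d _ => by rw [h1 d, h2 d])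
    sub := fun _ _ _ _ _ _ _ _ => sub'
    tri := fun _ _ _ _ _ _ _ _ => tri'
    lip := fun _ _ _ _ _ _ _ _ => lip'
    smul := fun _ _ _ _ _ _ _ => smul'
    add := fun _ _ _ _ _ _ _ _ => add'
    move := fun _ _ _ _ _ _ _ _ => move'
    span := fun _ _ _ _ _ _ _ => span'
    near := fun _ _ _ _ _ _ _ => near'
    split := fun _ _ _ _ _ _ _ _ => split'
    ver := fun X Y G hY hG => by
      obtain ⟨G', m, b, e⟩ := F.a.rep Y X.μ (X.μ[G | Y]) 1 zero_le_one
        stronglyMeasurable_condExp.aestronglyMeasurable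
        (ae_bdd_norm_condExp_of_ae_bdd_norm (Eventually.of_forall hG.2))
      exact ⟨G', ⟨⟨m.mono hY.le le_rfl, b⟩, e.symm⟩, m⟩
    half := fun X Y G G' hY hG hV => by
      refine ⟨mb_half hG hV.1, ?_⟩
      have e1 := condExp_smul (μ := X.μ) (2⁻¹ : ℂ) (G - G') Y
      have e2 := condExp_sub (mint hG) (mint hV.1) Y
      have e3 := (condExp_congr_ae (m := Y) hV.2).trans
        (condExp_condExp_of_le (μ := X.μ) (f := G) le_rfl hY.le)
      refine EventuallyEq.trans e1 ?_
      filter_upwards [e2, e3] with x h2 h3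
      simp only [Pi.smul_apply, h2, Pi.sub_apply, h3, sub_self, smul_zero, Pi.zero_apply]
    fle := fun X Y Y' hY hY' h A hA => by
      have mA : Measurable[Y] (A.indicator fun _ => (1 : ℂ)) := measurable_const.indicator hA
      obtain ⟨c, hc, e⟩ := (h _ ⟨mA.mono hY.le le_rfl, fun x => by
        by_cases hx : x ∈ A <;> simp [hx]⟩ mA).1
      have k := (F.a.mem Y' X.μ hY'.le A).2 ⟨hY.le A hA, c ⁻¹' {1},
        hc.measurable (measurableSet_singleton _), by
          filter_upwards [e] with x hx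
          by_cases hA : x ∈ A
          · rw [Set.indicator_of_mem hA] at hx
            exact propext ⟨fun _ => hx.symm, fun _ => hA⟩
          · rw [Set.indicator_of_notMem hA] at hx
            exact propext ⟨fun h => (hA h).elim, fun h => (zero_ne_one (hx.trans h)).elim⟩⟩
      rwa [sup_eq_left.2 hY'.nl] at k
    ivf := fun X u c hc => by
      have k := F.t.inv_iff X {u} c hc.1.aestronglyMeasurable
      exact ⟨fun h => ⟨k.2 fun v hv => hv ▸ h.2, 1, Eventually.of_forall hc.2⟩,
        fun h => ⟨hc, k.1 h.1 u rfl⟩⟩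
    ivz := fun _ _ _ => ivz' }

end T6

end
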