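import Pool.Agent.MP_154433_an.t6.Spec
import Pool.Agent.MP_154433_an.t3s.Four

/-! Row Wie: blocks in two equal directions are close to functions of bounded Wiener norm. -/

set_option autoImplicit false
set_option linter.unusedVariables false
set_option warn.classDefReducibility false

open MeasureTheory ProbabilityTheory Filter Topology Function
open scoped BigOperators ComplexConjugate

noncomputable section

namespace T6

open Pool.Agent.MP_154433_an hiding BM
open T3S (B1 CZ ip Q Dual)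

namespace Wie

variable {G : Type} [AddCommGroup G] [Fintype G]

theorem ip_sum (e : AddChar G ℂ → ℂ) (u : G → ℂ) :
    ip (fun x => ∑ χ, e χ * χ x) u = ∑ χ, e χ * conj (ip u χ) := by
  simp only [ip, Finset.sum_mul]
  rw [Finset.expect_sum_comm]
  refine Finset.sum_congr rfl fun χ _ => ?_
  rw [T3S.conj_exp, Finset.mul_expect]
  refine Finset.expect_congr rfl fun x _ => ?_
  rw [map_mul, RCLike.conj_conj]
  ring

open Classical in
theorem ip_char (ψ χ : AddChar G ℂ) : ip ψ χ = if χ = ψ then 1 else 0 := by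
  have : ip ψ χ = 𝔼 x, (ψ - χ) x := Finset.expect_congr rfl fun x _ => by
    rw [AddChar.sub_apply, AddChar.map_neg_eq_conj]
  rw [this, AddChar.expect_eq_ite]
  simp only [sub_eq_zero, eq_comm]

theorem coef (e : AddChar G ℂ → ℂ) (ψ : AddChar G ℂ) : ip (fun x => ∑ χ, e χ * χ x) ψ = e ψ := by
  classical
  rw [ip_sum]
  simp [ip_char, apply_ite conj]

theorem pars (e : AddChar G ℂ → ℂ) : 𝔼 x, ‖∑ χ, e χ * χ x‖ ^ 2 = ∑ χ, ‖e χ‖ ^ 2 := by
  have h := congrArg Complex.re (ip_sum e fun x => ∑ χ, e χ * χ x)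
  rw [ip, T3S.re_exp, Complex.re_sum] at h
  simpa only [coef, Complex.mul_conj, Complex.ofReal_re, Complex.normSq_eq_norm_sq] using h

theorem q1 (F : G → ℂ) : Q 1 F = ∑ χ : AddChar G ℂ, ‖ip F χ‖ ^ 2 * ‖ip F χ‖ ^ 2 := by
  classical
  rw [T3S.Four.Q1]
  simp only [sub_eq_zero, mul_ite, mul_one, mul_zero, Finset.sum_ite_eq, Finset.mem_univ, if_true,
    T3S.Four.p]

theorem core {u : G → ℂ} {A s : ℝ} (hA : 1 ≤ A) (hs : 0 < s) (hu : Dual 1 A u) :
    ∃ c : AddChar G ℂ → ℂ, ∑ χ, ‖c χ‖ ≤ A / s ^ 3 ∧ 𝔼 x, ‖u x - ∑ χ, c χ * χ x‖ ≤ 2 * s := by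
  classical
  have A0 : 0 < A := by linarith
  obtain ⟨η, hη⟩ : ∃ η, η = s ^ 3 / A := ⟨_, rfl⟩
  have η0 : 0 < η := by rw [hη]; positivity
  let c : AddChar G ℂ → ℂ := fun χ => if η ≤ ‖ip u χ‖ then ip u χ else 0
  let e : AddChar G ℂ → ℂ := fun χ => if η ≤ ‖ip u χ‖ then 0 else ip u χ
  have c1 : ∑ χ, ‖c χ‖ ≤ η⁻¹ := by
    refine (Finset.sum_le_sum (g := fun χ => η⁻¹ * T3S.Four.p u χ) fun χ _ => ?_).trans ?_
    · simp only [c, T3S.Four.p]
      split_ifs with h
      · rw [le_inv_mul_iff₀ η0, sq]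
        exact mul_le_mul_of_nonneg_right h (norm_nonneg _)
      · rw [norm_zero]; positivity
    · rw [← Finset.mul_sum]
      exact mul_le_of_le_one_right (by positivity) (T3S.Four.sum_le hu.1)
  have fe : ∀ x, u x - ∑ χ, c χ * χ x = ∑ χ, e χ * χ x := fun x => by
    rw [T3S.Four.inv u x, ← Finset.sum_sub_distrib]
    refine Finset.sum_congr rfl fun χ _ => ?_
    simp only [c, e]
    split_ifs <;> ring
  refine ⟨c, c1.trans_eq (by rw [hη, inv_div]), ?_⟩
  obtain ⟨r, hr⟩ : ∃ r : ℝ, r = (1 + η⁻¹)⁻¹ := ⟨_, rfl⟩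
  have r0 : 0 < r := by rw [hr]; positivity
  have gb : B1 fun x => ∑ χ, (r * e χ) * χ x := fun x => by
    simp only [mul_assoc]
    rw [← Finset.mul_sum, ← fe, norm_mul, Complex.norm_real, Real.norm_of_nonneg r0.le, hr,
      inv_mul_le_iff₀ (by positivity), mul_one]
    refine (norm_sub_le _ _).trans (add_le_add (hu.1 x) ((norm_sum_le _ _).trans
      (le_trans (Finset.sum_le_sum fun χ _ => ?_) c1)))
    rw [norm_mul, χ.norm_apply, mul_one]
  have k := hu.2 _ gb
  obtain ⟨S, hS⟩ : ∃ S, S = ∑ χ, ‖e χ‖ ^ 2 := ⟨_, rfl⟩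
  have S0 : 0 ≤ S := hS ▸ Finset.sum_nonneg fun _ _ => sq_nonneg _
  have k1 : ip (fun x => ∑ χ, (r * e χ) * χ x) u = ((r * S : ℝ) : ℂ) := by
    rw [ip_sum, hS, Finset.mul_sum, Complex.ofReal_sum]
    refine Finset.sum_congr rfl fun χ _ => ?_
    simp only [e]
    split_ifs
    · simp
    · rw [mul_assoc, Complex.mul_conj, Complex.normSq_eq_norm_sq, Complex.ofReal_mul]
  have k2 : Q 1 (fun x => ∑ χ, (r * e χ) * χ x) ≤ r ^ 4 * η ^ 2 * S := by
    rw [q1, hS, Finset.mul_sum]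
    refine Finset.sum_le_sum fun χ _ => ?_
    have a : ‖e χ‖ ≤ η := by
      simp only [e]
      split_ifs with h
      · rw [norm_zero]; exact η0.le
      · exact (not_le.1 h).le
    have b := pow_le_pow_left₀ (norm_nonneg _) a 2
    rw [coef, norm_mul, Complex.norm_real, Real.norm_of_nonneg r0.le]
    have := mul_le_mul_of_nonneg_right b (show 0 ≤ r ^ 4 * ‖e χ‖ ^ 2 by positivity)
    linarith
  rw [k1, Complex.norm_real, Real.norm_of_nonneg (mul_nonneg r0.le S0)] at k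
  have k3 : S ^ 4 ≤ A * η ^ 2 * S := le_of_mul_le_mul_left (by
    have := k.trans (mul_le_mul_of_nonneg_left k2 A0.le)
    norm_num at this
    linarith) (pow_pos r0 4)
  have k4 : A * η ^ 2 ≤ (s ^ 2) ^ 3 := by
    rw [hη, show A * (s ^ 3 / A) ^ 2 = (s ^ 2) ^ 3 / A by field_simp]
    exact div_le_self (by positivity) hA
  have k5 : S ≤ s ^ 2 := by
    rcases S0.eq_or_lt with z | z
    · rw [← z]; positivity
    · refine le_of_pow_le_pow_left₀ three_ne_zero (sq_nonneg s) (le_trans ?_ k4)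
      exact le_of_mul_le_mul_right (by linarith) z
  simp only [fe]
  calc _ ≤ 𝔼 x, (s + s⁻¹ * ‖∑ χ, e χ * χ x‖ ^ 2) := Finset.expect_le_expect fun x _ => by
        rw [← sub_le_iff_le_add', le_inv_mul_iff₀ hs]
        nlinarith [sq_nonneg (‖∑ χ, e χ * χ x‖ - s), norm_nonneg (∑ χ, e χ * χ x)]
    _ = s + s⁻¹ * S := by
        rw [Finset.expect_add_distrib, Fintype.expect_const, ← Finset.mul_expect, pars, hS]
    _ ≤ 2 * s := by
        have := (inv_mul_le_iff₀ hs).2 (k5.trans_eq (sq s))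
        linarith

theorem win {M d : ℕ} (hM : 1 ≤ M) (hd : d < M) {F : ZMod (6 * (M + 1)) → ℝ} (hF : ∀ x, 0 ≤ F x) :
    𝔼 j : Fin M, F (((j : ℕ) + d : ℕ) : ZMod (6 * (M + 1))) ≤ 12 * 𝔼 x, F x := by
  classical
  have m1 : (1 : ℝ) ≤ M := by exact_mod_cast hM
  have inj : Injective fun j : Fin M => (((j : ℕ) + d : ℕ) : ZMod (6 * (M + 1))) := fun i j h => by
    have := (ZMod.natCast_eq_natCast_iff' _ _ _).1 h
    rw [Nat.mod_eq_of_lt (by omega), Nat.mod_eq_of_lt (by omega)] at this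
    exact Fin.ext (by omega)
  have a : ∑ j : Fin M, F (((j : ℕ) + d : ℕ) : ZMod (6 * (M + 1))) ≤ ∑ x, F x :=
    (Finset.sum_image fun _ _ _ _ h => inj h).symm.trans_le
      (Finset.sum_le_sum_of_subset_of_nonneg (Finset.subset_univ _) fun x _ _ => hF x)
  have b : 0 ≤ ∑ x, F x := Finset.sum_nonneg fun x _ => hF x
  rw [Fintype.expect_eq_sum_div_card, Fintype.expect_eq_sum_div_card, Fintype.card_fin, ZMod.card,
    ← mul_div_assoc, div_le_div_iff₀ (by linarith) (by positivity)]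
  push_cast at a ⊢
  nlinarith [mul_le_mul_of_nonneg_right a (show (0 : ℝ) ≤ 6 * (M + 1) by positivity),
    mul_nonneg b (sub_nonneg.2 m1)]

end Wie

open Wie in
theorem wie : WieR := by
  intro hA ε hε
  refine ⟨(6 ^ 2) ^ 4 / (ε / 48) ^ 3, by positivity, ?_⟩
  filter_upwards [eventually_ge_atTop 1,
    tendsto_natCast_atTop_atTop.eventually_ge_atTop (32 / ε : ℝ)] with M h1 h2 v hv
  obtain ⟨u, hu, hv⟩ := hA 1 le_rfl (fun _ => 1) 2 6 (M + 1) (M ^ 2) (fun _ => one_ne_zero)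
    (fun _ => by norm_num) (Nat.one_le_pow _ _ h1) v hv
  obtain ⟨c, c1, c2⟩ := core (A := (6 ^ 2) ^ 4) (by norm_num) (show 0 < ε / 48 by positivity)
    (by simpa using hu)
  refine ⟨c, c1, fun d hd => ?_⟩
  have m1 : (1 : ℝ) ≤ M := by exact_mod_cast h1
  have a : (4 * ((1 : ℕ) + 1) * (M + 1 : ℕ) / (M ^ 2 : ℕ) : ℝ) ≤ ε / 2 := by
    rw [div_le_iff₀ hε] at h2
    push_cast
    rw [div_le_iff₀ (by positivity)]
    nlinarith [mul_le_mul_of_nonneg_left h2 (show (0 : ℝ) ≤ M by linarith)]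
  have b := win h1 hd (F := fun x => ‖u x - ∑ χ, c χ * χ x‖) fun _ => norm_nonneg _
  have : Nonempty (Fin M) := ⟨⟨0, h1⟩⟩
  calc _ ≤ 𝔼 j : Fin M, (ε / 2 + ‖u (((j : ℕ) + d : ℕ) : ZMod (6 * (M + 1))) -
        ∑ χ, c χ * χ (((j : ℕ) + d : ℕ) : ZMod (6 * (M + 1)))‖) :=
        Finset.expect_le_expect fun j _ => by
          have e := (hv (((j : ℕ) + d : ℕ) : ℤ) (by
            have := j.2
            rw [abs_of_nonneg (by positivity)]
            push_cast
            omega)).trans a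
          rw [Int.cast_natCast] at e
          exact (norm_sub_le_norm_sub_add_norm_sub _ _ _).trans (add_le_add e le_rfl)
    _ ≤ ε := by
        rw [Finset.expect_add_distrib, Fintype.expect_const]
        linarith

end T6

end
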