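import Pool.Agent.MP_154433_an.t6.Spec

/-! The factor generated by the dual functions. -/

set_option autoImplicit false
set_option linter.unusedVariables false

open MeasureTheory ProbabilityTheory Filter Topology Function
open scoped BigOperators ComplexConjugate

noncomputable section

namespace T6

open Pool.Agent.MP_154433_an hiding BM
open T3S (B1 MB1)
open T4S (Gm Act ddX)
open Fib27 (BM)
open T3x (nul pull gen)
open T4x (Fac Emb Fd)

namespace ZFa

theorem gen_le (X : Sy) (L : List (Gm 2)) : gen (DD X L) id ≤ X.ms :=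
  iSup₂_le fun _ hD => hD.1.1.comap_le

theorem comap_le {X' X : Sy} {p : X'.X → X.X} (hp : MeasurePreserving p X'.μ X.μ)
    {L : List (Gm 2)} (h : ∀ D ∈ DD X L, (fun x => D (p x)) ∈ DD X' L) :
    (ZL X L).comap p ≤ ZL X' L := by
  rw [ZL, MeasurableSpace.comap_sup]
  refine sup_le_sup ?_ ?_
  · simp only [gen, MeasurableSpace.comap_iSup, MeasurableSpace.comap_comp]
    exact iSup₂_le fun D hD => le_iSup₂_of_le (fun x => D (p x)) (h D hD) le_rfl
  · rw [nul, MeasurableSpace.comap_generateFrom]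
    refine MeasurableSpace.generateFrom_mono ?_
    rintro _ ⟨A, hA, rfl⟩
    exact ⟨hp.measurable hA.1, hp.preimage_null hA.2⟩

theorem dd (X : Sy) (L : List (Gm 2)) (D : X.X → ℂ) (hD : D ∈ DD X L) : InZ X L D := by
  have h : Measurable[ZL X L] D :=
    Measurable.of_comap_le (le_sup_of_le_left (le_iSup₂_of_le D hD le_rfl))
  exact ⟨hD.1, h.stronglyMeasurable.aestronglyMeasurable, 1, Eventually.of_forall hD.1.2⟩

/-- the span consists of multiples of dual functions -/
theorem span (a : DA) (X : Sy) {L : List (Gm 2)} (hL : L ≠ []) {φ : X.X → ℂ}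
    (h : φ ∈ Submodule.span ℂ (DD X L)) :
    ∃ K : ℝ, 0 < K ∧ ∃ D ∈ DD X L, φ = fun x => K * D x := by
  induction h using Submodule.span_induction with
  | mem D hD => exact ⟨1, one_pos, D, hD, by simp⟩
  | zero => exact ⟨1, one_pos, _, a.smul X L _ 0 hL (by simp) (a.one X L), by funext x; simp⟩
  | add f g _ _ hf hg =>
    obtain ⟨K, hK, D, hD, rfl⟩ := hf
    obtain ⟨K', hK', D', hD', rfl⟩ := hg
    have h0 : 0 < K + K' := add_pos hK hK'
    refine ⟨K + K', h0, _, a.cvx X L hD hD' (a := K / (K + K')) (b := K' / (K + K'))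
      (by positivity) (by positivity) (by field_simp), ?_⟩
    funext x
    have h1 : (K : ℂ) + K' ≠ 0 := by exact_mod_cast h0.ne'
    simp only [Pi.add_apply, Pi.smul_apply, Complex.real_smul]
    push_cast
    field_simp
  | smul c f _ hf =>
    obtain ⟨K, hK, D, hD, rfl⟩ := hf
    have h0 : 0 < ‖c‖ + 1 := by positivity
    refine ⟨K * (‖c‖ + 1), by positivity, _, a.smul X L D (c / ((‖c‖ + 1 : ℝ) : ℂ)) hL ?_ hD, ?_⟩
    · rw [norm_div, Complex.norm_real, Real.norm_of_nonneg h0.le, div_le_one h0]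
      linarith
    · funext x
      have h1 : ((‖c‖ + 1 : ℝ) : ℂ) ≠ 0 := by exact_mod_cast h0.ne'
      simp only [Pi.smul_apply, smul_eq_mul]
      rw [Complex.ofReal_mul]
      field_simp

theorem intg {X : Sy} {f g : X.X → ℂ} (hf : MB X f) (hg : MB X g) (K : ℝ) :
    Integrable (fun x => ‖f x - K * g x‖) X.μ :=
  ((hf.integrable X.μ).sub ((hg.integrable X.μ).const_mul _)).norm

theorem shift {X : Sy} {f g : X.X → ℂ} (hf : MB X f) (hg : MB X g) (K : ℝ) (v : Gm 2) :
    ∫ x, ‖f (X.A v x) - K * g (X.A v x)‖ ∂X.μ = ∫ x, ‖f x - K * g x‖ ∂X.μ :=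
  (act X).integral v (intg hf hg K).aestronglyMeasurable

theorem bdd {X : Sy} {L : List (Gm 2)} : ∀ φ ∈ DD X L, φ ∈ T3x.Bdd X.X :=
  fun _ h => ⟨h.1.1, 1, h.1.2⟩

theorem apx (F : Fd) (a : DA) (m : DM) (X : Sy) {L : List (Gm 2)} (hL : L ≠ []) {f : X.X → ℂ}
    (hf : InZ X L f) {ε : ℝ} (hε : 0 < ε) :
    ∃ K : ℝ, 0 ≤ K ∧ ∃ D ∈ DD X L, ∫ x, ‖f x - K * D x‖ ∂X.μ ≤ ε := by
  have h2 : ∀ {g : X.X → ℂ}, MB X g → MemLp g 2 X.μ := fun hg =>
    MemLp.of_bound hg.1.aestronglyMeasurable 1 (Eventually.of_forall hg.2)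
  obtain ⟨φ, hφ, h1⟩ := F.d.apx X.μ (DD X L) bdd ⟨_, a.one X L, EventuallyEq.rfl⟩
    (fun φ h φ' h' => ⟨_, m X L φ φ' h h', EventuallyEq.rfl⟩)
    (fun φ h => ⟨_, a.cj X L φ h, EventuallyEq.rfl⟩) f (h2 hf.1) hf.2.1 (ε ^ 2) (by positivity)
  obtain ⟨K, hK, D, hD, rfl⟩ := span a X hL hφ
  refine ⟨K, hK.le, D, hD, ?_⟩
  have h3 : Integrable (fun x => ‖f x - K * D x‖ ^ 2) X.μ :=
    ((h2 hf.1).sub ((h2 hD.1).const_mul (K : ℂ))).norm.integrable_sq
  calc _ ≤ ∫ x, (ε / 2 + (2 * ε)⁻¹ * ‖f x - K * D x‖ ^ 2) ∂X.μ := by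
        refine integral_mono (intg hf.1 hD.1 K) ((integrable_const _).add (h3.const_mul _))
          fun x => ?_
        have h4 := mul_nonneg (inv_pos.2 (mul_pos two_pos hε)).le
          (sq_nonneg (‖f x - K * D x‖ - ε))
        have h5 : (2 * ε)⁻¹ * (‖f x - K * D x‖ - ε) ^ 2 =
            ε / 2 + (2 * ε)⁻¹ * ‖f x - K * D x‖ ^ 2 - ‖f x - K * D x‖ := by
          field_simp
          ring
        simp only
        linarith
    _ = ε / 2 + (2 * ε)⁻¹ * ∫ x, ‖f x - K * D x‖ ^ 2 ∂X.μ := by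
        rw [integral_add (integrable_const _) (h3.const_mul _), integral_const_mul]
        simp
    _ ≤ ε / 2 + (2 * ε)⁻¹ * ε ^ 2 := by gcongr
    _ = ε := by field_simp; ring

end ZFa

open ZFa in
theorem zf : ZFR := by
  intro F q a m
  have fac : ∀ (X : Sy) L, Fac X (ZL X L) := fun X L =>
    ⟨sup_le (gen_le X L) (F.a.nul_le _), le_sup_right,
      fun n => comap_le (X.mp n) fun D hD => a.tz X L D n hD⟩
  refine ⟨fac, dd, fun X L => dd X L _ (a.one X L),
    fun X L f g hf hg => ⟨hf.1.mul hg.1, hf.2.mul hg.2⟩, fun X L f hf => ⟨hf.1.cj, hf.2.conj⟩,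
    fun X L f v hf => ⟨(act X).tz hf.1 v, F.t.bm X _ v f (fac X L) hf.2⟩,
    fun X u L c hc => dd X _ _ (a.inv X u L c hc), fun X' X p L f hp hf => ?_,
    fun X L g hg h => ?_, fun X L f k hL hf => ⟨fun G hG => (q.der X f k G hf.1 hG).1, ?_⟩⟩
  · refine ⟨⟨hf.1.1.comp hp.mp.measurable, hf.1.2.comp _⟩,
      (F.a.bm_comp _ X'.μ X.μ p f hp.mp hf.2).mono (sup_le ?_ le_sup_right)⟩
    exact comap_le hp.mp fun D hD => a.pb X' X p L D hp hD
  · exact F.d.perp X.μ (DD X L) bdd ⟨_, a.one X L, EventuallyEq.rfl⟩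
      (fun φ h φ' h' => ⟨_, m X L φ φ' h h', EventuallyEq.rfl⟩)
      (fun φ h => ⟨_, a.cj X L φ h, EventuallyEq.rfl⟩) g (hg.integrable X.μ) h
  · induction k with
    | zero =>
      intro ε hε
      obtain ⟨K, hK, D, hD, h⟩ := apx F a m X hL hf hε
      refine ⟨K, hK, ?_⟩
      rintro _ ⟨v, rfl⟩
      exact ⟨_, a.tz X L D v hD, (shift hf.1 hD.1 K v).trans_le h⟩
    | succ k ih =>
      intro ε hε
      obtain ⟨K, hK, h1⟩ := ih (ε / 2) (by positivity)
      obtain ⟨K', hK', h2⟩ := ih (ε / 2 / (K + 1)) (by positivity)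
      refine ⟨K * K', mul_nonneg hK hK', ?_⟩
      rintro _ ⟨v, G, hG, rfl⟩
      obtain ⟨D, hD, e1⟩ := h1 G hG
      obtain ⟨D', hD', e2⟩ := h2 G hG
      have mG := (q.der X f k G hf.1 hG).1
      have mD := m X L _ _ (a.tz X L D v hD) (a.cj X L D' hD')
      refine ⟨_, mD, ?_⟩
      have i1 := intg ((act X).tz mG v) ((act X).tz hD.1 v) K
      have i2 := (intg mG hD'.1 K').const_mul K
      calc _ ≤ ∫ x, (‖G (X.A v x) - K * D (X.A v x)‖ + K * ‖G x - K' * D' x‖) ∂X.μ := by
            refine integral_mono (intg ((act X).dd mG v) mD.1 _) (i1.add i2) fun x => ?_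
            have e : ddX X.A v G x - ((K * K' : ℝ) : ℂ) * (D (X.A v x) * conj (D' x)) =
                (G (X.A v x) - K * D (X.A v x)) * conj (G x) +
                  K * (D (X.A v x) * conj (G x - K' * D' x)) := by
              simp only [ddX, map_sub, map_mul, Complex.conj_ofReal]
              push_cast
              ring
            simp only
            rw [e]
            refine (norm_add_le _ _).trans (add_le_add ?_ ?_)
            · rw [norm_mul, Complex.norm_conj]
              exact mul_le_of_le_one_right (norm_nonneg _) (mG.2 x)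
            · rw [norm_mul, norm_mul, Complex.norm_conj, Complex.norm_real, Real.norm_of_nonneg hK]
              exact mul_le_mul_of_nonneg_left
                (mul_le_of_le_one_left (norm_nonneg _) (hD.1.2 _)) hK
        _ ≤ ε / 2 + K * (ε / 2 / (K + 1)) := by
            rw [integral_add i1 i2, integral_const_mul, shift mG hD.1]
            gcongr
        _ ≤ ε := by
            have : K * (ε / 2 / (K + 1)) ≤ ε / 2 := by
              rw [← mul_div_assoc, div_le_iff₀ (by positivity)]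
              nlinarith
            linarith

end T6

end
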