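import Pool.Agent.MP_154433_an.t6.Spec
import Pool.Agent.MP_154433_an.t3s.Zero

/-! A function orthogonal to all dual functions has small box averages. -/

set_option autoImplicit false
set_option linter.unusedVariables false
set_option warn.classDefReducibility false

open MeasureTheory ProbabilityTheory Filter Topology Function
open scoped BigOperators ComplexConjugate

noncomputable section

namespace T6

open Pool.Agent.MP_154433_an hiding BM
open T3S (B1 MB1)
open T4x (Fac Fd)

open T3S.Zero in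
theorem zero : ZeroR := by
  intro F0 h1 da h2 X L g hg h0 ε hε
  by_contra hn
  push Not at hn
  obtain ⟨F, hF⟩ := h1 (Lp ℂ 2 X.μ)
    (fun H0 => {F | ∃ u ∈ CX X L H0, ε ≤ (∫ x, g x * u x ∂X.μ).re ∧ F =ᵐ[X.μ] u}) 1
    (fun H0 H1 hH F ⟨u, hu, h⟩ => ⟨u, da.anti X L H0 H1 hH hu, h⟩)
    (fun H0 => by
      obtain ⟨β, hβ, e⟩ := h2 X X.ms L (H0 + 1) g (F0.t.top X) hg hg.1
      have hu : blk X L.get (H0 + 1) β ∈ CX X L H0 :=
        subset_convexHull ℝ _ ⟨H0 + 1, β, Nat.le_succ _, fun i τ => (hβ i τ).1, rfl⟩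
      have m := da.cx X L H0 _ hu
      exact ⟨(MemLp.of_bound m.1.aestronglyMeasurable 1 (Eventually.of_forall m.2)).toLp _, _,
        hu, e ▸ (hn _ (Nat.le_add_left _ _)).le, MemLp.coeFn_toLp _⟩)
    (fun H0 F ⟨u, hu, e1, e2⟩ F' ⟨u', hu', e1', e2'⟩ a c ha hc hac => by
      refine ⟨a • u + c • u', convex_convexHull ℝ _ hu hu' ha hc hac, ?_, ?_⟩
      · have e : ∀ x, g x * (a • u + c • u') x = a * (g x * u x) + c * (g x * u' x) := fun x => by
          simp only [Pi.add_apply, Pi.smul_apply, Complex.real_smul]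
          ring
        simp only [e]
        rw [integral_add (((hg.mul (da.cx X L H0 _ hu)).integrable X.μ).const_mul _)
          (((hg.mul (da.cx X L H0 _ hu')).integrable X.μ).const_mul _), integral_const_mul,
          integral_const_mul, Complex.add_re, Complex.re_ofReal_mul, Complex.re_ofReal_mul]
        have := mul_le_mul_of_nonneg_left e1 ha
        have := mul_le_mul_of_nonneg_left e1' hc
        calc ε = a * ε + c * ε := by rw [← add_mul, hac, one_mul]
          _ ≤ _ := by linarith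
      · filter_upwards [Lp.coeFn_add (a • F) (c • F'), Lp.coeFn_smul a F, Lp.coeFn_smul c F', e2, e2']
          with x p1 p2 p3 p4 p5
        simp only [p1, Pi.add_apply, p2, p3, Pi.smul_apply, p4, p5])
    (fun H0 F ⟨u, hu, _, e⟩ => by
      have := Lp.norm_le_of_ae_bound (f := F) zero_le_one (by
        filter_upwards [e] with x h
        rw [h]
        exact (da.cx X L H0 _ hu).2 x)
      simpa [measureUnivNNReal] using this)
  have key : ∀ H0 δ, 0 < δ → ∃ u ∈ CX X L H0, ε ≤ (∫ x, g x * u x ∂X.μ).re ∧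
      ∫ x, ‖clip (F x) - u x‖ ∂X.μ ≤ δ := fun H0 δ hδ => by
    obtain ⟨F', ⟨u, hu, e1, e2⟩, hd⟩ := Metric.mem_closure_iff.1 (hF H0) (δ / 2) (half_pos hδ)
    exact ⟨u, hu, e1, (close F F' (da.cx X L H0 _ hu) e2).trans (by linarith)⟩
  have m : MB X fun x => clip (F x) :=
    ⟨clip_meas.comp (Lp.stronglyMeasurable F).measurable, fun x => norm_clip _⟩
  have z := h0 _ ⟨m, fun H0 δ hδ => (key H0 δ hδ).imp fun u h => ⟨h.1, h.2.2⟩⟩
  obtain ⟨u, hu, e1, e2⟩ := key 0 (ε / 2) (half_pos hε)
  have mu := da.cx X L 0 _ hu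
  have e3 : ‖∫ x, g x * clip (F x) - g x * u x ∂X.μ‖ ≤ ∫ x, ‖clip (F x) - u x‖ ∂X.μ :=
    norm_integral_le_of_norm_le ((m.integrable X.μ).sub (mu.integrable X.μ)).norm
      (Eventually.of_forall fun x => by
        rw [← mul_sub, norm_mul]
        exact mul_le_of_le_one_left (norm_nonneg _) (hg.2 x))
  rw [integral_sub ((hg.mul m).integrable X.μ) ((hg.mul mu).integrable X.μ), z, zero_sub,
    norm_neg] at e3
  linarith [Complex.re_le_norm (∫ x, g x * u x ∂X.μ)]

end T6

end
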