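import Pool.Agent.MP_154433_an.t6.Old
import Pool.Agent.MP_154433_an.t6.VB
import Pool.Agent.MP_154433_an.t6.QB
import Pool.Agent.MP_154433_an.t6.Scale
import Pool.Agent.MP_154433_an.t6.DA
import Pool.Agent.MP_154433_an.t6.DM
import Pool.Agent.MP_154433_an.t6.ZF
import Pool.Agent.MP_154433_an.t6.GcsB
import Pool.Agent.MP_154433_an.t6.GcsD
import Pool.Agent.MP_154433_an.t6.Link
import Pool.Agent.MP_154433_an.t6.Zero
import Pool.Agent.MP_154433_an.t6.Mono
import Pool.Agent.MP_154433_an.t6.NB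
import Pool.Agent.MP_154433_an.t6.NulInv
import Pool.Agent.MP_154433_an.t6.Conc
import Pool.Agent.MP_154433_an.t6.Kill
import Pool.Agent.MP_154433_an.t6.Wie
import Pool.Agent.MP_154433_an.t6.MXa
import Pool.Agent.MP_154433_an.t6.MXb
import Pool.Agent.MP_154433_an.t6.C1
import Pool.Agent.MP_154433_an.t6.C2
import Pool.Agent.MP_154433_an.t6.PL
import Pool.Agent.MP_154433_an.t6.V12
import Pool.Agent.MP_154433_an.t6.LiftA
import Pool.Agent.MP_154433_an.t6.LiftB
import Pool.Agent.MP_154433_an.t6.Lb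
import Pool.Agent.MP_154433_an.t6.Cl
import Pool.Agent.MP_154433_an.t6.Int
import Pool.Agent.MP_154433_an.t6.G3
import Pool.Agent.MP_154433_an.t6.G4
import Pool.Agent.MP_154433_an.t6.G5
import Pool.Agent.MP_154433_an.t6.Key
import Pool.Agent.MP_154433_an.t6.G0
import Pool.Agent.MP_154433_an.t6.Own
import Pool.Agent.MP_154433_an.t6.For
import Pool.Agent.MP_154433_an.t6.Hull
import Pool.Agent.MP_154433_an.t6.Top
import Pool.Agent.MP_154433_an.t6.Sq
import Pool.Agent.MP_154433_an.t6.St
import Pool.Agent.MP_154433_an.t6.Near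
import Pool.Agent.MP_154433_an.t6.End

/-! All rows. -/

set_option autoImplicit false

namespace T6

theorem rows : Rows :=
  ⟨vb, qb, scale, da, dm, zf, gcsB, gcsD, link, zero, mono, nb, nulInv, conc, kill, wie, mxa, mxb,
    c1, c2, pl, v1, v2, liftA, liftB, lb, cl, intr, g3, g4, g5, key, g0, own, forr, hullr, topr, sq,
    st, near, endr⟩

theorem mainAll : MainS := mainOf rows old

end T6
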