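import Pool.Agent.MP_154433_an.t6.Spec
import Pool.Agent.MP_154433_an.t3s.Asm

/-! Assembly of the rows. -/

set_option autoImplicit false
set_option linter.unusedVariables false
set_option warn.classDefReducibility false

open MeasureTheory ProbabilityTheory Filter Topology Function
open scoped BigOperators ComplexConjugate

noncomputable section

namespace T6

open Pool.Agent.MP_154433_an hiding BM
open T3S (B1 MB1 PW AsInv Erg Bd Near Gr yw nu nb)
open T4S (Gm Spr)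
open T4x (Fd Nice)

/-- all rows of the deterministic part -/
structure Rows : Prop where
  vb : VBR
  qb : QBR
  scale : ScaleR
  da : DAR
  dm : DMR
  zf : ZFR
  gcsB : GcsBR
  gcsD : GcsDR
  link : LinkR
  zero : ZeroR
  mono : MonoR
  nb : NBR
  nulInv : NulInvR
  conc : ConcR
  kill : KillR
  wie : WieR
  mxa : MXaR
  mxb : MXbR
  c1 : C1R
  c2 : C2R
  pl : PLR
  v1 : V1R
  v2 : V2R
  liftA : LiftAR
  liftB : LiftBR
  lb : LbR
  cl : ClR
  intr : IntR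
  g3 : G3R
  g4 : G4R
  g5 : G5R
  key : KeyR
  g0 : G0R
  own : OwnR
  forr : ForR
  hullr : HullR
  topr : TopR
  sq : SqR
  st : StR
  near : NearR
  endr : EndR

/-- what is taken from the earlier directories -/
structure Old : Prop where
  fd : Fd
  gf : T4x.Gf
  top : T4x.TopS
  perm : T4S.PermS
  gvn : T4S.GvnS
  act : T4S.ActS
  endr : T4S.EndS
  cls : T4S.ClsS
  spr : T4S.SprS
  shift : T3S.ShiftS
  nest : T3S.NestS
  apx : T3S.ApxS
  vdc : T3S.VdcS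
  ub : T3S.UbS
  ae : T3S.AeS
  nrm : T3S.NormS
  erg : T3S.ErgS
  cov : CovZ

theorem detOf (R : Rows) (O : Old) {ν ν' : ℕ → ℕ → ℝ} (h1 : PW ν) (h2 : PW ν') (e1 : Erg ν)
    (e2 : Erg ν') (s1 : Spr ν) (s2 : Spr ν') (hi : AsInv ν') (hu : UWW (df ν ν'))
    (hq : SQ (df ν ν')) (hs : StL (df ν ν')) (X : Sy) (f g : X.X → ℂ) (hf : MB X f)
    (hg : MB X g) : Vn X (rr 0) (rr 1) (df ν ν') f g := by
  have F := O.fd
  have vb := R.vb F
  have qb := R.qb O.perm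
  have sc := R.scale O.perm qb
  have da := R.da F
  have zf := R.zf F qb da (R.dm O.shift da)
  have gb := R.gcsB qb
  have gd := R.gcsD O.shift qb da gb
  have lk := R.link F
  have mo := R.mono F vb qb lk gb
  have nb := R.nb F vb qb da zf gd (R.zero F O.nest da lk) mo
  have ni := R.nulInv F O.perm qb sc
  have cc := R.conc F vb qb zf gd mo ni
  have ki := R.kill vb qb da zf gd
  have wi := R.wie O.apx
  have m2 : MX ν' := R.mxa O.vdc O.gvn qb ν' h2 hi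
  have m1 : MX ν := R.mxb ν ν' m2 hu
  have bd : Bd (df ν ν') := T3S.Asm.bd_sub h1 h2
  have hy : Hy ν ν' :=
    ⟨bd, R.v1 vb qb zf ki ν h1 (R.c1 vb qb da wi ν h1 m1),
      R.v1 vb qb zf ki ν' h2 (R.c1 vb qb da wi ν' h2 m2),
      R.v2 vb qb zf ki ν h1 (R.c2 vb qb da wi ν ν' h1 h2 hi m1 hq),
      R.v2 vb qb zf ki ν' h2 (R.c2 vb qb da wi ν' ν' h2 h2 hi m2 (R.near.sq0 ν')),
      R.pl vb qb da zf _ bd hs⟩
  have la := R.liftA F
  have lb := R.liftB F vb la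
  have lt := R.lb F vb qb ni
  have cl := R.cl F vb zf
  have g3 := R.g3 F vb zf nb (R.intr F vb zf nb cc)
  have g5 := R.g5 F vb zf nb la lb lt cl (R.g4 F vb zf nb cc la lb lt cl g3)
  have ky := R.key F vb
  have g0 := R.g0 O.gvn vb qb mo
  refine R.topr F O.gf O.top vb ν ν' h1 h2 e1 e2 s1 s2 (fun Y hY => ?_) X f g hf hg
  obtain ⟨B, hB⟩ := g5 ν ν' hy _ _ R.near.tw.1 Y hY
  obtain ⟨B', hB'⟩ := g5 ν ν' hy _ _ R.near.tw.2 Y hY
  exact R.hullr F vb (R.own F vb ky g0) (R.forr F vb ky g0) ν ν' h1 h2 hi Y B B' hY hB hB'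

theorem mainOf (R : Rows) (O : Old) : MainS := by
  intro σ hσ ha hg hU Ω _ P _ E hE hind hP
  have h0 : ∀ n, 0 ≤ σ n := fun n => (hσ n).1
  have hg1 := R.near.gr σ h0 hg
  have hW := T3S.Asm.wt_tendsto h0 hg1
  filter_upwards [hU Ω P E hE hind hP, R.sq O.ub (R.wie O.apx) σ hσ hg Ω P E hE hind hP,
    R.st O.ub O.apx O.cov σ hσ hg1 Ω P E hE hind hP, O.ae σ hσ Ω P E hE hind hP hg1,
    O.cls σ hσ Ω P E hE hind hP hg1] with ω u1 u2 u3 u4 u5 X _ μ _ T f hT hC hf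
  obtain ⟨a1, a2, a3, a4, a5⟩ := O.nrm.1 σ _ h0 hW u4.1
  have hi := O.nrm.2.2.2 σ h0 ha hW
  have e2 : Erg (nb σ) := O.erg.1 _ a2 hi
  have e1 : Erg (nu fun m => ω ∈ E m) := O.erg.2 _ _ e2 (O.nrm.2.1 _ _ a4 u4.1)
  obtain ⟨s1, s2⟩ := O.spr _ _ _ a2 hi a4 u5
  have a4' : Near (yw σ fun m => ω ∈ E m) (df (nu fun m => ω ∈ E m) (nb σ)) := by
    refine a4.congr fun M => Finset.sum_congr rfl fun d _ => abs_sub_comm _ _
  refine O.endr σ _ h0 ha hW a5 2 X μ T hT hC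
    (R.endr O.act _ (fun Y f g hf hg => ?_) a3 X μ T hT hC) f hf
  exact (R.vb O.fd).near Y _ _ _ _ f g a4' hf hg
    (detOf R O a1 a2 e1 e2 s1 s2 hi (R.near.uw _ _ a4 u1) (R.near.sq _ _ a4 u2)
      (R.near.st _ _ a4 u3) Y f g hf hg)

end T6

end
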