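import Pool.Agent.MP_154433_an.t6.Grw
import Pool.Agent.MP_154433_an.t5.SpecU

/-! The hypothesis on twisted averages from the statement for one map. -/

set_option autoImplicit false
set_option linter.unusedVariables false

open MeasureTheory ProbabilityTheory Filter Topology Finset

noncomputable section

namespace T6

open Pool.Agent.MP_154433_an hiding BM
open T3S (Gr yw)

theorem uww_of (t : T4x.BasT) {y : ℕ → ℕ → ℝ} (h : T5u.UWy y) : UWW y := by
  intro X u g b hg hb
  have := h (X.res u) g b ⟨hg.1.aestronglyMeasurable, 1, Eventually.of_forall hg.2⟩ hb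
  simp only [t.res] at this
  exact this

/-- the main statement in the range `n σ n / log n → ∞` -/
def MainL : Prop := ∀ σ : ℕ → ℝ, (∀ n, 0 ≤ σ n ∧ σ n ≤ 1) → Antitone σ →
  Tendsto (fun n : ℕ => (n : ℝ) * σ n / Real.log n) atTop atTop →
  ∀ (Ω : Type) [MeasurableSpace Ω] (P : Measure Ω) [IsProbabilityMeasure P]
    (E : ℕ → Set Ω), (∀ n, MeasurableSet (E n)) → iIndepSet E P →
    (∀ n, P (E n) = ENNReal.ofReal (σ n)) →
  ∀ᵐ ω ∂P, ∀ (X : Type) [MeasurableSpace X] (μ : Measure X) [IsProbabilityMeasure μ]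
    (T : Fin 2 → X ≃ᵐ X) (f : Fin 2 → X → ℝ),
    (∀ i, MeasurePreserving (⇑(T i)) μ μ) → (∀ i j, Function.Commute ⇑(T i) ⇑(T j)) →
    (∀ i, MemLp (f i) ⊤ μ) → T4S.Concl (fun m => ω ∈ E m) μ T f

theorem mainL_of (t : T4x.BasT) (h6 : MainS) (h5 : T5u.MainU) : MainL := fun σ hσ ha hg =>
  h6 σ hσ ha (gr_two (fun n => (hσ n).1) hg) fun Ω _ P _ E hE hi hP =>
    (h5 σ hσ ha hg Ω P E hE hi hP).mono fun ω hω => uww_of t hω

end T6

end
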