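import Pool.Agent.MP_154433_an.t6.Grw
import Pool.Agent.MP_154433_an.t7w.Defs

/-! The hypothesis on twisted averages from the statement on sequences. -/

set_option autoImplicit false
set_option linter.unusedVariables false

open MeasureTheory ProbabilityTheory Filter Topology Finset

noncomputable section

namespace T6

open Pool.Agent.MP_154433_an hiding BM
open T3S (Gr yw)

namespace Br7

lemma meas_ee {Ω : Type} [MeasurableSpace Ω] {b : Ω → ℝ} (hb : Measurable b) (d : ℝ) :
    Measurable fun x => ee (d * b x) := by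
  unfold ee
  exact Complex.measurable_exp.comp
    ((Complex.measurable_ofReal.comp ((hb.const_mul d).const_mul _)).mul_const _)

lemma norm_ee (t : ℝ) : ‖ee t‖ = 1 := Complex.norm_exp_ofReal_mul_I _

end Br7

open Br7 in
theorem uww_of_seq {w : ℕ → ℕ → ℝ} (h : T7W.UWZ w) : UWW w := by
  intro X u g b hg hb
  have hA := act X
  let Φ : ℕ → X.X → ℝ := fun M x => ‖∑ d ∈ range M,
    (w M d : ℂ) * (g (X.A ((d : ℤ) • u) x) * ee ((d : ℝ) * b M x))‖
  have hm : ∀ M, Measurable (Φ M) := fun M => by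
    refine Measurable.norm (Finset.measurable_sum _ fun d _ => Measurable.const_mul ?_ _)
    exact (hA.tz hg ((d : ℤ) • u)).1.mul (meas_ee (hb M) d)
  have hbd : ∀ M x, ‖Φ M x‖ ≤ ∑ d ∈ range M, |w M d| := fun M x => by
    rw [Real.norm_of_nonneg (norm_nonneg _)]
    refine (norm_sum_le _ _).trans (sum_le_sum fun d _ => ?_)
    rw [norm_mul, norm_mul, norm_ee, mul_one, Complex.norm_real, Real.norm_eq_abs]
    exact mul_le_of_le_one_right (abs_nonneg _) (hg.2 _)
  have hi : ∀ M (v : T4S.Gm 2), Integrable (fun x => Φ M (X.A v x)) X.μ := fun M v =>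
    Integrable.of_bound ((hm M).comp (hA.meas v)).aestronglyMeasurable _
      (Eventually.of_forall fun x => hbd M _)
  refine tendsto_order.2 ⟨fun a ha => Eventually.of_forall fun M =>
    ha.trans_le (integral_nonneg fun x => norm_nonneg _), fun ε hε => ?_⟩
  filter_upwards [h (ε / 2) (by positivity), eventually_ge_atTop 1] with M hM h1
  have hM' : (0 : ℝ) < M := by exact_mod_cast h1
  have e1 : (M : ℝ) * ∫ x, Φ M x ∂X.μ =
      ∫ x, ∑ n ∈ range M, Φ M (X.A ((n : ℤ) • u) x) ∂X.μ := by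
    rw [integral_finset_sum _ fun n _ => hi M _]
    simp only [hA.integral _ (hm M).aestronglyMeasurable, sum_const, card_range, nsmul_eq_mul]
  have e2 : ∫ x, ∑ n ∈ range M, Φ M (X.A ((n : ℤ) • u) x) ∂X.μ ≤ ε / 2 * M := by
    refine (integral_mono (integrable_finset_sum _ fun n _ => hi M _) (integrable_const (ε / 2 * M))
      fun x => ?_).trans (by simp)
    refine le_trans (le_of_eq (sum_congr rfl fun n _ => ?_))
      (hM (fun n => b M (X.A ((n : ℤ) • u) x)) (fun m => g (X.A ((m : ℤ) • u) x)) fun m => hg.2 _)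
    simp only [Φ]
    congr 1
    refine sum_congr rfl fun d _ => ?_
    rw [← hA.add, ← add_smul, mul_assoc, Nat.cast_add, add_comm (d : ℤ)]
    rfl
  have e3 : ∫ x, Φ M x ∂X.μ ≤ ε / 2 := by
    refine le_of_mul_le_mul_left ?_ hM'
    rw [e1, mul_comm]
    exact e2
  exact e3.trans_lt (by linarith)

/-- the main statement in the polynomial range -/
def MainP : Prop := ∀ σ : ℕ → ℝ, (∀ n, 0 ≤ σ n ∧ σ n ≤ 1) → Antitone σ → T7W.Poly σ →
  ∀ (Ω : Type) [MeasurableSpace Ω] (P : Measure Ω) [IsProbabilityMeasure P]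
    (E : ℕ → Set Ω), (∀ n, MeasurableSet (E n)) → iIndepSet E P →
    (∀ n, P (E n) = ENNReal.ofReal (σ n)) →
  ∀ᵐ ω ∂P, ∀ (X : Type) [MeasurableSpace X] (μ : Measure X) [IsProbabilityMeasure μ]
    (T : Fin 2 → X ≃ᵐ X) (f : Fin 2 → X → ℝ),
    (∀ i, MeasurePreserving (⇑(T i)) μ μ) → (∀ i j, Function.Commute ⇑(T i) ⇑(T j)) →
    (∀ i, MemLp (f i) ⊤ μ) → T4S.Concl (fun m => ω ∈ E m) μ T f

theorem mainP_of (h6 : MainS) (h7 : T7W.MainS) : MainP := fun σ hσ ha hg =>
  h6 σ hσ ha (hg.elim fun a h => gr_two (fun n => (hσ n).1) (poly_log (fun n => (hσ n).1) h.1 h.2))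
    fun Ω _ P _ E hE hi hP => (h7 σ hσ ha hg Ω P E hE hi hP).mono fun ω hω => uww_of_seq hω

end T6

end
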