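import Pool.Agent.MP_154433_an.t6.Spec

/-! Growth of the partial sums. -/

set_option autoImplicit false
set_option linter.unusedVariables false

open Filter Topology Finset

noncomputable section

namespace T6

open Pool.Agent.MP_154433_an hiding BM
open T3S (Gr Wt)

namespace Grw

lemma step (n : ℕ) (hn : 2 ≤ n) :
    Real.log ((n + 1 : ℕ) : ℝ) ^ 2 - Real.log n ^ 2 ≤ 3 * (Real.log n / n) := by
  have h2 : (2 : ℝ) ≤ n := by exact_mod_cast hn
  have hp : (0 : ℝ) < n := by linarith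
  have h0 : 0 ≤ Real.log n := Real.log_nonneg (by linarith)
  have h1 : Real.log ((n + 1 : ℕ) : ℝ) - Real.log n ≤ 1 / n := by
    rw [← Real.log_div (by positivity) hp.ne']
    refine (Real.log_le_sub_one_of_pos (by positivity)).trans (le_of_eq ?_)
    push_cast
    field_simp
    ring
  have h3 : Real.log ((n + 1 : ℕ) : ℝ) ≤ 2 * Real.log n := by
    have : Real.log ((n : ℝ) ^ 2) = 2 * Real.log n := by
      rw [Real.log_pow]
      norm_num
    rw [← this]
    refine Real.log_le_log (by positivity) ?_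
    push_cast
    nlinarith
  have h4 : Real.log n ≤ Real.log ((n + 1 : ℕ) : ℝ) :=
    Real.log_le_log hp (by push_cast; linarith)
  calc _ = (Real.log ((n + 1 : ℕ) : ℝ) - Real.log n) * (Real.log ((n + 1 : ℕ) : ℝ) + Real.log n) := by
        ring
    _ ≤ (1 / n) * (3 * Real.log n) :=
        mul_le_mul h1 (by linarith) (by linarith) (by positivity)
    _ = _ := by ring

lemma tele (a m : ℕ) (ha : 2 ≤ a) : Real.log ((a + m : ℕ) : ℝ) ^ 2 - Real.log a ^ 2 ≤
    3 * ∑ i ∈ range m, Real.log ((a + i : ℕ) : ℝ) / ((a + i : ℕ) : ℝ) := by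
  induction m with
  | zero => simp
  | succ m ih =>
    have := step (a + m) (by omega)
    rw [sum_range_succ, ← add_assoc]
    linarith

end Grw

theorem gr_two {σ : ℕ → ℝ} (h0 : ∀ n, 0 ≤ σ n)
    (h : Tendsto (fun n : ℕ => (n : ℝ) * σ n / Real.log n) atTop atTop) : Gr σ 2 := by
  refine tendsto_atTop.2 fun A => ?_
  obtain ⟨a0, ha⟩ := eventually_atTop.1 (tendsto_atTop.1 h (6 * |A|))
  obtain ⟨a, h2, h3⟩ : ∃ a, 2 ≤ a ∧ a0 ≤ a := ⟨max 2 a0, le_max_left _ _, le_max_right _ _⟩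
  have hl : Tendsto (fun M : ℕ => Real.log M) atTop atTop :=
    Real.tendsto_log_atTop.comp tendsto_natCast_atTop_atTop
  have la : 0 ≤ Real.log a := Real.log_natCast_nonneg a
  filter_upwards [eventually_ge_atTop a, hl.eventually_gt_atTop 0,
    hl.eventually_ge_atTop (2 * Real.log a)] with M h4 h5 h6
  obtain ⟨m, rfl⟩ := Nat.exists_eq_add_of_le h4
  rw [le_div_iff₀ (by positivity)]
  have e1 := Grw.tele a m h2
  have e2 : ∑ i ∈ range m, 6 * |A| * (Real.log ((a + i : ℕ) : ℝ) / ((a + i : ℕ) : ℝ)) ≤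
      Wt σ (a + m) := by
    rw [Wt, sum_range_add]
    refine le_add_of_nonneg_of_le (sum_nonneg fun i _ => h0 i) (sum_le_sum fun i _ => ?_)
    have hp : (1 : ℝ) < ((a + i : ℕ) : ℝ) := by exact_mod_cast (by omega : 1 < a + i)
    have := ha (a + i) (by omega)
    rw [le_div_iff₀ (Real.log_pos hp)] at this
    rw [← mul_div_assoc, div_le_iff₀ (by linarith)]
    linarith
  rw [← mul_sum] at e2
  have e4 := le_abs_self A
  have e5 := abs_nonneg A
  have e6 : Real.log a ^ 2 ≤ Real.log ((a + m : ℕ) : ℝ) ^ 2 / 4 := by nlinarith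
  have e7 := mul_le_mul_of_nonneg_left e1 (show 0 ≤ 2 * |A| by positivity)
  have e8 := mul_le_mul_of_nonneg_left e6 e5
  have e9 := mul_le_mul_of_nonneg_right e4 (sq_nonneg (Real.log ((a + m : ℕ) : ℝ)))
  have e10 := mul_nonneg e5 (sq_nonneg (Real.log ((a + m : ℕ) : ℝ)))
  nlinarith

theorem poly_log {σ : ℕ → ℝ} (h0 : ∀ n, 0 ≤ σ n) {a : ℝ} (ha : a < 1)
    (h : Tendsto (fun n : ℕ => (n : ℝ) ^ a * σ n) atTop atTop) :
    Tendsto (fun n : ℕ => (n : ℝ) * σ n / Real.log n) atTop atTop := by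
  refine tendsto_atTop_mono' _ ?_ h
  have hs : 0 < 1 - a := by linarith
  have h1 := ((isLittleO_log_rpow_atTop hs).bound one_pos)
  filter_upwards [tendsto_natCast_atTop_atTop.eventually h1, eventually_ge_atTop 2] with n h2 hn
  have hp : (1 : ℝ) < n := by exact_mod_cast (by omega : 1 < n)
  have hl := Real.log_pos hp
  rw [Real.norm_of_nonneg hl.le, Real.norm_of_nonneg (by positivity), one_mul] at h2
  rw [le_div_iff₀ hl]
  have e : (n : ℝ) = (n : ℝ) ^ a * (n : ℝ) ^ (1 - a) := by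
    rw [← Real.rpow_add (by linarith)]
    simp
  calc (n : ℝ) ^ a * σ n * Real.log n ≤ (n : ℝ) ^ a * σ n * (n : ℝ) ^ (1 - a) :=
        mul_le_mul_of_nonneg_left h2 (mul_nonneg (by positivity) (h0 n))
    _ = (n : ℝ) ^ a * (n : ℝ) ^ (1 - a) * σ n := by ring
    _ = _ := by rw [← e]

end T6

end
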