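import Pool.Agent.MP_154433_an.t6.Spec

/-! The twisted square over the invariant factor. -/

set_option autoImplicit false
set_option linter.unusedVariables false
set_option warn.classDefReducibility false

open MeasureTheory ProbabilityTheory Filter Topology Function
open scoped BigOperators ComplexConjugate

noncomputable section

namespace T6

open Pool.Agent.MP_154433_an hiding BM
open T3S (B1 MB1)
open T4S (Gm Act ddX QX ln)
open Fib27 (BM)
open T3x (nul pull KEq)
open T4x (Fac Emb Inv Nice Fd IsRP)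

namespace Lb

/-- the same space with the action read through a homomorphism -/
@[reducible] def sys (X : Sy) (φ : Gm 2 →+ Gm 2) (b : Bool) : Sy :=
  { X := X.X, μ := X.μ, Tz := fun v => X.A (cond b φ (AddMonoidHom.id _) v)
    mp := fun v => X.mp _
    zero := fun x => by rw [map_zero]; exact X.zero x
    add := fun n m x => by rw [map_add]; exact X.add _ _ x }

lemma bm {X : Sy} {g : X.X → ℂ} (hg : MB X g) : BM X.μ X.ms g :=
  ⟨hg.1.aestronglyMeasurable, 1, Eventually.of_forall hg.2⟩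

lemma eqv (F : Fd) {Z Y : Sy} {p : Z.X → Y.X} (h : Emb Z Y p) (v : Gm 2) {f : Y.X → ℂ}
    (hf : MB Y f) : (fun z => f (p (Z.A v z))) =ᵐ[Z.μ] fun z => f (Y.A v (p z)) :=
  F.a.keq_fun Y.ms Z.μ Y.μ (p ∘ Z.Tz v) (Y.Tz v ∘ p) f (h.mp.comp (Z.mp v)) ((Y.mp v).comp h.mp)
    (h.eqv v) hf.1.aestronglyMeasurable

lemma zinv (X : Sy) (u : Gm 2) (A : Set X.X) (h : X.A u ⁻¹' A =ᵐ[X.μ] A) (k : ℤ) :
    X.A (k • u) ⁻¹' A =ᵐ[X.μ] A := by
  have key : ∀ k : ℤ, X.A ((k + 1) • u) ⁻¹' A =ᵐ[X.μ] X.A (k • u) ⁻¹' A := fun k => by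
    have e : X.A ((k + 1) • u) ⁻¹' A = X.A (k • u) ⁻¹' (X.A u ⁻¹' A) := by
      ext x
      rw [Set.mem_preimage, Set.mem_preimage, Set.mem_preimage, ← (act X).add, add_smul, one_smul,
        add_comm]
    rw [e]
    exact ((act X).mp _).quasiMeasurePreserving.preimage_ae_eq h
  induction k using Int.induction_on with
  | zero =>
    have e : X.A ((0 : ℤ) • u) ⁻¹' A = A := by
      ext x
      rw [Set.mem_preimage, zero_smul, (act X).zero]
    rw [e]
  | succ k ih => exact (key k).trans ih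
  | pred k ih =>
    have := key (-(k : ℤ) - 1)
    rw [sub_add_cancel] at this
    exact this.symm.trans ih

lemma base (F : Fd) {X Z : Sy} {φ : Gm 2 →+ Gm 2} (u : Gm 2) {p : Bool → Z.X → X.X}
    (h : IsRP (sys X φ) X (Inv X {u}) (fun _ => id) false Z p) {g : X.X → ℂ} (hg : MB X g) :
    (∫ z, g (p false z) * conj (g (p true z)) ∂Z.μ).re =
      ∫ x, ‖(X.μ[g | Inv X {u}]) x‖ ^ 2 ∂X.μ := by
  have hD := F.t.finv X {u}
  have m0 : MeasurePreserving (p false) Z.μ X.μ := (h.emb false).mp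
  have m1 : MeasurePreserving (p true) Z.μ X.μ := (h.emb true).mp
  have hp : pull X.μ id (Inv X {u}) = Inv X {u} := by
    rw [pull, MeasurableSpace.comap_id]
    exact sup_eq_left.2 hD.nl
  have h1 : Z.μ[fun z => ∏ i : Bool, (cond i (fun x => conj (g x)) g : X.X → ℂ) (p i z) |
      pull Z.μ (p false) (Inv X {u})] =ᵐ[Z.μ] fun z => ∏ i : Bool,
        (X.μ[(cond i (fun x => conj (g x)) g : X.X → ℂ) | pull X.μ id (Inv X {u})]) (p i z) :=
    h.ind Finset.univ (fun i => (cond i (fun x => conj (g x)) g : X.X → ℂ)) fun i _ => by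
      cases i
      · exact bm hg
      · exact bm (X := X) hg.cj
  simp only [Fintype.prod_bool, cond_true, cond_false, hp] at h1
  have h2 : (fun z => (X.μ[fun x => conj (g x) | Inv X {u}]) (p true z)) =ᵐ[Z.μ]
      fun z => (X.μ[fun x => conj (g x) | Inv X {u}]) (p false z) :=
    F.a.keq_fun (Inv X {u}) Z.μ X.μ _ _ _ m1 m0 (h.com true)
      stronglyMeasurable_condExp.aestronglyMeasurable
  have h3 : X.μ[fun x => conj (g x) | Inv X {u}] =ᵐ[X.μ] fun x => conj ((X.μ[g | Inv X {u}]) x) :=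
    ((Complex.conjCLE : ℂ →L[ℝ] ℂ).comp_condExp_comm (hg.integrable X.μ) (m := Inv X {u})).symm
  have h4 : ∫ z, g (p false z) * conj (g (p true z)) ∂Z.μ =
      ∫ z, ((‖(X.μ[g | Inv X {u}]) (p false z)‖ ^ 2 : ℝ) : ℂ) ∂Z.μ := by
    refine Eq.trans (by simp only [mul_comm]) ((integral_condExp
      (F.a.pull_le _ Z.μ X.μ _ m0 hD.le)).symm.trans (integral_congr_ae (h1.trans ?_)))
    filter_upwards [h2, m0.quasiMeasurePreserving.ae h3] with z a1 a2
    rw [a1, a2, Complex.conj_mul', Complex.ofReal_pow]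
  have hm : AEStronglyMeasurable (fun x => ‖(X.μ[g | Inv X {u}]) x‖ ^ 2) X.μ :=
    (stronglyMeasurable_condExp.mono hD.le).aestronglyMeasurable.norm.pow 2
  rw [h4, integral_complex_ofReal, Complex.ofReal_re, ← integral_map m0.measurable.aemeasurable
    (f := fun x => ‖(X.μ[g | Inv X {u}]) x‖ ^ 2) (by rwa [m0.map_eq]), m0.map_eq]

lemma step (F : Fd) (Q : QB) {X Z : Sy} {φ : Gm 2 →+ Gm 2} (u : Gm 2) {p : Bool → Z.X → X.X}
    (h : IsRP (sys X φ) X (Inv X {u}) (fun _ => id) false Z p) (H : ℕ) (L : List (Gm 2))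
    (hL : ∀ v ∈ L, φ v = v) {g : X.X → ℂ} (hg : MB X g) :
    QE Z L H (fun z => g (p false z) * conj (g (p true z))) =
      EL X H L (fun G _ => ∫ x, ‖(X.μ[G | Inv X {u}]) x‖ ^ 2 ∂X.μ) g g := by
  induction L generalizing g with
  | nil => exact base F u h hg
  | cons v L ih =>
    rw [QE, List.map_cons, T4S.QX_ln, EL]
    refine Finset.expect_congr rfl fun a _ => Finset.expect_congr rfl fun a' _ => ?_
    rw [← ih (fun w hw => hL w (List.mem_cons_of_mem _ hw)) ((act X).dd hg _)]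
    refine Q.congr Z L H _ _ ?_
    generalize ((a' : ℕ) : ℤ) - ((a : ℕ) : ℤ) = k
    have e : φ (k • v) = k • v := by rw [map_zsmul, hL v List.mem_cons_self]
    have b0 : (fun z => g (p false (Z.A (k • v) z))) =ᵐ[Z.μ] fun z => g (X.A (k • v) (p false z)) :=
      eqv F (h.emb false) (k • v) hg
    have b1 : (fun z => g (p true (Z.A (k • v) z))) =ᵐ[Z.μ]
        fun z => g (X.A (φ (k • v)) (p true z)) := eqv F (h.emb true) (k • v) hg
    rw [e] at b1
    filter_upwards [b0, b1] with z a0 a1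
    simp only [ddX, a0, a1, map_mul, Complex.conj_conj]
    ring

lemma keq (X : Sy) {u : Gm 2} {φ : Gm 2 →+ Gm 2} (hφ : Pj u φ) (n : Gm 2) :
    KEq X.μ (Inv X {u}) (X.A (φ n)) (X.A n) := by
  intro A hA
  obtain ⟨k, hk⟩ := hφ.2 n
  have h2 : X.A n ⁻¹' A = X.A (φ n) ⁻¹' (X.A (k • u) ⁻¹' A) := by
    ext x
    rw [Set.mem_preimage, Set.mem_preimage, Set.mem_preimage, ← (act X).add, add_comm, ← hk]
  rw [h2]
  exact (((act X).mp (φ n)).quasiMeasurePreserving.preimage_ae_eq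
    (zinv X u A (hA.2 u rfl) k)).symm

end Lb

theorem lb : LbR := by
  intro F V Q N X u φ hX hφ
  obtain ⟨Z, p, h⟩ := F.rp Bool (Lb.sys X φ) X (Inv X {u}) (fun _ => id) false (fun _ => hX)
    (F.t.finv X {u}) (fun _ => MeasurePreserving.id X.μ) (by
      rintro (_ | _) n
      · exact fun A hA => EventuallyEq.rfl
      · exact Lb.keq X hφ n)
  refine ⟨Z, p false, p true, h.nice, ⟨(h.emb false).mp, (h.emb false).eqv⟩, fun g hg => ⟨⟨?_, ?_⟩,
    fun L hL hN => N X u L g hg fun ε hε => ?_⟩⟩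
  · exact MB1.cj ⟨hg.1.comp (h.emb true).mp.measurable, fun z => hg.2 _⟩
  · have b1 : (fun z => g (p true (Z.A u z))) =ᵐ[Z.μ] fun z => g (X.A (φ u) (p true z)) :=
      Lb.eqv F (h.emb true) u hg
    filter_upwards [b1] with z a1
    rw [a1, hφ.1, (act X).zero]
  · obtain ⟨H, h1, h2⟩ := hN ε hε
    exact ⟨H, h1, (Lb.step F Q u h H L hL hg).symm.le.trans h2⟩

end T6

end
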