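import Pool.Agent.MP_154433_an.t6.Spec

/-! Null functions and the factors of dual functions. -/

set_option autoImplicit false
set_option linter.unusedVariables false
set_option warn.classDefReducibility false

open MeasureTheory ProbabilityTheory Filter Topology Function
open scoped BigOperators ComplexConjugate

noncomputable section

namespace T6

open Pool.Agent.MP_154433_an hiding BM
open T3S (B1 MB1 PW AsInv Erg Bd Near Gr yw dif CZ)
open T4S (Gm Act ddX QX ln Spr Concl)
open Fib27 (BM)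
open T3x (nul pull gen)
open T4x (Fac Emb Inv Nice Pair Star KK Fd)

namespace NB

lemma pl {Ω : Type} {m m0 : MeasurableSpace Ω} {μ : Measure Ω}
    [IsProbabilityMeasure μ] (hm : m ≤ m0) {f u : Ω → ℂ} (hf : MemLp f 2 μ) (hu : MemLp u 2 μ)
    (hum : AEStronglyMeasurable[m] u μ) :
    ∫ x, f x * u x ∂μ = ∫ x, (μ[f | m]) x * u x ∂μ := by
  have hi : Integrable (fun x => f x * u x) μ := hf.integrable_mul hu
  have h := condExp_bilin_of_aestronglyMeasurable_right (ContinuousLinearMap.mul ℝ ℂ) hum hi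
    (hf.integrable one_le_two)
  rw [← integral_condExp hm (f := fun x => f x * u x)]
  exact integral_congr_ae h

lemma m2 {X : Sy} {f : X.X → ℂ} (hf : MB X f) : MemLp f 2 X.μ :=
  MemLp.of_bound hf.1.aestronglyMeasurable 1 (ae_of_all _ hf.2)

lemma im {X : Sy} {f g : X.X → ℂ} (hf : MB X f) (hg : MB X g) :
    Integrable (fun x => f x * g x) X.μ := (m2 hf).integrable_mul (m2 hg)

lemma mcj {X : Sy} {f : X.X → ℂ} (hf : MB X f) : MB X fun x => conj (f x) :=
  ⟨Complex.continuous_conj.measurable.comp hf.1, fun x => by simpa using hf.2 x⟩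

lemma sq0 {X : Sy} {f : X.X → ℂ} (hf : MB X f) (h : ∫ x, f x * conj (f x) ∂X.μ = 0) :
    f =ᵐ[X.μ] 0 := by
  have h1 : ∫ x, ‖f x‖ ^ 2 ∂X.μ = 0 := by
    have h2 : ((∫ x, ‖f x‖ ^ 2 ∂X.μ : ℝ) : ℂ) = 0 := by
      rw [← integral_complex_ofReal, ← h]
      refine integral_congr_ae (ae_of_all _ fun x => ?_)
      simp [Complex.mul_conj, Complex.normSq_eq_norm_sq]
    exact_mod_cast h2
  have hi : Integrable (fun x => ‖f x‖ ^ 2) X.μ := (m2 hf).integrable_norm_pow two_ne_zero
  filter_upwards [(integral_eq_zero_iff_of_nonneg (fun x => sq_nonneg _) hi).1 h1] with x hx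
  simpa using hx

/-- a function with vanishing projection is orthogonal to the factor -/
lemma orth {X : Sy} {Y : MeasurableSpace X.X} (hY : Fac X Y) {g F : X.X → ℂ} (hg : MB X g)
    (hF : MB X F) (hm : AEStronglyMeasurable[Y] F X.μ) (h0 : X.μ[g | Y] =ᵐ[X.μ] 0) :
    ∫ x, g x * F x ∂X.μ = 0 := by
  rw [pl (m0 := X.ms) hY.le (m2 hg) (m2 hF) hm]
  refine integral_eq_zero_of_ae ?_
  filter_upwards [h0] with x hx
  simp [hx]

/-- the projection moves to the other factor of a product -/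
lemma move {X : Sy} {Y : MeasurableSpace X.X} (hY : Fac X Y) {g g' F F' : X.X → ℂ} (hg : MB X g)
    (hF : MB X F) (vg : Ver X Y g g') (vF : Ver X Y F F') :
    ∫ x, g x * F' x ∂X.μ = ∫ x, g' x * F x ∂X.μ := by
  have a1 : AEStronglyMeasurable[Y] F' X.μ :=
    stronglyMeasurable_condExp.aestronglyMeasurable.congr vF.2.symm
  have a2 : AEStronglyMeasurable[Y] g' X.μ :=
    stronglyMeasurable_condExp.aestronglyMeasurable.congr vg.2.symm
  have b1 := pl (m0 := X.ms) hY.le (m2 hg) (m2 vF.1) a1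
  have b2 := pl (m0 := X.ms) hY.le (m2 hF) (m2 vg.1) a2
  simp_rw [mul_comm (g' _)]
  rw [b1, b2]
  refine integral_congr_ae ?_
  filter_upwards [vg.2, vF.2] with x h1 h2
  rw [← h1, ← h2, mul_comm]

end NB

open NB

theorem nb : NBR := by
  intro _ vb qb _ zf gc ze mo
  have iff : ∀ X L g, L ≠ [] → MB X g → (Nul X L g ↔ X.μ[g | ZL X L] =ᵐ[X.μ] 0) := by
    intro X L g hL hg
    constructor
    · intro h
      refine zf.perp X L g hg fun D hD => ?_
      have h1 : ‖∫ x, g x * D x ∂X.μ‖ ^ 2 ^ L.length ≤ 0 := le_of_forall_pos_le_add fun ε hε => by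
        obtain ⟨H, hH, h2⟩ := h ε hε
        linarith [gc X L H g D hL hH hg hD]
      exact norm_eq_zero.1 (pow_eq_zero_iff (by positivity) |>.1
        (le_antisymm h1 (by positivity)))
    · intro h
      exact ze X L g hg fun D hD =>
        orth (zf.fac X L) hg (zf.dd X L D hD).1 (zf.dd X L D hD).2.1 h
  have perm : ∀ X (L L' : List (Gm 2)) g, L.Perm L' → Nul X L g → Nul X L' g := by
    intro X L L' g hp h ε hε
    obtain ⟨H, hH, h2⟩ := h ε hε
    exact ⟨H, hH, qb.perm X L L' H g hp ▸ h2⟩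
  have drop : ∀ X L L' g, L ≠ [] → MB X g → Nul X (L' ++ L) g → Nul X L g := by
    intro X L L' g _ hg
    induction L' with
    | nil => exact id
    | cons u L' ih =>
      intro h
      refine ih fun ε hε => ?_
      obtain ⟨H, hH, h2⟩ := h (ε ^ 2) (by positivity)
      exact ⟨H, hH, le_of_pow_le_pow_left₀ two_ne_zero hε.le
        ((qb.mono X u (L' ++ L) H g hH hg).trans h2)⟩
  have perp : ∀ X L F g, L ≠ [] → InZ X L F → MB X g → Nul X L g →
      ∫ x, g x * F x ∂X.μ = 0 := fun X L F g hL hF hg h =>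
    orth (zf.fac X L) hg hF.1 hF.2.1 ((iff X L g hL hg).1 h)
  have char : ∀ X L F, L ≠ [] → MB X F →
      (∀ g, MB X g → Nul X L g → ∫ x, g x * F x ∂X.μ = 0) → InZ X L F := by
    intro X L F hL hF h
    obtain ⟨F', v, mF⟩ := vb.ver X (ZL X L) F (zf.fac X L) hF
    obtain ⟨h1, h2⟩ := vb.half X (ZL X L) F F' (zf.fac X L) hF v
    have n1 := (iff X L _ hL h1).2 h2
    have n2 : Nul X L fun x => conj ((2⁻¹ : ℂ) * (F x - F' x)) := fun ε hε => by
      obtain ⟨H, hH, h3⟩ := n1 ε hε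
      exact ⟨H, hH, by rw [qb.cj X L H fun x => (2⁻¹ : ℂ) * (F x - F' x)]; exact h3⟩
    have z' : InZ X L F' := ⟨v.1, mF.aestronglyMeasurable, 1, ae_of_all _ v.1.2⟩
    have i1 := h _ (mcj h1) n2
    have i2 := perp X L F' _ hL z' (mcj h1) n2
    have i3 := sq0 h1 (by
      have e : ∀ x, (2⁻¹ : ℂ) * (F x - F' x) * conj ((2⁻¹ : ℂ) * (F x - F' x)) =
          2⁻¹ * (conj ((2⁻¹ : ℂ) * (F x - F' x)) * F x -
            conj ((2⁻¹ : ℂ) * (F x - F' x)) * F' x) := fun x => by ring
      simp_rw [e]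
      rw [integral_const_mul, integral_sub (im (mcj h1) hF) (im (mcj h1) v.1), i1, i2, sub_self, mul_zero])
    have i4 : F' =ᵐ[X.μ] F := by
      filter_upwards [i3] with x hx
      have h5 : (2⁻¹ : ℂ) * (F x - F' x) = 0 := hx
      rcases mul_eq_zero.1 h5 with h6 | h6
      · norm_num at h6
      · exact (sub_eq_zero.1 h6).symm
    exact ⟨hF, z'.2.1.congr i4, 1, ae_of_all _ hF.2⟩
  refine ⟨iff, perm, fun X L1 u L2 g h => ?_, drop, perp, char, fun X L L' F hL hF => ?_,
    fun X Y L F F' hL hY hF v => ?_, fun X L F hL hF h => ?_⟩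
  · refine perm X _ _ g List.perm_middle.symm fun ε hε => ?_
    obtain ⟨H, hH, h2⟩ := perm X _ _ g List.perm_middle h ε hε
    exact ⟨H, hH, by rw [qb.neg]; exact h2⟩
  · exact char X _ F (by simp [hL]) hF.1 fun g hg h =>
      perp X L F g hL hF hg (drop X L L' g hL hg h)
  · refine char X L F' hL v.1 fun g hg h => ?_
    obtain ⟨g', vg, -⟩ := vb.ver X Y g hY hg
    rw [move hY hg hF.1 vg v]
    refine perp X L F g' hL hF vg.1 fun ε hε => ?_
    obtain ⟨H, hH, h2⟩ := h (ε ^ 2 ^ L.length) (by positivity)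
    exact ⟨H, hH, le_of_pow_le_pow_left₀ (by positivity) hε.le
      ((mo X Y L H g g' hY hL hH hg vg).trans h2)⟩
  · exact sq0 hF.1 (perp X L _ F hL (zf.cj X L F hF) hF.1 h)

end T6

end
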