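import Pool.Agent.MP_154433_an.t6.Spec

/-! Changes of the weights that are small in total variation. -/

set_option autoImplicit false
set_option linter.unusedVariables false

open MeasureTheory ProbabilityTheory Filter Topology Function
open scoped BigOperators ComplexConjugate

noncomputable section

namespace T6

open Pool.Agent.MP_154433_an hiding BM
open T3S (B1 MB1 PW AsInv Erg Bd Near Gr yw dif CZ)
open T4S (Gm Act)

namespace Near

lemma tv (w w' : ℕ → ℝ) (M : ℕ) (c : ℕ → ℂ) (hc : ∀ d, ‖c d‖ ≤ 1) :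
    ‖∑ d ∈ Finset.range M, (w d : ℂ) * c d‖ ≤
      ‖∑ d ∈ Finset.range M, (w' d : ℂ) * c d‖ + ∑ d ∈ Finset.range M, |w d - w' d| := by
  refine (norm_le_insert' _ (∑ d ∈ Finset.range M, (w' d : ℂ) * c d)).trans (add_le_add le_rfl ?_)
  rw [← Finset.sum_sub_distrib]
  refine (norm_sum_le _ _).trans (Finset.sum_le_sum fun d _ => ?_)
  rw [← sub_mul, norm_mul, ← Complex.ofReal_sub, Complex.norm_real, Real.norm_eq_abs]
  exact mul_le_of_le_one_right (abs_nonneg _) (hc d)

lemma tvr (w w' : ℕ → ℝ) (M : ℕ) (c : ℕ → ℝ) (hc : ∀ d, |c d| ≤ 1) :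
    |∑ d ∈ Finset.range M, w d * c d| ≤
      |∑ d ∈ Finset.range M, w' d * c d| + ∑ d ∈ Finset.range M, |w d - w' d| := by
  have := tv w w' M (fun d => (c d : ℂ)) fun d => by
    rw [Complex.norm_real, Real.norm_eq_abs]
    exact hc d
  simpa only [← Complex.ofReal_mul, ← Complex.ofReal_sum, Complex.norm_real,
    Real.norm_eq_abs] using this

lemma mx_le {κ : ℕ → ℝ} {M : ℕ} {G : ℕ → ℂ} (h0 : ∀ d, 0 ≤ κ d)
    (h1 : ∑ d ∈ Finset.range M, κ d = 1) (hG : ∀ d, ‖G d‖ ≤ 1) : |mx κ M G| ≤ 1 := by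
  rw [mx, abs_of_nonneg (Real.iSup_nonneg fun _ => norm_nonneg _)]
  refine Real.iSup_le (fun χ => ?_) zero_le_one
  refine (norm_sum_le _ _).trans (le_trans (Finset.sum_le_sum fun d _ => ?_) h1.le)
  rw [norm_mul, norm_mul, Complex.norm_real, Real.norm_of_nonneg (h0 d), AddChar.norm_apply, one_mul]
  exact mul_le_of_le_one_right (h0 d) (hG d)

lemma ex_le {M : ℕ} (hM : 1 ≤ M) {f g : Fin M → ℝ} {c : ℝ} (h : ∀ j, f j ≤ g j + c) :
    𝔼 j, f j ≤ (𝔼 j, g j) + c := by
  have : Nonempty (Fin M) := ⟨⟨0, hM⟩⟩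
  refine (Finset.expect_le_expect fun j _ => h j).trans (le_of_eq ?_)
  rw [Finset.expect_add_distrib, Finset.expect_const Finset.univ_nonempty]

lemma ee_norm (t : ℝ) : ‖ee t‖ = 1 := Complex.norm_exp_ofReal_mul_I _

def hom (i j : ℤ) (v : Gm 2) : Gm 2 →+ Gm 2 :=
  AddMonoidHom.mk' (fun n => (i * n 0 + j * n 1) • v) fun n n' => by
    rw [← add_smul]
    congr 1
    simp only [Pi.add_apply]
    ring

lemma hom_apply (i j : ℤ) (v n : Gm 2) : hom i j v n = (i * n 0 + j * n 1) • v := rfl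

end Near

theorem near : NearR where
  sq w w' hn h ε ε0 := by
    filter_upwards [h (ε / 2) (half_pos ε0), hn.eventually_le_const (half_pos ε0),
      eventually_ge_atTop 1] with M h1 h2 hM κ W v k0 k1 hW hv
    have h3 := h1 κ W v k0 k1 hW hv
    refine (Near.ex_le hM fun j => Near.tvr (w M) (w' M) M _ fun e =>
      Near.mx_le k0 k1 fun d => ?_).trans (by linarith)
    rw [norm_mul]
    exact mul_le_one₀ (hW _ _) (norm_nonneg _) (T3S.CZ_B1 (hv d) _)
  st w w' hn h k hk ε ε0 := by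
    filter_upwards [h k hk (ε / 2) (half_pos ε0), hn.eventually_le_const (half_pos ε0),
      eventually_ge_atTop 1] with M h1 h2 hM u v hu hv
    have h3 := h1 u v hu hv
    refine (Near.ex_le hM fun n => Near.ex_le hM fun m =>
      Near.tv (w M) (w' M) M _ fun d => ?_).trans (by linarith)
    rw [norm_mul]
    exact mul_le_one₀ (T3S.CZ_B1 (hu _) _) (norm_nonneg _) (T3S.CZ_B1 (hv _) _)
  uw w w' hn h X u g b hg hb := by
    have h1 := (h X u g b hg hb).add hn
    rw [add_zero] at h1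
    refine squeeze_zero (fun M => integral_nonneg fun x => norm_nonneg _) (fun M => ?_) h1
    have hc : ∀ x (d : ℕ), ‖g (X.A ((d : ℤ) • u) x) * ee ((d : ℝ) * b M x)‖ ≤ 1 := fun x d => by
      rw [norm_mul, Near.ee_norm, mul_one]
      exact hg.2 _
    have hi : Integrable (fun x => ‖∑ d ∈ Finset.range M,
        (w' M d : ℂ) * (g (X.A ((d : ℤ) • u) x) * ee ((d : ℝ) * b M x))‖) X.μ := by
      refine (integrable_finsetSum _ fun d _ => Integrable.const_mul ?_ _).norm
      refine Integrable.of_bound (Measurable.aestronglyMeasurable ?_) 1 (ae_of_all _ fun x => hc x d)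
      refine (hg.1.comp ((act X).meas _)).mul ?_
      have := hb M
      unfold ee
      fun_prop
    refine (integral_mono_of_nonneg (ae_of_all _ fun x => norm_nonneg _)
      (hi.add (integrable_const _))
      (ae_of_all _ fun x => Near.tv (w M) (w' M) M _ (hc x))).trans (le_of_eq ?_)
    rw [integral_add' hi (integrable_const _), integral_const, probReal_univ, one_smul]
  sq0 ν ε ε0 := Eventually.of_forall fun M κ W v _ _ _ _ => by simpa [df] using ε0.le
  gr σ h0 h := by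
    refine tendsto_atTop_mono' _ ?_ h
    have hlog : Tendsto (fun M : ℕ => Real.log M) atTop atTop :=
      Real.tendsto_log_atTop.comp tendsto_natCast_atTop_atTop
    filter_upwards [hlog.eventually_ge_atTop 1] with M hM
    exact div_le_div_of_nonneg_left (Finset.sum_nonneg fun k _ => h0 k) (by positivity)
      (pow_le_pow_right₀ hM one_le_two)
  tw := by
    refine ⟨⟨⟨Near.hom 1 1 (rr 1), ⟨?_, fun n => ⟨-n 0, ?_⟩⟩, ?_⟩,
      Near.hom (-1) 0 (rr 1 - rr 0), ⟨?_, fun n => ⟨n 0 + n 1, ?_⟩⟩, ?_⟩,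
      ⟨Near.hom 1 1 (rr 0), ⟨?_, fun n => ⟨-n 1, ?_⟩⟩, ?_⟩,
      Near.hom 0 (-1) (rr 0 - rr 1), ⟨?_, fun n => ⟨n 0 + n 1, ?_⟩⟩, ?_⟩ <;>
    · ext i
      fin_cases i <;> simp [Near.hom_apply, rr]

end T6

end
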