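import Pool.Agent.MP_154433_an.p4.All
import Pool.Agent.MP_154433_an.t6.Asm

/-! The facts of the earlier directories that the rows use. -/

set_option autoImplicit false

namespace T6

open Pool.Agent.MP_154433_an hiding BM

theorem old : Old where
  fd := T4x.fdX
  gf := T4x.gf T4x.basX
  top := T4x.top T4x.fdX (T4x.gf T4x.basX)
    (T4x.indX (fun G => @T4A.xAlg G (@T4x.basX G).t (@T4x.fdX G).mix) G2)
  perm := T4S.perm
  gvn := T4S.gvn T3S.vdc
  act := T4S.act
  endr := T4S.endr
  cls := T4S.clsr T3S.ub T4S.cnt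
  spr := T4S.spr
  shift := T3S.shift
  nest := T3S.nest
  apx := T3S.apx T3S.shift (T3S.dual T3S.gcs T3S.win)
  vdc := T3S.vdc
  ub := T3S.ub
  ae := T3S.aeAll
  nrm := T3S.nrm
  erg := T3S.erg T3S.vn
  cov := T3F.covZ (T3u.cyc T4S.invG)

end T6
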